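import Mathlib

/-!
# Moments of the divisor function

PROOF SKETCH. `sum_tau_pow_div`: induction on `k`. `k = 0`: harmonic sum. Step:
`∑_{d <= D} τ(d)^(k+1) / d = ∑_{d <= D} ∑_{a b = d} τ(a b)^k / (a b) <= (∑_{a <= D} τ(a)^k / a)^2` by
`τ(a b) <= τ(a) τ(b)` (the map `(u, v) ↦ u v` from `divisors a × divisors b` is onto `divisors (a b)`;
`Nat.divisors_mul` with pointwise multiplication of finsets). `sum_tau_pow`: `1 <= D / d`.
`card_prod_eq`: each `h i` divides `m`.
-/

set_option autoImplicit false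

open Finset Filter

namespace Pool.Agent.HLT

open scoped Pointwise in
private lemma tau_mul_le (a b : ℕ) : (a * b).divisors.card ≤ a.divisors.card * b.divisors.card := by
  rw [Nat.divisors_mul]
  exact Finset.card_mul_le

private lemma harm_le (D : ℕ) : ∑ d ∈ Icc 1 D, (1 : ℝ) / d ≤ 1 + Real.log D := by
  have h := harmonic_le_one_add_log D
  have e : ((harmonic D : ℚ) : ℝ) = ∑ d ∈ Icc 1 D, (1 : ℝ) / d := by
    rw [harmonic_eq_sum_Icc]
    push_cast
    exact Finset.sum_congr rfl fun d _ => (one_div _).symm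
  rw [← e]; exact h

theorem sum_tau_pow_div (k D : ℕ) : ∑ d ∈ Icc 1 D, (d.divisors.card : ℝ) ^ k / d ≤
    (1 + Real.log D) ^ (2 ^ k) := by
  induction k with
  | zero =>
    refine le_trans (le_of_eq ?_) ((harm_le D).trans (le_of_eq ?_))
    · exact Finset.sum_congr rfl fun d _ => by rw [pow_zero]
    · rw [pow_zero, pow_one]
  | succ k ih =>
    set f : ℕ → ℝ := fun a => (a.divisors.card : ℝ) ^ k / a with hf
    have hf0 : ∀ a, 0 ≤ f a := fun a =>
      div_nonneg (pow_nonneg (Nat.cast_nonneg _) _) (Nat.cast_nonneg _)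
    have key : ∀ d ∈ Icc 1 D, (d.divisors.card : ℝ) ^ (k + 1) / d ≤
        ∑ p ∈ Icc 1 D ×ˢ Icc 1 D, if p.1 * p.2 = d then f p.1 * f p.2 else 0 := by
      intro d hd
      obtain ⟨hd1, hdD⟩ := Finset.mem_Icc.1 hd
      rw [← Finset.sum_filter]
      have hset : (Icc 1 D ×ˢ Icc 1 D).filter (fun p => p.1 * p.2 = d) =
          d.divisorsAntidiagonal := by
        ext p
        simp only [Finset.mem_filter, Finset.mem_product, Finset.mem_Icc,
          Nat.mem_divisorsAntidiagonal]
        constructor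
        · rintro ⟨_, h⟩
          exact ⟨h, by omega⟩
        · rintro ⟨h, h0⟩
          have h1 : p.1 ≠ 0 := by rintro h1; rw [h1, zero_mul] at h; omega
          have h2 : p.2 ≠ 0 := by rintro h2; rw [h2, mul_zero] at h; omega
          have h3 : p.1 ≤ d := Nat.le_of_dvd (by omega) ⟨p.2, h.symm⟩
          have h4 : p.2 ≤ d := Nat.le_of_dvd (by omega) ⟨p.1, by rw [mul_comm]; exact h.symm⟩
          exact ⟨⟨⟨by omega, by omega⟩, ⟨by omega, by omega⟩⟩, h⟩
      rw [hset]
      have hle : ∀ p ∈ d.divisorsAntidiagonal, (d.divisors.card : ℝ) ^ k / d ≤ f p.1 * f p.2 := by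
        intro p hp
        obtain ⟨h, h0⟩ := Nat.mem_divisorsAntidiagonal.1 hp
        have e1 : f p.1 * f p.2 = ((p.1.divisors.card : ℝ) * p.2.divisors.card) ^ k / d := by
          simp only [hf]
          rw [← h]; push_cast; rw [mul_pow]; ring
        rw [e1]
        have h5 : (d.divisors.card : ℝ) ≤ (p.1.divisors.card : ℝ) * p.2.divisors.card := by
          rw [← h]; exact_mod_cast tau_mul_le p.1 p.2
        gcongr
      calc (d.divisors.card : ℝ) ^ (k + 1) / d
          = ∑ _p ∈ d.divisorsAntidiagonal, (d.divisors.card : ℝ) ^ k / d := by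
            rw [Finset.sum_const, nsmul_eq_mul]
            have : d.divisorsAntidiagonal.card = d.divisors.card := by
              rw [← Nat.map_div_right_divisors, Finset.card_map]
            rw [this, pow_succ]; ring
        _ ≤ _ := Finset.sum_le_sum hle
    calc ∑ d ∈ Icc 1 D, (d.divisors.card : ℝ) ^ (k + 1) / d
        ≤ ∑ d ∈ Icc 1 D, ∑ p ∈ Icc 1 D ×ˢ Icc 1 D,
            (if p.1 * p.2 = d then f p.1 * f p.2 else 0) := Finset.sum_le_sum key
      _ = ∑ p ∈ Icc 1 D ×ˢ Icc 1 D, ∑ d ∈ Icc 1 D,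
            (if p.1 * p.2 = d then f p.1 * f p.2 else 0) := Finset.sum_comm
      _ ≤ ∑ p ∈ Icc 1 D ×ˢ Icc 1 D, f p.1 * f p.2 := by
          refine Finset.sum_le_sum fun p _ => ?_
          rw [Finset.sum_ite_eq]
          split_ifs
          · exact le_rfl
          · exact mul_nonneg (hf0 _) (hf0 _)
      _ = (∑ a ∈ Icc 1 D, f a) ^ 2 := by
          rw [sq, Finset.sum_mul_sum, Finset.sum_product]
      _ ≤ ((1 + Real.log D) ^ (2 ^ k)) ^ 2 :=
          pow_le_pow_left₀ (Finset.sum_nonneg fun a _ => hf0 a) ih 2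
      _ = (1 + Real.log D) ^ (2 ^ (k + 1)) := by rw [← pow_mul, pow_succ]

theorem sum_tau_pow (k D : ℕ) : ∑ d ∈ Icc 1 D, (d.divisors.card : ℝ) ^ k ≤
    D * (1 + Real.log D) ^ (2 ^ k) := by
  calc ∑ d ∈ Icc 1 D, (d.divisors.card : ℝ) ^ k
      ≤ ∑ d ∈ Icc 1 D, (D : ℝ) * ((d.divisors.card : ℝ) ^ k / d) := by
        refine Finset.sum_le_sum fun d hd => ?_
        obtain ⟨hd1, hdD⟩ := Finset.mem_Icc.1 hd
        have h1 : (0 : ℝ) < d := by exact_mod_cast (by omega : 0 < d)
        have h2 : (d : ℝ) ≤ D := by exact_mod_cast hdD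
        rw [← mul_div_assoc, le_div_iff₀ h1, mul_comm]
        gcongr
    _ = D * ∑ d ∈ Icc 1 D, (d.divisors.card : ℝ) ^ k / d := by rw [Finset.mul_sum]
    _ ≤ _ := mul_le_mul_of_nonneg_left (sum_tau_pow_div k D) (Nat.cast_nonneg D)

/-- The number of `h ∈ S^j` with product `m ≥ 1`. -/
theorem card_prod_eq (j m : ℕ) (hm : 1 ≤ m) (S : Finset ℕ) :
    ((Fintype.piFinset (fun _ : Fin j => S)).filter (fun h => ∏ i, h i = m)).card ≤
      m.divisors.card ^ j := by
  have h1 : ((Fintype.piFinset (fun _ : Fin j => S)).filter (fun h => ∏ i, h i = m)) ⊆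
      Fintype.piFinset (fun _ : Fin j => m.divisors) := by
    intro h hh
    obtain ⟨_, h2⟩ := Finset.mem_filter.1 hh
    rw [Fintype.mem_piFinset]
    intro i
    rw [Nat.mem_divisors]
    refine ⟨?_, by omega⟩
    rw [← h2]
    exact Finset.dvd_prod_of_mem h (Finset.mem_univ i)
  refine (Finset.card_le_card h1).trans (le_of_eq ?_)
  rw [Fintype.card_piFinset_const]

end Pool.Agent.HLT
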