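import Pool.Agent.Lib.HLT.EnC

/-!
# Mean square over tuples when a function with a moving shift is Fourier-uniform

PROOF SKETCH. `N = 4 x + 1`, `L = log x`, `b0 = b` large in terms of `m, K, B'`, `L1 = L^b`,
`#Spec N (T j) L1 <= L^(F b)`.
For fixed other `t i`, apply `fourier_one` with `T = T j`, `h n = H n * ∏_{i ≠ j} G i (n + t i)`
(`‖h n‖ <= L^(K (m + 1))`; `n + t i <= 2 x`) and `g = G j`:
`∑_{t_j ∈ T_j} ‖.‖^2 <= |T_j| x^2 (2 L^(2 K (m + 1) + 2 K) / L^b + L^(F b) L^(2 K (m + 1)) / L^(2 B))` as `x / L^B`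
bounds `|ĝ|` and `∑|ĥ|^2 = N ∑ |h|^2 <= N x L^(2 K (m + 1))` (`parseval`), `N >= x`. Choose
`b = B' + 2 K (m + 1) + 2 K + 2`, then `B = F b + 2 K (m + 1) + B' + 2`. Sum over the other coordinates with
`|T j| ∑_{t ∈ ∏ T} Φ t = ∑_{t ∈ ∏ T} ∑_{u ∈ T j} Φ (Function.update t j u)` (if `T j` is empty both sides
are 0).
-/

set_option autoImplicit false

open Finset Filter

namespace Pool.Agent.HLT

lemma card_mul_sum_update {m : ℕ} (j : Fin m) (T : Fin m → Finset ℕ) (Φ : (Fin m → ℕ) → ℝ) :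
    ∑ t ∈ Fintype.piFinset T, ∑ u ∈ T j, Φ (Function.update t j u) =
      (T j).card * ∑ t ∈ Fintype.piFinset T, Φ t := by
  classical
  have h1 : ((T j).card : ℝ) * ∑ t ∈ Fintype.piFinset T, Φ t =
      ∑ t ∈ Fintype.piFinset T, ∑ _u ∈ T j, Φ t := by
    rw [Finset.mul_sum]
    refine Finset.sum_congr rfl (fun t _ => ?_)
    rw [Finset.sum_const, nsmul_eq_mul]
  rw [h1, ← Finset.sum_product', ← Finset.sum_product']
  refine Finset.sum_nbij' (fun p => (Function.update p.1 j p.2, p.1 j))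
    (fun p => (Function.update p.1 j p.2, p.1 j)) ?_ ?_ ?_ ?_ ?_
  · intro p hp
    rw [Finset.mem_product] at hp ⊢
    rw [Fintype.mem_piFinset] at hp ⊢
    refine ⟨fun i => ?_, hp.1 j⟩
    show Function.update p.1 j p.2 i ∈ T i
    by_cases hi : i = j
    · subst hi
      rw [Function.update_self]
      exact hp.2
    · rw [Function.update_of_ne hi]
      exact hp.1 i
  · intro p hp
    rw [Finset.mem_product] at hp ⊢
    rw [Fintype.mem_piFinset] at hp ⊢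
    refine ⟨fun i => ?_, hp.1 j⟩
    show Function.update p.1 j p.2 i ∈ T i
    by_cases hi : i = j
    · subst hi
      rw [Function.update_self]
      exact hp.2
    · rw [Function.update_of_ne hi]
      exact hp.1 i
  · intro p _
    simp only [Function.update_idem, Function.update_self, Function.update_eq_self]
  · intro p _
    simp only [Function.update_idem, Function.update_self, Function.update_eq_self]
  · intro p _
    rfl

lemma last_coord (m K B' : ℕ) (F : ℕ → ℕ) (b B x : ℕ) (hb : b = B' + 2 * (K * (m + 1)) + 2 * K + 2)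
    (hB : B = F b + 2 * (K * (m + 1)) + B' + 2) (hx : 1 ≤ x) (hL : 2 ≤ Real.log x)
    (j : Fin m) (T : Fin m → Finset ℕ) (hT : ∀ i, SpC F b x (T i)) (H : ℕ → ℂ)
    (G : Fin m → ℕ → ℝ) (hH : ∀ n ∈ Icc 1 x, ‖H n‖ ≤ Real.log x ^ K)
    (hG : ∀ i, ∀ n ∈ Icc 1 (2 * x), |G i n| ≤ Real.log x ^ K)
    (hu : ∀ α : ℝ, ‖∑ n ∈ Icc 1 (2 * x), (G j n : ℂ) * ex (n * α)‖ ≤ x / Real.log x ^ B)
    (t : Fin m → ℕ) (ht : t ∈ Fintype.piFinset T) :
    ∑ u ∈ T j, ‖∑ n ∈ Icc 1 x, H n * ∏ i, (G i (n + Function.update t j u i) : ℂ)‖ ^ 2 ≤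
      (T j).card * (x ^ 2 / Real.log x ^ B') := by
  classical
  set L := Real.log x with hLdef
  have hL0 : 0 < L := by linarith
  have hL1 : 1 ≤ L := by linarith
  have hx0 : (0 : ℝ) < x := by exact_mod_cast hx
  set h : ℕ → ℂ := fun n => H n * ∏ i ∈ univ.erase j, (G i (n + t i) : ℂ) with hh
  have e1 : ∀ u : ℕ, ∑ n ∈ Icc 1 x, H n * ∏ i, (G i (n + Function.update t j u i) : ℂ) =
      ∑ n ∈ Icc 1 x, h n * (G j (n + u) : ℂ) := by
    intro u
    refine Finset.sum_congr rfl (fun n _ => ?_)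
    rw [← Finset.mul_prod_erase univ (fun i => (G i (n + Function.update t j u i) : ℂ))
      (Finset.mem_univ j), Function.update_self]
    have : ∏ i ∈ univ.erase j, (G i (n + Function.update t j u i) : ℂ) =
        ∏ i ∈ univ.erase j, (G i (n + t i) : ℂ) := by
      refine Finset.prod_congr rfl (fun i hi => ?_)
      rw [Function.update_of_ne (Finset.ne_of_mem_erase hi)]
    rw [this, hh]
    ring
  have e2 : ∑ u ∈ T j, ‖∑ n ∈ Icc 1 x, H n * ∏ i, (G i (n + Function.update t j u i) : ℂ)‖ ^ 2 =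
      ∑ u ∈ T j, ‖∑ n ∈ Icc 1 x, h n * (G j (n + u) : ℂ)‖ ^ 2 := by
    refine Finset.sum_congr rfl (fun u _ => ?_)
    rw [e1 u]
  rw [e2]
  -- bound of `h`
  have hti : ∀ i, t i ≤ x := by
    intro i
    have h1 := (Fintype.mem_piFinset.mp ht) i
    have h2 := (hT i).1 h1
    rw [Finset.mem_range] at h2
    omega
  have hhn : ∀ n ∈ Icc 1 x, ‖h n‖ ^ 2 ≤ L ^ (2 * (K * (m + 1))) := by
    intro n hn
    have hn' := Finset.mem_Icc.mp hn
    have h1 : ‖h n‖ ≤ L ^ K * ∏ i ∈ univ.erase j, L ^ K := by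
      rw [hh]
      simp only [norm_mul, norm_prod]
      refine mul_le_mul (hH n hn) ?_ (Finset.prod_nonneg (fun i _ => norm_nonneg _))
        (by positivity)
      refine Finset.prod_le_prod (fun i _ => norm_nonneg _) (fun i _ => ?_)
      rw [Complex.norm_real, Real.norm_eq_abs]
      have h3 := hti i
      exact hG i (n + t i) (Finset.mem_Icc.mpr ⟨by omega, by omega⟩)
    have h2 : ∏ _i ∈ (univ : Finset (Fin m)).erase j, L ^ K ≤ L ^ (K * m) := by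
      rw [Finset.prod_const, ← pow_mul]
      refine pow_le_pow_right₀ hL1 (Nat.mul_le_mul_left K ?_)
      refine (Finset.card_le_univ _).trans ?_
      rw [Fintype.card_fin]
    have h3 : ‖h n‖ ≤ L ^ (K * (m + 1)) := by
      refine h1.trans ?_
      have h4 : L ^ (K * (m + 1)) = L ^ K * L ^ (K * m) := by
        rw [← pow_add]
        congr 1
        ring
      rw [h4]
      exact mul_le_mul_of_nonneg_left h2 (by positivity)
    calc ‖h n‖ ^ 2 ≤ (L ^ (K * (m + 1))) ^ 2 := pow_le_pow_left₀ (norm_nonneg _) h3 2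
      _ = L ^ (2 * (K * (m + 1))) := by
        rw [← pow_mul]
        congr 1
        ring
  have hsumh : ∑ n ∈ Icc 1 x, ‖h n‖ ^ 2 ≤ x * L ^ (2 * (K * (m + 1))) := by
    refine (Finset.sum_le_sum hhn).trans ?_
    rw [Finset.sum_const, nsmul_eq_mul, Nat.card_Icc]
    simp
  have hsumh0 : 0 ≤ ∑ n ∈ Icc 1 x, ‖h n‖ ^ 2 := Finset.sum_nonneg (fun _ _ => by positivity)
  have hf := fourier_one (4 * x + 1) x hx (by omega) (T j) (hT j).1 h (G j) (L ^ K) (L ^ b)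
    (by positivity) (by positivity) (fun n hn => hG j n hn)
  refine hf.trans ?_
  clear hf
  have hspec := (hT j).2 b le_rfl
  have hN0 : (0 : ℝ) < ((4 * x + 1 : ℕ) : ℝ) := by positivity
  -- the second sum
  have hsec : ∑ ξ ∈ range (4 * x + 1), ‖∑ n ∈ Icc 1 x, h n * ex (n * (ξ / ((4 * x + 1 : ℕ) : ℝ)))‖ ^ 2 *
      ‖∑ m ∈ Icc 1 (2 * x), (G j m : ℂ) * ex (m * (ξ / ((4 * x + 1 : ℕ) : ℝ)))‖ ^ 2 ≤
      (x / L ^ B) ^ 2 * (((4 * x + 1 : ℕ) : ℝ) * (x * L ^ (2 * (K * (m + 1))))) := by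
    have h1 : ∑ ξ ∈ range (4 * x + 1), ‖∑ n ∈ Icc 1 x, h n * ex (n * (ξ / ((4 * x + 1 : ℕ) : ℝ)))‖ ^ 2 *
        ‖∑ m ∈ Icc 1 (2 * x), (G j m : ℂ) * ex (m * (ξ / ((4 * x + 1 : ℕ) : ℝ)))‖ ^ 2 ≤
        ∑ ξ ∈ range (4 * x + 1), ‖∑ n ∈ Icc 1 x, h n * ex (n * (ξ / ((4 * x + 1 : ℕ) : ℝ)))‖ ^ 2 *
          (x / L ^ B) ^ 2 := by
      refine Finset.sum_le_sum (fun ξ _ => ?_)
      refine mul_le_mul_of_nonneg_left ?_ (by positivity)
      exact pow_le_pow_left₀ (norm_nonneg _) (hu _) 2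
    refine h1.trans ?_
    rw [← Finset.sum_mul, parseval (4 * x + 1) x (by omega) (by omega) h, mul_comm]
    refine mul_le_mul_of_nonneg_left ?_ (by positivity)
    exact mul_le_mul_of_nonneg_left hsumh hN0.le
  have hcard : (0 : ℝ) ≤ ((T j).card : ℝ) := Nat.cast_nonneg _
  -- first term
  have hA : ((T j).card : ℝ) / L ^ b * ((∑ n ∈ Icc 1 x, ‖h n‖ ^ 2) * (2 * x * (L ^ K) ^ 2)) ≤
      (T j).card * (x ^ 2 * (2 / L ^ (B' + 2))) := by
    have h1 : (∑ n ∈ Icc 1 x, ‖h n‖ ^ 2) * (2 * x * (L ^ K) ^ 2) ≤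
        (x * L ^ (2 * (K * (m + 1)))) * (2 * x * (L ^ K) ^ 2) :=
      mul_le_mul_of_nonneg_right hsumh (by positivity)
    have h2 := mul_le_mul_of_nonneg_left h1 (by positivity : 0 ≤ ((T j).card : ℝ) / L ^ b)
    refine h2.trans (le_of_eq ?_)
    have h3 : L ^ b = L ^ (B' + 2) * (L ^ (2 * (K * (m + 1))) * (L ^ K) ^ 2) := by
      rw [hb, ← pow_mul, ← pow_add, ← pow_add]
      congr 1
      ring
    rw [h3]
    field_simp
  -- second term
  have hC : ((T j).card : ℝ) * ((Spec (4 * x + 1) (T j) (L ^ b)).card / ((4 * x + 1 : ℕ) : ℝ) ^ 2) *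
      ∑ ξ ∈ range (4 * x + 1), ‖∑ n ∈ Icc 1 x, h n * ex (n * (ξ / ((4 * x + 1 : ℕ) : ℝ)))‖ ^ 2 *
      ‖∑ m ∈ Icc 1 (2 * x), (G j m : ℂ) * ex (m * (ξ / ((4 * x + 1 : ℕ) : ℝ)))‖ ^ 2 ≤
      (T j).card * (x ^ 2 * (1 / L ^ (B' + 2))) := by
    have h1 := mul_le_mul_of_nonneg_left hsec (by positivity : 0 ≤ ((T j).card : ℝ) *
      ((Spec (4 * x + 1) (T j) (L ^ b)).card / ((4 * x + 1 : ℕ) : ℝ) ^ 2))
    refine h1.trans ?_
    have h2 : ((T j).card : ℝ) * ((Spec (4 * x + 1) (T j) (L ^ b)).card / ((4 * x + 1 : ℕ) : ℝ) ^ 2) *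
        ((x / L ^ B) ^ 2 * (((4 * x + 1 : ℕ) : ℝ) * (x * L ^ (2 * (K * (m + 1)))))) =
        (T j).card * (x ^ 2 * ((Spec (4 * x + 1) (T j) (L ^ b)).card *
          (x / ((4 * x + 1 : ℕ) : ℝ)) * (L ^ (2 * (K * (m + 1))) / (L ^ B) ^ 2))) := by
      field_simp
    rw [h2]
    refine mul_le_mul_of_nonneg_left (mul_le_mul_of_nonneg_left ?_ (by positivity)) hcard
    have h3 : (x : ℝ) / ((4 * x + 1 : ℕ) : ℝ) ≤ 1 := by
      rw [div_le_one hN0]
      push_cast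
      linarith
    have h4 : ((Spec (4 * x + 1) (T j) (L ^ b)).card : ℝ) * (x / ((4 * x + 1 : ℕ) : ℝ)) ≤ L ^ F b := by
      calc ((Spec (4 * x + 1) (T j) (L ^ b)).card : ℝ) * (x / ((4 * x + 1 : ℕ) : ℝ))
          ≤ ((Spec (4 * x + 1) (T j) (L ^ b)).card : ℝ) * 1 :=
            mul_le_mul_of_nonneg_left h3 (Nat.cast_nonneg _)
        _ ≤ L ^ F b := by rw [mul_one]; exact hspec
    refine (mul_le_mul_of_nonneg_right h4 (by positivity)).trans ?_
    have h5 : (L ^ B) ^ 2 = (L ^ F b * L ^ (2 * (K * (m + 1))) * L ^ (B' + 2)) * L ^ B := by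
      rw [pow_two]
      congr 1
      rw [hB, ← pow_add, ← pow_add]
      congr 1
    rw [h5, ← mul_div_assoc, div_le_div_iff₀ (by positivity) (by positivity)]
    have h6 : 1 ≤ L ^ B := one_le_pow₀ hL1
    have h7 : 0 < L ^ F b * L ^ (2 * (K * (m + 1))) * L ^ (B' + 2) := by positivity
    rw [one_mul]
    calc L ^ F b * L ^ (2 * (K * (m + 1))) * L ^ (B' + 2) =
          L ^ F b * L ^ (2 * (K * (m + 1))) * L ^ (B' + 2) * 1 := by rw [mul_one]
      _ ≤ L ^ F b * L ^ (2 * (K * (m + 1))) * L ^ (B' + 2) * L ^ B :=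
          mul_le_mul_of_nonneg_left h6 h7.le
  have hsum := add_le_add hA hC
  refine hsum.trans ?_
  rw [← mul_add, ← mul_add]
  refine mul_le_mul_of_nonneg_left ?_ hcard
  have hfin : 2 / L ^ (B' + 2) + 1 / L ^ (B' + 2) ≤ 1 / L ^ B' := by
    rw [pow_add, ← add_div, div_le_div_iff₀ (by positivity) (by positivity)]
    have h8 : (4 : ℝ) ≤ L ^ 2 := by nlinarith
    have h9 : 0 < L ^ B' := by positivity
    nlinarith
  calc (x : ℝ) ^ 2 * (2 / L ^ (B' + 2) + 1 / L ^ (B' + 2)) ≤ x ^ 2 * (1 / L ^ B') :=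
        mul_le_mul_of_nonneg_left hfin (by positivity)
    _ = x ^ 2 / L ^ B' := by rw [mul_one_div]

theorem last_uniform (m K B' : ℕ) (F : ℕ → ℕ) : ∃ b0 B : ℕ, ∀ᶠ x : ℕ in atTop,
    ∀ (j : Fin m) (T : Fin m → Finset ℕ), (∀ i, SpC F b0 x (T i)) →
    ∀ (H : ℕ → ℂ) (G : Fin m → ℕ → ℝ),
    (∀ n ∈ Icc 1 x, ‖H n‖ ≤ Real.log x ^ K) →
    (∀ i, ∀ n ∈ Icc 1 (2 * x), |G i n| ≤ Real.log x ^ K) →
    (∀ α : ℝ, ‖∑ n ∈ Icc 1 (2 * x), (G j n : ℂ) * ex (n * α)‖ ≤ x / Real.log x ^ B) →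
    ∑ t ∈ Fintype.piFinset T, ‖∑ n ∈ Icc 1 x, H n * ∏ i, (G i (n + t i) : ℂ)‖ ^ 2 ≤
      (∏ i, ((T i).card : ℝ)) * (x ^ 2 / Real.log x ^ B') := by
  refine ⟨B' + 2 * (K * (m + 1)) + 2 * K + 2,
    F (B' + 2 * (K * (m + 1)) + 2 * K + 2) + 2 * (K * (m + 1)) + B' + 2, ?_⟩
  have hlog : Tendsto (fun x : ℕ => Real.log x) atTop atTop :=
    Real.tendsto_log_atTop.comp tendsto_natCast_atTop_atTop
  filter_upwards [hlog.eventually_ge_atTop 2, eventually_ge_atTop 1] with x hL hx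
  intro j T hT H G hH hG hu
  by_cases hj : (T j).card = 0
  · have h1 : T j = ∅ := Finset.card_eq_zero.mp hj
    have h2 : Fintype.piFinset T = ∅ := by
      rw [Finset.eq_empty_iff_forall_notMem]
      intro t ht
      have h3 := (Fintype.mem_piFinset.mp ht) j
      rw [h1] at h3
      exact absurd h3 (Finset.notMem_empty _)
    have h4 : ∏ i, ((T i).card : ℝ) = 0 :=
      Finset.prod_eq_zero (Finset.mem_univ j) (by rw [hj]; simp)
    rw [h2, h4, Finset.sum_empty, zero_mul]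
  · have hpos : (0 : ℝ) < (T j).card := by exact_mod_cast Nat.pos_of_ne_zero hj
    have hid := card_mul_sum_update j T
      (fun t => ‖∑ n ∈ Icc 1 x, H n * ∏ i, (G i (n + t i) : ℂ)‖ ^ 2)
    have hle : ∑ t ∈ Fintype.piFinset T, ∑ u ∈ T j,
        ‖∑ n ∈ Icc 1 x, H n * ∏ i, (G i (n + Function.update t j u i) : ℂ)‖ ^ 2 ≤
        ∑ _t ∈ Fintype.piFinset T, ((T j).card : ℝ) * (x ^ 2 / Real.log x ^ B') := by
      refine Finset.sum_le_sum (fun t ht => ?_)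
      exact last_coord m K B' F _ _ x rfl rfl hx hL j T hT H G hH hG hu t ht
    rw [hid, Finset.sum_const, nsmul_eq_mul, Fintype.card_piFinset] at hle
    push_cast at hle
    have h5 : ((T j).card : ℝ) * ∑ t ∈ Fintype.piFinset T,
        ‖∑ n ∈ Icc 1 x, H n * ∏ i, (G i (n + t i) : ℂ)‖ ^ 2 ≤
        ((T j).card : ℝ) * ((∏ i, ((T i).card : ℝ)) * (x ^ 2 / Real.log x ^ B')) := by
      refine hle.trans (le_of_eq ?_)
      ring
    exact le_of_mul_le_mul_left h5 hpos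

end Pool.Agent.HLT
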