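import Pool.Agent.Lib.HLT.Defs

/-!
# Geometric sums and sums of `min (X, 1 / (2 ‖α m‖))`
-/

set_option autoImplicit false

open Finset Filter

namespace Pool.Agent.HLT

lemma mn_nonneg {X : ℝ} (hX : 0 ≤ X) (α : ℝ) : 0 ≤ mn X α := by
  unfold mn
  split_ifs
  · exact hX
  · have := nrm_nonneg α
    positivity

lemma mn_le_left {X : ℝ} (hX : 0 ≤ X) (α : ℝ) : mn X α ≤ X := by
  unfold mn
  split_ifs with h
  · exact le_rfl
  · push Not at h
    have h0 := nrm_nonneg α
    have h1 : 0 < nrm α := by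
      rcases h0.lt_or_eq with h2 | h2
      · exact h2
      · rw [← h2] at h; simp at h; linarith
    rw [div_le_iff₀ (by linarith)]
    linarith

lemma mn_le_right {X α : ℝ} (hX : 0 ≤ X) (h : 0 < nrm α) : mn X α ≤ 1 / (2 * nrm α) := by
  unfold mn
  split_ifs with h1
  · rw [le_div_iff₀ (by linarith)]
    linarith
  · exact le_rfl

lemma mn_mono {X Y : ℝ} (h0 : 0 ≤ X) (h : X ≤ Y) (α : ℝ) : mn X α ≤ mn Y α := by
  have hn := nrm_nonneg α
  unfold mn
  split_ifs with h1 h2 h2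
  · exact h
  · push Not at h2
    have h3 : 0 < nrm α := by
      rcases hn.lt_or_eq with h4 | h4
      · exact h4
      · rw [← h4] at h2; simp at h2; linarith
    rw [le_div_iff₀ (by linarith)]
    linarith
  · exfalso
    push Not at h1
    have : 2 * nrm α * X ≤ 2 * nrm α * Y := by
      apply mul_le_mul_of_nonneg_left h
      linarith
    linarith
  · exact le_rfl

lemma ex_sub_round (α : ℝ) : ex α = ex (α - round α) := by
  have h := ex_add_int (α - round α) (round α)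
  rw [sub_add_cancel] at h
  exact h

lemma norm_ex_sub_one (θ : ℝ) : ‖ex θ - 1‖ = 2 * |Real.sin (Real.pi * θ)| := by
  have h := Complex.norm_exp_I_mul_ofReal_sub_one (2 * Real.pi * θ)
  have h2 : Complex.I * ((2 * Real.pi * θ : ℝ) : ℂ) = 2 * Real.pi * θ * Complex.I := by
    push_cast
    ring
  have h3 : 2 * Real.pi * θ / 2 = Real.pi * θ := by ring
  rw [h2, h3] at h
  unfold ex
  rw [h, Real.norm_eq_abs, abs_mul, abs_of_pos (by norm_num : (0 : ℝ) < 2)]

/-- The lower bound for the distance of `ex α` to `1`. -/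
lemma four_nrm_le (α : ℝ) : 4 * nrm α ≤ ‖ex α - 1‖ := by
  rw [ex_sub_round, norm_ex_sub_one]
  have h1 : |Real.sin (Real.pi * (α - round α))| = Real.sin (Real.pi * nrm α) := by
    have h2 : 0 ≤ Real.sin (Real.pi * nrm α) := by
      apply Real.sin_nonneg_of_nonneg_of_le_pi
      · have := nrm_nonneg α
        have := Real.pi_pos
        positivity
      · have := nrm_le_half α
        have := Real.pi_pos
        nlinarith
    unfold nrm at h2 ⊢
    rcases abs_cases (α - round α) with ⟨h3, _⟩ | ⟨h3, _⟩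
    · rw [h3] at h2 ⊢
      exact abs_of_nonneg h2
    · rw [h3] at h2 ⊢
      rw [mul_neg, Real.sin_neg] at h2 ⊢
      rw [abs_of_nonpos (by linarith)]
  rw [h1]
  have h4 := Real.mul_le_sin (x := Real.pi * nrm α)
    (by have := nrm_nonneg α; have := Real.pi_pos; positivity)
    (by have := nrm_le_half α; have := Real.pi_pos; nlinarith)
  have h5 : 2 / Real.pi * (Real.pi * nrm α) = 2 * nrm α := by
    have := Real.pi_pos.ne'
    field_simp
  rw [h5] at h4
  linarith

/-- Geometric sum. -/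
theorem geom (N : ℕ) (α : ℝ) : ‖∑ n ∈ Icc 1 N, ex (n * α)‖ ≤ mn N α := by
  have htriv : ‖∑ n ∈ Icc 1 N, ex (n * α)‖ ≤ N := by
    refine (norm_sum_le _ _).trans ?_
    simp only [norm_ex, sum_const, nsmul_eq_mul, mul_one, Nat.card_Icc, Nat.add_sub_cancel, le_refl]
  unfold mn
  split_ifs with h
  · exact htriv
  · push Not at h
    have h0 := nrm_nonneg α
    have h1 : 0 < nrm α := by
      rcases h0.lt_or_eq with h2 | h2
      · exact h2
      · rw [← h2] at h; simp at h; linarith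
    have h2 := four_nrm_le α
    have hne : ex α - 1 ≠ 0 := by
      intro h3
      rw [h3, norm_zero] at h2
      linarith
    have hsum : (∑ n ∈ Icc 1 N, ex (n * α)) * (ex α - 1) = ex α * (ex α ^ N - 1) := by
      have e1 : ∑ n ∈ Icc 1 N, ex (n * α) = ex α * ∑ i ∈ range N, ex α ^ i := by
        clear h h1 htriv
        induction N with
        | zero => simp
        | succ N ih =>
          rw [sum_Icc_succ_top (by omega), sum_range_succ, ih, mul_add, ex_nat_mul, pow_succ']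
      rw [e1, mul_assoc, geom_sum_mul]
    have h3 : ‖∑ n ∈ Icc 1 N, ex (n * α)‖ * ‖ex α - 1‖ ≤ 2 := by
      rw [← norm_mul, hsum, norm_mul, norm_ex, one_mul]
      refine (norm_sub_le _ _).trans ?_
      rw [norm_pow, norm_ex, one_pow, norm_one]
      norm_num
    rw [le_div_iff₀ (by linarith)]
    have h4 : ‖∑ n ∈ Icc 1 N, ex (n * α)‖ * (4 * nrm α) ≤
        ‖∑ n ∈ Icc 1 N, ex (n * α)‖ * ‖ex α - 1‖ :=
      mul_le_mul_of_nonneg_left h2 (norm_nonneg _)
    linarith

/-- Geometric sum over an interval. -/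
theorem geom_Ioc (M N : ℕ) (h : M ≤ N) (α : ℝ) :
    ‖∑ n ∈ Ioc M N, ex (n * α)‖ ≤ mn ((N : ℝ) - M) α := by
  have h1 : ∑ n ∈ Ioc M N, ex (n * α) = ex (M * α) * ∑ n ∈ Icc 1 (N - M), ex (n * α) := by
    rw [mul_sum]
    have h2 : Ioc M N = (Icc 1 (N - M)).image (fun n => M + n) := by
      ext x
      simp only [mem_Ioc, mem_image, mem_Icc]
      constructor
      · intro hx
        exact ⟨x - M, by omega, by omega⟩
      · rintro ⟨y, hy, rfl⟩
        omega
    rw [h2, sum_image (by intro a _ b _ hab; simpa using hab)]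
    refine sum_congr rfl fun n _ => ?_
    rw [← ex_add]
    congr 1
    push_cast
    ring
  rw [h1, norm_mul, norm_ex, one_mul]
  have h3 := geom (N - M) α
  rwa [Nat.cast_sub h] at h3

/-- The cell of a point. -/
noncomputable def cell (q : ℕ) (x : ℝ) : ℕ := ⌊(q : ℝ) * Int.fract x⌋₊

lemma cell_bounds (q : ℕ) (x : ℝ) :
    (cell q x : ℝ) ≤ q * Int.fract x ∧ (q : ℝ) * Int.fract x < cell q x + 1 := by
  unfold cell
  have h : 0 ≤ (q : ℝ) * Int.fract x := mul_nonneg (Nat.cast_nonneg q) (Int.fract_nonneg x)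
  exact ⟨Nat.floor_le h, Nat.lt_floor_add_one _⟩

lemma cell_lt {q : ℕ} (hq : 1 ≤ q) (x : ℝ) : cell q x < q := by
  have h1 := (cell_bounds q x).1
  have h2 := Int.fract_lt_one x
  have h3 : (1 : ℝ) ≤ q := by exact_mod_cast hq
  have h4 : (cell q x : ℝ) < q := by nlinarith
  exact_mod_cast h4

lemma cell_fiber (q : ℕ) (a : ℤ) (α β : ℝ) (hq : 1 ≤ q) (hc : IsCoprime a (q : ℤ))
    (h : |α - a / q| ≤ 1 / (q : ℝ) ^ 2) (j : ℕ) :
    ((Icc 1 q).filter (fun m : ℕ => cell q (α * m + β) = j)).card ≤ 3 := by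
  classical
  rcases ((Icc 1 q).filter
    (fun m : ℕ => cell q (α * m + β) = j)).eq_empty_or_nonempty with h0 | ⟨m0, hm0⟩
  · rw [h0]; simp
  have hq' : (1 : ℝ) ≤ q := by exact_mod_cast hq
  rw [mem_filter, mem_Icc] at hm0
  obtain ⟨⟨hm01, hm02⟩, hcell0⟩ := hm0
  have b0 := cell_bounds q (α * m0 + β)
  rw [hcell0] at b0
  have key : ∀ m ∈ (Icc 1 q).filter (fun m : ℕ => cell q (α * m + β) = j),
      (fun m : ℕ => a * ((m : ℤ) - m0) - q * (⌊α * m + β⌋ - ⌊α * m0 + β⌋)) m ∈ Icc (-1 : ℤ) 1 := by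
    intro m hm
    rw [mem_filter, mem_Icc] at hm
    obtain ⟨⟨hm1, hm2⟩, hcell⟩ := hm
    have b := cell_bounds q (α * m + β)
    rw [hcell] at b
    have hδ : |(q : ℝ) * (α - a / q) * ((m : ℝ) - m0)| < 1 := by
      rw [abs_mul, abs_mul, abs_of_nonneg (by linarith : (0 : ℝ) ≤ q)]
      have h1 : |(m : ℝ) - m0| ≤ q - 1 := by
        have e1 : (1 : ℝ) ≤ m := by exact_mod_cast hm1
        have e2 : (m : ℝ) ≤ q := by exact_mod_cast hm2
        have e3 : (1 : ℝ) ≤ m0 := by exact_mod_cast hm01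
        have e4 : (m0 : ℝ) ≤ q := by exact_mod_cast hm02
        rw [abs_le]
        constructor <;> linarith
      have h2 : (q : ℝ) * |α - a / q| ≤ 1 / q := by
        have := mul_le_mul_of_nonneg_left h (by linarith : (0 : ℝ) ≤ q)
        refine this.trans (le_of_eq ?_)
        field_simp
      calc (q : ℝ) * |α - a / q| * |(m : ℝ) - m0| ≤ 1 / q * (q - 1) := by
            apply mul_le_mul h2 h1 (abs_nonneg _) (by positivity)
        _ < 1 := by
            rw [one_div, inv_mul_lt_iff₀ (by linarith)]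
            linarith
    have hV : ((a * ((m : ℤ) - m0) - q * (⌊α * m + β⌋ - ⌊α * m0 + β⌋) : ℤ) : ℝ)
        = (q * Int.fract (α * m + β) - q * Int.fract (α * m0 + β))
          - q * (α - a / q) * ((m : ℝ) - m0) := by
      push_cast
      rw [← Int.self_sub_floor, ← Int.self_sub_floor]
      have : (q : ℝ) ≠ 0 := by linarith
      field_simp
      ring
    rw [abs_lt] at hδ
    have c1 : ((a * ((m : ℤ) - m0) - q * (⌊α * m + β⌋ - ⌊α * m0 + β⌋) : ℤ) : ℝ) < 2 := by
      rw [hV]; linarith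
    have c2 : (-2 : ℝ) < ((a * ((m : ℤ) - m0) - q * (⌊α * m + β⌋ - ⌊α * m0 + β⌋) : ℤ) : ℝ) := by
      rw [hV]; linarith
    have c3 : a * ((m : ℤ) - m0) - q * (⌊α * m + β⌋ - ⌊α * m0 + β⌋) < 2 := by exact_mod_cast c1
    have c4 : -2 < a * ((m : ℤ) - m0) - q * (⌊α * m + β⌋ - ⌊α * m0 + β⌋) := by exact_mod_cast c2
    rw [mem_Icc]
    constructor
    · dsimp only; omega
    · dsimp only; omega
  have hinj : Set.InjOn (fun m : ℕ => a * ((m : ℤ) - m0) - q * (⌊α * m + β⌋ - ⌊α * m0 + β⌋))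
      ((Icc 1 q).filter (fun m : ℕ => cell q (α * m + β) = j) : Finset ℕ) := by
    intro m hm m' hm' hmm
    rw [mem_coe, mem_filter, mem_Icc] at hm hm'
    dsimp only at hmm
    have hdvd : (q : ℤ) ∣ a * ((m : ℤ) - m') :=
      ⟨(⌊α * m + β⌋ - ⌊α * m0 + β⌋) - (⌊α * m' + β⌋ - ⌊α * m0 + β⌋), by linarith⟩
    have hdvd2 : (q : ℤ) ∣ (m : ℤ) - m' := hc.symm.dvd_of_dvd_mul_left hdvd
    have hlt : |(m : ℤ) - m'| < q := by
      rw [abs_lt]
      constructor <;> omega
    have := Int.eq_zero_of_abs_lt_dvd hdvd2 hlt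
    omega
  have h3 := card_le_card_of_injOn _ key hinj
  simpa using h3

/-- The weight of a cell. -/
noncomputable def cw (X : ℝ) (q j : ℕ) : ℝ :=
  (if j = 0 then X else 0) + (if j = q - 1 then X else 0) + (q : ℝ) / 2 * (1 / (j : ℝ)) +
    (q : ℝ) / 2 * (1 / ((q - 1 - j : ℕ) : ℝ))

lemma cw_nonneg {X : ℝ} (hX : 0 ≤ X) (q j : ℕ) : 0 ≤ cw X q j := by
  unfold cw
  have h1 : (0 : ℝ) ≤ if j = 0 then X else 0 := by split_ifs <;> simp [hX]
  have h2 : (0 : ℝ) ≤ if j = q - 1 then X else 0 := by split_ifs <;> simp [hX]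
  positivity

lemma mn_le_cw {X : ℝ} (hX : 0 ≤ X) {q : ℕ} (hq : 1 ≤ q) (x : ℝ) : mn X x ≤ cw X q (cell q x) := by
  have hlt := cell_lt hq x
  have hb := cell_bounds q x
  have hq' : (0 : ℝ) < q := by exact_mod_cast hq
  set j := cell q x with hj
  have h1 : (0 : ℝ) ≤ if j = 0 then X else 0 := by split_ifs <;> simp [hX]
  have h2 : (0 : ℝ) ≤ if j = q - 1 then X else 0 := by split_ifs <;> simp [hX]
  have h3 : (0 : ℝ) ≤ (q : ℝ) / 2 * (1 / (j : ℝ)) := by positivity
  have h4 : (0 : ℝ) ≤ (q : ℝ) / 2 * (1 / ((q - 1 - j : ℕ) : ℝ)) := by positivity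
  unfold cw
  by_cases hj0 : j = 0
  · have h5 := mn_le_left hX x
    rw [if_pos hj0]
    linarith
  by_cases hjq : j = q - 1
  · have h5 := mn_le_left hX x
    rw [if_pos hjq]
    linarith
  have hj1 : (1 : ℝ) ≤ j := by exact_mod_cast Nat.one_le_iff_ne_zero.2 hj0
  have hj2 : 1 ≤ q - 1 - j := by omega
  have hj2' : (1 : ℝ) ≤ ((q - 1 - j : ℕ) : ℝ) := by exact_mod_cast hj2
  have hcast : ((q - 1 - j : ℕ) : ℝ) = q - 1 - j := by
    rw [Nat.cast_sub (by omega), Nat.cast_sub hq]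
    simp
  have hn : nrm x = min (Int.fract x) (1 - Int.fract x) := abs_sub_round_eq_min x
  rcases le_total (Int.fract x) (1 - Int.fract x) with hm | hm
  · rw [min_eq_left hm] at hn
    have h5 : (j : ℝ) / q ≤ nrm x := by
      rw [hn, div_le_iff₀ hq']
      linarith [hb.1]
    have h6 : 0 < (j : ℝ) / q := by positivity
    have h7 := mn_le_right hX (lt_of_lt_of_le h6 h5)
    have h8 : 1 / (2 * nrm x) ≤ (q : ℝ) / 2 * (1 / (j : ℝ)) := by
      have e : (q : ℝ) / 2 * (1 / (j : ℝ)) = 1 / (2 * ((j : ℝ) / q)) := by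
        have : (j : ℝ) ≠ 0 := by linarith
        field_simp
      rw [e]
      exact one_div_le_one_div_of_le (by linarith) (by linarith)
    linarith
  · rw [min_eq_right hm] at hn
    have h5 : ((q - 1 - j : ℕ) : ℝ) / q ≤ nrm x := by
      rw [hn, div_le_iff₀ hq', hcast]
      linarith [hb.2]
    have h6 : 0 < ((q - 1 - j : ℕ) : ℝ) / q := by positivity
    have h7 := mn_le_right hX (lt_of_lt_of_le h6 h5)
    have h8 : 1 / (2 * nrm x) ≤ (q : ℝ) / 2 * (1 / ((q - 1 - j : ℕ) : ℝ)) := by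
      have e : (q : ℝ) / 2 * (1 / ((q - 1 - j : ℕ) : ℝ)) = 1 / (2 * (((q - 1 - j : ℕ) : ℝ) / q)) := by
        have : ((q - 1 - j : ℕ) : ℝ) ≠ 0 := by linarith
        field_simp
      rw [e]
      exact one_div_le_one_div_of_le (by linarith) (by linarith)
    linarith

lemma sum_inv_range_le (q : ℕ) (hq : 1 ≤ q) : ∑ j ∈ range q, 1 / (j : ℝ) ≤ 1 + Real.log q := by
  obtain ⟨n, rfl⟩ : ∃ n, q = n + 1 := ⟨q - 1, by omega⟩
  rw [sum_range_succ']
  have h1 := harmonic_le_one_add_log n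
  have h2 : ((harmonic n : ℚ) : ℝ) = ∑ i ∈ range n, 1 / ((i + 1 : ℕ) : ℝ) := by
    unfold harmonic
    push_cast
    refine sum_congr rfl fun i _ => ?_
    rw [one_div]
  rw [h2] at h1
  have h3 : Real.log n ≤ Real.log (n + 1 : ℕ) := by
    rcases Nat.eq_zero_or_pos n with h0 | h0
    · subst h0; simp
    · apply Real.log_le_log (by exact_mod_cast h0)
      push_cast
      linarith
  simp only [Nat.cast_zero, div_zero, add_zero]
  linarith

lemma sum_cw_le {X : ℝ} {q : ℕ} (hX : 0 ≤ X) (hq : 1 ≤ q) :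
    ∑ j ∈ range q, cw X q j ≤ 2 * X + q * (1 + Real.log q) := by
  have hs := sum_inv_range_le q hq
  have hr : ∑ j ∈ range q, 1 / ((q - 1 - j : ℕ) : ℝ) = ∑ j ∈ range q, 1 / (j : ℝ) :=
    sum_range_reflect (fun j => 1 / (j : ℝ)) q
  unfold cw
  rw [sum_add_distrib, sum_add_distrib, sum_add_distrib, ← mul_sum, ← mul_sum, hr,
    sum_ite_eq', sum_ite_eq', if_pos (mem_range.2 (by omega)), if_pos (mem_range.2 (by omega))]
  have hq' : (0 : ℝ) ≤ (q : ℝ) / 2 := by positivity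
  have := mul_le_mul_of_nonneg_left hs hq'
  linarith

theorem block_sum : ∃ C : ℝ, 0 < C ∧ ∀ (q : ℕ) (a : ℤ) (α β X : ℝ), 1 ≤ q →
    IsCoprime a (q : ℤ) → |α - a / q| ≤ 1 / (q : ℝ) ^ 2 → 0 ≤ X →
    ∑ m ∈ Icc 1 q, mn X (α * m + β) ≤ C * (X + q * Real.log (2 * q)) := by
  refine ⟨6, by norm_num, fun q a α β X hq hc h hX => ?_⟩
  have h1 : ∑ m ∈ Icc 1 q, mn X (α * m + β) ≤ ∑ m ∈ Icc 1 q, cw X q (cell q (α * m + β)) :=
    sum_le_sum fun m _ => mn_le_cw hX hq _
  have h2 : ∑ m ∈ Icc 1 q, cw X q (cell q (α * m + β))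
      = ∑ j ∈ range q, ∑ m ∈ (Icc 1 q).filter (fun m : ℕ => cell q (α * m + β) = j),
        cw X q (cell q (α * m + β)) :=
    (sum_fiberwise_of_maps_to (fun m _ => mem_range.2 (cell_lt hq _)) _).symm
  have h3 : ∑ j ∈ range q, ∑ m ∈ (Icc 1 q).filter (fun m : ℕ => cell q (α * m + β) = j),
        cw X q (cell q (α * m + β)) ≤ ∑ j ∈ range q, 3 * cw X q j := by
    refine sum_le_sum fun j _ => ?_
    have e : ∑ m ∈ (Icc 1 q).filter (fun m : ℕ => cell q (α * m + β) = j),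
        cw X q (cell q (α * m + β)) =
        ∑ m ∈ (Icc 1 q).filter (fun m : ℕ => cell q (α * m + β) = j), cw X q j := by
      refine sum_congr rfl fun m hm => ?_
      rw [(mem_filter.1 hm).2]
    rw [e, sum_const, nsmul_eq_mul]
    refine mul_le_mul_of_nonneg_right ?_ (cw_nonneg hX q j)
    exact_mod_cast cell_fiber q a α β hq hc h j
  have h4 := sum_cw_le (X := X) hX hq
  have hq' : (1 : ℝ) ≤ q := by exact_mod_cast hq
  have h5 : Real.log (2 * q) = Real.log 2 + Real.log q :=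
    Real.log_mul (by norm_num) (by linarith)
  have h6 : (1 : ℝ) ≤ 2 * Real.log 2 := by
    have := Real.log_two_gt_d9
    linarith
  have h7 : 0 ≤ Real.log q := Real.log_nonneg hq'
  rw [← mul_sum] at h3
  have h8 : (q : ℝ) * (1 + Real.log q) ≤ 2 * (q * Real.log (2 * q)) := by
    rw [h5]
    nlinarith
  linarith

end Pool.Agent.HLT
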