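import Pool.Agent.Lib.HLB.Defs

/-!
# Hardy-Littlewood asymptotics for almost all tuples from sparse sets: definitions

`ex θ = exp (2 π i θ)`; `lp n = log n` on the primes, `nuz z` the normalised indicator of the integers
without prime factor `≤ z`, `zA A x = ⌊(log x)^A⌋`, `energy s T` the `s`-fold additive energy.
-/

set_option autoImplicit false

open Finset Filter

namespace Pool.Agent.HLT

open Pool.Agent.HLB

/-- `e(θ) = exp (2 π i θ)`. -/
noncomputable def ex (θ : ℝ) : ℂ := Complex.exp (2 * Real.pi * θ * Complex.I)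

lemma ex_add (a b : ℝ) : ex (a + b) = ex a * ex b := by
  unfold ex
  rw [← Complex.exp_add]
  congr 1
  push_cast
  ring

@[simp] lemma ex_zero : ex 0 = 1 := by
  unfold ex
  simp

lemma norm_ex (θ : ℝ) : ‖ex θ‖ = 1 := by
  unfold ex
  have : (2 * Real.pi * θ * Complex.I : ℂ) = ((2 * Real.pi * θ : ℝ) : ℂ) * Complex.I := by
    push_cast
    ring
  rw [this, Complex.norm_exp_ofReal_mul_I]

lemma ex_int (k : ℤ) : ex k = 1 := by
  unfold ex
  rw [Complex.exp_eq_one_iff]
  exact ⟨k, by push_cast; ring⟩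

lemma ex_natCast (k : ℕ) : ex k = 1 := by
  have := ex_int (k : ℤ)
  push_cast at this
  exact this

lemma ex_add_int (a : ℝ) (k : ℤ) : ex (a + k) = ex a := by
  rw [ex_add, ex_int, mul_one]

lemma ex_neg (a : ℝ) : ex (-a) = (starRingEnd ℂ) (ex a) := by
  unfold ex
  rw [← Complex.exp_conj]
  congr 1
  have h2 : (2 * Real.pi * a * Complex.I : ℂ) = ((2 * Real.pi * a : ℝ) : ℂ) * Complex.I := by
    push_cast
    ring
  rw [h2, map_mul, Complex.conj_ofReal, Complex.conj_I]
  push_cast
  ring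

lemma ex_ne_zero (a : ℝ) : ex a ≠ 0 := Complex.exp_ne_zero _

lemma ex_nat_mul (n : ℕ) (a : ℝ) : ex (n * a) = ex a ^ n := by
  induction n with
  | zero => simp
  | succ n ih =>
    rw [pow_succ, ← ih, ← ex_add]
    congr 1
    push_cast
    ring

/-- Distance to the nearest integer. -/
noncomputable def nrm (α : ℝ) : ℝ := |α - round α|

lemma nrm_nonneg (α : ℝ) : 0 ≤ nrm α := abs_nonneg _

lemma nrm_le_half (α : ℝ) : nrm α ≤ 1 / 2 := abs_sub_round α

/-- The minimum of `X` and `1 / (2 ‖α‖)` (equal to `X` if `α` is an integer). -/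
noncomputable def mn (X α : ℝ) : ℝ := if 2 * nrm α * X ≤ 1 then X else 1 / (2 * nrm α)

/-- Exponential sum over `1 ≤ n ≤ y`. -/
noncomputable def esum (f : ℕ → ℝ) (y : ℕ) (α : ℝ) : ℂ := ∑ n ∈ Icc 1 y, (f n : ℂ) * ex (n * α)

/-- Logarithm on the primes. -/
noncomputable def lp (n : ℕ) : ℝ := if n.Prime then Real.log n else 0

/-- Normalised indicator of the integers without prime factor `≤ z`. -/
noncomputable def nuz (z n : ℕ) : ℝ := (DZ z)⁻¹ * ic z n

/-- The difference. -/
noncomputable def ff (z n : ℕ) : ℝ := lp n - nuz z n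

/-- Range of the sieve: the integer part of `(log x) ^ A`. -/
noncomputable def zA (A x : ℕ) : ℕ := ⌊Real.log x ^ A⌋₊

/-- Number of solutions of `u 1 + ... + u s = v 1 + ... + v s` in `T`. -/
noncomputable def energy (s : ℕ) (T : Finset ℕ) : ℕ :=
  ((Fintype.piFinset (fun _ : Fin s => T) ×ˢ Fintype.piFinset (fun _ : Fin s => T)).filter
    (fun u => ∑ i, u.1 i = ∑ i, u.2 i)).card

/-- Exponential sum over a finite set of shifts. -/
noncomputable def WW (T : Finset ℕ) (α : ℝ) : ℂ := ∑ t ∈ T, ex (t * α)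

lemma lp_nonneg (n : ℕ) : 0 ≤ lp n := by
  unfold lp
  split_ifs
  · exact Real.log_natCast_nonneg n
  · exact le_refl _

lemma lp_le (n : ℕ) : lp n ≤ Real.log n := by
  unfold lp
  split_ifs
  · exact le_refl _
  · exact Real.log_natCast_nonneg n

lemma nuz_nonneg (z n : ℕ) : 0 ≤ nuz z n :=
  mul_nonneg (inv_nonneg.mpr (DZ_pos z).le) (ic_nonneg z n)

lemma nuz_le (z n : ℕ) : nuz z n ≤ (DZ z)⁻¹ := by
  unfold nuz
  have := ic_le_one z n
  have h := inv_nonneg.mpr (DZ_pos z).le
  nlinarith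

lemma norm_WW_le (T : Finset ℕ) (α : ℝ) : ‖WW T α‖ ≤ T.card := by
  unfold WW
  refine (norm_sum_le _ _).trans ?_
  simp only [norm_ex, Finset.sum_const, nsmul_eq_mul, mul_one, le_refl]

lemma energy_ge (s : ℕ) (T : Finset ℕ) : T.card ^ s ≤ energy s T := by
  classical
  unfold energy
  have h : ((Fintype.piFinset (fun _ : Fin s => T)).image (fun u => (u, u))) ⊆
      ((Fintype.piFinset (fun _ : Fin s => T) ×ˢ Fintype.piFinset (fun _ : Fin s => T)).filter
        (fun u => ∑ i, u.1 i = ∑ i, u.2 i)) := by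
    intro u hu
    rw [Finset.mem_image] at hu
    obtain ⟨w, hw, rfl⟩ := hu
    rw [Finset.mem_filter, Finset.mem_product]
    exact ⟨⟨hw, hw⟩, rfl⟩
  have h2 := Finset.card_le_card h
  rw [Finset.card_image_of_injective _ (fun a b hab => (Prod.ext_iff.mp hab).1),
    Fintype.card_piFinset] at h2
  simpa using h2

end Pool.Agent.HLT
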