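import Pool.Agent.Lib.HLT.Brun

/-!
# Correlations of the sieve model

PROOF SKETCH. `z = zA A x`.
`sieve_corr`: `∏ i, nuz z (n + t i) = (DZ z)⁻¹ ^ r [∀ p <= z, n % p ∉ F p]`, `F p` the set of the residues
`(p - t i % p) % p` which has `nuI t p` elements; `brun_asym r A (B + r)` with `y = x`, and
`DZ z ^ (-r) ∏ (1 - nuI t p / p) = SZ z t`.
-/

set_option autoImplicit false

open Finset Filter

namespace Pool.Agent.HLT

open Pool.Agent.HLB

/-- The residue of `-t` modulo `p`. -/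
def negres (p t : ℕ) : ℕ := (p - t % p) % p

lemma negres_lt {p : ℕ} (hp : 0 < p) (t : ℕ) : negres p t < p := Nat.mod_lt _ hp

lemma dvd_add_iff_negres {p : ℕ} (hp : 0 < p) (n t : ℕ) : p ∣ n + t ↔ n % p = negres p t := by
  have ht : t % p < p := Nat.mod_lt _ hp
  have h1 : p ∣ n + t ↔ (n % p + t % p) % p = 0 := by
    rw [Nat.dvd_iff_mod_eq_zero, Nat.add_mod]
  rw [h1]
  have hn : n % p < p := Nat.mod_lt _ hp
  unfold negres
  rcases Nat.eq_zero_or_pos (t % p) with h0 | h0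
  · rw [h0, Nat.add_zero, Nat.mod_mod, Nat.sub_zero, Nat.mod_self]
  · rw [Nat.mod_eq_of_lt (by omega : p - t % p < p)]
    constructor
    · intro h
      rcases Nat.lt_or_ge (n % p + t % p) p with h2 | h2
      · rw [Nat.mod_eq_of_lt h2] at h
        omega
      · have h3 : (n % p + t % p) % p = n % p + t % p - p := by
          rw [Nat.mod_eq_sub_mod h2, Nat.mod_eq_of_lt (by omega)]
        omega
    · intro h
      rw [h, Nat.sub_add_cancel ht.le, Nat.mod_self]

lemma negres_eq_iff {p : ℕ} (hp : 0 < p) (s t : ℕ) :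
    negres p s = negres p t ↔ ((s : ℕ) : ZMod p) = ((t : ℕ) : ZMod p) := by
  rw [ZMod.natCast_eq_natCast_iff']
  have hs : s % p < p := Nat.mod_lt _ hp
  have ht : t % p < p := Nat.mod_lt _ hp
  have key : ∀ u : ℕ, u % p < p → (u % p = 0 → negres p u = 0) ∧
      (0 < u % p → negres p u = p - u % p) := by
    intro u hu
    unfold negres
    refine ⟨fun h => by rw [h]; simp, fun h => Nat.mod_eq_of_lt (by omega)⟩
  obtain ⟨k1, k2⟩ := key s hs
  obtain ⟨k3, k4⟩ := key t ht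
  rcases Nat.eq_zero_or_pos (s % p) with h0 | h0 <;> rcases Nat.eq_zero_or_pos (t % p) with h1 | h1
  · rw [k1 h0, k3 h1, h0, h1]
  · rw [k1 h0, k4 h1, h0]; omega
  · rw [k2 h0, k3 h1, h1]; omega
  · rw [k2 h0, k4 h1]; omega

/-- Excluded residues. -/
def exres {r : ℕ} (t : Fin r → ℕ) (p : ℕ) : Finset ℕ := univ.image (fun i => negres p (t i))

lemma exres_subset {r : ℕ} (t : Fin r → ℕ) {p : ℕ} (hp : 0 < p) : exres t p ⊆ range p := by
  intro u hu
  obtain ⟨i, -, rfl⟩ := Finset.mem_image.mp hu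
  exact Finset.mem_range.mpr (negres_lt hp _)

lemma card_exres {r : ℕ} (t : Fin r → ℕ) {p : ℕ} (hp : 0 < p) : (exres t p).card = nuI t p := by
  classical
  unfold exres nuI
  have hinj : Set.InjOn (fun u : ZMod p => negres p u.val)
      (univ.image (fun i => ((t i : ℕ) : ZMod p)) : Finset (ZMod p)) := by
    haveI : NeZero p := ⟨hp.ne'⟩
    intro a _ b _ hab
    have h := (negres_eq_iff hp _ _).mp hab
    rwa [ZMod.natCast_zmod_val, ZMod.natCast_zmod_val] at h
  rw [← Finset.card_image_of_injOn hinj, Finset.image_image]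
  congr 1
  refine Finset.image_congr fun i _ => ?_
  haveI : NeZero p := ⟨hp.ne'⟩
  simp only [Function.comp]
  rw [negres_eq_iff hp, ZMod.natCast_zmod_val]

lemma prod_nuz {r : ℕ} (z : ℕ) (t : Fin r → ℕ) (n : ℕ) :
    ∏ i, nuz z (n + t i) =
      (DZ z)⁻¹ ^ r * (if ∀ p ∈ Nat.primesLE z, n % p ∉ exres t p then 1 else 0) := by
  classical
  unfold nuz
  rw [Finset.prod_mul_distrib, Finset.prod_const, Finset.card_univ, Fintype.card_fin]
  congr 1
  split_ifs with h
  · refine Finset.prod_eq_one fun i _ => ?_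
    unfold ic
    rw [if_pos]
    intro p hp hd
    have hp0 : 0 < p := (Nat.mem_primesLE.1 hp).2.pos
    refine h p hp ?_
    rw [(dvd_add_iff_negres hp0 n (t i)).mp hd]
    exact Finset.mem_image_of_mem _ (Finset.mem_univ i)
  · push Not at h
    obtain ⟨p, hp, hm⟩ := h
    obtain ⟨i, -, hi⟩ := Finset.mem_image.mp hm
    have hp0 : 0 < p := (Nat.mem_primesLE.1 hp).2.pos
    refine Finset.prod_eq_zero (Finset.mem_univ i) ?_
    unfold ic
    rw [if_neg]
    intro h2
    exact h2 p hp ((dvd_add_iff_negres hp0 n (t i)).mpr hi.symm)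

lemma SZ_eq {r : ℕ} (z : ℕ) (t : Fin r → ℕ) :
    SZ z t = (DZ z)⁻¹ ^ r * ∏ p ∈ Nat.primesLE z, (1 - ((exres t p).card : ℝ) / p) := by
  unfold SZ locI DZ
  rw [Finset.prod_mul_distrib, Fintype.card_fin, Finset.prod_pow, Finset.prod_inv_distrib, mul_comm]
  congr 1
  refine Finset.prod_congr rfl fun p hp => ?_
  rw [card_exres t (Nat.mem_primesLE.1 hp).2.pos]

theorem sieve_corr (r A B : ℕ) : ∀ᶠ x : ℕ in atTop, ∀ t : Fin r → ℕ,
    |∑ n ∈ Icc 1 x, ∏ i, nuz (zA A x) (n + t i) - x * SZ (zA A x) t| ≤ x / Real.log x ^ B := by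
  classical
  filter_upwards [brun_asym r A (B + r), DZ_inv_le A, eventually_ge_atTop 3] with x hb hD hx t
  have hlog : 0 < Real.log x := Real.log_pos (by exact_mod_cast (by omega : 1 < x))
  have hD0 : 0 ≤ (DZ (zA A x))⁻¹ := inv_nonneg.mpr (DZ_pos _).le
  have h1 := hb x (by omega) (exres t) (fun p hp => by
    have hp0 : 0 < p := (Nat.mem_primesLE.1 hp).2.pos
    refine ⟨exres_subset t hp0, ?_⟩
    rw [card_exres t hp0]
    have := nuI_le t p
    rwa [Fintype.card_fin] at this)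
  have h2 : ∑ n ∈ Icc 1 x, ∏ i, nuz (zA A x) (n + t i) = (DZ (zA A x))⁻¹ ^ r *
      (((Icc 1 x).filter (fun n => ∀ p ∈ Nat.primesLE (zA A x), n % p ∉ exres t p)).card : ℝ) := by
    rw [Finset.card_filter]
    push_cast
    rw [Finset.mul_sum]
    exact Finset.sum_congr rfl fun n _ => prod_nuz _ t n
  rw [h2, SZ_eq]
  have h3 : (DZ (zA A x))⁻¹ ^ r *
      (((Icc 1 x).filter (fun n => ∀ p ∈ Nat.primesLE (zA A x), n % p ∉ exres t p)).card : ℝ) -
      x * ((DZ (zA A x))⁻¹ ^ r * ∏ p ∈ Nat.primesLE (zA A x), (1 - ((exres t p).card : ℝ) / p)) =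
      (DZ (zA A x))⁻¹ ^ r *
      ((((Icc 1 x).filter (fun n => ∀ p ∈ Nat.primesLE (zA A x), n % p ∉ exres t p)).card : ℝ) -
        x * ∏ p ∈ Nat.primesLE (zA A x), (1 - ((exres t p).card : ℝ) / p)) := by ring
  rw [h3, abs_mul, abs_of_nonneg (pow_nonneg hD0 r)]
  calc (DZ (zA A x))⁻¹ ^ r * _ ≤ Real.log x ^ r * (x / Real.log x ^ (B + r)) :=
        mul_le_mul (pow_le_pow_left₀ hD0 hD r) h1 (abs_nonneg _) (pow_nonneg hlog.le r)
    _ = x / Real.log x ^ B := by
        rw [pow_add]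
        field_simp

end Pool.Agent.HLT
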