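import Pool.Agent.Lib.HLT.BrunDet
import Pool.Agent.Lib.HLT.Defs
import Pool.Agent.Lib.Pabc2.Mertens

/-!
# Brun's sieve with the primes up to a power of `log x`

PROOF SKETCH. (`brun_det` is in BrunDet.)
`brun_asym`: take `k = 2 ⌈K log log x⌉`, `K = K(r, A, B)` large. `E <= 9 (1 + log (1 + log z))`
(`Pabc2.mertens`), `log z <= A log log x`, so `e r E / (k+1) -> 0` and `(r E)^(k+1)/(k+1)! <= (e r E/(k+1))^(k+1)
<= exp (-(k+1)) <= (log x)^(-2K)`; and `(k+2) ((1+z)(1+r))^(k+1) = exp (O((log log x)^2)) <= sqrt x`.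
`DZ_inv_le`: `(DZ z)⁻¹ = ∏ (1 - 1/p)⁻¹ <= exp (sum 1/(p-1)) <= exp (1 + sum 1/p) <= exp (1 + 9 (1 + log (1 + log z)))
= C (1 + log z)^9 <= C (1 + A log log x)^9 <= log x` for large `x`.
-/

set_option autoImplicit false

open Finset Filter

namespace Pool.Agent.HLT

open Pool.Agent.HLB

lemma tendsto_log_nat : Tendsto (fun x : ℕ => Real.log (x : ℝ)) atTop atTop :=
  Real.tendsto_log_atTop.comp tendsto_natCast_atTop_atTop

lemma tendsto_loglog_nat : Tendsto (fun x : ℕ => Real.log (Real.log (x : ℝ))) atTop atTop :=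
  Real.tendsto_log_atTop.comp tendsto_log_nat

lemma ev_log_small (A : ℕ) (c : ℝ) (hc : 0 < c) :
    ∀ᶠ t : ℝ in atTop, 1 + Real.log (1 + A * t) ≤ c * t := by
  have h1 : ∀ᶠ t : ℝ in atTop, Real.log t ≤ c / 2 * t := by
    have := Real.isLittleO_log_id_atTop.bound (half_pos hc)
    filter_upwards [this, eventually_ge_atTop (1 : ℝ)] with t ht ht1
    simp only [Real.norm_eq_abs, id] at ht
    calc Real.log t ≤ |Real.log t| := le_abs_self _
      _ ≤ c / 2 * |t| := ht
      _ = c / 2 * t := by rw [abs_of_nonneg (by linarith)]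
  filter_upwards [h1, eventually_ge_atTop (1 : ℝ),
    eventually_ge_atTop ((1 + Real.log (1 + A)) / (c / 2))] with t ht ht1 ht2
  have hA : (0 : ℝ) ≤ A := Nat.cast_nonneg A
  have h3 : 1 + Real.log (1 + A) ≤ c / 2 * t := by
    rw [div_le_iff₀ (half_pos hc)] at ht2
    linarith
  have h4 : Real.log (1 + A * t) ≤ Real.log (1 + A) + Real.log t := by
    rw [← Real.log_mul (by positivity) (by positivity)]
    apply Real.log_le_log (by positivity)
    nlinarith
  linarith

/-- Logarithm of the sieve range. -/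
lemma one_add_log_zA_le (A x : ℕ) (hx : 1 ≤ Real.log x) :
    1 + Real.log (zA A x) ≤ 1 + A * Real.log (Real.log x) := by
  have h0 : 0 ≤ Real.log (Real.log x) := Real.log_nonneg hx
  have hA : (0 : ℝ) ≤ A := Nat.cast_nonneg A
  have h1 : (zA A x : ℝ) ≤ Real.log x ^ A := Nat.floor_le (by positivity)
  rcases Nat.eq_zero_or_pos (zA A x) with h | h
  · rw [h]
    simp only [Nat.cast_zero, Real.log_zero]
    nlinarith
  · have h' : (0 : ℝ) < zA A x := by exact_mod_cast h
    have := Real.log_le_log h' h1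
    rw [Real.log_pow] at this
    linarith

lemma sum_inv_le_zA (A x : ℕ) (hx : 1 ≤ Real.log x) :
    ∑ p ∈ Nat.primesLE (zA A x), 1 / (p : ℝ) ≤
      9 * (1 + Real.log (1 + A * Real.log (Real.log x))) := by
  have h1 := Pool.Agent.Lib.Pabc2.mertens (zA A x)
  have h2 := one_add_log_zA_le A x hx
  have h3 : 0 ≤ Real.log (zA A x : ℝ) := Real.log_natCast_nonneg _
  have h4 : Real.log (1 + Real.log (zA A x)) ≤ Real.log (1 + A * Real.log (Real.log x)) :=
    Real.log_le_log (by linarith) h2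
  linarith

lemma pow_div_fact_le (M : ℝ) (n : ℕ) (hM : 0 ≤ M) (hn : 0 < n)
    (h : M * Real.exp 2 ≤ n) : M ^ n / (n.factorial : ℝ) ≤ Real.exp (-n) := by
  have hn' : (0 : ℝ) < n := by exact_mod_cast hn
  have h1 := Real.pow_div_factorial_le_exp (n : ℝ) hn'.le n
  have h2 : M / n ≤ Real.exp (-2) := by
    rw [div_le_iff₀ hn', Real.exp_neg, ← div_eq_inv_mul, le_div_iff₀ (Real.exp_pos 2)]
    exact h
  have h3 : (M / n) ^ n ≤ Real.exp (-2) ^ n :=
    pow_le_pow_left₀ (by positivity) h2 n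
  calc M ^ n / (n.factorial : ℝ) = (M / n) ^ n * ((n : ℝ) ^ n / n.factorial) := by
        rw [div_pow]
        field_simp
    _ ≤ Real.exp (-2) ^ n * Real.exp n := by gcongr
    _ = Real.exp (-n) := by
        rw [← Real.exp_nat_mul, ← Real.exp_add]
        congr 1
        ring

lemma ev_poly_exp (c : ℝ) (n : ℕ) : ∀ᶠ t : ℝ in atTop, c * t ^ n ≤ Real.exp t := by
  have h := (Real.isLittleO_pow_exp_atTop (n := n)).bound (show (0 : ℝ) < 1 / (|c| + 1) by positivity)
  filter_upwards [h, eventually_ge_atTop (0 : ℝ)] with t ht ht0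
  rw [Real.norm_eq_abs, Real.norm_eq_abs, abs_of_nonneg (by positivity),
    abs_of_pos (Real.exp_pos t)] at ht
  have h1 : (|c| + 1) * t ^ n ≤ Real.exp t := by
    have := mul_le_mul_of_nonneg_left ht (show (0 : ℝ) ≤ |c| + 1 by positivity)
    calc (|c| + 1) * t ^ n ≤ (|c| + 1) * (1 / (|c| + 1) * Real.exp t) := this
      _ = Real.exp t := by field_simp
  have h2 : 0 ≤ t ^ n := by positivity
  nlinarith [le_abs_self c]

/-- Choice of the parameter. -/
theorem brun_param (r A B : ℕ) : ∀ᶠ x : ℕ in atTop, ∃ k : ℕ, Even k ∧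
    (r * ∑ p ∈ Nat.primesLE (zA A x), 1 / (p : ℝ)) ^ (k + 1) / ((k + 1).factorial : ℝ) ≤
      1 / Real.log x ^ B ∧
    (k + 2) * ((1 + (zA A x : ℝ)) * (1 + r)) ^ (k + 1) ≤ Real.sqrt x := by
  have hr : (0 : ℝ) ≤ r := Nat.cast_nonneg r
  have hA : (0 : ℝ) ≤ A := Nat.cast_nonneg A
  have hB : (0 : ℝ) ≤ B := Nat.cast_nonneg B
  have hc : 0 < 2 / (9 * (r + 1) * Real.exp 2) := by positivity
  set c1 : ℝ := 1 + Real.log (2 * (1 + r)) with hc1
  have hc1' : 1 ≤ c1 := by
    have : 0 ≤ Real.log (2 * (1 + r)) := Real.log_nonneg (by linarith)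
    linarith
  have e1 := tendsto_loglog_nat.eventually (ev_log_small A _ hc)
  have e2 := tendsto_loglog_nat.eventually
    (ev_poly_exp (2 * ((2 * (B + 1) + 3) * (c1 + A))) 2)
  have e3 := tendsto_loglog_nat.eventually (eventually_ge_atTop (1 : ℝ))
  have e4 := tendsto_log_nat.eventually (eventually_ge_atTop (1 : ℝ))
  filter_upwards [e1, e2, e3, e4, eventually_ge_atTop 1] with x h1 h2 h3 h4 hx1
  set l := Real.log (x : ℝ) with hl
  set t := Real.log l with ht
  have hlpos : 0 < l := by linarith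
  have hel : Real.exp t = l := Real.exp_log hlpos
  set m := ⌈((B : ℝ) + 1) * t⌉₊ with hm
  have hm1 : ((B : ℝ) + 1) * t ≤ m := Nat.le_ceil _
  have hm2 : (m : ℝ) < ((B : ℝ) + 1) * t + 1 := Nat.ceil_lt_add_one (by positivity)
  refine ⟨2 * m, even_two_mul m, ?_, ?_⟩
  · have hsum := sum_inv_le_zA A x h4
    have hsum0 : 0 ≤ ∑ p ∈ Nat.primesLE (zA A x), 1 / (p : ℝ) :=
      Finset.sum_nonneg fun p _ => by positivity
    have hM : r * ∑ p ∈ Nat.primesLE (zA A x), 1 / (p : ℝ) ≤ r * (9 * (2 / (9 * (r + 1) * Real.exp 2) * t)) := by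
      gcongr
      calc _ ≤ 9 * (1 + Real.log (1 + A * t)) := hsum
        _ ≤ _ := by gcongr
    have hM2 : (r * ∑ p ∈ Nat.primesLE (zA A x), 1 / (p : ℝ)) * Real.exp 2 ≤ ((2 * m + 1 : ℕ) : ℝ) := by
      calc _ ≤ r * (9 * (2 / (9 * (r + 1) * Real.exp 2) * t)) * Real.exp 2 := by gcongr
        _ = r / (r + 1) * (2 * t) := by field_simp
        _ ≤ 1 * (2 * t) := by
            gcongr
            rw [div_le_one (by positivity)]
            linarith
        _ ≤ _ := by
            push_cast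
            nlinarith
    have := pow_div_fact_le _ (2 * m + 1) (by positivity) (by omega) hM2
    refine this.trans ?_
    rw [one_div, ← hel, ← Real.exp_nat_mul, ← Real.exp_neg]
    apply Real.exp_le_exp.mpr
    push_cast
    nlinarith
  · have hz : (zA A x : ℝ) ≤ l ^ A := Nat.floor_le (by positivity)
    have hlA : 1 ≤ l ^ A := one_le_pow₀ h4
    have hz1 : (1 + (zA A x : ℝ)) * (1 + r) ≤ Real.exp (Real.log (2 * (1 + r)) + A * t) := by
      rw [Real.exp_add, Real.exp_log (by positivity), mul_comm (A : ℝ) t, mul_comm t (A : ℝ),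
        Real.exp_nat_mul, hel]
      nlinarith
    have hk : ((2 * m : ℕ) : ℝ) + 2 ≤ Real.exp ((2 * m : ℕ) + 1) := by
      have := Real.add_one_le_exp (((2 * m : ℕ) : ℝ) + 1)
      linarith
    have hsx : Real.sqrt x = Real.exp (l / 2) := by
      rw [Real.sqrt_eq_iff_eq_sq (Nat.cast_nonneg x) (Real.exp_pos _).le, ← Real.exp_nat_mul]
      have : ((2 : ℕ) : ℝ) * (l / 2) = l := by push_cast; ring
      rw [this, hl, Real.exp_log (by exact_mod_cast hx1)]
    rw [hsx]
    calc (((2 * m : ℕ) : ℝ) + 2) * ((1 + (zA A x : ℝ)) * (1 + r)) ^ (2 * m + 1)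
        ≤ Real.exp ((2 * m : ℕ) + 1) * Real.exp (Real.log (2 * (1 + r)) + A * t) ^ (2 * m + 1) := by
          gcongr
      _ = Real.exp ((2 * m + 1) * (c1 + A * t)) := by
          rw [← Real.exp_nat_mul, ← Real.exp_add]
          congr 1
          push_cast
          rw [hc1]
          ring
      _ ≤ Real.exp (l / 2) := by
          apply Real.exp_le_exp.mpr
          have h5 : 2 * (m : ℝ) + 1 ≤ (2 * (B + 1) + 3) * t := by nlinarith
          have h6 : c1 + A * t ≤ (c1 + A) * t := by nlinarith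
          have h7 : (2 * (m : ℝ) + 1) * (c1 + A * t) ≤ ((2 * (B + 1) + 3) * t) * ((c1 + A) * t) := by
            gcongr
          rw [hel] at h2
          nlinarith

theorem brun_asym (r A B : ℕ) : ∀ᶠ x : ℕ in atTop, ∀ y : ℕ, y ≤ 4 * x → ∀ F : ℕ → Finset ℕ,
    (∀ p ∈ Nat.primesLE (zA A x), F p ⊆ range p ∧ (F p).card ≤ r) →
    |(((Icc 1 y).filter (fun n => ∀ p ∈ Nat.primesLE (zA A x), n % p ∉ F p)).card : ℝ) -
        y * ∏ p ∈ Nat.primesLE (zA A x), (1 - ((F p).card : ℝ) / p)| ≤ x / Real.log x ^ B := by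
  have e1 := tendsto_log_nat.eventually (eventually_ge_atTop (16 : ℝ))
  have e2 : ∀ᶠ x : ℕ in atTop, 2 * Real.log x ^ B ≤ Real.sqrt x := by
    have h := (tendsto_log_nat.atTop_div_const (show (0 : ℝ) < 2 by norm_num)).eventually
      (ev_poly_exp (2 * 2 ^ B) B)
    filter_upwards [h, eventually_ge_atTop 1] with x hx hx1
    have hsx : Real.sqrt x = Real.exp (Real.log x / 2) := by
      rw [Real.sqrt_eq_iff_eq_sq (Nat.cast_nonneg x) (Real.exp_pos _).le, ← Real.exp_nat_mul]
      have : ((2 : ℕ) : ℝ) * (Real.log x / 2) = Real.log x := by push_cast; ring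
      rw [this, Real.exp_log (by exact_mod_cast hx1)]
    rw [hsx]
    calc 2 * Real.log x ^ B = 2 * 2 ^ B * (Real.log x / 2) ^ B := by
          rw [div_pow]
          field_simp
      _ ≤ _ := hx
  filter_upwards [e1, e2, brun_param r A (B + 1), eventually_ge_atTop 1] with x h1 h2 h3 hx1
  intro y hy F hF
  obtain ⟨k, hk, hk1, hk2⟩ := h3
  have hx0 : (0 : ℝ) < x := by exact_mod_cast hx1
  have hy' : (y : ℝ) ≤ 4 * x := by exact_mod_cast hy
  have hl : 0 < Real.log (x : ℝ) := by linarith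
  refine (brun_det r (zA A x) k y hk F hF).trans ?_
  have h4 : 2 * (y : ℝ) * ((r * ∑ p ∈ Nat.primesLE (zA A x), 1 / (p : ℝ)) ^ (k + 1) /
      ((k + 1).factorial : ℝ)) ≤ 2 * (4 * x) * (1 / Real.log x ^ (B + 1)) := by
    gcongr
  have h5 : 2 * (4 * (x : ℝ)) * (1 / Real.log x ^ (B + 1)) ≤ x / Real.log x ^ B / 2 := by
    rw [pow_succ]
    rw [show 2 * (4 * (x : ℝ)) * (1 / (Real.log x ^ B * Real.log x)) =
      (x / Real.log x ^ B) * (8 / Real.log x) by field_simp; ring]
    have h6 : 8 / Real.log (x : ℝ) ≤ 1 / 2 := by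
      rw [div_le_div_iff₀ hl (by norm_num)]
      linarith
    have h7 : 0 ≤ (x : ℝ) / Real.log x ^ B := by positivity
    nlinarith
  have h8 : Real.sqrt x ≤ x / Real.log x ^ B / 2 := by
    rw [le_div_iff₀ (by norm_num), le_div_iff₀ (by positivity)]
    have h9 : Real.sqrt x * Real.sqrt x = x := Real.mul_self_sqrt hx0.le
    nlinarith [Real.sqrt_nonneg (x : ℝ)]
  linarith

lemma sum_tele (z : ℕ) : ∑ p ∈ Nat.primesLE z, (1 / ((p : ℝ) - 1) - 1 / p) ≤ 1 := by
  have h1 : ∑ p ∈ Nat.primesLE z, (1 / ((p : ℝ) - 1) - 1 / p) ≤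
      ∑ n ∈ Icc 2 (z + 1), (1 / ((n : ℝ) - 1) - 1 / n) := by
    apply Finset.sum_le_sum_of_subset_of_nonneg
    · intro p hp
      rw [Nat.mem_primesLE] at hp
      rw [Finset.mem_Icc]
      have := hp.2.two_le
      omega
    · intro n hn _
      rw [Finset.mem_Icc] at hn
      have hn2 : (2 : ℝ) ≤ n := by exact_mod_cast hn.1
      rw [sub_nonneg]
      exact one_div_le_one_div_of_le (by linarith) (by linarith)
  have h2 : ∀ m : ℕ, ∑ n ∈ Icc 2 (m + 1), (1 / ((n : ℝ) - 1) - 1 / n) = 1 - 1 / ((m : ℝ) + 1) := by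
    intro m
    induction m with
    | zero => simp
    | succ m ih =>
      rw [Finset.sum_Icc_succ_top (by omega), ih]
      push_cast
      have : (m : ℝ) + 1 ≠ 0 := by positivity
      have : (m : ℝ) + 1 + 1 ≠ 0 := by positivity
      rw [show (m : ℝ) + 1 + 1 - 1 = m + 1 by ring]
      ring
  rw [h2 z] at h1
  have : 0 ≤ 1 / ((z : ℝ) + 1) := by positivity
  linarith

lemma DZ_inv_le_exp (z : ℕ) : (DZ z)⁻¹ ≤ Real.exp (1 + ∑ p ∈ Nat.primesLE z, 1 / (p : ℝ)) := by
  unfold DZ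
  rw [← Finset.prod_inv_distrib]
  calc ∏ p ∈ Nat.primesLE z, (1 - 1 / (p : ℝ))⁻¹
      ≤ ∏ p ∈ Nat.primesLE z, Real.exp (1 / ((p : ℝ) - 1)) := by
        apply Finset.prod_le_prod
        · intro p hp
          rw [Nat.mem_primesLE] at hp
          have hp2 : (2 : ℝ) ≤ p := by exact_mod_cast hp.2.two_le
          rw [inv_nonneg, sub_nonneg, div_le_one (by linarith)]
          linarith
        · intro p hp
          rw [Nat.mem_primesLE] at hp
          have hp2 : (2 : ℝ) ≤ p := by exact_mod_cast hp.2.two_le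
          have h1 : (1 - 1 / (p : ℝ))⁻¹ = 1 / ((p : ℝ) - 1) + 1 := by
            have : (p : ℝ) - 1 ≠ 0 := by linarith
            have : (p : ℝ) ≠ 0 := by linarith
            field_simp
            ring
          rw [h1]
          exact Real.add_one_le_exp _
    _ = Real.exp (∑ p ∈ Nat.primesLE z, 1 / ((p : ℝ) - 1)) := by rw [Real.exp_sum]
    _ ≤ _ := by
        apply Real.exp_le_exp.mpr
        have := sum_tele z
        rw [Finset.sum_sub_distrib] at this
        linarith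

theorem DZ_inv_le (A : ℕ) : ∀ᶠ x : ℕ in atTop, (DZ (zA A x))⁻¹ ≤ Real.log x := by
  have hA : (0 : ℝ) ≤ A := Nat.cast_nonneg A
  have e1 := tendsto_loglog_nat.eventually
    (ev_poly_exp (Real.exp 10 * (1 + A) ^ 9) 9)
  have e3 := tendsto_loglog_nat.eventually (eventually_ge_atTop (1 : ℝ))
  have e4 := tendsto_log_nat.eventually (eventually_ge_atTop (1 : ℝ))
  filter_upwards [e1, e3, e4] with x h1 h3 h4
  refine (DZ_inv_le_exp _).trans ?_
  have h5 := sum_inv_le_zA A x h4
  set l := Real.log (x : ℝ) with hl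
  set t := Real.log l with ht
  have hlpos : 0 < l := by linarith
  have hel : Real.exp t = l := Real.exp_log hlpos
  rw [hel] at h1
  refine le_trans ?_ h1
  calc Real.exp (1 + ∑ p ∈ Nat.primesLE (zA A x), 1 / (p : ℝ))
      ≤ Real.exp (1 + 9 * (1 + Real.log (1 + A * t))) := by
        apply Real.exp_le_exp.mpr
        linarith
    _ = Real.exp 10 * (1 + A * t) ^ 9 := by
        rw [show 1 + 9 * (1 + Real.log (1 + A * t)) = 10 + (9 : ℕ) * Real.log (1 + A * t) by
          push_cast; ring, Real.exp_add, Real.exp_nat_mul, Real.exp_log (by positivity)]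
    _ ≤ Real.exp 10 * (1 + A) ^ 9 * t ^ 9 := by
        rw [mul_assoc, ← mul_pow]
        gcongr
        nlinarith

end Pool.Agent.HLT
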