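import Pool.Agent.Lib.HLT.Defs

/-!
# Finite Fourier analysis

PROOF SKETCH. Everything modulo `N`: `sum_{ξ < N} ex (ξ k / N) = N` if `N ∣ k` and `0` otherwise (`k : ℤ`;
geometric sum or `ZMod`/`AddChar` orthogonality).
`parseval`: expand the square; for `n, n' ∈ [1, X]`, `X <= N`, `N ∣ n - n'` iff `n = n'`.
`corr_formula`: `∑ n, h n g (n+t) = (1/N) ∑_{ξ<N} (∑ n h n ex (n ξ/N)) * conj (∑ m g m ex (m ξ/N)) * ex (t ξ/N)`:
expand the right-hand side, `n + t - m` is in `(-N, N)` as `n <= x`, `t <= x`, `m <= 2x`, `4 x < N`, so only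
`m = n + t` survives.
-/

set_option autoImplicit false

open Finset Filter

namespace Pool.Agent.HLT

private lemma ex_eq_one_iff {N : ℕ} (hN : 0 < N) (k : ℤ) : ex (k / N) = 1 ↔ (N : ℤ) ∣ k := by
  unfold ex
  rw [Complex.exp_eq_one_iff]
  have hN' : (N : ℂ) ≠ 0 := by exact_mod_cast hN.ne'
  have hpi : (2 * (Real.pi : ℂ) * Complex.I) ≠ 0 := Complex.two_pi_I_ne_zero
  constructor
  · rintro ⟨m, hm⟩
    refine ⟨m, ?_⟩
    have h1 : ((k : ℂ) / N) * (2 * (Real.pi : ℂ) * Complex.I) = m * (2 * (Real.pi : ℂ) * Complex.I) := by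
      rw [← hm]
      push_cast
      ring
    have h2 := mul_right_cancel₀ hpi h1
    rw [div_eq_iff hN'] at h2
    have h3 : ((k : ℤ) : ℂ) = ((N * m : ℤ) : ℂ) := by
      rw [h2]
      push_cast
      ring
    exact_mod_cast h3
  · rintro ⟨m, rfl⟩
    refine ⟨m, ?_⟩
    push_cast
    field_simp

private lemma sum_ex {N : ℕ} (hN : 0 < N) (k : ℤ) :
    ∑ ξ ∈ range N, ex (k * (ξ / N)) = if (N : ℤ) ∣ k then (N : ℂ) else 0 := by
  have h1 : ∀ ξ : ℕ, ex (k * (ξ / N)) = ex (k / N) ^ ξ := by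
    intro ξ
    rw [← ex_nat_mul]
    congr 1
    ring
  simp_rw [h1]
  split_ifs with h
  · rw [(ex_eq_one_iff hN k).2 h]
    simp
  · have hne : ex (k / N) ≠ 1 := fun h' => h ((ex_eq_one_iff hN k).1 h')
    rw [geom_sum_eq hne]
    have h2 : ex (k / N) ^ N = 1 := by
      rw [← ex_nat_mul]
      have h3 : ((N : ℝ) * ((k : ℝ) / N)) = ((k : ℤ) : ℝ) := by
        have : (N : ℝ) ≠ 0 := by exact_mod_cast hN.ne'
        field_simp
      rw [h3]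
      exact ex_int k
    rw [h2, sub_self, zero_div]

private lemma conj_ex (a : ℝ) : (starRingEnd ℂ) (ex a) = ex (-a) := (ex_neg a).symm

/-- The expansion of a product of two exponential sums. -/
private lemma expand {N : ℕ} (hN : 0 < N) (S T : Finset ℕ) (h g : ℕ → ℂ) (t : ℕ)
    (hST : ∀ n ∈ S, ∀ m ∈ T, ((n : ℤ) + t - m).natAbs < N) :
    ∑ ξ ∈ range N, (∑ n ∈ S, h n * ex (n * (ξ / N))) *
        (starRingEnd ℂ) (∑ m ∈ T, g m * ex (m * (ξ / N))) * ex (t * (ξ / N)) =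
      (N : ℂ) * ∑ n ∈ S, ∑ m ∈ T, if m = n + t then h n * (starRingEnd ℂ) (g m) else 0 := by
  have h1 : ∀ ξ ∈ range N, (∑ n ∈ S, h n * ex (n * (ξ / N))) *
        (starRingEnd ℂ) (∑ m ∈ T, g m * ex (m * (ξ / N))) * ex (t * (ξ / N)) =
      ∑ n ∈ S, ∑ m ∈ T, (h n * (starRingEnd ℂ) (g m)) *
        ex ((((n : ℤ) + t - m : ℤ) : ℝ) * (ξ / N)) := by
    intro ξ _
    rw [map_sum, Finset.sum_mul_sum, Finset.sum_mul]
    refine Finset.sum_congr rfl fun n _ => ?_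
    rw [Finset.sum_mul]
    refine Finset.sum_congr rfl fun m _ => ?_
    rw [map_mul, conj_ex]
    have h2 : ex ((((n : ℤ) + t - m : ℤ) : ℝ) * (ξ / N)) =
        ex (n * (ξ / N)) * ex (-(m * (ξ / N))) * ex (t * (ξ / N)) := by
      rw [← ex_add, ← ex_add]
      congr 1
      push_cast
      ring
    rw [h2]
    ring
  rw [Finset.sum_congr rfl h1, Finset.sum_comm, Finset.mul_sum]
  refine Finset.sum_congr rfl fun n hn => ?_
  rw [Finset.sum_comm, Finset.mul_sum]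
  refine Finset.sum_congr rfl fun m hm => ?_
  rw [← Finset.mul_sum, sum_ex hN]
  have h3 : (N : ℤ) ∣ ((n : ℤ) + t - m) ↔ m = n + t := by
    constructor
    · intro hd
      have h4 := Int.eq_zero_of_dvd_of_natAbs_lt_natAbs hd (by
        simpa using hST n hn m hm)
      omega
    · rintro rfl
      simp
  by_cases hmn : m = n + t
  · rw [if_pos (h3.2 hmn), if_pos hmn]
    ring
  · rw [if_neg (fun h => hmn (h3.1 h)), if_neg hmn]
    ring

theorem parseval (N X : ℕ) (hX : X ≤ N) (hN : 0 < N) (h : ℕ → ℂ) :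
    ∑ ξ ∈ range N, ‖∑ n ∈ Icc 1 X, h n * ex (n * (ξ / N))‖ ^ 2 =
      N * ∑ n ∈ Icc 1 X, ‖h n‖ ^ 2 := by
  have h0 := expand hN (Icc 1 X) (Icc 1 X) h h 0 (by
    intro n hn m hm
    rw [Finset.mem_Icc] at hn hm
    omega)
  have h1 : ∀ z : ℂ, z * (starRingEnd ℂ) z = ((‖z‖ ^ 2 : ℝ) : ℂ) := by
    intro z
    rw [Complex.mul_conj, Complex.normSq_eq_norm_sq]
  have h2 : ∑ ξ ∈ range N, (∑ n ∈ Icc 1 X, h n * ex (n * (ξ / N))) *
        (starRingEnd ℂ) (∑ m ∈ Icc 1 X, h m * ex (m * (ξ / N))) * ex ((0 : ℕ) * (ξ / N)) =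
      ((∑ ξ ∈ range N, ‖∑ n ∈ Icc 1 X, h n * ex (n * (ξ / N))‖ ^ 2 : ℝ) : ℂ) := by
    rw [Complex.ofReal_sum]
    refine Finset.sum_congr rfl fun ξ _ => ?_
    rw [h1, Nat.cast_zero, zero_mul, ex_zero, mul_one]
  have h3 : ∑ n ∈ Icc 1 X, ∑ m ∈ Icc 1 X,
      (if m = n + 0 then h n * (starRingEnd ℂ) (h m) else 0) =
      ((∑ n ∈ Icc 1 X, ‖h n‖ ^ 2 : ℝ) : ℂ) := by
    rw [Complex.ofReal_sum]
    refine Finset.sum_congr rfl fun n hn => ?_
    rw [add_zero, Finset.sum_ite_eq', if_pos hn, h1]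
  rw [h2, h3] at h0
  have h4 : ((∑ ξ ∈ range N, ‖∑ n ∈ Icc 1 X, h n * ex (n * (ξ / N))‖ ^ 2 : ℝ) : ℂ) =
      ((N * ∑ n ∈ Icc 1 X, ‖h n‖ ^ 2 : ℝ) : ℂ) := by
    rw [h0]
    push_cast
    ring
  exact_mod_cast h4

theorem corr_formula (N x : ℕ) (hN : 4 * x < N) (h : ℕ → ℂ) (g : ℕ → ℝ) (t : ℕ) (ht : t ≤ x) :
    ∑ n ∈ Icc 1 x, h n * (g (n + t) : ℂ) =
      (1 / (N : ℂ)) * ∑ ξ ∈ range N, (∑ n ∈ Icc 1 x, h n * ex (n * (ξ / N))) *
        (starRingEnd ℂ) (∑ m ∈ Icc 1 (2 * x), (g m : ℂ) * ex (m * (ξ / N))) *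
          ex (t * (ξ / N)) := by
  have hN0 : 0 < N := by omega
  have hN' : (N : ℂ) ≠ 0 := by exact_mod_cast hN0.ne'
  rw [expand hN0 (Icc 1 x) (Icc 1 (2 * x)) h (fun m => (g m : ℂ)) t (by
    intro n hn m hm
    rw [Finset.mem_Icc] at hn hm
    omega), ← mul_assoc, one_div, inv_mul_cancel₀ hN', one_mul]
  refine Finset.sum_congr rfl fun n hn => ?_
  rw [Finset.mem_Icc] at hn
  rw [Finset.sum_ite_eq' (Icc 1 (2 * x)) (n + t), if_pos (Finset.mem_Icc.2 ⟨by omega, by omega⟩),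
    Complex.conj_ofReal]

end Pool.Agent.HLT
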