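import Pool.Agent.Lib.HLT.TypeTwo
import Pool.Agent.Lib.BV.Vaughan

/-!
# Exponential sums over primes on the minor arcs (Vinogradov, Vaughan)

If `q > y` the trivial bound is enough. Otherwise `U = V = ⌊x^(1/5)⌋₊`, and Vaughan's identity
splits the sum in four parts: the trivial one, two type I sums (`sum_mn_div`, for the second after
partial summation with the logarithm) and a bilinear one (`type_two`).
-/

set_option autoImplicit false

open Finset Filter

namespace Pool.Agent.HLT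

open Pool.Agent.Lib

lemma MinorPrime.conv_sum (f g : ArithmeticFunction ℝ) (F : ℕ → ℂ) (y : ℕ) :
    ∑ n ∈ Icc 1 y, (((f * g) n : ℝ) : ℂ) * F n =
      ∑ m ∈ Icc 1 y, ∑ n ∈ Icc 1 (y / m), ((f m * g n : ℝ) : ℂ) * F (m * n) := by
  have h1 : ∀ n ∈ Icc 1 y, (((f * g) n : ℝ) : ℂ) * F n =
      ∑ x ∈ (Icc 1 y ×ˢ Icc 1 y).filter (fun x => x.1 * x.2 = n),
        ((f x.1 * g x.2 : ℝ) : ℂ) * F (x.1 * x.2) := by
    intro n hn
    rw [mem_Icc] at hn
    rw [ArithmeticFunction.mul_apply]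
    push_cast
    rw [Finset.sum_mul]
    have h2 : n.divisorsAntidiagonal = (Icc 1 y ×ˢ Icc 1 y).filter (fun x => x.1 * x.2 = n) := by
      ext ⟨a, b⟩
      rw [Nat.mem_divisorsAntidiagonal, mem_filter, mem_product, mem_Icc, mem_Icc]
      simp only
      constructor
      · rintro ⟨h, h0⟩
        have ha : a ≠ 0 := by rintro rfl; simp at h; omega
        have hb : b ≠ 0 := by rintro rfl; simp at h; omega
        have ha' : a ≤ n := by rw [← h]; exact Nat.le_mul_of_pos_right a (by omega)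
        have hb' : b ≤ n := by rw [← h]; exact Nat.le_mul_of_pos_left b (by omega)
        exact ⟨⟨⟨by omega, by omega⟩, ⟨by omega, by omega⟩⟩, h⟩
      · rintro ⟨_, h⟩
        exact ⟨h, by omega⟩
    rw [h2]
    apply Finset.sum_congr rfl
    intro x hx
    rw [mem_filter] at hx
    rw [hx.2]
  rw [Finset.sum_congr rfl h1]
  have h3 : ∑ n ∈ Icc 1 y, ∑ x ∈ (Icc 1 y ×ˢ Icc 1 y).filter (fun x => x.1 * x.2 = n),
        ((f x.1 * g x.2 : ℝ) : ℂ) * F (x.1 * x.2) =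
      ∑ x ∈ (Icc 1 y ×ˢ Icc 1 y).filter (fun x => x.1 * x.2 ≤ y),
        ((f x.1 * g x.2 : ℝ) : ℂ) * F (x.1 * x.2) := by
    rw [← Finset.sum_fiberwise_of_maps_to (s := (Icc 1 y ×ˢ Icc 1 y).filter
      (fun x => x.1 * x.2 ≤ y)) (t := Icc 1 y) (g := fun x => x.1 * x.2)]
    · apply Finset.sum_congr rfl
      intro n hn
      rw [mem_Icc] at hn
      apply Finset.sum_congr _ (fun _ _ => rfl)
      ext x
      simp only [mem_filter]
      constructor
      · rintro ⟨h, h'⟩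
        exact ⟨⟨h, by omega⟩, h'⟩
      · rintro ⟨⟨h, _⟩, h'⟩
        exact ⟨h, h'⟩
    · intro x hx
      rw [mem_filter, mem_product, mem_Icc, mem_Icc] at hx
      rw [mem_Icc]
      exact ⟨Nat.mul_pos hx.1.1.1 hx.1.2.1, hx.2⟩
  rw [h3, Finset.sum_filter, Finset.sum_product]
  apply Finset.sum_congr rfl
  intro m hm
  rw [mem_Icc] at hm
  rw [← Finset.sum_filter]
  apply Finset.sum_congr _ (fun _ _ => rfl)
  ext n
  rw [mem_filter, mem_Icc, mem_Icc, Nat.le_div_iff_mul_le (by omega)]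
  constructor
  · rintro ⟨h, h'⟩
    exact ⟨h.1, by rw [mul_comm]; exact h'⟩
  · rintro ⟨h, h'⟩
    refine ⟨⟨h, ?_⟩, by rw [mul_comm]; exact h'⟩
    exact (Nat.le_mul_of_pos_right n (by omega)).trans h'

/-- Partial summation with the logarithm. -/
lemma MinorPrime.log_sum (K β : ℝ) (M : ℕ)
    (hK : ∀ m ≤ M, ‖∑ n ∈ Icc 1 m, ex (n * β)‖ ≤ K) :
    ‖∑ m ∈ Icc 1 M, ((Real.log m : ℝ) : ℂ) * ex (m * β)‖ ≤ 2 * (K * Real.log M) := by
  have h1 : ∀ N ≤ M, ‖∑ m ∈ Icc 1 N, ((Real.log m : ℝ) : ℂ) * ex (m * β) -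
      ((Real.log N : ℝ) : ℂ) * ∑ m ∈ Icc 1 N, ex (m * β)‖ ≤ K * Real.log N := by
    intro N
    induction N with
    | zero => intro _; simp
    | succ N ih =>
      intro hN
      have ih' := ih (by omega)
      rw [Finset.sum_Icc_succ_top (by omega), Finset.sum_Icc_succ_top (by omega)]
      have hlog : 0 ≤ Real.log ((N + 1 : ℕ) : ℝ) - Real.log N := by
        rcases Nat.eq_zero_or_pos N with rfl | hpos
        · simp
        · have : Real.log (N:ℝ) ≤ Real.log ((N + 1 : ℕ) : ℝ) :=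
            Real.log_le_log (by exact_mod_cast hpos) (by push_cast; linarith)
          linarith
      have h2 : (∑ m ∈ Icc 1 N, ((Real.log m : ℝ) : ℂ) * ex (m * β) +
          ((Real.log ((N + 1 : ℕ) : ℝ) : ℝ) : ℂ) * ex (((N + 1 : ℕ) : ℝ) * β)) -
          ((Real.log ((N + 1 : ℕ) : ℝ) : ℝ) : ℂ) *
            (∑ m ∈ Icc 1 N, ex (m * β) + ex (((N + 1 : ℕ) : ℝ) * β)) =
          (∑ m ∈ Icc 1 N, ((Real.log m : ℝ) : ℂ) * ex (m * β) -
            ((Real.log N : ℝ) : ℂ) * ∑ m ∈ Icc 1 N, ex (m * β)) -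
          ((Real.log ((N + 1 : ℕ) : ℝ) - Real.log N : ℝ) : ℂ) * ∑ m ∈ Icc 1 N, ex (m * β) := by
        push_cast; ring
      rw [h2]
      refine (norm_sub_le _ _).trans ?_
      have h3 : ‖((Real.log ((N + 1 : ℕ) : ℝ) - Real.log N : ℝ) : ℂ) *
          ∑ m ∈ Icc 1 N, ex (m * β)‖ ≤ (Real.log ((N + 1 : ℕ) : ℝ) - Real.log N) * K := by
        rw [norm_mul, Complex.norm_real, Real.norm_eq_abs, abs_of_nonneg hlog]
        exact mul_le_mul_of_nonneg_left (hK N (by omega)) hlog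
      linarith
  have h4 := h1 M le_rfl
  have h5 : ‖((Real.log M : ℝ) : ℂ) * ∑ m ∈ Icc 1 M, ex (m * β)‖ ≤ K * Real.log M := by
    rw [norm_mul, Complex.norm_real, Real.norm_eq_abs, abs_of_nonneg (Real.log_natCast_nonneg _),
      mul_comm]
    exact mul_le_mul_of_nonneg_right (hK M le_rfl) (Real.log_natCast_nonneg _)
  have h6 := norm_add_le (∑ m ∈ Icc 1 M, ((Real.log m : ℝ) : ℂ) * ex (m * β) -
      ((Real.log M : ℝ) : ℂ) * ∑ m ∈ Icc 1 M, ex (m * β))
      (((Real.log M : ℝ) : ℂ) * ∑ m ∈ Icc 1 M, ex (m * β))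
  rw [sub_add_cancel] at h6
  linarith

lemma MinorPrime.coeff_le (U V d : ℕ) :
    |(BV.LU U * BV.muV V) d| ≤ Real.log d := by
  rw [ArithmeticFunction.mul_apply]
  refine (Finset.abs_sum_le_sum_abs _ _).trans ?_
  rw [← ArithmeticFunction.vonMangoldt_sum, ← Nat.sum_divisorsAntidiagonal
    (f := fun i _ => ArithmeticFunction.vonMangoldt i)]
  apply Finset.sum_le_sum
  intro p _
  rw [abs_mul]
  have h1 := BV.vau_muV_abs_le V p.2
  have h2 : |BV.LU U p.1| ≤ ArithmeticFunction.vonMangoldt p.1 := by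
    rw [abs_of_nonneg (BV.vau_LU_nonneg U p.1), BV.vau_LU_apply]
    split_ifs
    · exact le_rfl
    · exact ArithmeticFunction.vonMangoldt_nonneg
  calc |BV.LU U p.1| * |BV.muV V p.2| ≤ |BV.LU U p.1| * 1 :=
        mul_le_mul_of_nonneg_left h1 (abs_nonneg _)
    _ = |BV.LU U p.1| := mul_one _
    _ ≤ _ := h2

lemma MinorPrime.psi_eq (y : ℕ) :
    ∑ n ∈ Icc 1 y, ArithmeticFunction.vonMangoldt n = Chebyshev.psi y := by
  unfold Chebyshev.psi
  rw [Nat.floor_natCast]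
  rfl

lemma MinorPrime.theta_eq (y : ℕ) :
    ∑ n ∈ Icc 1 y, lp n = Chebyshev.theta y := by
  unfold Chebyshev.theta lp
  rw [Nat.floor_natCast, Finset.sum_filter]
  rfl

/-- Trivial bound. -/
lemma MinorPrime.trivial_bound (y : ℕ) (α : ℝ) :
    ‖∑ n ∈ Icc 1 y, ((ArithmeticFunction.vonMangoldt n : ℝ) : ℂ) * ex (n * α)‖ ≤
      (Real.log 4 + 4) * y := by
  refine (norm_sum_le _ _).trans ?_
  refine le_trans (le_of_eq ?_) (Chebyshev.psi_le_const_mul_self (Nat.cast_nonneg y))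
  rw [← MinorPrime.psi_eq]
  apply Finset.sum_congr rfl
  intro n _
  rw [norm_mul, norm_ex, mul_one, Complex.norm_real, Real.norm_eq_abs,
    abs_of_nonneg ArithmeticFunction.vonMangoldt_nonneg]

/-- The four parts of Vaughan's identity. -/
lemma MinorPrime.split (U V y : ℕ) (α : ℝ) :
    ∑ n ∈ Icc 1 y, ((ArithmeticFunction.vonMangoldt n : ℝ) : ℂ) * ex (n * α) =
      ∑ n ∈ Icc 1 y, ((BV.LU U n : ℝ) : ℂ) * ex (n * α) -
      ∑ m ∈ Icc 1 y, ∑ n ∈ Icc 1 (y / m), (((BV.LU U * BV.muV V) m *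
        (ArithmeticFunction.zeta : ArithmeticFunction ℝ) n : ℝ) : ℂ) * ex ((m * n : ℕ) * α) +
      ∑ m ∈ Icc 1 y, ∑ n ∈ Icc 1 (y / m), ((BV.muV V m * ArithmeticFunction.log n : ℝ) : ℂ) *
        ex ((m * n : ℕ) * α) +
      ∑ m ∈ Icc 1 y, ∑ n ∈ Icc 1 (y / m), ((BV.alphaU U m * BV.betaV V n : ℝ) : ℂ) *
        ex ((m * n : ℕ) * α) := by
  rw [← MinorPrime.conv_sum (BV.LU U * BV.muV V) _ (fun n => ex (n * α)),
    ← MinorPrime.conv_sum (BV.muV V) _ (fun n => ex (n * α)),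
    ← MinorPrime.conv_sum (BV.alphaU U) _ (fun n => ex (n * α)),
    ← Finset.sum_sub_distrib, ← Finset.sum_add_distrib, ← Finset.sum_add_distrib]
  apply Finset.sum_congr rfl
  intro n _
  have h := congrArg (fun f : ArithmeticFunction ℝ => f n) (BV.vaughan U V)
  simp only [ArithmeticFunction.add_apply, sub_eq_add_neg, ArithmeticFunction.neg_apply] at h
  rw [h]
  push_cast
  ring

/-- Type I sums. -/
lemma MinorPrime.typeI (y D : ℕ) (α K : ℝ) (hK : 0 ≤ K) (c g : ℕ → ℝ)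
    (hc0 : ∀ d, D < d → c d = 0) (hc : ∀ d ∈ Icc 1 y, |c d| * ‖∑ n ∈ Icc 1 (y / d),
      ((g n : ℝ) : ℂ) * ex ((d * n : ℕ) * α)‖ ≤ K * mn ((y:ℝ) / d) (α * d)) :
    ‖∑ m ∈ Icc 1 y, ∑ n ∈ Icc 1 (y / m), ((c m * g n : ℝ) : ℂ) * ex ((m * n : ℕ) * α)‖ ≤
      K * ∑ d ∈ Icc 1 D, mn ((y:ℝ) / d) (α * d) := by
  rw [Finset.mul_sum]
  refine (norm_sum_le _ _).trans ?_
  have h1 : ∀ m ∈ Icc 1 y, ‖∑ n ∈ Icc 1 (y / m), ((c m * g n : ℝ) : ℂ) * ex ((m * n : ℕ) * α)‖ ≤
      if m ≤ D then K * mn ((y:ℝ) / m) (α * m) else 0 := by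
    intro m hm
    have h2 : ∑ n ∈ Icc 1 (y / m), ((c m * g n : ℝ) : ℂ) * ex ((m * n : ℕ) * α) =
        ((c m : ℝ) : ℂ) * ∑ n ∈ Icc 1 (y / m), ((g n : ℝ) : ℂ) * ex ((m * n : ℕ) * α) := by
      rw [Finset.mul_sum]
      apply Finset.sum_congr rfl
      intro n _
      push_cast; ring
    rw [h2, norm_mul, Complex.norm_real, Real.norm_eq_abs]
    split_ifs with h
    · exact hc m hm
    · rw [hc0 m (by omega), abs_zero, zero_mul]
  refine (Finset.sum_le_sum h1).trans ?_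
  rw [← Finset.sum_filter]
  apply Finset.sum_le_sum_of_subset_of_nonneg
  · intro m hm
    rw [mem_filter, mem_Icc] at hm
    rw [mem_Icc]
    exact ⟨hm.1.1, hm.2⟩
  · intro m _ _
    exact mul_nonneg hK (mn_nonneg (by positivity) _)

lemma MinorPrime.geom_div (y d : ℕ) (_hd : 1 ≤ d) (α : ℝ) (m : ℕ) (hm : m ≤ y / d) :
    ‖∑ n ∈ Icc 1 m, ex (n * (α * d))‖ ≤ mn ((y:ℝ) / d) (α * d) := by
  refine (geom m (α * d)).trans (mn_mono (Nat.cast_nonneg _) ?_ _)
  have h1 : (m:ℝ) ≤ ((y / d : ℕ) : ℝ) := by exact_mod_cast hm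
  exact h1.trans Nat.cast_div_le

/-- The power bounds. -/
lemma MinorPrime.powers (x : ℕ) (hx : 3 ≤ x) :
    let U := ⌊(x:ℝ) ^ (1/5 : ℝ)⌋₊
    1 ≤ U ∧ (U:ℝ) ≤ (x:ℝ) ^ (9/10 : ℝ) ∧ ((U * U : ℕ) : ℝ) ≤ (x:ℝ) ^ (9/10 : ℝ) ∧ U * U ≤ x ∧
      (x:ℝ) / Real.sqrt U ≤ 2 * (x:ℝ) ^ (9/10 : ℝ) := by
  intro U
  have hx1 : (1:ℝ) ≤ x := by
    have : (3:ℝ) ≤ x := by exact_mod_cast hx
    linarith
  have hx0 : (0:ℝ) < x := by linarith
  have hp1 : (1:ℝ) ≤ (x:ℝ) ^ (1/5 : ℝ) := Real.one_le_rpow hx1 (by norm_num)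
  have hU1 : 1 ≤ U := Nat.le_floor (by simpa using hp1)
  have hUle : (U:ℝ) ≤ (x:ℝ) ^ (1/5 : ℝ) := Nat.floor_le (by positivity)
  have hUr : (1:ℝ) ≤ U := by exact_mod_cast hU1
  have hUge : (x:ℝ) ^ (1/5 : ℝ) ≤ 2 * U := by
    have := Nat.lt_floor_add_one ((x:ℝ) ^ (1/5 : ℝ))
    have h2 : (x:ℝ) ^ (1/5 : ℝ) < U + 1 := this
    linarith
  have hUU : ((U * U : ℕ) : ℝ) ≤ (x:ℝ) ^ (2/5 : ℝ) := by
    push_cast
    calc (U:ℝ) * U ≤ (x:ℝ) ^ (1/5 : ℝ) * (x:ℝ) ^ (1/5 : ℝ) :=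
          mul_le_mul hUle hUle (Nat.cast_nonneg _) (by positivity)
      _ = (x:ℝ) ^ (2/5 : ℝ) := by rw [← Real.rpow_add hx0]; norm_num
  refine ⟨hU1, ?_, ?_, ?_, ?_⟩
  · exact hUle.trans (Real.rpow_le_rpow_of_exponent_le hx1 (by norm_num))
  · exact hUU.trans (Real.rpow_le_rpow_of_exponent_le hx1 (by norm_num))
  · have h1 : ((U * U : ℕ) : ℝ) ≤ (x:ℝ) ^ (1 : ℝ) :=
      hUU.trans (Real.rpow_le_rpow_of_exponent_le hx1 (by norm_num))
    rw [Real.rpow_one] at h1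
    exact_mod_cast h1
  · have hs : (x:ℝ) ^ (1/10 : ℝ) ≤ 2 * Real.sqrt U := by
      have h1 : Real.sqrt ((x:ℝ) ^ (1/5 : ℝ)) = (x:ℝ) ^ (1/10 : ℝ) := by
        rw [Real.sqrt_eq_rpow, ← Real.rpow_mul hx0.le]; norm_num
      rw [← h1]
      have h2 : Real.sqrt ((x:ℝ) ^ (1/5 : ℝ)) ≤ Real.sqrt (2 ^ 2 * U) :=
        Real.sqrt_le_sqrt (by linarith)
      rw [Real.sqrt_mul (by norm_num), Real.sqrt_sq (by norm_num)] at h2
      exact h2
    have hsp : 0 < Real.sqrt U := Real.sqrt_pos.2 (by linarith)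
    rw [div_le_iff₀ hsp]
    have h3 : (x:ℝ) = (x:ℝ) ^ (9/10 : ℝ) * (x:ℝ) ^ (1/10 : ℝ) := by
      rw [← Real.rpow_add hx0]; norm_num
    calc (x:ℝ) = (x:ℝ) ^ (9/10 : ℝ) * (x:ℝ) ^ (1/10 : ℝ) := h3
      _ ≤ (x:ℝ) ^ (9/10 : ℝ) * (2 * Real.sqrt U) :=
          mul_le_mul_of_nonneg_left hs (by positivity)
      _ = _ := by ring

theorem minor_prime : ∃ C : ℝ, ∃ k : ℕ, 0 < C ∧ ∀ (x y q : ℕ) (a : ℤ) (α : ℝ),
    3 ≤ x → y ≤ x → 1 ≤ q → q ≤ x → IsCoprime a (q : ℤ) → |α - a / q| ≤ 1 / (q : ℝ) ^ 2 →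
    ‖∑ n ∈ Icc 1 y, ((ArithmeticFunction.vonMangoldt n : ℝ) : ℂ) * ex (n * α)‖ ≤
      C * (x / Real.sqrt q + (x : ℝ) ^ (9 / 10 : ℝ) + Real.sqrt (x * q)) * Real.log x ^ k := by
  obtain ⟨C₁, hC₁, h1⟩ := sum_mn_div
  obtain ⟨C₂, k, hC₂, h2⟩ := type_two
  have hc4 : 0 < Real.log 4 + 4 := by
    have := Real.log_nonneg (by norm_num : (1:ℝ) ≤ 4)
    linarith
  refine ⟨(Real.log 4 + 4) + 5 * C₁ + 10 * C₁ + C₂ * 5 * 2 ^ k, k + 2, by positivity, ?_⟩
  intro x y q a α hx hyx hq hqx hcop happ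
  set L : ℝ := Real.log x with hL
  have hx3 : (3:ℝ) ≤ x := by exact_mod_cast hx
  have hx0 : (0:ℝ) < x := by linarith only [hx3]
  have hL1 : 1 ≤ L := by
    rw [hL, Real.le_log_iff_exp_le hx0]
    have := Real.exp_one_lt_d9
    linarith only [hx3, this]
  have hL0 : 0 < L := by linarith only [hL1]
  have hqr : (1:ℝ) ≤ q := by exact_mod_cast hq
  have hqxr : (q:ℝ) ≤ x := by exact_mod_cast hqx
  have hyxr : (y:ℝ) ≤ x := by exact_mod_cast hyx
  set E : ℝ := x / Real.sqrt q + (x : ℝ) ^ (9 / 10 : ℝ) + Real.sqrt (x * q) with hE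
  have hsq : 0 < Real.sqrt q := Real.sqrt_pos.2 (by linarith only [hqr])
  have hE1 : x / Real.sqrt q ≤ E := by
    have : 0 ≤ (x : ℝ) ^ (9 / 10 : ℝ) := by positivity
    have : 0 ≤ Real.sqrt (x * q) := Real.sqrt_nonneg _
    rw [hE]; linarith
  have hE2 : (x : ℝ) ^ (9 / 10 : ℝ) ≤ E := by
    have : 0 ≤ x / Real.sqrt q := by positivity
    have : 0 ≤ Real.sqrt (x * q) := Real.sqrt_nonneg _
    rw [hE]; linarith
  have hE3 : Real.sqrt (x * q) ≤ E := by
    have : 0 ≤ x / Real.sqrt q := by positivity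
    have : 0 ≤ (x : ℝ) ^ (9 / 10 : ℝ) := by positivity
    rw [hE]; linarith
  have hE0 : 0 ≤ E := le_trans (by positivity) hE2
  have hLk : 1 ≤ L ^ (k + 2) := one_le_pow₀ hL1
  rcases Nat.lt_or_ge y q with hyq | hqy
  · -- trivial range
    refine (MinorPrime.trivial_bound y α).trans ?_
    have h3 : (y:ℝ) ≤ E := by
      refine le_trans ?_ hE3
      apply Real.le_sqrt_of_sq_le
      have : (y:ℝ) ≤ q := by exact_mod_cast hyq.le
      nlinarith only [hyxr, this, (Nat.cast_nonneg y : (0:ℝ) ≤ y)]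
    have h4 : 0 ≤ 5 * C₁ + 10 * C₁ + C₂ * 5 * 2 ^ k := by (clear * - hC₁ hC₂; positivity)
    calc (Real.log 4 + 4) * (y:ℝ) ≤ (Real.log 4 + 4) * E :=
          mul_le_mul_of_nonneg_left h3 hc4.le
      _ ≤ ((Real.log 4 + 4) + 5 * C₁ + 10 * C₁ + C₂ * 5 * 2 ^ k) * E :=
          mul_le_mul_of_nonneg_right (by linarith only [h4]) hE0
      _ = ((Real.log 4 + 4) + 5 * C₁ + 10 * C₁ + C₂ * 5 * 2 ^ k) * E * 1 := by ring
      _ ≤ _ := mul_le_mul_of_nonneg_left hLk (by (clear * - hC₁ hC₂ hx hq; positivity))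
  · obtain ⟨hU1, hU2, hU3, hU4, hU5⟩ := MinorPrime.powers x hx
    set U : ℕ := ⌊(x:ℝ) ^ (1/5 : ℝ)⌋₊ with hU
    have hy1 : 1 ≤ y := le_trans hq hqy
    have hyr : (1:ℝ) ≤ y := by exact_mod_cast hy1
    have hUr : (1:ℝ) ≤ U := by exact_mod_cast hU1
    -- part 1
    have p1 : ‖∑ n ∈ Icc 1 y, ((BV.LU U n : ℝ) : ℂ) * ex (n * α)‖ ≤ (Real.log 4 + 4) * E := by
      refine (norm_sum_le _ _).trans ?_
      have h3 : ∀ n ∈ Icc 1 y, ‖((BV.LU U n : ℝ) : ℂ) * ex (n * α)‖ ≤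
          if n ≤ U then ArithmeticFunction.vonMangoldt n else 0 := by
        intro n _
        rw [norm_mul, norm_ex, mul_one, Complex.norm_real, Real.norm_eq_abs,
          abs_of_nonneg (BV.vau_LU_nonneg U n), BV.vau_LU_apply]
      refine (Finset.sum_le_sum h3).trans ?_
      rw [← Finset.sum_filter]
      have h4 : ∑ n ∈ (Icc 1 y).filter (fun n => n ≤ U), ArithmeticFunction.vonMangoldt n ≤
          ∑ n ∈ Icc 1 U, ArithmeticFunction.vonMangoldt n := by
        apply Finset.sum_le_sum_of_subset_of_nonneg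
        · intro n hn
          rw [mem_filter, mem_Icc] at hn
          rw [mem_Icc]
          exact ⟨hn.1.1, hn.2⟩
        · intro n _ _
          exact ArithmeticFunction.vonMangoldt_nonneg
      refine h4.trans ?_
      rw [MinorPrime.psi_eq]
      refine (Chebyshev.psi_le_const_mul_self (Nat.cast_nonneg U)).trans ?_
      exact mul_le_mul_of_nonneg_left (hU2.trans hE2) hc4.le
    have hlogb : ∀ D : ℕ, D ≤ x → Real.log (4 * q * ((D:ℝ) + 1)) ≤ 5 * L := by
      intro D hD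
      have hDr : (D:ℝ) ≤ x := by exact_mod_cast hD
      have h3 : (4:ℝ) * q * ((D:ℝ) + 1) ≤ (x:ℝ) ^ 5 := by
        have h5 : (4:ℝ) * q * ((D:ℝ) + 1) ≤ 4 * x * (x + 1) := by
          have := (Nat.cast_nonneg D : (0:ℝ) ≤ D)
          gcongr
        have h6 : 4 * (x:ℝ) * (x + 1) ≤ (x:ℝ) ^ 5 := by
          have h7 : (27:ℝ) ≤ (x:ℝ) ^ 3 := by
            calc (27:ℝ) = 3 ^ 3 := by norm_num
              _ ≤ _ := pow_le_pow_left₀ (by norm_num) hx3 3
          have h8 : (x:ℝ) ^ 5 = (x:ℝ) ^ 3 * (x * x) := by ring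
          rw [h8]
          nlinarith only [hx3, h7]
        linarith only [h5, h6]
      have h4 := Real.log_le_log (by (clear * - hq; positivity)) h3
      rw [Real.log_pow] at h4
      push_cast at h4
      exact h4
    have hmnsum : ∀ D : ℕ, D ≤ x → (D:ℝ) ≤ (x:ℝ) ^ (9/10 : ℝ) →
        ∑ d ∈ Icc 1 D, mn ((y:ℝ) / d) (α * d) ≤ C₁ * E * (5 * L) := by
      intro D hD hD2
      refine (h1 q D a α y hq hcop happ (Nat.cast_nonneg y)).trans ?_
      have h3 : (y:ℝ) / q + D + q ≤ E := by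
        have h4 : (y:ℝ) / q ≤ x / Real.sqrt q := by
          apply div_le_div₀ hx0.le hyxr hsq
          rw [Real.sqrt_le_left (by linarith only [hqr])]
          nlinarith only [hqr]
        have h5 : (q:ℝ) ≤ Real.sqrt (x * q) := by
          apply Real.le_sqrt_of_sq_le
          nlinarith only [hqxr]
        rw [hE]; linarith only [hD2, h4, h5]
      have h4 := hlogb D hD
      have h5 : 0 ≤ (y:ℝ) / q + D + q := by (clear * - hq hy1; positivity)
      have h6 : 0 ≤ Real.log (4 * q * ((D:ℝ) + 1)) := by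
        apply Real.log_nonneg
        have := (Nat.cast_nonneg D : (0:ℝ) ≤ D)
        nlinarith only [hqr]
      gcongr
    -- part 2
    have p2 : ‖∑ m ∈ Icc 1 y, ∑ n ∈ Icc 1 (y / m), (((BV.LU U * BV.muV U) m *
        (ArithmeticFunction.zeta : ArithmeticFunction ℝ) n : ℝ) : ℂ) * ex ((m * n : ℕ) * α)‖ ≤
        5 * C₁ * E * L ^ 2 := by
      refine (MinorPrime.typeI y (U * U) α L hL0.le (fun m => (BV.LU U * BV.muV U) m)
        (fun n => (ArithmeticFunction.zeta : ArithmeticFunction ℝ) n)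
        (fun d hd => BV.LU_mul_muV_apply_of_gt hd) ?_).trans ?_
      · intro d hd
        rw [mem_Icc] at hd
        have h3 : ∑ n ∈ Icc 1 (y / d),
            (((ArithmeticFunction.zeta : ArithmeticFunction ℝ) n : ℝ) : ℂ) *
              ex ((d * n : ℕ) * α) = ∑ n ∈ Icc 1 (y / d), ex (n * (α * d)) := by
          apply Finset.sum_congr rfl
          intro n hn
          rw [mem_Icc] at hn
          have h4 : (ArithmeticFunction.zeta : ArithmeticFunction ℝ) n = 1 := by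
            rw [ArithmeticFunction.natCoe_apply, ArithmeticFunction.zeta_apply,
              if_neg (by omega)]
            simp
          rw [h4]
          push_cast
          rw [one_mul]
          congr 1
          ring
        rw [h3]
        have h4 : |(BV.LU U * BV.muV U) d| ≤ L := by
          refine (MinorPrime.coeff_le U U d).trans ?_
          apply Real.log_le_log (by exact_mod_cast hd.1)
          have : (d:ℝ) ≤ y := by exact_mod_cast hd.2
          linarith only [hyxr, this]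
        exact mul_le_mul h4 (MinorPrime.geom_div y d hd.1 α _ le_rfl) (norm_nonneg _) hL0.le
      · have h5 := hmnsum (U * U) hU4 hU3
        calc L * ∑ d ∈ Icc 1 (U * U), mn ((y:ℝ) / d) (α * d) ≤ L * (C₁ * E * (5 * L)) :=
              mul_le_mul_of_nonneg_left h5 hL0.le
          _ = _ := by ring
    -- part 3
    have p3 : ‖∑ m ∈ Icc 1 y, ∑ n ∈ Icc 1 (y / m),
        ((BV.muV U m * ArithmeticFunction.log n : ℝ) : ℂ) * ex ((m * n : ℕ) * α)‖ ≤
        10 * C₁ * E * L ^ 2 := by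
      refine (MinorPrime.typeI y U α (2 * L) (by linarith only [hL1]) (fun m => BV.muV U m)
        (fun n => ArithmeticFunction.log n) (fun d hd => by
          show BV.muV U d = 0
          rw [BV.vau_muV_apply, if_neg (by omega)]) ?_).trans ?_
      · intro d hd
        rw [mem_Icc] at hd
        have h3 : ∑ n ∈ Icc 1 (y / d), ((ArithmeticFunction.log n : ℝ) : ℂ) *
              ex ((d * n : ℕ) * α) =
            ∑ n ∈ Icc 1 (y / d), ((Real.log n : ℝ) : ℂ) * ex (n * (α * d)) := by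
          apply Finset.sum_congr rfl
          intro n _
          rw [ArithmeticFunction.log_apply]
          congr 2
          push_cast; ring
        rw [h3]
        have h4 := MinorPrime.log_sum (mn ((y:ℝ) / d) (α * d)) (α * d) (y / d)
          (fun m hm => MinorPrime.geom_div y d hd.1 α m hm)
        have h5 := BV.vau_muV_abs_le U d
        have h6 : Real.log ((y / d : ℕ) : ℝ) ≤ L := by
          rcases Nat.eq_zero_or_pos (y / d) with h0 | h0
          · rw [h0]; simpa using hL0.le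
          · apply Real.log_le_log (by exact_mod_cast h0)
            have h7 : y / d ≤ x := (Nat.div_le_self _ _).trans hyx
            exact_mod_cast h7
        have h7 : 0 ≤ mn ((y:ℝ) / d) (α * d) := mn_nonneg (by (clear * - hy1; positivity)) _
        calc |BV.muV U d| * ‖∑ n ∈ Icc 1 (y / d), ((Real.log n : ℝ) : ℂ) * ex (n * (α * d))‖
            ≤ 1 * (2 * (mn ((y:ℝ) / d) (α * d) * Real.log ((y / d : ℕ) : ℝ))) :=
              mul_le_mul h5 h4 (norm_nonneg _) zero_le_one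
          _ ≤ 1 * (2 * (mn ((y:ℝ) / d) (α * d) * L)) := by gcongr
          _ = 2 * L * mn ((y:ℝ) / d) (α * d) := by ring
      · have h5 := hmnsum U (by
          have : U ≤ U * U := Nat.le_mul_of_pos_left U (by omega)
          omega) hU2
        calc 2 * L * ∑ d ∈ Icc 1 U, mn ((y:ℝ) / d) (α * d) ≤ 2 * L * (C₁ * E * (5 * L)) :=
              mul_le_mul_of_nonneg_left h5 (by linarith only [hL1])
          _ = _ := by ring
    -- part 4
    have p4 : ‖∑ m ∈ Icc 1 y, ∑ n ∈ Icc 1 (y / m), ((BV.alphaU U m * BV.betaV U n : ℝ) : ℂ) *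
        ex ((m * n : ℕ) * α)‖ ≤ C₂ * 5 * 2 ^ k * E * L ^ k := by
      refine (h2 y U U q a α (fun m => BV.alphaU U m) (fun n => BV.betaV U n) hU1 hU1 hq hqy
        hcop happ (fun m hm => BV.alphaU_apply_of_le hm)
        (fun n hn => BV.betaV_apply_of_le hU1 hn) (fun m => BV.alphaU_abs_le U m)
        (fun n => BV.betaV_abs_le hU1 n)).trans ?_
      have h3 : y / Real.sqrt q + y / Real.sqrt U + y / Real.sqrt U + Real.sqrt (y * q) ≤
          5 * E := by
        have hsU : 0 < Real.sqrt U := Real.sqrt_pos.2 (by linarith only [hUr])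
        have e1 : (y:ℝ) / Real.sqrt q ≤ x / Real.sqrt q := div_le_div_of_nonneg_right hyxr hsq.le
        have e2 : (y:ℝ) / Real.sqrt U ≤ 2 * (x:ℝ) ^ (9/10 : ℝ) :=
          (div_le_div_of_nonneg_right hyxr hsU.le).trans hU5
        have e3 : Real.sqrt (y * q) ≤ Real.sqrt (x * q) :=
          Real.sqrt_le_sqrt (mul_le_mul_of_nonneg_right hyxr (by linarith only [hqr]))
        have e4 : x / Real.sqrt q + Real.sqrt (x * q) + (x:ℝ) ^ (9/10 : ℝ) ≤ E := by
          rw [hE]; linarith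
        linarith only [hE2, hU2, hUr, e1, e2, e3]
      have h4 : Real.log ((y:ℝ) + 2) ≤ 2 * L := by
        have h5 : (y:ℝ) + 2 ≤ (x:ℝ) ^ 2 := by nlinarith only [hx3, hyxr]
        have h6 := Real.log_le_log (by (clear * - hy1; positivity)) h5
        rw [Real.log_pow] at h6
        push_cast at h6
        exact h6
      have h5 : 0 ≤ Real.log ((y:ℝ) + 2) := Real.log_nonneg (by linarith only [hyr])
      calc C₂ * (y / Real.sqrt q + y / Real.sqrt U + y / Real.sqrt U + Real.sqrt (y * q)) *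
            Real.log ((y:ℝ) + 2) ^ k ≤ C₂ * (5 * E) * (2 * L) ^ k := by gcongr
        _ = _ := by rw [mul_pow]; ring
    rw [MinorPrime.split U U y α]
    have q1 : (Real.log 4 + 4) * E ≤ (Real.log 4 + 4) * E * L ^ (k + 2) :=
      le_mul_of_one_le_right (by (clear * - hx hq; positivity)) hLk
    have q2 : L ^ 2 ≤ L ^ (k + 2) := pow_le_pow_right₀ hL1 (by omega)
    have q3 : L ^ k ≤ L ^ (k + 2) := pow_le_pow_right₀ hL1 (by omega)
    have q4 : 5 * C₁ * E * L ^ 2 ≤ 5 * C₁ * E * L ^ (k + 2) :=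
      mul_le_mul_of_nonneg_left q2 (by (clear * - hC₁ hx hq; positivity))
    have q5 : 10 * C₁ * E * L ^ 2 ≤ 10 * C₁ * E * L ^ (k + 2) :=
      mul_le_mul_of_nonneg_left q2 (by (clear * - hC₁ hx hq; positivity))
    have q6 : C₂ * 5 * 2 ^ k * E * L ^ k ≤ C₂ * 5 * 2 ^ k * E * L ^ (k + 2) :=
      mul_le_mul_of_nonneg_left q3 (by (clear * - hC₂ hx hq; positivity))
    refine (norm_add_le _ _).trans ?_
    refine (add_le_add_left (norm_add_le _ _) _).trans ?_
    refine (add_le_add_left (add_le_add_left (norm_sub_le _ _) _) _).trans ?_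
    have : ((Real.log 4 + 4) + 5 * C₁ + 10 * C₁ + C₂ * 5 * 2 ^ k) * E * L ^ (k + 2) =
        (Real.log 4 + 4) * E * L ^ (k + 2) + 5 * C₁ * E * L ^ (k + 2) +
        10 * C₁ * E * L ^ (k + 2) + C₂ * 5 * 2 ^ k * E * L ^ (k + 2) := by ring
    rw [this]
    linarith only [p1, p2, p3, p4, q1, q4, q6]

theorem minor_lp : ∃ C : ℝ, ∃ k : ℕ, 0 < C ∧ ∀ (x y q : ℕ) (a : ℤ) (α : ℝ),
    3 ≤ x → y ≤ x → 1 ≤ q → q ≤ x → IsCoprime a (q : ℤ) → |α - a / q| ≤ 1 / (q : ℝ) ^ 2 →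
    ‖esum lp y α‖ ≤
      C * (x / Real.sqrt q + (x : ℝ) ^ (9 / 10 : ℝ) + Real.sqrt (x * q)) * Real.log x ^ k := by
  obtain ⟨C, k, hC, h⟩ := minor_prime
  refine ⟨C + 2, k + 1, by positivity, ?_⟩
  intro x y q a α hx hyx hq hqx hcop happ
  have h1 := h x y q a α hx hyx hq hqx hcop happ
  set L : ℝ := Real.log x with hL
  have hx3 : (3:ℝ) ≤ x := by exact_mod_cast hx
  have hx0 : (0:ℝ) < x := by linarith
  have hL1 : 1 ≤ L := by
    rw [hL, Real.le_log_iff_exp_le hx0]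
    have := Real.exp_one_lt_d9
    linarith only [hx3, this]
  have hyxr : (y:ℝ) ≤ x := by exact_mod_cast hyx
  set E : ℝ := x / Real.sqrt q + (x : ℝ) ^ (9 / 10 : ℝ) + Real.sqrt (x * q) with hE
  have hE2 : (x : ℝ) ^ (9 / 10 : ℝ) ≤ E := by
    have : 0 ≤ x / Real.sqrt q := by positivity
    have : 0 ≤ Real.sqrt (x * q) := Real.sqrt_nonneg _
    rw [hE]; linarith
  have hE0 : 0 ≤ E := le_trans (by positivity) hE2
  have h2 : ‖esum lp y α - ∑ n ∈ Icc 1 y, ((ArithmeticFunction.vonMangoldt n : ℝ) : ℂ) *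
      ex (n * α)‖ ≤ 2 * E * L := by
    unfold esum
    rw [← Finset.sum_sub_distrib]
    refine (norm_sum_le _ _).trans ?_
    have h3 : ∀ n ∈ Icc 1 y, ‖((lp n : ℝ) : ℂ) * ex (n * α) -
        ((ArithmeticFunction.vonMangoldt n : ℝ) : ℂ) * ex (n * α)‖ =
        ArithmeticFunction.vonMangoldt n - lp n := by
      intro n _
      rw [← sub_mul, norm_mul, norm_ex, mul_one, ← Complex.ofReal_sub, Complex.norm_real,
        Real.norm_eq_abs, abs_sub_comm, abs_of_nonneg]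
      unfold lp
      split_ifs with hp
      · rw [ArithmeticFunction.vonMangoldt_apply_prime hp, sub_self]
      · rw [sub_zero]
        exact ArithmeticFunction.vonMangoldt_nonneg
    rw [Finset.sum_congr rfl h3, Finset.sum_sub_distrib, MinorPrime.psi_eq, MinorPrime.theta_eq]
    rcases Nat.eq_zero_or_pos y with rfl | hy
    · simp
      positivity
    · have hyr : (1:ℝ) ≤ y := by exact_mod_cast hy
      refine (le_abs_self _).trans ((Chebyshev.abs_psi_sub_theta_le_sqrt_mul_log hyr).trans ?_)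
      have e1 : Real.sqrt y ≤ E := by
        refine le_trans ?_ hE2
        rw [Real.sqrt_eq_rpow]
        calc (y:ℝ) ^ (1/2 : ℝ) ≤ (x:ℝ) ^ (1/2 : ℝ) :=
              Real.rpow_le_rpow (by linarith only [hyr]) hyxr (by norm_num)
          _ ≤ _ := Real.rpow_le_rpow_of_exponent_le (by linarith only [hx3]) (by norm_num)
      have e2 : Real.log y ≤ L := Real.log_le_log (by linarith only [hyr]) hyxr
      have e3 : 0 ≤ Real.log y := Real.log_nonneg hyr
      gcongr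
  have h4 : esum lp y α = (esum lp y α - ∑ n ∈ Icc 1 y,
      ((ArithmeticFunction.vonMangoldt n : ℝ) : ℂ) * ex (n * α)) +
      ∑ n ∈ Icc 1 y, ((ArithmeticFunction.vonMangoldt n : ℝ) : ℂ) * ex (n * α) := by ring
  rw [h4]
  refine (norm_add_le _ _).trans ?_
  have h5 : L ^ k ≤ L ^ (k + 1) := pow_le_pow_right₀ hL1 (by omega)
  have h6 : L ≤ L ^ (k + 1) := by
    calc L = L ^ 1 := (pow_one L).symm
      _ ≤ _ := pow_le_pow_right₀ hL1 (by omega)
  have h7 : C * E * L ^ k ≤ C * E * L ^ (k + 1) := mul_le_mul_of_nonneg_left h5 (by positivity)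
  have h8 : 2 * E * L ≤ 2 * E * L ^ (k + 1) := mul_le_mul_of_nonneg_left h6 (by positivity)
  have h9 : (C + 2) * E * L ^ (k + 1) = 2 * E * L ^ (k + 1) + C * E * L ^ (k + 1) := by ring
  rw [h9]
  linarith only [h1, h2, h7, h8]

end Pool.Agent.HLT
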