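import Pool.Agent.Lib.HLT.FourierOne

/-!
# The spectral hypothesis and the energy hypothesis

PROOF SKETCH. `N = 4 x + 1 <= 5 x`. By `spec_card`, for `L1 = L^b`, `L = log x`:
`#Spec <= L^(2 s b) N (2 s + 1) energy / |T|^(2s) <= 5 (2 s + 1) L^(2 s b + C) <= L^(2 s b + C + 1)` as soon as
`L >= 5 (2 s + 1)` (the same `x` works for all `b`).
-/

set_option autoImplicit false

open Finset Filter

namespace Pool.Agent.HLT

/-- The spectral hypothesis: `T ⊆ [0, x]` and for all `b ≤ b0` at most `(log x)^(F b)` of the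
frequencies `ζ / (4 x + 1)` satisfy `|∑ t ∈ T, e(t ζ / (4 x + 1))| ≥ |T| / (log x)^b`. -/
def SpC (F : ℕ → ℕ) (b0 x : ℕ) (T : Finset ℕ) : Prop :=
  T ⊆ range (x + 1) ∧
    ∀ b ≤ b0, ((Spec (4 * x + 1) T (Real.log x ^ b)).card : ℝ) ≤ Real.log x ^ F b

/-- The energy hypothesis: `T ⊆ [0, x]` and `x E_s(T) ≤ |T|^(2s) (log x)^C`. -/
def EnC (s C x : ℕ) (T : Finset ℕ) : Prop :=
  T ⊆ range (x + 1) ∧ (x : ℝ) * energy s T ≤ (T.card : ℝ) ^ (2 * s) * Real.log x ^ C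

lemma SpC.mono {F : ℕ → ℕ} {b0 b1 x : ℕ} {T : Finset ℕ} (h : SpC F b1 x T) (hb : b0 ≤ b1) :
    SpC F b0 x T := ⟨h.1, fun b hb' => h.2 b (hb'.trans hb)⟩

theorem spec_of_energy (s C : ℕ) (hs : 1 ≤ s) : ∀ᶠ x : ℕ in atTop, ∀ T : Finset ℕ, T.Nonempty →
    EnC s C x T → ∀ b0 : ℕ, SpC (fun b => 2 * s * b + C + 1) b0 x T := by
  have hlog : Tendsto (fun x : ℕ => Real.log x) atTop atTop :=
    Real.tendsto_log_atTop.comp tendsto_natCast_atTop_atTop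
  filter_upwards [hlog.eventually_ge_atTop (5 * (2 * s + 1) : ℝ), eventually_ge_atTop 1]
    with x hx hx1 T hT0 hE b0
  obtain ⟨hT, hE⟩ := hE
  refine ⟨hT, fun b _ => ?_⟩
  set L : ℝ := Real.log x with hL
  have hs0 : (0 : ℝ) ≤ s := Nat.cast_nonneg s
  have hL1 : 1 ≤ L := by nlinarith
  have hL0 : 0 < L := by linarith
  have hx1' : (1 : ℝ) ≤ x := by exact_mod_cast hx1
  have hT1 : (0 : ℝ) < (T.card : ℝ) ^ (2 * s) := by
    have := Finset.card_pos.2 hT0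
    positivity
  have hsp := spec_card (4 * x + 1) x s hs (by omega) T hT hT0 (L ^ b) (by positivity)
  have hen0 : (0 : ℝ) ≤ energy s T := by positivity
  have h1 : ((4 * x + 1 : ℕ) : ℝ) ≤ 5 * x := by push_cast; linarith
  have h2 : ((Spec (4 * x + 1) T (L ^ b)).card : ℝ) * (T.card : ℝ) ^ (2 * s) ≤
      L ^ (2 * s * b + C + 1) * (T.card : ℝ) ^ (2 * s) := by
    calc ((Spec (4 * x + 1) T (L ^ b)).card : ℝ) * (T.card : ℝ) ^ (2 * s)
        ≤ (L ^ b) ^ (2 * s) * (((4 * x + 1 : ℕ) : ℝ) * ((2 * s + 1) * energy s T)) := hsp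
      _ ≤ (L ^ b) ^ (2 * s) * ((5 * x) * ((2 * s + 1) * energy s T)) := by gcongr
      _ = (L ^ b) ^ (2 * s) * (5 * (2 * s + 1)) * (x * energy s T) := by ring
      _ ≤ (L ^ b) ^ (2 * s) * L * ((T.card : ℝ) ^ (2 * s) * L ^ C) := by gcongr
      _ = L ^ (2 * s * b + C + 1) * (T.card : ℝ) ^ (2 * s) := by
          rw [← pow_mul, pow_succ, pow_add, mul_comm b (2 * s)]; ring
  exact le_of_mul_le_mul_right h2 hT1

end Pool.Agent.HLT
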