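import Pool.Agent.Lib.HLT.ClassBound

/-!
# Major arcs

PROOF SKETCH. `z = zA A x`, `L = log x`, `f = ff z`.
`F u := sum_{n <= u} f n ex (n a / q) = sum_{b < q} ex (a b / q) sum_{n <= u, n % q = b} f n`, so
`|F u| <= q (x / L^B' + log q) <= L^A (x / L^B' + L)` for all `u <= 2 x`. Partial summation:
`esum f y (a/q + β) = F y ex (y β) - sum_{u < y} F u (ex ((u+1) β) - ex (u β))`,
`|ex ((u+1) β) - ex (u β)| <= 2 π |β|`, so the total is `<= sup |F| (1 + 2 π |β| 2 x) <= sup |F| (1 + 4 π L^A)`.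
-/

set_option autoImplicit false

open Finset Filter

namespace Pool.Agent.HLT

open Pool.Agent.HLB

lemma major_abel (c g : ℕ → ℂ) (y : ℕ) :
    ∑ n ∈ Icc 1 y, c n * g n =
      (∑ n ∈ Icc 1 y, c n) * g y -
        ∑ u ∈ range y, (∑ n ∈ Icc 1 u, c n) * (g (u + 1) - g u) := by
  induction y with
  | zero => simp
  | succ y ih =>
    rw [Finset.sum_Icc_succ_top (by omega), Finset.sum_Icc_succ_top (by omega), ih,
      Finset.sum_range_succ]
    ring

lemma norm_ex_sub_le (u : ℕ) (β : ℝ) :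
    ‖ex (((u + 1 : ℕ) : ℝ) * β) - ex ((u : ℝ) * β)‖ ≤ 2 * Real.pi * |β| := by
  have h1 : ex (((u + 1 : ℕ) : ℝ) * β) - ex ((u : ℝ) * β) = ex ((u : ℝ) * β) * (ex β - 1) := by
    rw [mul_sub, mul_one, ← ex_add]
    congr 2
    push_cast
    ring
  rw [h1, norm_mul, norm_ex, one_mul]
  unfold ex
  have h2 : (2 * Real.pi * β * Complex.I : ℂ) = Complex.I * ((2 * Real.pi * β : ℝ) : ℂ) := by
    push_cast
    ring
  rw [h2]
  have h3 := Real.norm_exp_I_mul_ofReal_sub_one_le (x := 2 * Real.pi * β)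
  refine h3.trans ?_
  rw [Real.norm_eq_abs, abs_mul, abs_of_pos (by positivity : (0 : ℝ) < 2 * Real.pi)]

lemma ex_class (q n : ℕ) (a : ℤ) (hq : 1 ≤ q) :
    ex ((n : ℝ) * (a / q)) = ex (((n % q : ℕ) : ℝ) * (a / q)) := by
  have hq' : (q : ℝ) ≠ 0 := by positivity
  have h0 := Nat.mod_add_div n q
  generalize n / q = k at h0
  generalize n % q = r at h0 ⊢
  have h1 : (n : ℝ) = (r : ℝ) + (q : ℝ) * (k : ℝ) := by
    rw [← h0]
    push_cast
    ring
  have h2 : (n : ℝ) * (a / q) = (r : ℝ) * (a / q) + (((k : ℤ) * a : ℤ) : ℝ) := by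
    rw [h1]
    push_cast
    field_simp
  rw [h2, ex_add_int]

theorem major_sum (A B : ℕ) : ∀ᶠ x : ℕ in atTop, ∀ (y q : ℕ) (a : ℤ) (β : ℝ), y ≤ 2 * x →
    1 ≤ q → q ≤ zA A x → |β| ≤ Real.log x ^ A / x →
    ‖esum (ff (zA A x)) y (a / q + β)‖ ≤ x / Real.log x ^ B := by
  have hL : ∀ᶠ x : ℕ in atTop, (14 : ℝ) ≤ Real.log x :=
    (Real.tendsto_log_atTop.comp tendsto_natCast_atTop_atTop).eventually_ge_atTop 14
  filter_upwards [class_bound A (B + 2 * A + 1), hL, eventually_ge_atTop 1] with x hx hL hx1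
  intro y q a β hy hq1 hq hβ
  set L := Real.log x with hLdef
  have hLpos : 0 < L := by linarith
  have hx0 : (0 : ℝ) < x := by exact_mod_cast hx1
  have hqL : (q : ℝ) ≤ L ^ A := by
    have h1 : (q : ℝ) ≤ (zA A x : ℕ) := by exact_mod_cast hq
    refine h1.trans ?_
    unfold zA
    exact Nat.floor_le (by positivity)
  set f := ff (zA A x) with hf
  set M : ℝ := L ^ A * (x / L ^ (B + 2 * A + 1)) with hM
  have hMnn : 0 ≤ M := by positivity
  -- the bound for F
  have hF : ∀ u : ℕ, u ≤ 2 * x →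
      ‖∑ n ∈ Icc 1 u, (f n : ℂ) * ex ((n : ℝ) * (a / q))‖ ≤ M := by
    intro u hu
    have h1 : ∑ n ∈ Icc 1 u, (f n : ℂ) * ex ((n : ℝ) * (a / q)) =
        ∑ b ∈ range q, ex ((b : ℝ) * (a / q)) *
          ((∑ n ∈ (Icc 1 u).filter (fun n => n % q = b % q), f n : ℝ) : ℂ) := by
      rw [← Finset.sum_fiberwise_of_maps_to (s := Icc 1 u) (t := range q) (g := fun n => n % q)
        (fun n _ => Finset.mem_range.mpr (Nat.mod_lt _ hq1))]
      refine Finset.sum_congr rfl (fun b hb => ?_)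
      rw [Finset.mem_range] at hb
      have hset : (Icc 1 u).filter (fun n => n % q = b % q) =
          (Icc 1 u).filter (fun n => n % q = b) := by
        rw [Nat.mod_eq_of_lt hb]
      rw [hset]
      push_cast
      rw [Finset.mul_sum]
      refine Finset.sum_congr rfl (fun n hn => ?_)
      rw [Finset.mem_filter] at hn
      rw [ex_class q n a hq1, hn.2, mul_comm]
    rw [h1]
    refine (norm_sum_le _ _).trans ?_
    have h2 : ∀ b ∈ range q, ‖ex ((b : ℝ) * (a / q)) *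
          ((∑ n ∈ (Icc 1 u).filter (fun n => n % q = b % q), f n : ℝ) : ℂ)‖ ≤
        x / L ^ (B + 2 * A + 1) := by
      intro b _
      rw [norm_mul, norm_ex, one_mul, Complex.norm_real, Real.norm_eq_abs]
      exact hx u hu q b hq1 hq
    refine (Finset.sum_le_sum h2).trans ?_
    rw [Finset.sum_const, Finset.card_range, nsmul_eq_mul, hM]
    exact mul_le_mul_of_nonneg_right hqL (by positivity)
  have hsum : esum f y (a / q + β) =
      ∑ n ∈ Icc 1 y, ((f n : ℂ) * ex ((n : ℝ) * (a / q))) * ex ((n : ℝ) * β) := by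
    unfold esum
    refine Finset.sum_congr rfl (fun n _ => ?_)
    rw [mul_add, ex_add, mul_assoc]
  rw [hsum, major_abel (fun n => (f n : ℂ) * ex ((n : ℝ) * (a / q))) (fun n => ex ((n : ℝ) * β)) y]
  refine (norm_sub_le _ _).trans ?_
  have hA : ‖(∑ n ∈ Icc 1 y, (f n : ℂ) * ex ((n : ℝ) * (a / q))) * ex ((y : ℝ) * β)‖ ≤ M := by
    rw [norm_mul, norm_ex, mul_one]
    exact hF y hy
  have hB : ‖∑ u ∈ range y, (∑ n ∈ Icc 1 u, (f n : ℂ) * ex ((n : ℝ) * (a / q))) *
      (ex (((u + 1 : ℕ) : ℝ) * β) - ex ((u : ℝ) * β))‖ ≤ 2 * x * (M * (2 * Real.pi * |β|)) := by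
    refine (norm_sum_le _ _).trans ?_
    have h2 : ∀ u ∈ range y, ‖(∑ n ∈ Icc 1 u, (f n : ℂ) * ex ((n : ℝ) * (a / q))) *
        (ex (((u + 1 : ℕ) : ℝ) * β) - ex ((u : ℝ) * β))‖ ≤ M * (2 * Real.pi * |β|) := by
      intro u hu
      rw [Finset.mem_range] at hu
      rw [norm_mul]
      exact mul_le_mul (hF u (by omega)) (norm_ex_sub_le u β) (norm_nonneg _) hMnn
    refine (Finset.sum_le_sum h2).trans ?_
    rw [Finset.sum_const, Finset.card_range, nsmul_eq_mul]
    refine mul_le_mul_of_nonneg_right ?_ (by positivity)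
    exact_mod_cast hy
  have hπ : Real.pi ≤ 3.15 := by
    have := Real.pi_lt_d2
    linarith
  have hβ2 : 2 * x * (M * (2 * Real.pi * |β|)) ≤ M * (12.6 * L ^ A) := by
    have h1 : (x : ℝ) * |β| ≤ L ^ A := by
      calc (x : ℝ) * |β| ≤ x * (L ^ A / x) := by gcongr
        _ = L ^ A := by field_simp
    have h2 : 2 * x * (M * (2 * Real.pi * |β|)) = M * (4 * Real.pi * (x * |β|)) := by ring
    rw [h2]
    refine mul_le_mul_of_nonneg_left ?_ hMnn
    have h3 : 4 * Real.pi * (x * |β|) ≤ 4 * Real.pi * L ^ A := by gcongr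
    have h4 : 4 * Real.pi * L ^ A ≤ 12.6 * L ^ A := by
      have : 0 ≤ L ^ A := by positivity
      nlinarith
    linarith
  have hone : 1 ≤ L ^ A := one_le_pow₀ (by linarith)
  have htot : M + M * (12.6 * L ^ A) ≤ x / L ^ B := by
    have h1 : M + M * (12.6 * L ^ A) ≤ M * (14 * L ^ A) := by nlinarith
    refine h1.trans ?_
    have h2 : M * (14 * L ^ A) = (x / L ^ B) * (14 / L) := by
      rw [hM]
      have : L ^ (B + 2 * A + 1) = L ^ B * L ^ A * L ^ A * L := by
        rw [show B + 2 * A + 1 = B + A + A + 1 by ring, pow_succ, pow_add, pow_add]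
      rw [this]
      field_simp
    rw [h2]
    have h3 : 14 / L ≤ 1 := by
      rw [div_le_one hLpos]
      exact hL
    exact mul_le_of_le_one_right (by positivity) h3
  exact (add_le_add hA (hB.trans hβ2)).trans htot

end Pool.Agent.HLT
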