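import Pool.Agent.Lib.HLT.GeomSum
import Pool.Agent.Lib.HLT.Brun

/-!
# Exponential sum of the sieve model on the minor arcs

PROOF SKETCH. `z = zA A x`, `P = primesLE z`, `k` from `brun_param 1 A (B + 2)`, `h_n p = [p ∣ n]`. By
`HLB.prod_le_TT` and `HLB.TT_sub_le_prod`, `|ic z n - TT P h_n k| <= EE P h_n (k+1)`. Here
`TT P h_n k = sum_{s ⊆ P, |s| <= k} (-1)^|s| [∏ s ∣ n]`, so
`|sum_{n <= y} TT ex (n α)| <= sum_{s, |s| <= k} |sum_{m <= y/d} ex (m d α)|`, `d = ∏ s`, `<= sum_s mn (y/d) (α d)`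
(`geom`, monotone), and `s ↦ ∏ s` is injective with values in `[1, z^k]`, so this is
`<= sum_{d <= D} mn (y / d) (α d)`, `D = ⌊sqrt x⌋ >= z^k` (by `brun_param`), `<= C (y/q + D + q) log (4 q (D+1))` by
`sum_mn_div`. The error: `sum_{n <= y} EE P h_n (k+1) <= y EE P (1/p) (k+1) <= y (sum 1/p)^(k+1)/(k+1)!`
(`HLB.EE_le`) `<= 2 x / L^(B+2)`. Finally multiply by `(DZ z)⁻¹ <= log x` (`DZ_inv_le`).
-/

set_option autoImplicit false

open Finset Filter

namespace Pool.Agent.HLT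

open Pool.Agent.HLB

/-- Indicator of divisibility by `p`. -/
noncomputable def dvi (n p : ℕ) : ℝ := if p ∣ n then 1 else 0

lemma dvi_nonneg (n p : ℕ) : 0 ≤ dvi n p := by
  unfold dvi
  split_ifs <;> norm_num

lemma dvi_le_one (n p : ℕ) : dvi n p ≤ 1 := by
  unfold dvi
  split_ifs <;> norm_num

lemma prod_dvi (s : Finset ℕ) (hs : ∀ p ∈ s, p.Prime) (n : ℕ) :
    ∏ p ∈ s, dvi n p = dvi n (∏ p ∈ s, p) := by
  unfold dvi
  rw [Finset.prod_ite_zero]
  by_cases h : ∀ i ∈ s, i ∣ n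
  · rw [if_pos h, if_pos (Finset.prod_primes_dvd n (fun p hp => (hs p hp).prime) h)]
    simp
  · rw [if_neg h, if_neg]
    intro h2
    exact h (fun i hi => (Finset.dvd_prod_of_mem (fun p => p) hi).trans h2)

lemma ic_eq_prod (z n : ℕ) : ic z n = ∏ p ∈ Nat.primesLE z, (1 - dvi n p) := by
  unfold ic dvi
  have h1 : ∏ p ∈ Nat.primesLE z, (1 - (if p ∣ n then (1 : ℝ) else 0)) =
      ∏ p ∈ Nat.primesLE z, (if ¬ p ∣ n then (1 : ℝ) else 0) := by
    refine Finset.prod_congr rfl (fun p _ => ?_)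
    by_cases h : p ∣ n
    · rw [if_pos h, if_neg (not_not.mpr h)]; ring
    · rw [if_neg h, if_pos h]; ring
  rw [h1, Finset.prod_ite_zero]
  simp

lemma ic_sub_TT_abs (z n k : ℕ) (hk : Even k) :
    |ic z n - TT (Nat.primesLE z) (dvi n) k| ≤ EE (Nat.primesLE z) (dvi n) (k + 1) := by
  have hg : ∀ p ∈ Nat.primesLE z, 0 ≤ dvi n p ∧ dvi n p ≤ 1 :=
    fun p _ => ⟨dvi_nonneg n p, dvi_le_one n p⟩
  have h1 := prod_le_TT _ _ hg k hk
  have h2 := TT_sub_le_prod _ _ hg k hk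
  have h3 := EE_nonneg (Nat.primesLE z) (dvi n) (fun p hp => (hg p hp).1) (k + 1)
  rw [ic_eq_prod, abs_le]
  constructor <;> linarith

lemma sum_dvi_ex (y d : ℕ) (hd : 1 ≤ d) (α : ℝ) :
    ∑ n ∈ Icc 1 y, (dvi n d : ℂ) * ex (n * α) = ∑ m ∈ Icc 1 (y / d), ex (m * (α * d)) := by
  have h1 : ∑ n ∈ Icc 1 y, (dvi n d : ℂ) * ex (n * α) =
      ∑ n ∈ (Icc 1 y).filter (fun n => d ∣ n), ex (n * α) := by
    rw [Finset.sum_filter]
    refine Finset.sum_congr rfl (fun n _ => ?_)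
    unfold dvi
    split_ifs <;> simp
  rw [h1]
  symm
  refine Finset.sum_nbij' (fun m => d * m) (fun n => n / d) ?_ ?_ ?_ ?_ ?_
  · intro m hm
    rw [Finset.mem_Icc] at hm
    rw [Finset.mem_filter, Finset.mem_Icc]
    refine ⟨⟨Nat.mul_pos hd hm.1, ?_⟩, dvd_mul_right _ _⟩
    calc d * m ≤ d * (y / d) := Nat.mul_le_mul_left _ hm.2
      _ ≤ y := Nat.mul_div_le y d
  · intro n hn
    rw [Finset.mem_filter, Finset.mem_Icc] at hn
    rw [Finset.mem_Icc]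
    exact ⟨Nat.div_pos (Nat.le_of_dvd hn.1.1 hn.2) hd, Nat.div_le_div_right hn.1.2⟩
  · intro m _
    exact Nat.mul_div_cancel_left m hd
  · intro n hn
    rw [Finset.mem_filter] at hn
    exact Nat.mul_div_cancel' hn.2
  · intro m _
    congr 1
    push_cast
    ring

lemma norm_sum_dvi_le (y d : ℕ) (hd : 1 ≤ d) (α : ℝ) :
    ‖∑ n ∈ Icc 1 y, (dvi n d : ℂ) * ex (n * α)‖ ≤ mn ((y : ℝ) / d) (α * d) := by
  rw [sum_dvi_ex y d hd α]
  refine (geom (y / d) (α * d)).trans ?_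
  exact mn_mono (Nat.cast_nonneg _) Nat.cast_div_le _

lemma sum_dvi_le (y d : ℕ) (hd : 1 ≤ d) :
    ∑ n ∈ Icc 1 y, dvi n d ≤ (y : ℝ) / d := by
  have h1 : ∑ n ∈ Icc 1 y, dvi n d = (((Icc 1 y).filter (fun n => d ∣ n)).card : ℝ) := by
    unfold dvi
    rw [← Finset.sum_filter, Finset.sum_const, nsmul_eq_mul, mul_one]
  rw [h1]
  have h2 : ((Icc 1 y).filter (fun n => d ∣ n)).card = y / d := by
    have h3 := Nat.Ioc_filter_dvd_card_eq_div y d
    have h4 : Icc 1 y = Ioc 0 y := by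
      ext n
      simp only [Finset.mem_Icc, Finset.mem_Ioc]
      omega
    rw [h4]
    exact h3
  rw [h2]
  exact Nat.cast_div_le

lemma mem_pl {z : ℕ} {s : Finset ℕ} (hs : s ∈ (Nat.primesLE z).powerset) :
    ∀ p ∈ s, p.Prime ∧ p ≤ z := by
  intro p hp
  have h := Finset.mem_powerset.mp hs hp
  exact ⟨(Nat.mem_primesLE.1 h).2, (Nat.mem_primesLE.1 h).1⟩

/-- The main sum. -/
lemma norm_sum_TT (z k y D : ℕ) (α : ℝ) (hD : ((1 + z) ^ k : ℕ) ≤ D) :
    ‖∑ n ∈ Icc 1 y, (TT (Nat.primesLE z) (dvi n) k : ℂ) * ex (n * α)‖ ≤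
      ∑ d ∈ Icc 1 D, mn ((y : ℝ) / d) (α * d) := by
  classical
  have h1 : ∑ n ∈ Icc 1 y, (TT (Nat.primesLE z) (dvi n) k : ℂ) * ex (n * α) =
      ∑ s ∈ (Nat.primesLE z).powerset.filter (fun s => s.card ≤ k),
        (-1 : ℂ) ^ s.card * ∑ n ∈ Icc 1 y, (dvi n (∏ p ∈ s, p) : ℂ) * ex (n * α) := by
    have h2 : ∀ n ∈ Icc 1 y, (TT (Nat.primesLE z) (dvi n) k : ℂ) * ex (n * α) =
        ∑ s ∈ (Nat.primesLE z).powerset.filter (fun s => s.card ≤ k),
          (-1 : ℂ) ^ s.card * ((dvi n (∏ p ∈ s, p) : ℂ) * ex (n * α)) := by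
      intro n _
      unfold TT
      rw [Complex.ofReal_sum, Finset.sum_mul]
      refine Finset.sum_congr rfl (fun s hs => ?_)
      rw [Finset.mem_filter] at hs
      rw [prod_dvi s (fun p hp => (mem_pl hs.1 p hp).1)]
      push_cast
      ring
    rw [Finset.sum_congr rfl h2, Finset.sum_comm]
    refine Finset.sum_congr rfl (fun s _ => ?_)
    rw [Finset.mul_sum]
  rw [h1]
  refine (norm_sum_le _ _).trans ?_
  have h3 : ∀ s ∈ (Nat.primesLE z).powerset.filter (fun s => s.card ≤ k),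
      ‖(-1 : ℂ) ^ s.card * ∑ n ∈ Icc 1 y, (dvi n (∏ p ∈ s, p) : ℂ) * ex (n * α)‖ ≤
        mn ((y : ℝ) / ((∏ p ∈ s, p : ℕ) : ℝ)) (α * ((∏ p ∈ s, p : ℕ) : ℝ)) := by
    intro s hs
    rw [Finset.mem_filter] at hs
    have h4 : 1 ≤ ∏ p ∈ s, p := Finset.prod_pos (fun p hp => (mem_pl hs.1 p hp).1.pos)
    rw [norm_mul, norm_pow, norm_neg, norm_one, one_pow, one_mul]
    exact norm_sum_dvi_le y _ h4 α
  refine (Finset.sum_le_sum h3).trans ?_
  have hinj : Set.InjOn (fun s : Finset ℕ => ∏ p ∈ s, p)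
      ((Nat.primesLE z).powerset.filter (fun s => s.card ≤ k) : Set (Finset ℕ)) := by
    intro s hs t ht hst
    have hs' := (Finset.mem_filter.mp (Finset.mem_coe.mp hs)).1
    have ht' := (Finset.mem_filter.mp (Finset.mem_coe.mp ht)).1
    have e1 := Nat.primeFactors_prod (s := s) (fun p hp => (mem_pl hs' p hp).1)
    have e2 := Nat.primeFactors_prod (s := t) (fun p hp => (mem_pl ht' p hp).1)
    simp only at hst
    rw [← e1, ← e2, hst]
  have h5 := Finset.sum_image (f := fun d : ℕ => mn ((y : ℝ) / (d : ℝ)) (α * (d : ℝ))) hinj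
  rw [← h5]
  refine Finset.sum_le_sum_of_subset_of_nonneg ?_
    (fun d _ _ => mn_nonneg (by positivity) _)
  intro d hd
  rw [Finset.mem_image] at hd
  obtain ⟨s, hs, rfl⟩ := hd
  rw [Finset.mem_filter] at hs
  rw [Finset.mem_Icc]
  refine ⟨Finset.prod_pos (fun p hp => (mem_pl hs.1 p hp).1.pos), ?_⟩
  calc ∏ p ∈ s, p ≤ ∏ _p ∈ s, (1 + z) :=
        Finset.prod_le_prod' (fun p hp => by have := (mem_pl hs.1 p hp).2; omega)
    _ = (1 + z) ^ s.card := by rw [Finset.prod_const]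
    _ ≤ (1 + z) ^ k := Nat.pow_le_pow_right (by omega) hs.2
    _ ≤ D := hD

/-- The error term. -/
lemma sum_EE (z k y : ℕ) :
    ∑ n ∈ Icc 1 y, EE (Nat.primesLE z) (dvi n) k ≤
      y * ((∑ p ∈ Nat.primesLE z, 1 / (p : ℝ)) ^ k / (k.factorial : ℝ)) := by
  have h1 : ∑ n ∈ Icc 1 y, EE (Nat.primesLE z) (dvi n) k =
      ∑ s ∈ (Nat.primesLE z).powerset.filter (fun s => s.card = k),
        ∑ n ∈ Icc 1 y, dvi n (∏ p ∈ s, p) := by
    unfold EE
    rw [Finset.sum_comm]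
    refine Finset.sum_congr rfl (fun s hs => ?_)
    rw [Finset.mem_filter] at hs
    refine Finset.sum_congr rfl (fun n _ => ?_)
    rw [prod_dvi s (fun p hp => (mem_pl hs.1 p hp).1)]
  rw [h1]
  have h2 := EE_le (Nat.primesLE z) (fun p => 1 / (p : ℝ)) (fun p _ => by positivity) k
  refine le_trans ?_ (mul_le_mul_of_nonneg_left h2 (Nat.cast_nonneg y))
  unfold EE
  rw [Finset.mul_sum]
  refine Finset.sum_le_sum (fun s hs => ?_)
  rw [Finset.mem_filter] at hs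
  have h4 : 1 ≤ ∏ p ∈ s, p := Finset.prod_pos (fun p hp => (mem_pl hs.1 p hp).1.pos)
  refine (sum_dvi_le y _ h4).trans (le_of_eq ?_)
  rw [div_eq_mul_one_div]
  congr 1
  rw [Finset.prod_div_distrib, Finset.prod_const_one]
  push_cast
  rfl

theorem minor_nu (A B : ℕ) : ∃ C : ℝ, 0 < C ∧ ∀ᶠ x : ℕ in atTop, ∀ (y q : ℕ) (a : ℤ) (α : ℝ),
    y ≤ 2 * x → 1 ≤ q → q ≤ x → IsCoprime a (q : ℤ) → |α - a / q| ≤ 1 / (q : ℝ) ^ 2 →
    ‖esum (nuz (zA A x)) y α‖ ≤
      C * (x / q + Real.sqrt x + q) * Real.log x ^ 3 + x / Real.log x ^ B := by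
  obtain ⟨C, hC, hmn⟩ := sum_mn_div
  refine ⟨4 * C, by positivity, ?_⟩
  have hlog : Tendsto (fun x : ℕ => Real.log x) atTop atTop :=
    Real.tendsto_log_atTop.comp tendsto_natCast_atTop_atTop
  filter_upwards [hlog.eventually_ge_atTop 2, eventually_ge_atTop 64, brun_param 1 A (B + 2),
    DZ_inv_le A] with x hL hx hbr hDZ
  obtain ⟨k, hk, hk1, hk2⟩ := hbr
  intro y q a α hy hq hqx haq hα
  set L := Real.log x with hLdef
  set z := zA A x with hz
  have hx64 : (64 : ℝ) ≤ x := by exact_mod_cast hx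
  have hx0 : (0 : ℝ) < x := by linarith
  have hL0 : 0 < L := by linarith
  have hL1 : 1 ≤ L := by linarith
  have hq0 : (1 : ℝ) ≤ q := by exact_mod_cast hq
  have hqx' : (q : ℝ) ≤ x := by exact_mod_cast hqx
  have hy' : (y : ℝ) ≤ 2 * x := by exact_mod_cast hy
  have hsq8 : 8 ≤ Real.sqrt x := by
    rw [show (8 : ℝ) = Real.sqrt 64 by
      rw [show (64 : ℝ) = 8 ^ 2 by norm_num, Real.sqrt_sq (by norm_num)]]
    exact Real.sqrt_le_sqrt hx64
  have hsqsq : Real.sqrt x * Real.sqrt x = x := Real.mul_self_sqrt hx0.le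
  -- the sum over `d`
  set D := ⌊Real.sqrt x⌋₊ with hDdef
  have hDle : (D : ℝ) ≤ Real.sqrt x := Nat.floor_le (Real.sqrt_nonneg _)
  have hD : ((1 + z) ^ k : ℕ) ≤ D := by
    rw [hDdef]
    refine Nat.le_floor ?_
    refine le_trans ?_ hk2
    push_cast
    have h1 : (1 : ℝ) ≤ (1 + (z : ℝ)) := by
      have : (0 : ℝ) ≤ z := Nat.cast_nonneg z
      linarith
    have h2 : (1 + (z : ℝ)) ^ k ≤ ((1 + (z : ℝ)) * (1 + 1)) ^ (k + 1) := by
      calc (1 + (z : ℝ)) ^ k ≤ (1 + (z : ℝ)) ^ (k + 1) := pow_le_pow_right₀ h1 (by omega)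
        _ ≤ ((1 + (z : ℝ)) * (1 + 1)) ^ (k + 1) := by
          refine pow_le_pow_left₀ (by linarith) ?_ _
          nlinarith
    have h3 : (1 : ℝ) ≤ (k : ℝ) + 2 := by
      have : (0 : ℝ) ≤ k := Nat.cast_nonneg k
      linarith
    have h4 : 0 ≤ ((1 + (z : ℝ)) * (1 + 1)) ^ (k + 1) := by positivity
    calc (1 + (z : ℝ)) ^ k ≤ ((1 + (z : ℝ)) * (1 + 1)) ^ (k + 1) := h2
      _ = 1 * ((1 + (z : ℝ)) * (1 + 1)) ^ (k + 1) := by rw [one_mul]
      _ ≤ ((k : ℝ) + 2) * ((1 + (z : ℝ)) * (1 + 1)) ^ (k + 1) :=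
        mul_le_mul_of_nonneg_right h3 h4
  have hmain := norm_sum_TT z k y D α hD
  have hmn1 := hmn q D a α y hq haq hα (Nat.cast_nonneg y)
  have hlog2 : Real.log (4 * q * ((D : ℝ) + 1)) ≤ 2 * L := by
    have h1 : 4 * (q : ℝ) * ((D : ℝ) + 1) ≤ (x : ℝ) ^ 2 := by
      have h2 : 4 * ((D : ℝ) + 1) ≤ x := by nlinarith
      have h3 : (q : ℝ) * (4 * ((D : ℝ) + 1)) ≤ x * x :=
        mul_le_mul hqx' h2 (by positivity) hx0.le
      nlinarith
    have h4 : Real.log ((x : ℝ) ^ 2) = 2 * L := by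
      rw [Real.log_pow]
      norm_num
      rfl
    rw [← h4]
    exact Real.log_le_log (by positivity) h1
  have hmn2 : C * ((y : ℝ) / q + D + q) * Real.log (4 * q * ((D : ℝ) + 1)) ≤
      4 * C * (x / q + Real.sqrt x + q) * L := by
    have h1 : (y : ℝ) / q + D + q ≤ 2 * (x / q + Real.sqrt x + q) := by
      have h2 : (y : ℝ) / q ≤ 2 * (x / q) := by
        rw [← mul_div_assoc]
        exact div_le_div_of_nonneg_right hy' (by linarith)
      linarith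
    have h0 : 0 ≤ (y : ℝ) / q + D + q := by positivity
    have h3 : C * ((y : ℝ) / q + D + q) * Real.log (4 * q * ((D : ℝ) + 1)) ≤
        C * ((y : ℝ) / q + D + q) * (2 * L) :=
      mul_le_mul_of_nonneg_left hlog2 (by positivity)
    have h4 : C * ((y : ℝ) / q + D + q) * (2 * L) ≤
        C * (2 * (x / q + Real.sqrt x + q)) * (2 * L) := by
      refine mul_le_mul_of_nonneg_right (mul_le_mul_of_nonneg_left h1 hC.le) (by positivity)
    refine h3.trans (h4.trans (le_of_eq (by ring)))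
  have herr := sum_EE z (k + 1) y
  have herr2 : (y : ℝ) * ((∑ p ∈ Nat.primesLE z, 1 / (p : ℝ)) ^ (k + 1) / ((k + 1).factorial : ℝ)) ≤
      2 * x * (1 / L ^ (B + 2)) := by
    have h1 : (∑ p ∈ Nat.primesLE z, 1 / (p : ℝ)) ^ (k + 1) / ((k + 1).factorial : ℝ) ≤
        1 / L ^ (B + 2) := by
      have := hk1
      rw [Nat.cast_one, one_mul] at this
      exact this
    exact mul_le_mul hy' h1 (by positivity) (by positivity)
  -- assemble
  have hsplit : ‖∑ n ∈ Icc 1 y, (ic z n : ℂ) * ex (n * α)‖ ≤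
      4 * C * (x / q + Real.sqrt x + q) * L + 2 * x * (1 / L ^ (B + 2)) := by
    have e1 : ∑ n ∈ Icc 1 y, (ic z n : ℂ) * ex (n * α) =
        ∑ n ∈ Icc 1 y, (TT (Nat.primesLE z) (dvi n) k : ℂ) * ex (n * α) +
        ∑ n ∈ Icc 1 y, ((ic z n - TT (Nat.primesLE z) (dvi n) k : ℝ) : ℂ) * ex (n * α) := by
      rw [← Finset.sum_add_distrib]
      refine Finset.sum_congr rfl (fun n _ => ?_)
      push_cast
      ring
    have e2 : ‖∑ n ∈ Icc 1 y, ((ic z n - TT (Nat.primesLE z) (dvi n) k : ℝ) : ℂ) * ex (n * α)‖ ≤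
        ∑ n ∈ Icc 1 y, EE (Nat.primesLE z) (dvi n) (k + 1) := by
      refine (norm_sum_le _ _).trans (Finset.sum_le_sum (fun n _ => ?_))
      rw [norm_mul, norm_ex, mul_one, Complex.norm_real, Real.norm_eq_abs]
      exact ic_sub_TT_abs z n k hk
    rw [e1]
    refine (norm_add_le _ _).trans (add_le_add ?_ ?_)
    · exact hmain.trans (hmn1.trans hmn2)
    · exact e2.trans (herr.trans herr2)
  have hes : esum (nuz z) y α = ((DZ z)⁻¹ : ℝ) * ∑ n ∈ Icc 1 y, (ic z n : ℂ) * ex (n * α) := by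
    unfold esum nuz
    rw [Finset.mul_sum]
    refine Finset.sum_congr rfl (fun n _ => ?_)
    push_cast
    ring
  have hDZ0 : 0 ≤ (DZ z)⁻¹ := inv_nonneg.mpr (DZ_pos z).le
  rw [hes, norm_mul, Complex.norm_real, Real.norm_eq_abs, abs_of_nonneg hDZ0]
  have hR0 : 0 ≤ 4 * C * (x / q + Real.sqrt x + q) * L + 2 * x * (1 / L ^ (B + 2)) := by
    positivity
  have h1 : (DZ z)⁻¹ * ‖∑ n ∈ Icc 1 y, (ic z n : ℂ) * ex (n * α)‖ ≤
      L * (4 * C * (x / q + Real.sqrt x + q) * L + 2 * x * (1 / L ^ (B + 2))) :=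
    mul_le_mul hDZ hsplit (norm_nonneg _) hL0.le
  refine h1.trans ?_
  rw [mul_add]
  refine add_le_add ?_ ?_
  · have h2 : 0 ≤ 4 * C * (x / q + Real.sqrt x + q) := by positivity
    have h3 : L * L ≤ L ^ 3 := by
      have : L ^ 3 = L * L * L := by ring
      rw [this]
      nlinarith [mul_pos hL0 hL0]
    calc L * (4 * C * (x / q + Real.sqrt x + q) * L) =
          4 * C * (x / q + Real.sqrt x + q) * (L * L) := by ring
      _ ≤ 4 * C * (x / q + Real.sqrt x + q) * L ^ 3 := mul_le_mul_of_nonneg_left h3 h2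
  · have h4 : 0 < L ^ B := by positivity
    have h5 : L * (2 * x * (1 / L ^ (B + 2))) = x / L ^ B * (2 / L) := by
      rw [pow_add]
      field_simp
    rw [h5]
    have h6 : 2 / L ≤ 1 := by rw [div_le_one hL0]; exact hL
    have h7 : 0 ≤ (x : ℝ) / L ^ B := by positivity
    calc (x : ℝ) / L ^ B * (2 / L) ≤ x / L ^ B * 1 := mul_le_mul_of_nonneg_left h6 h7
      _ = x / L ^ B := by rw [mul_one]

end Pool.Agent.HLT
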