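import Pool.Agent.Lib.HLT.MinorPrime
import Pool.Agent.Lib.HLT.MinorNu
import Pool.Agent.Lib.HLT.Major

/-!
# The Fourier transform of `log 1_P - nuz` is small

PROOF SKETCH. Let `k` be the exponent of `minor_lp` and `A = max A0 (2 (B + k + 4))`. Given `α`, Mathlib's
`Real.exists_rat_abs_sub_le_and_den_le α (n := ⌊x / L^A⌋₊)` gives a rational `a / q` in lowest terms with
`q <= x / L^A` and `|α - a/q| <= 1 / ((n + 1) q) <= L^A / (x q)`, also `<= 1 / q^2`. If `q <= z = zA A x`
use `major_sum A B` with `β = α - a/q`, `|β| <= L^A / x`. Otherwise `q >= z + 1 >= L^A`, and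
`minor_lp` (with `2 x` in place of `x`) and `minor_nu A (B + 1)` give
`<= C (2 x L^(-A/2) + (2x)^(9/10) + 2 x L^(-A/2)) (log (2x))^k + C (x L^(-A) + sqrt x + x L^(-A)) L^3 + x L^(-B-1)
<= x / L^B`.
-/

set_option autoImplicit false

open Finset Filter

namespace Pool.Agent.HLT

open Pool.Agent.HLB

lemma esum_ff (z y : ℕ) (α : ℝ) : esum (ff z) y α = esum lp y α - esum (nuz z) y α := by
  unfold esum
  rw [← Finset.sum_sub_distrib]
  refine Finset.sum_congr rfl (fun n _ => ?_)
  unfold ff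
  push_cast
  ring

lemma log_pow_le_rpow (N : ℕ) : ∀ᶠ x : ℕ in atTop, Real.log x ^ N ≤ (x : ℝ) ^ (1 / 20 : ℝ) := by
  have h := isLittleO_log_rpow_rpow_atTop (s := (1 / 20 : ℝ)) (N : ℝ) (by norm_num)
  have h2 := (h.comp_tendsto tendsto_natCast_atTop_atTop).bound (by norm_num : (0 : ℝ) < 1)
  filter_upwards [h2, eventually_ge_atTop 1] with x hx hx1
  have hlog : 0 ≤ Real.log x := Real.log_natCast_nonneg x
  simp only [Function.comp_def, Real.rpow_natCast, one_mul] at hx
  rw [Real.norm_of_nonneg (by positivity), Real.norm_of_nonneg (by positivity)] at hx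
  exact hx

theorem sup_norm (A0 B : ℕ) : ∃ A : ℕ, A0 ≤ A ∧ ∀ᶠ x : ℕ in atTop, ∀ y : ℕ, y ≤ 2 * x →
    ∀ α : ℝ, ‖esum (ff (zA A x)) y α‖ ≤ x / Real.log x ^ B := by
  obtain ⟨C1, k, hC1, hlp⟩ := minor_lp
  set A : ℕ := max A0 (2 * (B + k + 4)) with hA
  have hA2 : 2 * (B + k + 4) ≤ A := le_max_right _ _
  obtain ⟨C2, hC2, hnu⟩ := minor_nu A (B + 1)
  refine ⟨A, le_max_left _ _, ?_⟩
  have hL : ∀ᶠ x : ℕ in atTop, (20 * 2 ^ k * C1 + 6 * C2 + 4 : ℝ) ≤ Real.log x :=
    (Real.tendsto_log_atTop.comp tendsto_natCast_atTop_atTop).eventually_ge_atTop _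
  filter_upwards [hnu, major_sum A B, hL, log_pow_le_rpow A, eventually_ge_atTop 3]
    with x hnu hmaj hL hpow hx3
  intro y hy α
  set L := Real.log x with hLdef
  have hL4 : 4 ≤ L := by
    have : 0 ≤ 20 * 2 ^ k * C1 + 6 * C2 := by positivity
    linarith only [hL, this]
  have hL1 : 1 ≤ L := by linarith only [hL4]
  have hLpos : 0 < L := by linarith only [hL4]
  have hx0 : (0 : ℝ) < x := by
    have : 0 < x := by omega
    exact_mod_cast this
  have hx1 : (1 : ℝ) ≤ x := by
    have : 1 ≤ x := by omega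
    exact_mod_cast this
  have hpowx : L ^ A ≤ x := by
    refine hpow.trans ?_
    calc (x : ℝ) ^ (1 / 20 : ℝ) ≤ (x : ℝ) ^ (1 : ℝ) :=
          Real.rpow_le_rpow_of_exponent_le hx1 (by norm_num)
      _ = x := Real.rpow_one _
  set n : ℕ := ⌊(x : ℝ) / L ^ A⌋₊ with hn
  have hn1 : 0 < n := by
    rw [hn, Nat.floor_pos]
    rw [le_div_iff₀ (by positivity)]
    simpa using hpowx
  obtain ⟨r, hr1, hr2⟩ := Real.exists_rat_abs_sub_le_and_den_le α hn1
  have hden : 1 ≤ r.den := r.den_pos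
  have hden0 : (0 : ℝ) < r.den := by exact_mod_cast r.den_pos
  have hnx : (n : ℝ) ≤ x / L ^ A := Nat.floor_le (by (clear * - hx3 hL4; positivity))
  have hnx2 : (x : ℝ) / L ^ A < n + 1 := Nat.lt_floor_add_one _
  have hqn : (r.den : ℝ) ≤ n := by exact_mod_cast hr2
  have hqx : (r.den : ℝ) ≤ x / L ^ A := hqn.trans hnx
  have hLA1 : 1 ≤ L ^ A := one_le_pow₀ hL1
  have hqx2 : (r.den : ℝ) ≤ x := hqx.trans (div_le_self hx0.le hLA1)
  have hqxN : r.den ≤ x := by exact_mod_cast hqx2
  have hcast : (r : ℝ) = (r.num : ℝ) / (r.den : ℝ) := by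
    exact_mod_cast congrArg (fun t : ℚ => (t : ℝ)) (Rat.num_div_den r).symm
  rw [hcast] at hr1
  have hr3 : |α - r.num / r.den| ≤ L ^ A / x := by
    refine hr1.trans ?_
    rw [div_le_div_iff₀ (by (clear * - hn1; positivity)) hx0]
    have h1 : (x : ℝ) ≤ L ^ A * (n + 1) := by
      rw [div_lt_iff₀ (by (clear * - hL4; positivity))] at hnx2
      linarith only [hnx2]
    have h2 : (1 : ℝ) ≤ r.den := by exact_mod_cast hden
    calc 1 * (x : ℝ) ≤ L ^ A * (n + 1) := by linarith only [h1]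
      _ ≤ L ^ A * ((n + 1) * r.den) := by
          refine mul_le_mul_of_nonneg_left ?_ (by (clear * - hL4; positivity))
          nlinarith only [h2]
  rcases le_or_gt r.den (zA A x) with hqz | hqz
  · -- major arcs
    have := hmaj y r.den r.num (α - r.num / r.den) hy hden hqz hr3
    rwa [add_sub_cancel] at this
  · -- minor arcs
    have hr4 : |α - r.num / r.den| ≤ 1 / (r.den : ℝ) ^ 2 := by
      refine hr1.trans ?_
      refine one_div_le_one_div_of_le (by (clear * -; positivity)) ?_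
      rw [sq]
      exact mul_le_mul_of_nonneg_right (by linarith only [hqn]) hden0.le
    have hcop : IsCoprime r.num ((r.den : ℕ) : ℤ) := by
      rw [Int.isCoprime_iff_gcd_eq_one]
      have := r.reduced
      simpa [Int.gcd, Nat.Coprime] using this
    have hqL : L ^ A ≤ r.den := by
      have h1 : L ^ A < (zA A x : ℕ) + 1 := by
        unfold zA
        exact Nat.lt_floor_add_one _
      have h2 : ((zA A x : ℕ) : ℝ) + 1 ≤ r.den := by exact_mod_cast hqz
      linarith only [h1, h2]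
    set q : ℕ := r.den with hq
    -- powers
    have hpow2 : L ^ (B + k + 4) ≤ (x : ℝ) ^ (1 / 20 : ℝ) :=
      (pow_le_pow_right₀ hL1 (by omega)).trans hpow
    have hpowA : (L ^ (B + k + 4)) ^ 2 ≤ L ^ A := by
      rw [← pow_mul]
      exact pow_le_pow_right₀ hL1 (by omega)
    have hsq : L ^ (B + k + 4) ≤ Real.sqrt q := by
      refine Real.le_sqrt_of_sq_le (hpowA.trans hqL)
    have hterm1 : ((2 * x : ℕ) : ℝ) / Real.sqrt q ≤ 2 * (x / L ^ (B + k + 4)) := by
      push_cast
      rw [mul_div_assoc]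
      gcongr
    have hterm3 : Real.sqrt (((2 * x : ℕ) : ℝ) * q) ≤ 2 * (x / L ^ (B + k + 4)) := by
      refine Real.sqrt_le_iff.mpr ⟨by (clear * - hx3 hL4; positivity), ?_⟩
      push_cast
      have h1 : (x : ℝ) * q ≤ x * (x / L ^ A) := mul_le_mul_of_nonneg_left hqx hx0.le
      have h2 : (x : ℝ) * (x / L ^ A) ≤ (x / L ^ (B + k + 4)) ^ 2 := by
        rw [div_pow, ← mul_div_assoc, ← sq]
        exact div_le_div_of_nonneg_left (by (clear * - hx3; positivity)) (by (clear * - hL4; positivity)) hpowA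
      nlinarith only [h1, h2, sq_nonneg ((x : ℝ) / L ^ (B + k + 4))]
    have hterm2 : ((2 * x : ℕ) : ℝ) ^ (9 / 10 : ℝ) ≤ 2 * (x / L ^ (B + k + 4)) := by
      have h1 : ((2 * x : ℕ) : ℝ) ^ (9 / 10 : ℝ) ≤ 2 * (x : ℝ) ^ (9 / 10 : ℝ) := by
        push_cast
        rw [Real.mul_rpow (by norm_num) hx0.le]
        refine mul_le_mul_of_nonneg_right ?_ (by (clear * - hx3; positivity))
        calc (2 : ℝ) ^ (9 / 10 : ℝ) ≤ (2 : ℝ) ^ (1 : ℝ) :=
              Real.rpow_le_rpow_of_exponent_le (by norm_num) (by norm_num)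
          _ = 2 := Real.rpow_one _
      refine h1.trans (mul_le_mul_of_nonneg_left ?_ (by norm_num))
      rw [le_div_iff₀ (by (clear * - hL4; positivity))]
      calc (x : ℝ) ^ (9 / 10 : ℝ) * L ^ (B + k + 4)
          ≤ (x : ℝ) ^ (9 / 10 : ℝ) * (x : ℝ) ^ (1 / 20 : ℝ) := by gcongr
        _ = (x : ℝ) ^ (19 / 20 : ℝ) := by
            rw [← Real.rpow_add hx0]
            norm_num
        _ ≤ (x : ℝ) ^ (1 : ℝ) := Real.rpow_le_rpow_of_exponent_le hx1 (by norm_num)
        _ = x := Real.rpow_one _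
    have hlog2 : Real.log ((2 * x : ℕ) : ℝ) ≤ 2 * L := by
      push_cast
      rw [Real.log_mul (by norm_num) (by (clear * - hx3; positivity))]
      have : Real.log 2 ≤ 1 := by
        have := Real.log_two_lt_d9
        linarith only [this]
      linarith only [hL4, this]
    have hlog2nn : 0 ≤ Real.log ((2 * x : ℕ) : ℝ) := Real.log_natCast_nonneg _
    have hb1 : ‖esum lp y α‖ ≤ x / L ^ B / 2 := by
      have h := hlp (2 * x) y q r.num α (by omega) hy hden (by omega) hcop hr4
      refine h.trans ?_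
      have h1 : C1 * (((2 * x : ℕ) : ℝ) / Real.sqrt q + ((2 * x : ℕ) : ℝ) ^ (9 / 10 : ℝ) +
          Real.sqrt (((2 * x : ℕ) : ℝ) * q)) ≤ C1 * (6 * (x / L ^ (B + k + 4))) := by
        refine mul_le_mul_of_nonneg_left ?_ hC1.le
        linarith only [hterm1, hterm3, hterm2]
      have h2 : Real.log ((2 * x : ℕ) : ℝ) ^ k ≤ (2 * L) ^ k := pow_le_pow_left₀ hlog2nn hlog2 k
      refine (mul_le_mul h1 h2 (by (clear * -; positivity)) (by (clear * - hC1 hx3 hL4; positivity))).trans ?_
      have h3 : C1 * (6 * (x / L ^ (B + k + 4))) * (2 * L) ^ k =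
          x / L ^ B / 2 * (12 * 2 ^ k * C1 / L ^ 4) := by
        rw [pow_add, pow_add, mul_pow]
        field_simp
        ring
      rw [h3]
      refine mul_le_of_le_one_right (by (clear * - hx3 hL4; positivity)) ?_
      rw [div_le_one (by (clear * - hL4; positivity))]
      have h4 : L ≤ L ^ 4 := le_self_pow₀ hL1 (by norm_num)
      have h5 : 0 ≤ 2 ^ k * C1 := by (clear * - hC1; positivity)
      have h6 : 0 ≤ 6 * C2 := by (clear * - hC2; positivity)
      nlinarith only [hC2, hL, h4, h5]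
    have hb2 : ‖esum (nuz (zA A x)) y α‖ ≤ x / L ^ B / 2 := by
      have h := hnu y q r.num α hy hden hqxN hcop hr4
      refine h.trans ?_
      have hpow4 : L ^ (B + 4) ≤ L ^ A := pow_le_pow_right₀ hL1 (by omega)
      have h1 : (x : ℝ) / q ≤ x / L ^ (B + 4) :=
        div_le_div_of_nonneg_left hx0.le (by (clear * - hL4; positivity)) (hpow4.trans hqL)
      have h2 : (q : ℝ) ≤ x / L ^ (B + 4) :=
        hqx.trans (div_le_div_of_nonneg_left hx0.le (by (clear * - hL4; positivity)) hpow4)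
      have h3 : Real.sqrt x ≤ x / L ^ (B + 4) := by
        rw [le_div_iff₀ (by (clear * - hL4; positivity)), Real.sqrt_eq_rpow]
        calc (x : ℝ) ^ (1 / 2 : ℝ) * L ^ (B + 4)
            ≤ (x : ℝ) ^ (1 / 2 : ℝ) * (x : ℝ) ^ (1 / 20 : ℝ) := by
              refine mul_le_mul_of_nonneg_left (hpow4.trans hpow) (by (clear * - hx3; positivity))
          _ = (x : ℝ) ^ (11 / 20 : ℝ) := by
              rw [← Real.rpow_add hx0]
              norm_num
          _ ≤ (x : ℝ) ^ (1 : ℝ) := Real.rpow_le_rpow_of_exponent_le hx1 (by norm_num)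
          _ = x := Real.rpow_one _
      have h4 : C2 * ((x : ℝ) / q + Real.sqrt x + q) * L ^ 3 ≤
          C2 * (3 * (x / L ^ (B + 4))) * L ^ 3 := by
        gcongr
        linarith only [h1, h2, h3]
      have h5 : C2 * (3 * (x / L ^ (B + 4))) * L ^ 3 = x / L ^ B / 2 * (6 * C2 / L) := by
        rw [pow_add]
        field_simp
        ring
      have h6 : (x : ℝ) / L ^ (B + 1) = x / L ^ B / 2 * (2 / L) := by
        rw [pow_succ]
        field_simp
      rw [h6]
      rw [h5] at h4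
      have h7 : x / L ^ B / 2 * (6 * C2 / L) + x / L ^ B / 2 * (2 / L) =
          x / L ^ B / 2 * ((6 * C2 + 2) / L) := by ring
      refine (add_le_add h4 le_rfl).trans ?_
      rw [h7]
      refine mul_le_of_le_one_right (by (clear * - hx3 hL4; positivity)) ?_
      rw [div_le_one hLpos]
      have h8 : 0 ≤ 20 * 2 ^ k * C1 := by (clear * - hC1; positivity)
      linarith only [hL, h8]
    rw [esum_ff]
    refine (norm_sub_le _ _).trans ?_
    linarith only [hb1, hb2]

end Pool.Agent.HLT
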