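import Pool.Agent.Lib.HLT.WeylLog
import Pool.Agent.Lib.HLT.EnC

/-!
# Polynomial values satisfy the spectral hypothesis

`P` is eventually negative, or eventually strictly increasing with `P(k) ≥ k`; in the latter case the
exponential sum over the set of values differs by `O(1)` from the exponential sum over `1 ≤ k ≤ K`, and by
Dirichlet's theorem and Weyl's inequality (`weyl_log`) the frequencies of the large spectrum are close to
rational numbers with denominator at most a power of `log x`; these are counted directly.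
-/

set_option autoImplicit false

open Finset Filter

namespace Pool.Agent.HLT

/-- The values of the polynomial `P` at `1, ..., K`. -/
noncomputable def PT (P : Polynomial ℤ) (K : ℕ) : Finset ℕ :=
  (Icc 1 K).image (fun k : ℕ => (P.eval (k : ℤ)).toNat)

theorem poly_fiber (P : Polynomial ℤ) (hd : 2 ≤ P.natDegree) (K : ℕ) (t : ℤ) :
    ((Icc 1 K).filter (fun k : ℕ => P.eval (k : ℤ) = t)).card ≤ P.natDegree := by
  classical
  set Q : Polynomial ℤ := P - Polynomial.C t with hQ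
  have hQd : Q.natDegree = P.natDegree := by
    rw [hQ, Polynomial.natDegree_sub_C]
  have hQ0 : Q ≠ 0 := by
    intro h
    rw [h, Polynomial.natDegree_zero] at hQd
    omega
  have h1 : (((Icc 1 K).filter (fun k : ℕ => P.eval (k : ℤ) = t)).image (fun k : ℕ => (k : ℤ))) ⊆
      Q.roots.toFinset := by
    intro z hz
    rw [Finset.mem_image] at hz
    obtain ⟨k, hk, rfl⟩ := hz
    rw [Finset.mem_filter] at hk
    rw [Multiset.mem_toFinset, Polynomial.mem_roots hQ0, Polynomial.IsRoot.def, hQ]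
    simp [hk.2]
  have h2 := Finset.card_le_card h1
  rw [Finset.card_image_of_injective _ (fun a b hab => by exact_mod_cast hab)] at h2
  calc ((Icc 1 K).filter (fun k : ℕ => P.eval (k : ℤ) = t)).card ≤ Q.roots.toFinset.card := h2
    _ ≤ Multiset.card Q.roots := Multiset.toFinset_card_le _
    _ ≤ Q.natDegree := Polynomial.card_roots' _
    _ = P.natDegree := hQd

/-- growth of a real polynomial -/
private lemma ps_growth (p : Polynomial ℝ) (hd : 2 ≤ p.natDegree) (hl : 0 < p.leadingCoeff) :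
    (∀ᶠ y : ℝ in atTop, y ≤ p.eval y) ∧ ∃ y0 : ℝ, StrictMonoOn (fun y => p.eval y) (Set.Ici y0) := by
  constructor
  · have hdq : (p - Polynomial.X).natDegree = p.natDegree := by
      apply Polynomial.natDegree_sub_eq_left_of_natDegree_lt
      rw [Polynomial.natDegree_X]
      omega
    have hlq : (p - Polynomial.X).leadingCoeff = p.leadingCoeff := by
      apply Polynomial.leadingCoeff_sub_of_degree_lt
      rw [Polynomial.degree_X, Polynomial.degree_eq_natDegree (by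
        intro h; rw [h] at hl; simp at hl)]
      exact_mod_cast (by omega : 1 < p.natDegree)
    have h1 : Tendsto (fun y => (p - Polynomial.X).eval y) atTop atTop := by
      apply Polynomial.tendsto_atTop_of_leadingCoeff_nonneg
      · rw [← Polynomial.natDegree_pos_iff_degree_pos, hdq]
        omega
      · rw [hlq]
        exact hl.le
    filter_upwards [h1.eventually_ge_atTop 0] with y hy
    rw [Polynomial.eval_sub, Polynomial.eval_X] at hy
    linarith
  · have hdn : (Polynomial.derivative p).natDegree = p.natDegree - 1 :=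
      Polynomial.natDegree_derivative p
    have h1 : Tendsto (fun y => (Polynomial.derivative p).eval y) atTop atTop := by
      apply Polynomial.tendsto_atTop_of_leadingCoeff_nonneg
      · rw [← Polynomial.natDegree_pos_iff_degree_pos, hdn]
        omega
      · rw [Polynomial.leadingCoeff_derivative]
        positivity
    obtain ⟨y0, hy0⟩ := (h1.eventually_gt_atTop 0).exists_forall_of_atTop
    refine ⟨y0, ?_⟩
    apply strictMonoOn_of_deriv_pos (convex_Ici y0) p.continuous.continuousOn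
    intro x hx
    rw [interior_Ici] at hx
    rw [Polynomial.deriv]
    exact hy0 x (le_of_lt hx)

private lemma ps_struct (P : Polynomial ℤ) (hd : 2 ≤ P.natDegree) : ∃ k0 : ℕ, 1 ≤ k0 ∧
    ((∀ k : ℕ, k0 ≤ k → P.eval (k : ℤ) < 0) ∨
      (∀ k : ℕ, k0 ≤ k → (k : ℤ) ≤ P.eval (k : ℤ) ∧
        ∀ k' < k, P.eval (k' : ℤ) < P.eval (k : ℤ))) := by
  have hinj : Function.Injective (Int.castRingHom ℝ) := RingHom.injective_int _
  set p : Polynomial ℝ := P.map (Int.castRingHom ℝ) with hp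
  have hpd : p.natDegree = P.natDegree := Polynomial.natDegree_map_eq_of_injective hinj P
  have hpl : p.leadingCoeff = (P.leadingCoeff : ℝ) := by
    rw [hp, Polynomial.leadingCoeff_map_of_injective hinj]
    rfl
  have hpe : ∀ k : ℤ, p.eval (k : ℝ) = ((P.eval k : ℤ) : ℝ) := by
    intro k
    rw [hp, Polynomial.eval_intCast_map]
    rfl
  have hpe' : ∀ k : ℕ, p.eval (k : ℝ) = ((P.eval (k : ℤ) : ℤ) : ℝ) := by
    intro k
    have := hpe (k : ℤ)
    push_cast at this
    exact this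
  have hl0 : P.leadingCoeff ≠ 0 := by
    intro h
    rw [Polynomial.leadingCoeff_eq_zero] at h
    rw [h, Polynomial.natDegree_zero] at hd
    omega
  rcases lt_or_gt_of_ne hl0 with hneg | hpos
  · have h1 : Tendsto (fun y => p.eval y) atTop atBot := by
      apply Polynomial.tendsto_atBot_of_leadingCoeff_nonpos
      · rw [← Polynomial.natDegree_pos_iff_degree_pos, hpd]
        omega
      · rw [hpl]
        exact_mod_cast hneg.le
    have h2 : ∀ᶠ k : ℕ in atTop, p.eval (k : ℝ) < 0 :=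
      tendsto_natCast_atTop_atTop.eventually (h1.eventually_lt_atBot 0)
    obtain ⟨k1, hk1⟩ := h2.exists_forall_of_atTop
    refine ⟨k1 + 1, by omega, Or.inl fun k hk => ?_⟩
    have := hk1 k (by omega)
    rw [hpe'] at this
    exact_mod_cast this
  · have hpl' : 0 < p.leadingCoeff := by
      rw [hpl]
      exact_mod_cast hpos
    obtain ⟨hg, y0, hy0⟩ := ps_growth p (by rw [hpd]; exact hd) hpl'
    have hgN : ∀ᶠ k : ℕ in atTop, (k : ℝ) ≤ p.eval (k : ℝ) :=
      tendsto_natCast_atTop_atTop.eventually hg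
    have h1 : Tendsto (fun y => p.eval y) atTop atTop := by
      apply Polynomial.tendsto_atTop_of_leadingCoeff_nonneg
      · rw [← Polynomial.natDegree_pos_iff_degree_pos, hpd]
        omega
      · exact hpl'.le
    obtain ⟨k1, hk1⟩ := exists_nat_ge y0
    have h2 : ∀ᶠ k : ℕ in atTop, ∀ k' ∈ Finset.range k1, p.eval (k' : ℝ) < p.eval (k : ℝ) := by
      rw [Filter.eventually_all_finset]
      intro k' _
      exact tendsto_natCast_atTop_atTop.eventually (h1.eventually_gt_atTop _)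
    obtain ⟨k2, hk2⟩ := (hgN.and h2).exists_forall_of_atTop
    refine ⟨k1 + k2 + 1, by omega, Or.inr fun k hk => ?_⟩
    obtain ⟨h3, h4⟩ := hk2 k (by omega)
    constructor
    · rw [hpe'] at h3
      exact_mod_cast h3
    · intro k' hk'
      by_cases hkk : k' < k1
      · have := h4 k' (Finset.mem_range.mpr hkk)
        rw [hpe', hpe'] at this
        exact_mod_cast this
      · have h5 : (k1 : ℝ) ≤ k' := by exact_mod_cast (not_lt.mp hkk)
        have h6 : (k' : ℝ) < k := by exact_mod_cast hk'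
        have := hy0 (Set.mem_Ici.mpr (hk1.trans h5)) (Set.mem_Ici.mpr ((hk1.trans h5).trans h6.le)) h6
        simp only at this
        rw [hpe', hpe'] at this
        exact_mod_cast this

/-- counting of integers near a real number -/
private lemma ps_near (S : Finset ℕ) (c R : ℝ) (hR : 0 ≤ R) (h : ∀ ζ ∈ S, |(ζ : ℝ) - c| ≤ R) :
    (S.card : ℝ) ≤ 2 * R + 1 := by
  have h1 : S.image (fun k : ℕ => (k : ℤ)) ⊆ Icc ⌈c - R⌉ ⌊c + R⌋ := by
    intro z hz
    rw [Finset.mem_image] at hz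
    obtain ⟨k, hk, rfl⟩ := hz
    have := abs_le.mp (h k hk)
    rw [Finset.mem_Icc, Int.ceil_le, Int.le_floor]
    push_cast
    constructor <;> linarith [this.1, this.2]
  have h2 := Finset.card_le_card h1
  rw [Finset.card_image_of_injective _ (fun a b hab => by exact_mod_cast hab), Int.card_Icc] at h2
  have h3 : (((⌊c + R⌋ + 1 - ⌈c - R⌉).toNat : ℤ) : ℝ) ≤ 2 * R + 1 := by
    rw [Int.toNat_eq_max]
    push_cast
    apply max_le
    · have a1 := Int.floor_le (c + R)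
      have a2 := Int.le_ceil (c - R)
      linarith
    · linarith
  calc (S.card : ℝ) ≤ ((⌊c + R⌋ + 1 - ⌈c - R⌉).toNat : ℝ) := by exact_mod_cast h2
    _ = (((⌊c + R⌋ + 1 - ⌈c - R⌉).toNat : ℤ) : ℝ) := by norm_cast
    _ ≤ _ := h3

/-- counting of the integers close to rational points of small denominator -/
private lemma ps_count (S : Finset ℕ) (N Q : ℕ) (R : ℝ) (hR : 0 ≤ R)
    (h : ∀ ζ ∈ S, ∃ (q : ℕ) (a : ℤ), 1 ≤ q ∧ q ≤ Q ∧ |a| ≤ 2 * Q ∧
      |(ζ : ℝ) - N * (a / q)| ≤ R) :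
    (S.card : ℝ) ≤ Q * (4 * Q + 1) * (2 * R + 1) := by
  classical
  set I : Finset (ℕ × ℤ) := Icc 1 Q ×ˢ Icc (-(2 * Q : ℤ)) (2 * Q) with hI
  have h1 : S ⊆ I.biUnion (fun u => S.filter (fun ζ : ℕ => |(ζ : ℝ) - N * (u.2 / u.1)| ≤ R)) := by
    intro ζ hζ
    obtain ⟨q, a, hq1, hq2, ha, hb⟩ := h ζ hζ
    rw [Finset.mem_biUnion]
    refine ⟨(q, a), ?_, ?_⟩
    · rw [hI, Finset.mem_product, Finset.mem_Icc, Finset.mem_Icc]
      exact ⟨⟨hq1, hq2⟩, abs_le.mp ha⟩
    · rw [Finset.mem_filter]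
      exact ⟨hζ, hb⟩
  have h2 := (Finset.card_le_card h1).trans Finset.card_biUnion_le
  have h3 : (I.card : ℝ) = Q * (4 * Q + 1) := by
    rw [hI, Finset.card_product, Nat.card_Icc, Int.card_Icc]
    have : (2 * (Q : ℤ) + 1 - -(2 * Q)).toNat = 4 * Q + 1 := by omega
    rw [this]
    push_cast
    simp
  calc (S.card : ℝ) ≤ ((∑ u ∈ I, (S.filter (fun ζ : ℕ => |(ζ : ℝ) - N * (u.2 / u.1)| ≤ R)).card : ℕ) : ℝ) := by
        exact_mod_cast h2
    _ = ∑ u ∈ I, ((S.filter (fun ζ : ℕ => |(ζ : ℝ) - N * (u.2 / u.1)| ≤ R)).card : ℝ) := by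
        push_cast; rfl
    _ ≤ ∑ u ∈ I, (2 * R + 1) := by
        apply Finset.sum_le_sum
        intro u _
        apply ps_near _ (N * (u.2 / u.1)) R hR
        intro ζ hζ
        exact (Finset.mem_filter.mp hζ).2
    _ = Q * (4 * Q + 1) * (2 * R + 1) := by
        rw [Finset.sum_const, nsmul_eq_mul, h3]

/-- comparison of the sum over the image with the sum over the parameters -/
private lemma ps_WW (P : Polynomial ℤ) (k0 K : ℕ)
    (hmono : ∀ k : ℕ, k0 ≤ k → ∀ k' < k, P.eval (k' : ℤ) < P.eval (k : ℤ))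
    (hnn : ∀ k ∈ Icc 1 K, 0 ≤ P.eval (k : ℤ)) (α : ℝ) :
    ‖WW (PT P K) α - ∑ k ∈ Icc 1 K, ex (α * (P.eval (k : ℤ) : ℤ))‖ ≤ 2 * k0 ∧
      (K : ℝ) - k0 ≤ (PT P K).card := by
  classical
  set f : ℕ → ℕ := fun k => (P.eval (k : ℤ)).toNat with hf
  set U : Finset ℕ := (Icc 1 K).filter (fun k => k < k0) with hU
  set V : Finset ℕ := (Icc 1 K).filter (fun k => ¬ k < k0) with hV
  have hUV : U ∪ V = Icc 1 K := Finset.filter_union_filter_not_eq _ _
  have hfr : ∀ k ∈ Icc 1 K, ((f k : ℕ) : ℝ) = ((P.eval (k : ℤ) : ℤ) : ℝ) := by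
    intro k hk
    have h := Int.toNat_of_nonneg (hnn k hk)
    calc ((f k : ℕ) : ℝ) = (((P.eval (k : ℤ)).toNat : ℤ) : ℝ) := (Int.cast_natCast _).symm
      _ = _ := by rw [h]
  have hlt : ∀ k ∈ Icc 1 K, ∀ k' ∈ Icc 1 K, k0 ≤ k → k' < k → f k' < f k := by
    intro k hk k' hk' h0 hlt
    have h1 := hmono k h0 k' hlt
    have h2 := hnn k hk
    have h3 := hnn k' hk'
    simp only [hf]
    omega
  have hPT : PT P K = U.image f ∪ V.image f := by
    rw [← Finset.image_union, hUV]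
    rfl
  have hdis : Disjoint (U.image f) (V.image f) := by
    rw [Finset.disjoint_left]
    intro t ht ht'
    rw [Finset.mem_image] at ht ht'
    obtain ⟨k', hk', rfl⟩ := ht
    obtain ⟨k, hk, hkk⟩ := ht'
    rw [hU, Finset.mem_filter] at hk'
    rw [hV, Finset.mem_filter] at hk
    have := hlt k hk.1 k' hk'.1 (by omega) (by omega)
    omega
  have hinj : Set.InjOn f V := by
    intro k hk k' hk' hkk
    rw [Finset.mem_coe, hV, Finset.mem_filter] at hk hk'
    rcases lt_trichotomy k k' with h | h | h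
    · have := hlt k' hk'.1 k hk.1 (by omega) h
      omega
    · exact h
    · have := hlt k hk.1 k' hk'.1 (by omega) h
      omega
  have hUc : (U.card : ℝ) ≤ k0 := by
    have h1 : U ⊆ Finset.range k0 := by
      intro k hk
      rw [hU, Finset.mem_filter] at hk
      exact Finset.mem_range.mpr hk.2
    have := Finset.card_le_card h1
    rw [Finset.card_range] at this
    exact_mod_cast this
  have hWV : ∑ t ∈ V.image f, ex (t * α) = ∑ k ∈ V, ex (α * (P.eval (k : ℤ) : ℤ)) := by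
    rw [Finset.sum_image hinj]
    apply Finset.sum_congr rfl
    intro k hk
    rw [hV, Finset.mem_filter] at hk
    rw [hfr k hk.1, mul_comm]
  constructor
  · have h1 : WW (PT P K) α - ∑ k ∈ Icc 1 K, ex (α * (P.eval (k : ℤ) : ℤ)) =
        ∑ t ∈ U.image f, ex (t * α) - ∑ k ∈ U, ex (α * (P.eval (k : ℤ) : ℤ)) := by
      unfold WW
      rw [hPT, Finset.sum_union hdis, hWV,
        ← Finset.sum_filter_add_sum_filter_not (Icc 1 K) (fun k => k < k0)]
      ring
    rw [h1]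
    have h2 : ‖∑ t ∈ U.image f, ex (t * α)‖ ≤ k0 := by
      refine (norm_sum_le _ _).trans ?_
      simp only [norm_ex, Finset.sum_const, nsmul_eq_mul, mul_one]
      have : ((U.image f).card : ℝ) ≤ U.card := by exact_mod_cast Finset.card_image_le
      linarith
    have h3 : ‖∑ k ∈ U, ex (α * (P.eval (k : ℤ) : ℤ))‖ ≤ k0 := by
      refine (norm_sum_le _ _).trans ?_
      simp only [norm_ex, Finset.sum_const, nsmul_eq_mul, mul_one]
      exact hUc
    calc _ ≤ ‖∑ t ∈ U.image f, ex (t * α)‖ + ‖∑ k ∈ U, ex (α * (P.eval (k : ℤ) : ℤ))‖ :=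
          norm_sub_le _ _
      _ ≤ 2 * k0 := by linarith
  · have h1 : V.card ≤ (PT P K).card := by
      rw [hPT, ← Finset.card_image_of_injOn hinj]
      exact Finset.card_le_card Finset.subset_union_right
    have h2 : U.card + V.card = K := by
      have h3 : U.card + V.card = (Icc 1 K).card :=
        Finset.card_filter_add_card_filter_not (s := Icc 1 K) (fun k => k < k0)
      rw [Nat.card_Icc] at h3
      omega
    have h4 : (U.card : ℝ) + V.card = K := by exact_mod_cast h2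
    have h5 : (V.card : ℝ) ≤ (PT P K).card := by exact_mod_cast h1
    linarith

theorem poly_spec (P : Polynomial ℤ) (hd : 2 ≤ P.natDegree) (C : ℕ) : ∃ F : ℕ → ℕ, ∀ b0 : ℕ,
    ∀ᶠ x : ℕ in atTop, ∀ K : ℕ, (∀ k ∈ Icc 1 K, 0 ≤ P.eval (k : ℤ) ∧ P.eval (k : ℤ) ≤ x) →
    (x : ℝ) ≤ (K : ℝ) ^ P.natDegree * Real.log x ^ C → SpC F b0 x (PT P K) := by
  obtain ⟨C1, κ, hC1, hW⟩ := weyl_log P hd
  obtain ⟨k0, hk0, hstr⟩ := ps_struct P hd
  set d := P.natDegree with hdd
  refine ⟨fun b => 3 * (2 ^ d * b + κ + 1) + C + 1, fun b0 => ?_⟩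
  set B : ℕ := 2 ^ d * b0 + κ + 1 with hB
  set M : ℕ := B + b0 + 1 with hM
  set Λ : ℝ := 55 + 6 * k0 + 3 * C1 * 2 ^ (2 ^ d) with hΛ
  have hΛ1 : 55 ≤ Λ := by
    have : 0 ≤ 3 * C1 * (2 : ℝ) ^ (2 ^ d) := by positivity
    have : (0 : ℝ) ≤ 6 * k0 := by positivity
    linarith
  have hΛ2 : 6 * (k0 : ℝ) ≤ Λ := by
    have : 0 ≤ 3 * C1 * (2 : ℝ) ^ (2 ^ d) := by positivity
    linarith
  have hΛ3 : 3 * C1 * (2 : ℝ) ^ (2 ^ d) < Λ := by
    have : (0 : ℝ) ≤ 6 * k0 := by positivity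
    linarith
  have e1 : ∀ᶠ x : ℕ in atTop, Λ ≤ Real.log x :=
    (Real.tendsto_log_atTop.comp tendsto_natCast_atTop_atTop).eventually_ge_atTop Λ
  have e2 : ∀ᶠ x : ℕ in atTop, Real.log x ^ (C + d * M) ≤ x := by
    have h := (Real.isLittleO_pow_log_id_atTop (n := C + d * M)).bound one_pos
    have h' := tendsto_natCast_atTop_atTop (R := ℝ) |>.eventually h
    filter_upwards [h', eventually_ge_atTop 1] with x hx hx1
    simp only [id, one_mul, Real.norm_eq_abs] at hx
    have h3 : |(x : ℝ)| = x := abs_of_nonneg (Nat.cast_nonneg x)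
    rw [h3] at hx
    exact (le_abs_self _).trans hx
  filter_upwards [e1, e2, eventually_ge_atTop 1] with x hx1 hx2 hx0 K hK hxK
  set L := Real.log x with hL
  have hL1 : 1 ≤ L := by linarith
  have hL0 : 0 < L := by linarith
  have hx0' : (1 : ℝ) ≤ x := by exact_mod_cast hx0
  have hLM : L ^ M ≤ K := by
    have h1 : L ^ C * (L ^ M) ^ d ≤ L ^ C * (K : ℝ) ^ d := by
      calc L ^ C * (L ^ M) ^ d = L ^ (C + d * M) := by
            rw [← pow_mul, ← pow_add]
            congr 1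
            ring
        _ ≤ x := hx2
        _ ≤ _ := by rw [mul_comm]; exact hxK
    have h2 : (L ^ M) ^ d ≤ (K : ℝ) ^ d := le_of_mul_le_mul_left h1 (by positivity)
    exact (pow_le_pow_iff_left₀ (by positivity) (Nat.cast_nonneg K) (by omega)).mp h2
  have hLK : L ≤ K := by
    refine le_trans ?_ hLM
    calc L = L ^ 1 := (pow_one L).symm
      _ ≤ L ^ M := pow_le_pow_right₀ hL1 (by omega)
  have hK3 : 3 ≤ K := by
    have : (3 : ℝ) ≤ K := by linarith
    exact_mod_cast this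
  have hk0K : k0 ≤ K := by
    have h0 : (0 : ℝ) ≤ k0 := Nat.cast_nonneg _
    have : (k0 : ℝ) ≤ K := by linarith
    exact_mod_cast this
  have hKR : (0 : ℝ) < K := by
    have : (3 : ℝ) ≤ K := by exact_mod_cast hK3
    linarith
  have hKmem : K ∈ Icc 1 K := Finset.mem_Icc.mpr ⟨by omega, le_refl _⟩
  rcases hstr with hneg | hpos
  · exact absurd (hneg K hk0K) (not_lt.mpr (hK K hKmem).1)
  have hKx : (K : ℝ) ≤ x := by
    have h1 := (hpos K hk0K).1.trans (hK K hKmem).2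
    exact_mod_cast h1
  have hlogK : Real.log K ≤ L := Real.log_le_log hKR hKx
  have hlogK0 : 0 ≤ Real.log K := Real.log_natCast_nonneg K
  constructor
  · intro t ht
    unfold PT at ht
    rw [Finset.mem_image] at ht
    obtain ⟨k, hk, rfl⟩ := ht
    rw [Finset.mem_range]
    have := hK k hk
    omega
  intro b hb
  set b' : ℕ := 2 ^ d * b + κ + 1 with hb'
  have hb'B : b' ≤ B := by
    rw [hb', hB]
    have := Nat.mul_le_mul_left (2 ^ d) hb
    omega
  have hLb1 : 1 ≤ L ^ b := one_le_pow₀ hL1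
  have hLb'1 : 1 ≤ L ^ b' := one_le_pow₀ hL1
  have hLb'0 : 0 < L ^ b' := by positivity
  have hLb'K : L ^ b' ≤ K := (pow_le_pow_right₀ hL1 (by omega)).trans hLM
  have h6K : 6 * k0 * L ^ b ≤ K := by
    calc 6 * k0 * L ^ b ≤ L * L ^ b := by
          apply mul_le_mul_of_nonneg_right (by linarith) (by positivity)
      _ = L ^ (b + 1) := by rw [pow_succ]; ring
      _ ≤ L ^ M := pow_le_pow_right₀ hL1 (by omega)
      _ ≤ K := hLM
  have hKd0 : 0 < (K : ℝ) ^ d := by positivity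
  have hKKd : (K : ℝ) ≤ (K : ℝ) ^ d := by
    have h1 : (1 : ℝ) ≤ K := by linarith
    calc (K : ℝ) = (K : ℝ) ^ 1 := (pow_one _).symm
      _ ≤ (K : ℝ) ^ d := pow_le_pow_right₀ h1 (by omega)
  have hcount := ps_count (Spec (4 * x + 1) (PT P K) (L ^ b)) (4 * x + 1) ⌊L ^ b'⌋₊
    (5 * L ^ (b' + C)) (by positivity) ?_
  · refine hcount.trans ?_
    have hQ : ((⌊L ^ b'⌋₊ : ℕ) : ℝ) ≤ L ^ b' := Nat.floor_le (by positivity)
    have hQ0 : (0 : ℝ) ≤ ((⌊L ^ b'⌋₊ : ℕ) : ℝ) := Nat.cast_nonneg _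
    have hR1 : 1 ≤ L ^ (b' + C) := one_le_pow₀ hL1
    calc ((⌊L ^ b'⌋₊ : ℕ) : ℝ) * (4 * ((⌊L ^ b'⌋₊ : ℕ) : ℝ) + 1) * (2 * (5 * L ^ (b' + C)) + 1)
        ≤ L ^ b' * (5 * L ^ b') * (11 * L ^ (b' + C)) := by
          gcongr
          · linarith
          · linarith
      _ = 55 * L ^ (3 * b' + C) := by
          rw [show 3 * b' + C = b' + b' + (b' + C) by ring, pow_add, pow_add]
          ring
      _ ≤ L * L ^ (3 * b' + C) := by
          apply mul_le_mul_of_nonneg_right (by linarith) (by positivity)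
      _ = L ^ (3 * (2 ^ d * b + κ + 1) + C + 1) := by
          rw [← hb', pow_succ L (3 * b' + C)]
          ring
  intro ζ hζ
  have hζ' : ζ < 4 * x + 1 ∧ ((PT P K).card : ℝ) ≤ L ^ b * ‖WW (PT P K) ((ζ : ℝ) / ((4 * x + 1 : ℕ) : ℝ))‖ := by
    unfold Spec at hζ
    rw [Finset.mem_filter, Finset.mem_range] at hζ
    exact hζ
  obtain ⟨hζN, hζT⟩ := hζ'
  set N : ℝ := ((4 * x + 1 : ℕ) : ℝ) with hN
  have hN0 : 0 < N := by rw [hN]; positivity
  have hN5 : N ≤ 5 * x := by
    rw [hN]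
    push_cast
    linarith
  set α : ℝ := (ζ : ℝ) / N with hα
  have hα0 : 0 ≤ α := by positivity
  have hα1 : α ≤ 1 := by
    rw [hα, div_le_one hN0, hN]
    exact_mod_cast hζN.le
  obtain ⟨hw1, hw2⟩ := ps_WW P k0 K (fun k hk => (hpos k hk).2) (fun k hk => (hK k hk).1) α
  set s : ℝ := ‖∑ k ∈ Icc 1 K, ex (α * (P.eval (k : ℤ) : ℤ))‖ with hs
  have hs0 : 0 ≤ s := norm_nonneg _
  have hWs : ‖WW (PT P K) α‖ ≤ s + 2 * k0 := by
    have h1 : ‖WW (PT P K) α‖ ≤ ‖WW (PT P K) α - ∑ k ∈ Icc 1 K, ex (α * (P.eval (k : ℤ) : ℤ))‖ + s := by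
      have := norm_add_le (WW (PT P K) α - ∑ k ∈ Icc 1 K, ex (α * (P.eval (k : ℤ) : ℤ)))
        (∑ k ∈ Icc 1 K, ex (α * (P.eval (k : ℤ) : ℤ)))
      rwa [sub_add_cancel] at this
    linarith
  have hKs : (K : ℝ) ≤ 2 * L ^ b * s := by
    have h1 : (K : ℝ) - k0 ≤ L ^ b * (s + 2 * k0) :=
      hw2.trans (hζT.trans (mul_le_mul_of_nonneg_left hWs (by positivity)))
    have h2 : (k0 : ℝ) ≤ k0 * L ^ b := le_mul_of_one_le_right (Nat.cast_nonneg _) hLb1
    nlinarith
  -- Dirichlet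
  set n : ℕ := ⌊(K : ℝ) ^ d / L ^ b'⌋₊ with hn
  have hn1 : 1 ≤ (K : ℝ) ^ d / L ^ b' := by
    rw [le_div_iff₀ hLb'0]
    linarith
  have hn0 : 0 < n := Nat.floor_pos.mpr hn1
  have hnle : (n : ℝ) ≤ (K : ℝ) ^ d / L ^ b' := Nat.floor_le (by positivity)
  have hnlt : (K : ℝ) ^ d / L ^ b' < n + 1 := Nat.lt_floor_add_one _
  obtain ⟨r, hr1, hr2⟩ := Real.exists_rat_abs_sub_le_and_den_le α hn0
  set q : ℕ := r.den with hq
  set a : ℤ := r.num with ha
  have hra : (r : ℝ) = (a : ℝ) / q := Rat.cast_def r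
  rw [hra] at hr1
  have hq0 : 0 < q := r.den_pos
  have hqR : (0 : ℝ) < q := by exact_mod_cast hq0
  have hq1R : (1 : ℝ) ≤ q := by exact_mod_cast hq0
  have hqn : (q : ℝ) ≤ n := by exact_mod_cast hr2
  have hqK : (q : ℝ) ≤ (K : ℝ) ^ d / L ^ b' := hqn.trans hnle
  have hqKd : q ≤ K ^ d := by
    have h1 : (q : ℝ) ≤ (K : ℝ) ^ d := hqK.trans (div_le_self hKd0.le hLb'1)
    exact_mod_cast h1
  have hcop : IsCoprime a (q : ℤ) := by
    rw [Int.isCoprime_iff_gcd_eq_one]
    exact r.reduced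
  have hr3 : |α - (a : ℝ) / q| ≤ 1 / (q : ℝ) ^ 2 := by
    refine hr1.trans ?_
    apply one_div_le_one_div_of_le (by positivity)
    rw [sq]
    apply mul_le_mul_of_nonneg_right (by linarith) hqR.le
  have hqL : (q : ℝ) ≤ L ^ b' := by
    by_contra hcon
    rw [not_le] at hcon
    have hw := hW K q a α hK3 hq0 hqKd hcop hr3
    rw [← hs] at hw
    have t1 : 1 / (q : ℝ) ≤ 1 / L ^ b' := one_div_le_one_div_of_le hLb'0 hcon.le
    have t2 : 1 / (K : ℝ) ≤ 1 / L ^ b' := one_div_le_one_div_of_le hLb'0 hLb'K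
    have t3 : (q : ℝ) / (K : ℝ) ^ d ≤ 1 / L ^ b' := by
      rw [div_le_iff₀ hKd0]
      calc (q : ℝ) ≤ (K : ℝ) ^ d / L ^ b' := hqK
        _ = 1 / L ^ b' * (K : ℝ) ^ d := by ring
    have t4 : Real.log K ^ κ ≤ L ^ κ := pow_le_pow_left₀ hlogK0 hlogK κ
    have t5 : s ^ (2 ^ d) ≤ C1 * (K : ℝ) ^ (2 ^ d) * (3 / L ^ b') * L ^ κ := by
      refine hw.trans ?_
      have t6 : 1 / (q : ℝ) + 1 / (K : ℝ) + (q : ℝ) / (K : ℝ) ^ d ≤ 3 / L ^ b' := by
        have : 3 / L ^ b' = 1 / L ^ b' + 1 / L ^ b' + 1 / L ^ b' := by ring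
        rw [this]
        linarith
      have t7 : 0 ≤ 1 / (q : ℝ) + 1 / (K : ℝ) + (q : ℝ) / (K : ℝ) ^ d := by positivity
      gcongr
    have t8 : (K : ℝ) ^ (2 ^ d) ≤ (2 * L ^ b * s) ^ (2 ^ d) := pow_le_pow_left₀ hKR.le hKs _
    have t9 : (2 * L ^ b * s) ^ (2 ^ d) = 2 ^ (2 ^ d) * L ^ (2 ^ d * b) * s ^ (2 ^ d) := by
      rw [mul_pow, mul_pow, ← pow_mul, mul_comm b (2 ^ d)]
    have t10 : (K : ℝ) ^ (2 ^ d) ≤ (K : ℝ) ^ (2 ^ d) * (3 * C1 * 2 ^ (2 ^ d) / L) := by
      calc (K : ℝ) ^ (2 ^ d) ≤ 2 ^ (2 ^ d) * L ^ (2 ^ d * b) * s ^ (2 ^ d) := by rw [← t9]; exact t8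
        _ ≤ 2 ^ (2 ^ d) * L ^ (2 ^ d * b) * (C1 * (K : ℝ) ^ (2 ^ d) * (3 / L ^ b') * L ^ κ) := by
            gcongr
        _ = (K : ℝ) ^ (2 ^ d) * (3 * C1 * 2 ^ (2 ^ d) / L) := by
            rw [hb', pow_succ L (2 ^ d * b + κ), pow_add]
            field_simp
    have t11 : 3 * C1 * 2 ^ (2 ^ d) / L < 1 := by
      rw [div_lt_one hL0]
      linarith
    have t12 : 0 < (K : ℝ) ^ (2 ^ d) := by positivity
    nlinarith
  have hn1L : 1 / ((n : ℝ) + 1) ≤ L ^ b' / (K : ℝ) ^ d := by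
    rw [div_le_div_iff₀ (by positivity) hKd0, one_mul]
    rw [div_lt_iff₀ hLb'0] at hnlt
    linarith
  have hr4 : |α - (a : ℝ) / q| ≤ 1 / ((n : ℝ) + 1) := by
    refine hr1.trans ?_
    apply one_div_le_one_div_of_le (by positivity)
    exact le_mul_of_one_le_right (by positivity) hq1R
  refine ⟨q, a, hq0, Nat.le_floor hqL, ?_, ?_⟩
  · have h1 : |(a : ℝ) / q| ≤ 2 := by
      have h2 : |α - (a : ℝ) / q| ≤ 1 := by
        refine hr4.trans ?_
        rw [div_le_one (by positivity)]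
        have : (0 : ℝ) ≤ n := Nat.cast_nonneg n
        linarith
      have h3 := abs_le.mp h2
      rw [abs_le]
      constructor <;> linarith [h3.1, h3.2]
    rw [abs_div, abs_of_pos hqR, div_le_iff₀ hqR] at h1
    have h2 : |(a : ℝ)| ≤ 2 * (⌊L ^ b'⌋₊ : ℕ) := by
      refine h1.trans ?_
      have : (q : ℝ) ≤ (⌊L ^ b'⌋₊ : ℕ) := by exact_mod_cast Nat.le_floor hqL
      linarith
    exact_mod_cast h2
  · have h1 : (ζ : ℝ) - ((4 * x + 1 : ℕ) : ℝ) * ((a : ℝ) / q) = N * (α - (a : ℝ) / q) := by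
      rw [mul_sub, hα, mul_div_cancel₀ _ hN0.ne']
    rw [h1, abs_mul, abs_of_pos hN0]
    calc N * |α - (a : ℝ) / q| ≤ (5 * x) * (L ^ b' / (K : ℝ) ^ d) := by
          apply mul_le_mul hN5 (hr4.trans hn1L) (abs_nonneg _) (by positivity)
      _ ≤ (5 * ((K : ℝ) ^ d * L ^ C)) * (L ^ b' / (K : ℝ) ^ d) := by
          gcongr
      _ = 5 * L ^ (b' + C) := by
          have h9 : (K : ℝ) ^ d ≠ 0 := hKd0.ne'
          rw [pow_add L b' C]
          generalize L ^ b' = u
          generalize L ^ C = v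
          generalize (K : ℝ) ^ d = w at h9
          field_simp

end Pool.Agent.HLT
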