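import Pool.Agent.Lib.HLT.Final
import Pool.Agent.Lib.HLT.PolySpec

/-!
# Hardy-Littlewood for almost all tuples of polynomial shifts
-/

set_option autoImplicit false

open Finset Filter

namespace Pool.Agent.HLT

open Pool.Agent.HLB Pool.Agent.HL Pool.Agent.Lib.Sieve4

lemma SpC.mono_F {F F' : ℕ → ℕ} {b0 x : ℕ} {T : Finset ℕ} (h : SpC F b0 x T)
    (hF : ∀ b, F b ≤ F' b) (hL : 1 ≤ Real.log x) : SpC F' b0 x T :=
  ⟨h.1, fun b hb => (h.2 b hb).trans (pow_le_pow_right₀ hL (hF b))⟩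

/-- Main theorem for polynomial shifts. -/
theorem hl_poly (m A C : ℕ) (P : Fin m → Polynomial ℤ) (hd : ∀ i, 2 ≤ (P i).natDegree) {ε : ℝ}
    (hε : 0 < ε) : ∀ᶠ x : ℕ in atTop, ∀ K : Fin m → ℕ,
    (∀ i, ∀ k ∈ Icc 1 (K i), 0 ≤ (P i).eval (k : ℤ) ∧ (P i).eval (k : ℤ) ≤ x) →
    (∀ i, (x : ℝ) ≤ (K i : ℝ) ^ (P i).natDegree * Real.log x ^ C) → ∀ c : ℕ, c ≤ x →
    ∃ E ⊆ Fintype.piFinset (fun i => Icc 1 (K i)),
      (E.card : ℝ) ≤ (∏ i, (K i : ℝ)) / Real.log x ^ A ∧
      ∀ k ∈ Fintype.piFinset (fun i => Icc 1 (K i)), k ∉ E →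
        ∀ a : Fin (m + 1) → ℕ, a = Fin.cons c (fun i => ((P i).eval (k i : ℤ)).toNat) →
        Function.Injective a → (∀ p : ℕ, p.Prime → nuI a p < p) →
        |(piT x a : ℝ) - SI a * (x / Real.log x ^ (m + 1))| ≤
          ε * (SI a * (x / Real.log x ^ (m + 1))) := by
  classical
  choose Fi hFi using fun i => poly_spec (P i) (hd i) C
  obtain ⟨b0, hb⟩ := hl_spec m (A + 1) (fun b => ∑ i, Fi i b)
  have hsp : ∀ᶠ x : ℕ in atTop, ∀ i : Fin m, ∀ K : ℕ,
      (∀ k ∈ Icc 1 K, 0 ≤ (P i).eval (k : ℤ) ∧ (P i).eval (k : ℤ) ≤ x) →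
      (x : ℝ) ≤ (K : ℝ) ^ (P i).natDegree * Real.log x ^ C → SpC (Fi i) b0 x (PT (P i) K) :=
    Filter.eventually_all.mpr fun i => hFi i b0
  have hlog : ∀ᶠ x : ℕ in atTop, max 1 ((∏ i, (P i).natDegree : ℕ) : ℝ) ≤ Real.log x :=
    (Real.tendsto_log_atTop.comp tendsto_natCast_atTop_atTop).eventually_ge_atTop _
  filter_upwards [hb ε hε, hsp, hlog] with x h1 h2 h3
  intro K hK1 hK2 c hc
  have hL1 : 1 ≤ Real.log x := (le_max_left _ _).trans h3
  have hL2 : ((∏ i, (P i).natDegree : ℕ) : ℝ) ≤ Real.log x := (le_max_right _ _).trans h3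
  have hL0 : 0 < Real.log x := by linarith
  have hT : ∀ i, SpC (fun b => ∑ i, Fi i b) b0 x (PT (P i) (K i)) := by
    intro i
    refine (h2 i (K i) (hK1 i) (hK2 i)).mono_F (fun b => ?_) hL1
    exact Finset.single_le_sum (f := fun i => Fi i b) (fun _ _ => Nat.zero_le _) (Finset.mem_univ i)
  obtain ⟨E', hE'1, hE'2, hE'3⟩ := h1 (fun i => PT (P i) (K i)) hT c hc
  set f : (Fin m → ℕ) → (Fin m → ℕ) := fun k i => ((P i).eval (k i : ℤ)).toNat with hf
  have hmem : ∀ k ∈ Fintype.piFinset (fun i => Icc 1 (K i)),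
      f k ∈ Fintype.piFinset (fun i => PT (P i) (K i)) := by
    intro k hk
    rw [Fintype.mem_piFinset] at hk ⊢
    intro i
    exact Finset.mem_image_of_mem _ (hk i)
  refine ⟨(Fintype.piFinset (fun i => Icc 1 (K i))).filter (fun k => f k ∈ E'),
    Finset.filter_subset _ _, ?_, ?_⟩
  · have hcard : ((Fintype.piFinset (fun i => Icc 1 (K i))).filter (fun k => f k ∈ E')).card ≤
        (∏ i, (P i).natDegree) * E'.card := by
      have h4 := Finset.card_le_mul_card_image
        (s := (Fintype.piFinset (fun i => Icc 1 (K i))).filter (fun k => f k ∈ E')) (f := f)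
        (∏ i, (P i).natDegree) ?_
      · refine h4.trans (Nat.mul_le_mul_left _ (Finset.card_le_card ?_))
        intro v hv
        obtain ⟨k, hk, rfl⟩ := Finset.mem_image.mp hv
        exact (Finset.mem_filter.mp hk).2
      · intro v _
        have hsub : ((Fintype.piFinset (fun i => Icc 1 (K i))).filter (fun k => f k ∈ E')).filter
            (fun k => f k = v) ⊆ Fintype.piFinset (fun i =>
              (Icc 1 (K i)).filter (fun k : ℕ => (P i).eval (k : ℤ) = (v i : ℤ))) := by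
          intro k hk
          rw [Finset.mem_filter, Finset.mem_filter, Fintype.mem_piFinset] at hk
          obtain ⟨⟨hk1, _⟩, hk3⟩ := hk
          rw [Fintype.mem_piFinset]
          intro i
          rw [Finset.mem_filter]
          refine ⟨hk1 i, ?_⟩
          have h5 := (hK1 i (k i) (hk1 i)).1
          rw [← hk3]
          simp only [hf]
          exact (Int.toNat_of_nonneg h5).symm
        refine (Finset.card_le_card hsub).trans ?_
        rw [Fintype.card_piFinset]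
        exact Finset.prod_le_prod' fun i _ => poly_fiber (P i) (hd i) (K i) (v i)
    have hT1 : (∏ i, ((PT (P i) (K i)).card : ℝ)) ≤ ∏ i, (K i : ℝ) := by
      refine Finset.prod_le_prod (fun _ _ => Nat.cast_nonneg _) fun i _ => ?_
      have h6 : (PT (P i) (K i)).card ≤ (Icc 1 (K i)).card := Finset.card_image_le
      rw [Nat.card_Icc] at h6
      exact_mod_cast h6.trans (by omega)
    have hQ0 : (0 : ℝ) ≤ ∏ i, (K i : ℝ) := Finset.prod_nonneg fun _ _ => Nat.cast_nonneg _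
    have h7 : (E'.card : ℝ) ≤ (∏ i, (K i : ℝ)) / Real.log x ^ (A + 1) :=
      hE'2.trans (div_le_div_of_nonneg_right hT1 (by positivity))
    have h8 : ((((Fintype.piFinset (fun i => Icc 1 (K i))).filter (fun k => f k ∈ E')).card : ℕ) : ℝ)
        ≤ ((∏ i, (P i).natDegree : ℕ) : ℝ) * E'.card := by
      exact_mod_cast hcard
    refine h8.trans ?_
    generalize (∏ i, (K i : ℝ)) = Q at *
    generalize ((∏ i, (P i).natDegree : ℕ) : ℝ) = D at *
    generalize Real.log x = L at *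
    have h9 : D * (E'.card : ℝ) ≤ L * (Q / L ^ (A + 1)) :=
      mul_le_mul hL2 h7 (Nat.cast_nonneg _) hL0.le
    refine h9.trans (le_of_eq ?_)
    rw [pow_succ]
    field_simp
  · intro k hk hkE a ha hinj hadm
    have h4 : f k ∉ E' := fun h => hkE (Finset.mem_filter.mpr ⟨hk, h⟩)
    subst ha
    exact hE'3 (f k) (hmem k hk) h4 hinj hadm

end Pool.Agent.HLT
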