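import Pool.Agent.Lib.HLB.CLUpper

/-!
# Brun's sieve, deterministic form

PROOF SKETCH. `P = primesLE z`. For `k` even, with
`h_n p = [n % p ∈ F p]`, `HLB.prod_le_TT` and `HLB.TT_sub_le_prod` give
`|[∀ p ∈ P, n % p ∉ F p] - TT P h_n k| <= EE P h_n (k + 1)`. Sum over `n <= y`: for a set `s` of primes the
number of `n <= y` with `n % p ∈ F p` for all `p ∈ s` is `|F|_s (y / ∏ s + O(1))`, `|F|_s = ∏_{p ∈ s} |F p|`
(Chinese remainder theorem; `HLB.card_hits`, `HLB.hits_eq_sum_classes` with `w = 1`; each class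
modulo `d` has between `y/d - 1` and `y/d + 1` elements in `[1, y]`). With `g p = |F p| / p` and again
`|TT P g k - ∏ (1 - g)| <= EE P g (k + 1)` one gets
`|N - y ∏ (1 - g)| <= 2 y EE P g (k+1) + sum_{|s| <= k+1} |F|_s`, and `EE P g (k+1) <= (r E)^(k+1) / (k+1)!`
(`HLB.EE_le`, `E = sum_{p <= z} 1/p`), `sum_{|s| <= k+1} |F|_s <= (k + 2) (1 + z)^(k+1) (1 + r)^(k+1)` (the number of
subsets with `j` elements is at most `z^j`).
-/

set_option autoImplicit false

open Finset Filter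

namespace Pool.Agent.HLT

open Pool.Agent.HLB

/-- Indicator of the forbidden classes. -/
noncomputable def brunH (F : ℕ → Finset ℕ) (n p : ℕ) : ℝ := if n % p ∈ F p then 1 else 0

lemma brunH_nonneg (F : ℕ → Finset ℕ) (n p : ℕ) : 0 ≤ brunH F n p := by
  unfold brunH
  split_ifs <;> norm_num

lemma brunH_le (F : ℕ → Finset ℕ) (n p : ℕ) : brunH F n p ≤ 1 := by
  unfold brunH
  split_ifs <;> norm_num

/-- Number of `n ≤ y` hit by all the primes of `s`. -/
lemma brun_count (s : Finset ℕ) (hs : ∀ p ∈ s, p.Prime) (F : ℕ → Finset ℕ)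
    (hF : ∀ p ∈ s, F p ⊆ range p) (y : ℕ) :
    |∑ n ∈ Icc 1 y, ∏ p ∈ s, brunH F n p - y * ∏ p ∈ s, (((F p).card : ℝ) / p)| ≤
      ∏ p ∈ s, ((F p).card : ℝ) := by
  have hpos : 0 < ∏ p ∈ s, p := Finset.prod_pos fun p hp => (hs p hp).pos
  have hmod : ∀ n : ℕ, ∏ p ∈ s, brunH F (n % (∏ p ∈ s, p)) p = ∏ p ∈ s, brunH F n p := by
    intro n
    refine Finset.prod_congr rfl fun p hp => ?_
    unfold brunH
    rw [Nat.mod_mod_of_dvd n (Finset.dvd_prod_of_mem _ hp)]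
  have h := abs_sum_periodic y (∏ p ∈ s, p) hpos (fun n => ∏ p ∈ s, brunH F n p) hmod
  have hprod : ∀ b : ℕ, ∏ p ∈ s, brunH F b p = if (∀ q ∈ s, b % q ∈ F q) then (1 : ℝ) else 0 := by
    intro b
    unfold brunH
    rw [Finset.prod_ite_zero]
    simp
  have hsum : ∑ b ∈ range (∏ p ∈ s, p), ∏ p ∈ s, brunH F b p = ∏ q ∈ s, ((F q).card : ℝ) := by
    rw [← card_hits s hs F hF]
    simp only [hprod]
    rw [Finset.sum_boole]
  have habs : ∑ b ∈ range (∏ p ∈ s, p), |∏ p ∈ s, brunH F b p| = ∏ q ∈ s, ((F q).card : ℝ) := by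
    rw [← hsum]
    refine Finset.sum_congr rfl fun b _ => abs_of_nonneg ?_
    exact Finset.prod_nonneg fun p _ => brunH_nonneg F b p
  rw [habs] at h
  simp only at h
  rw [hsum] at h
  refine le_trans (le_of_eq ?_) h
  congr 2
  rw [Finset.prod_div_distrib]
  push_cast
  ring

lemma brun_TT (P : Finset ℕ) (hP : ∀ p ∈ P, p.Prime) (F : ℕ → Finset ℕ)
    (hF : ∀ p ∈ P, F p ⊆ range p) (y k : ℕ) :
    |∑ n ∈ Icc 1 y, TT P (brunH F n) k - y * TT P (fun p => ((F p).card : ℝ) / p) k| ≤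
      ∑ s ∈ P.powerset.filter (fun s => s.card ≤ k), ∏ p ∈ s, ((F p).card : ℝ) := by
  unfold TT
  rw [Finset.sum_comm, Finset.mul_sum, ← Finset.sum_sub_distrib]
  refine (Finset.abs_sum_le_sum_abs _ _).trans (Finset.sum_le_sum fun s hs => ?_)
  rw [Finset.mem_filter, Finset.mem_powerset] at hs
  have h := brun_count s (fun p hp => hP p (hs.1 hp)) F (fun p hp => hF p (hs.1 hp)) y
  rw [← Finset.mul_sum]
  have e : (-1 : ℝ) ^ s.card * ∑ n ∈ Icc 1 y, ∏ p ∈ s, brunH F n p -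
      y * ((-1 : ℝ) ^ s.card * ∏ p ∈ s, (((F p).card : ℝ) / p)) =
      (-1 : ℝ) ^ s.card * (∑ n ∈ Icc 1 y, ∏ p ∈ s, brunH F n p -
        y * ∏ p ∈ s, (((F p).card : ℝ) / p)) := by ring
  rw [e, abs_mul, abs_pow, abs_neg, abs_one, one_pow, one_mul]
  exact h

lemma brun_EE (P : Finset ℕ) (hP : ∀ p ∈ P, p.Prime) (F : ℕ → Finset ℕ)
    (hF : ∀ p ∈ P, F p ⊆ range p) (y k : ℕ) :
    |∑ n ∈ Icc 1 y, EE P (brunH F n) k - y * EE P (fun p => ((F p).card : ℝ) / p) k| ≤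
      ∑ s ∈ P.powerset.filter (fun s => s.card = k), ∏ p ∈ s, ((F p).card : ℝ) := by
  unfold EE
  rw [Finset.sum_comm, Finset.mul_sum, ← Finset.sum_sub_distrib]
  refine (Finset.abs_sum_le_sum_abs _ _).trans (Finset.sum_le_sum fun s hs => ?_)
  rw [Finset.mem_filter, Finset.mem_powerset] at hs
  exact brun_count s (fun p hp => hP p (hs.1 hp)) F (fun p hp => hF p (hs.1 hp)) y

/-- Sum of the error terms. -/
lemma brun_err (P : Finset ℕ) (F : ℕ → Finset ℕ) (r z : ℕ) (hr : ∀ p ∈ P, (F p).card ≤ r)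
    (hz : P.card ≤ z) (k : ℕ) :
    ∑ s ∈ P.powerset.filter (fun s => s.card ≤ k), ∏ p ∈ s, ((F p).card : ℝ) ≤
      (k + 1) * ((1 + (z : ℝ)) * (1 + r)) ^ k := by
  have h1 : ∑ s ∈ P.powerset.filter (fun s => s.card ≤ k), ∏ p ∈ s, ((F p).card : ℝ) =
      ∑ j ∈ range (k + 1), EE P (fun p => ((F p).card : ℝ)) j := by
    unfold EE
    rw [← Finset.sum_fiberwise_of_maps_to (t := range (k + 1)) (g := fun s => s.card)]
    · refine Finset.sum_congr rfl fun j hj => ?_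
      refine Finset.sum_congr ?_ fun _ _ => rfl
      ext s
      simp only [Finset.mem_filter, Finset.mem_powerset]
      rw [Finset.mem_range] at hj
      constructor
      · rintro ⟨⟨h1, _⟩, h3⟩
        exact ⟨h1, h3⟩
      · rintro ⟨h1, h3⟩
        exact ⟨⟨h1, by omega⟩, h3⟩
    · intro s hs
      rw [Finset.mem_filter] at hs
      rw [Finset.mem_range]
      omega
  rw [h1]
  have hz0 : (0 : ℝ) ≤ z := Nat.cast_nonneg _
  have hr0 : (0 : ℝ) ≤ r := Nat.cast_nonneg _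
  have hB : (1 : ℝ) ≤ (1 + (z : ℝ)) * (1 + r) := by nlinarith [mul_nonneg hz0 hr0]
  have h2 : ∀ j ∈ range (k + 1), EE P (fun p => ((F p).card : ℝ)) j ≤
      ((1 + (z : ℝ)) * (1 + r)) ^ k := by
    intro j hj
    rw [Finset.mem_range] at hj
    have h3 := EE_le P (fun p => ((F p).card : ℝ)) (fun p _ => Nat.cast_nonneg _) j
    have h4 : ∑ p ∈ P, ((F p).card : ℝ) ≤ z * r := by
      have h5 : ∑ p ∈ P, ((F p).card : ℝ) ≤ ∑ _p ∈ P, (r : ℝ) :=
        Finset.sum_le_sum fun p hp => by exact_mod_cast hr p hp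
      rw [Finset.sum_const, nsmul_eq_mul] at h5
      refine h5.trans ?_
      have : (P.card : ℝ) ≤ z := by exact_mod_cast hz
      exact mul_le_mul_of_nonneg_right this hr0
    have h0 : (0 : ℝ) ≤ ∑ p ∈ P, ((F p).card : ℝ) :=
      Finset.sum_nonneg fun p _ => Nat.cast_nonneg _
    have hfac : (1 : ℝ) ≤ (j.factorial : ℝ) := by exact_mod_cast Nat.factorial_pos j
    calc EE P (fun p => ((F p).card : ℝ)) j
        ≤ (∑ p ∈ P, ((F p).card : ℝ)) ^ j / (j.factorial : ℝ) := h3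
      _ ≤ (∑ p ∈ P, ((F p).card : ℝ)) ^ j := div_le_self (pow_nonneg h0 j) hfac
      _ ≤ ((1 + (z : ℝ)) * (1 + r)) ^ j := by
          apply pow_le_pow_left₀ h0
          nlinarith
      _ ≤ ((1 + (z : ℝ)) * (1 + r)) ^ k := pow_le_pow_right₀ hB (by omega)
  refine (Finset.sum_le_sum h2).trans ?_
  rw [Finset.sum_const, Finset.card_range, nsmul_eq_mul]
  push_cast
  exact le_rfl

lemma brun_card_primesLE_le (z : ℕ) : (Nat.primesLE z).card ≤ z := by
  have h : Nat.primesLE z ⊆ Icc 1 z := by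
    intro p hp
    rw [Nat.mem_primesLE] at hp
    rw [Finset.mem_Icc]
    exact ⟨hp.2.one_lt.le, hp.1⟩
  have := Finset.card_le_card h
  simpa using this

/-- Deterministic form of Brun's sieve. -/
theorem brun_det (r z k y : ℕ) (hk : Even k) (F : ℕ → Finset ℕ)
    (hF : ∀ p ∈ Nat.primesLE z, F p ⊆ range p ∧ (F p).card ≤ r) :
    |(((Icc 1 y).filter (fun n => ∀ p ∈ Nat.primesLE z, n % p ∉ F p)).card : ℝ) -
        y * ∏ p ∈ Nat.primesLE z, (1 - ((F p).card : ℝ) / p)| ≤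
      2 * y * ((r * ∑ p ∈ Nat.primesLE z, 1 / (p : ℝ)) ^ (k + 1) / ((k + 1).factorial : ℝ)) +
        (k + 2) * ((1 + (z : ℝ)) * (1 + r)) ^ (k + 1) := by
  set P := Nat.primesLE z with hPdef
  have hP : ∀ p ∈ P, p.Prime := fun p hp => (Nat.mem_primesLE.1 hp).2
  have hFs : ∀ p ∈ P, F p ⊆ range p := fun p hp => (hF p hp).1
  set g : ℕ → ℝ := fun p => ((F p).card : ℝ) / p with hg
  have hg01 : ∀ p ∈ P, 0 ≤ g p ∧ g p ≤ 1 := by
    intro p hp
    have hp0 : (0 : ℝ) < p := by exact_mod_cast (hP p hp).pos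
    refine ⟨by positivity, ?_⟩
    rw [hg]
    simp only
    rw [div_le_one hp0]
    have := Finset.card_le_card (hFs p hp)
    rw [Finset.card_range] at this
    exact_mod_cast this
  have hh01 : ∀ n : ℕ, ∀ p ∈ P, 0 ≤ brunH F n p ∧ brunH F n p ≤ 1 := fun n p _ =>
    ⟨brunH_nonneg F n p, brunH_le F n p⟩
  have hN : (((Icc 1 y).filter (fun n => ∀ p ∈ P, n % p ∉ F p)).card : ℝ) =
      ∑ n ∈ Icc 1 y, ∏ p ∈ P, (1 - brunH F n p) := by
    have h1 : ∀ n : ℕ, ∏ p ∈ P, (1 - brunH F n p) =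
        if (∀ p ∈ P, n % p ∉ F p) then (1 : ℝ) else 0 := by
      intro n
      have h2 : ∀ p ∈ P, (1 - brunH F n p) = if n % p ∉ F p then (1 : ℝ) else 0 := by
        intro p _
        unfold brunH
        by_cases h : n % p ∈ F p
        · rw [if_pos h, if_neg (not_not.mpr h)]; ring
        · rw [if_neg h, if_pos h]; ring
      rw [Finset.prod_congr rfl h2, Finset.prod_ite_zero]
      simp
    simp only [h1]
    rw [Finset.sum_boole]
  have hT := brun_TT P hP F hFs y k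
  have hE := brun_EE P hP F hFs y (k + 1)
  have hup : ∑ n ∈ Icc 1 y, ∏ p ∈ P, (1 - brunH F n p) ≤ ∑ n ∈ Icc 1 y, TT P (brunH F n) k :=
    Finset.sum_le_sum fun n _ => prod_le_TT P (brunH F n) (hh01 n) k hk
  have hlo : ∑ n ∈ Icc 1 y, TT P (brunH F n) k - ∑ n ∈ Icc 1 y, EE P (brunH F n) (k + 1) ≤
      ∑ n ∈ Icc 1 y, ∏ p ∈ P, (1 - brunH F n p) := by
    rw [← Finset.sum_sub_distrib]
    exact Finset.sum_le_sum fun n _ => TT_sub_le_prod P (brunH F n) (hh01 n) k hk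
  have hgu := prod_le_TT P g hg01 k hk
  have hgl := TT_sub_le_prod P g hg01 k hk
  have hEg : EE P g (k + 1) ≤
      (r * ∑ p ∈ P, 1 / (p : ℝ)) ^ (k + 1) / ((k + 1).factorial : ℝ) := by
    refine (EE_le P g (fun p hp => (hg01 p hp).1) (k + 1)).trans ?_
    have h0 : 0 ≤ ∑ p ∈ P, g p := Finset.sum_nonneg fun p hp => (hg01 p hp).1
    have h1 : ∑ p ∈ P, g p ≤ r * ∑ p ∈ P, 1 / (p : ℝ) := by
      rw [Finset.mul_sum]
      refine Finset.sum_le_sum fun p hp => ?_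
      have hp0 : (0 : ℝ) < p := by exact_mod_cast (hP p hp).pos
      rw [hg]
      simp only
      rw [mul_one_div]
      apply div_le_div_of_nonneg_right _ hp0.le
      exact_mod_cast (hF p hp).2
    exact div_le_div_of_nonneg_right (pow_le_pow_left₀ h0 h1 _) (by positivity)
  have hEg0 : 0 ≤ EE P g (k + 1) := EE_nonneg P g (fun p hp => (hg01 p hp).1) _
  have herr := brun_err P F r z (fun p hp => (hF p hp).2) (brun_card_primesLE_le z) (k + 1)
  have hsplit : ∑ s ∈ P.powerset.filter (fun s => s.card ≤ k), ∏ p ∈ s, ((F p).card : ℝ) +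
      ∑ s ∈ P.powerset.filter (fun s => s.card = k + 1), ∏ p ∈ s, ((F p).card : ℝ) =
      ∑ s ∈ P.powerset.filter (fun s => s.card ≤ k + 1), ∏ p ∈ s, ((F p).card : ℝ) := by
    rw [← Finset.sum_union]
    · refine Finset.sum_congr ?_ fun _ _ => rfl
      ext s
      simp only [Finset.mem_union, Finset.mem_filter, Finset.mem_powerset]
      constructor
      · rintro (⟨h1, h2⟩ | ⟨h1, h2⟩)
        · exact ⟨h1, by omega⟩
        · exact ⟨h1, by omega⟩
      · rintro ⟨h1, h2⟩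
        by_cases h : s.card ≤ k
        · exact Or.inl ⟨h1, h⟩
        · exact Or.inr ⟨h1, by omega⟩
    · rw [Finset.disjoint_left]
      intro s hs hs'
      rw [Finset.mem_filter] at hs hs'
      omega
  have hM0 : 0 ≤ ∑ s ∈ P.powerset.filter (fun s => s.card = k + 1), ∏ p ∈ s, ((F p).card : ℝ) :=
    Finset.sum_nonneg fun s _ => Finset.prod_nonneg fun p _ => Nat.cast_nonneg _
  have hy0 : (0 : ℝ) ≤ y := Nat.cast_nonneg _
  have hyE : (y : ℝ) * EE P g (k + 1) ≤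
      y * ((r * ∑ p ∈ P, 1 / (p : ℝ)) ^ (k + 1) / ((k + 1).factorial : ℝ)) :=
    mul_le_mul_of_nonneg_left hEg hy0
  have hyE0 : 0 ≤ (y : ℝ) * EE P g (k + 1) := mul_nonneg hy0 hEg0
  have hgu' := mul_le_mul_of_nonneg_left hgu hy0
  have hgl' := mul_le_mul_of_nonneg_left hgl hy0
  rw [mul_sub] at hgl'
  rw [abs_le] at hT hE
  rw [hN]
  push_cast at herr
  have e2 : ((k : ℝ) + 1 + 1) = k + 2 := by ring
  rw [e2] at herr
  set A := (r * ∑ p ∈ P, 1 / (p : ℝ)) ^ (k + 1) / ((k + 1).factorial : ℝ) with hA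
  set B := ((k : ℝ) + 2) * ((1 + (z : ℝ)) * (1 + r)) ^ (k + 1) with hB
  rw [abs_le]
  constructor
  · linarith [hT.1, hT.2, hE.1, hE.2]
  · linarith [hT.1, hT.2, hE.1, hE.2]

end Pool.Agent.HLT
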