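import Pool.Agent.Lib.HLT.NuAP
import Pool.Agent.Lib.SW.Main

/-!
# Primes against the sieve model in residue classes

PROOF SKETCH. `z = zA A x`, `L = log x`, `f = ff z`.
`class_bound`: for `y <= 2 x` and `(b, q) = 1`, `|sum_{n <= y, n % q = b % q} f n| <= x / L^B`. If
`y <= x / L^(B+2)` both sums are small (`sum lp <= 3 y` or so by Chebyshev, `sum nuz` by `nu_ap`). Otherwise
`log y >= L / 2`, `q <= z <= L^A <= (log y)^(A')` with `A' = A + B + 3` (say), and
`SW.siegel_walfisz_theta_nat A'` at `y` together with `nu_ap A (B+1)` (main terms `y / φ q` cancel).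
`sum_{n} lp n` over a class is `SW.thetaAP y q b` (`n ≡ b [MOD q]` unfolds to `n % q = b % q`).
If `(b, q) > 1` then `nuz` vanishes on the class (`nu_zero`, as `q <= z`) and the primes of the class
divide `q`, so `0 <= sum f <= sum_{p | q} log p <= log q`.
-/

set_option autoImplicit false

open Finset Filter

namespace Pool.Agent.HLT

open Pool.Agent.HLB

private lemma sum_lp_eq (y q b : ℕ) :
    ∑ n ∈ (Icc 1 y).filter (fun n => n % q = b % q), lp n =
      Pool.Agent.Lib.SW.thetaAP (y : ℝ) q b := by
  unfold Pool.Agent.Lib.SW.thetaAP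
  rw [Nat.floor_natCast, Finset.sum_filter, Finset.sum_filter]
  refine Finset.sum_congr rfl fun n _ => ?_
  unfold lp Nat.ModEq
  by_cases h1 : n.Prime <;> by_cases h2 : n % q = b % q <;> simp [h1, h2]

private lemma log_large (n : ℕ) (K : ℝ) : ∀ᶠ x : ℕ in atTop,
    K ≤ Real.log x ∧ Real.log x ^ n ≤ x := by
  have h1 : Tendsto (fun x : ℕ => Real.log x) atTop atTop :=
    Real.tendsto_log_atTop.comp tendsto_natCast_atTop_atTop
  have h2 := (Real.isLittleO_pow_log_id_atTop (n := n)).comp_tendsto
    (tendsto_natCast_atTop_atTop (R := ℝ))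
  have h3 := h2.bound (c := 1) one_pos
  filter_upwards [h1.eventually_ge_atTop K, h3] with x hx hx3
  refine ⟨hx, ?_⟩
  simp only [Function.comp_apply, id, one_mul] at hx3
  rw [Real.norm_eq_abs, Real.norm_of_nonneg (Nat.cast_nonneg x)] at hx3
  exact (le_abs_self _).trans hx3

private lemma noncoprime_case {z q b y : ℕ} (hq1 : 1 ≤ q) (hq : q ≤ z) (hb : ¬ b.Coprime q) :
    |∑ n ∈ (Icc 1 y).filter (fun n => n % q = b % q), ff z n| ≤ (q : ℝ) ^ 2 := by
  have h1 : ∀ n ∈ (Icc 1 y).filter (fun n => n % q = b % q), ff z n = lp n := by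
    intro n hn
    rw [Finset.mem_filter] at hn
    unfold ff
    rw [nu_zero hq1 hq hb hn.2, sub_zero]
  rw [Finset.sum_congr rfl h1, abs_of_nonneg (Finset.sum_nonneg fun n _ => lp_nonneg n)]
  have h2 : ∀ n ∈ (Icc 1 y).filter (fun n => n % q = b % q), lp n ≠ 0 → n ∈ Icc 1 q := by
    intro n hn hne
    rw [Finset.mem_filter, Finset.mem_Icc] at hn
    unfold lp at hne
    have hp : n.Prime := by
      by_contra h
      rw [if_neg h] at hne
      exact hne rfl
    have h3 : ¬ n.Coprime q := by
      intro h
      apply hb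
      have h4 : Nat.gcd n q = Nat.gcd b q := Nat.ModEq.gcd_eq (show n ≡ b [MOD q] from hn.2)
      unfold Nat.Coprime at *
      rw [← h4, h]
    have h5 : n ∣ q := by
      rcases (Nat.coprime_or_dvd_of_prime hp q) with h | h
      · exact absurd h h3
      · exact h
    exact Finset.mem_Icc.2 ⟨hn.1.1, Nat.le_of_dvd hq1 h5⟩
  calc ∑ n ∈ (Icc 1 y).filter (fun n => n % q = b % q), lp n
      = ∑ n ∈ ((Icc 1 y).filter (fun n => n % q = b % q)).filter (fun n => lp n ≠ 0), lp n := by
        rw [Finset.sum_filter_ne_zero]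
    _ ≤ ∑ n ∈ Icc 1 q, lp n := by
        refine Finset.sum_le_sum_of_subset_of_nonneg ?_ fun n _ _ => lp_nonneg n
        intro n hn
        rw [Finset.mem_filter] at hn
        exact h2 n hn.1 hn.2
    _ ≤ ∑ n ∈ Icc 1 q, (q : ℝ) := by
        refine Finset.sum_le_sum fun n hn => ?_
        rw [Finset.mem_Icc] at hn
        have h6 : Real.log n ≤ n := (Real.log_le_sub_one_of_pos (by
          exact_mod_cast hn.1)).trans (by linarith)
        have h7 : (n : ℝ) ≤ q := by exact_mod_cast hn.2
        exact (lp_le n).trans (h6.trans h7)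
    _ = (q : ℝ) ^ 2 := by
        rw [Finset.sum_const, Nat.card_Icc, nsmul_eq_mul]
        push_cast
        ring

theorem class_bound (A B : ℕ) : ∀ᶠ x : ℕ in atTop, ∀ y : ℕ, y ≤ 2 * x → ∀ q b : ℕ, 1 ≤ q →
    q ≤ zA A x →
    |∑ n ∈ (Icc 1 y).filter (fun n => n % q = b % q), ff (zA A x) n| ≤ x / Real.log x ^ B := by
  obtain ⟨C, hC, hSW⟩ := Pool.Agent.Lib.SW.siegel_walfisz_theta_nat (A + B + 3)
  filter_upwards [nu_ap A (B + 1), log_large (2 * A + B) 0, log_large (2 * (B + 2)) 0,
    log_large 0 (2 ^ (A + B + 4) * (C + 4)), eventually_ge_atTop 3] with x hnu h1 h2 h3 hx3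
  intro y hy q b hq1 hq
  set L : ℝ := Real.log x with hL
  set z := zA A x with hz
  have hx0 : (0:ℝ) < x := by
    have : (3:ℝ) ≤ x := by exact_mod_cast hx3
    linarith
  have hpow : (1:ℝ) ≤ 2 ^ (A + B + 4) := one_le_pow₀ (by norm_num)
  have hL4 : 4 ≤ L := by
    have := h3.1
    nlinarith
  have hL0 : 0 < L := by linarith
  have hL1 : 1 ≤ L := by linarith
  have hzL : (z : ℝ) ≤ L ^ A := by
    rw [hz]
    unfold zA
    exact Nat.floor_le (by positivity)
  have hqL : (q : ℝ) ≤ L ^ A := le_trans (by exact_mod_cast hq) hzL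
  by_cases hb : b.Coprime q
  · have hB1 : (x:ℝ) / L ^ (B + 1) * 4 ≤ x / L ^ B := by
      rw [pow_succ, div_mul_eq_mul_div, div_le_div_iff₀ (by positivity) (by positivity)]
      have : 0 < x * L ^ B := by positivity
      nlinarith
    have hB2 : (x:ℝ) / L ^ (B + 2) ≤ x / L ^ (B + 1) :=
      div_le_div_of_nonneg_left hx0.le (by positivity) (pow_le_pow_right₀ hL1 (by omega))
    have hphi : (1:ℝ) ≤ q.totient := by
      exact_mod_cast Nat.totient_pos.2 hq1
    have hnu' := hnu y hy q b hq1 hq hb
    have hsplit : ∑ n ∈ (Icc 1 y).filter (fun n => n % q = b % q), ff z n =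
        (∑ n ∈ (Icc 1 y).filter (fun n => n % q = b % q), lp n) -
        ∑ n ∈ (Icc 1 y).filter (fun n => n % q = b % q), nuz z n := by
      rw [← Finset.sum_sub_distrib]
      rfl
    rw [hsplit]
    rcases le_or_gt (y : ℝ) (x / L ^ (B + 2)) with hys | hyl
    · -- `y` small
      have hlp0 : 0 ≤ ∑ n ∈ (Icc 1 y).filter (fun n => n % q = b % q), lp n :=
        Finset.sum_nonneg fun n _ => lp_nonneg n
      have hlp : ∑ n ∈ (Icc 1 y).filter (fun n => n % q = b % q), lp n ≤ x / L ^ (B + 1) * 2 := by
        calc ∑ n ∈ (Icc 1 y).filter (fun n => n % q = b % q), lp n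
            ≤ ∑ n ∈ Icc 1 y, lp n := Finset.sum_le_sum_of_subset_of_nonneg
              (Finset.filter_subset _ _) fun n _ _ => lp_nonneg n
          _ ≤ ∑ n ∈ Icc 1 y, (2 * L) := by
              refine Finset.sum_le_sum fun n hn => ?_
              rw [Finset.mem_Icc] at hn
              have h6 : Real.log n ≤ Real.log (2 * x) := by
                apply Real.log_le_log (by exact_mod_cast hn.1)
                have : n ≤ 2 * x := hn.2.trans hy
                exact_mod_cast this
              rw [Real.log_mul (by norm_num) hx0.ne'] at h6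
              have h7 : Real.log 2 ≤ L := by
                have := Real.log_two_lt_d9
                linarith
              exact (lp_le n).trans (by linarith)
          _ = y * (2 * L) := by
              rw [Finset.sum_const, Nat.card_Icc, nsmul_eq_mul]
              push_cast
              ring
          _ ≤ x / L ^ (B + 2) * (2 * L) := by gcongr
          _ = x / L ^ (B + 1) * 2 := by
              rw [pow_succ]
              field_simp
      have hnu0 : 0 ≤ ∑ n ∈ (Icc 1 y).filter (fun n => n % q = b % q), nuz z n :=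
        Finset.sum_nonneg fun n _ => nuz_nonneg z n
      have hyq : (y : ℝ) / q.totient ≤ y := div_le_self (Nat.cast_nonneg y) hphi
      have hnu2 := (abs_le.1 hnu').2
      rw [abs_le]
      constructor
      · have : (0:ℝ) ≤ x / L ^ (B+1) := by positivity
        linarith
      · have : (0:ℝ) ≤ x / L ^ (B+1) := by positivity
        linarith
    · -- `y` large
      have hy0 : (0:ℝ) < y := lt_of_le_of_lt (by positivity) hyl
      have hxL : L ^ (B + 2) ≤ x / L ^ (B + 2) := by
        rw [le_div_iff₀ (by positivity), ← pow_add]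
        calc L ^ (B + 2 + (B + 2)) = L ^ (2 * (B + 2)) := by ring_nf
          _ ≤ x := h2.2
      have hy2 : (2:ℝ) ≤ y := by
        have h4 : (4:ℝ) ≤ L ^ (B + 2) := by
          calc (4:ℝ) ≤ L := hL4
            _ = L ^ 1 := (pow_one L).symm
            _ ≤ L ^ (B + 2) := pow_le_pow_right₀ hL1 (by omega)
        linarith
      have hlogy : L / 2 ≤ Real.log y := by
        have h4 : Real.log (x / L ^ (B + 2)) ≤ Real.log y := Real.log_le_log (by positivity) hyl.le
        rw [Real.log_div hx0.ne' (by positivity), Real.log_pow] at h4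
        have h5 : Real.log (L ^ (2 * (B + 2))) ≤ Real.log x := Real.log_le_log (by positivity) h2.2
        rw [Real.log_pow] at h5
        push_cast at h4 h5
        rw [← hL] at h4 h5
        linarith
      have hA' : ∀ n : ℕ, n ≤ A + B + 3 → (2:ℝ) ^ (A + B + 3) * L ^ n ≤ L ^ (n + 1) := by
        intro n _
        have h4 := h3.1
        have h5 : (2:ℝ) ^ (A + B + 4) = 2 ^ (A + B + 3) * 2 := pow_succ 2 _
        rw [h5] at h4
        have h6 : (0:ℝ) < 2 ^ (A + B + 3) := by positivity
        have h7 : (2:ℝ) ^ (A + B + 3) ≤ L := by nlinarith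
        rw [pow_succ L n, mul_comm (L ^ n) L]
        exact mul_le_mul_of_nonneg_right h7 (by positivity)
      have hqy : (q : ℝ) ≤ Real.log y ^ (A + B + 3) := by
        calc (q:ℝ) ≤ L ^ A := hqL
          _ ≤ (L / 2) ^ (A + B + 3) := by
              rw [div_pow, le_div_iff₀ (by positivity), mul_comm]
              refine (hA' A (by omega)).trans ?_
              exact pow_le_pow_right₀ hL1 (by omega)
          _ ≤ Real.log y ^ (A + B + 3) := by gcongr
      have h4 := hSW y hy2 q b hq1 hqy hb
      have h5 : C * y / Real.log y ^ (A + B + 3) ≤ x / L ^ (B + 1) := by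
        calc C * y / Real.log y ^ (A + B + 3) ≤ C * (2 * x) / (L / 2) ^ (A + B + 3) := by
              have : (y : ℝ) ≤ 2 * x := by exact_mod_cast hy
              gcongr
          _ = (x / L ^ (B + 1)) * (C * 2 * 2 ^ (A + B + 3) / L ^ (A + 2)) := by
              rw [div_pow, show A + B + 3 = (B + 1) + (A + 2) by ring, pow_add L]
              field_simp
          _ ≤ (x / L ^ (B + 1)) * 1 := by
              apply mul_le_mul_of_nonneg_left _ (by positivity)
              rw [div_le_one (by positivity)]
              have h6 := h3.1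
              have h7 : (2:ℝ) ^ (A + B + 4) = 2 ^ (A + B + 3) * 2 := pow_succ 2 _
              rw [h7] at h6
              have h8 : (0:ℝ) < 2 ^ (A + B + 3) := by positivity
              calc C * 2 * 2 ^ (A + B + 3) ≤ L := by nlinarith
                _ = L ^ 1 := (pow_one L).symm
                _ ≤ L ^ (A + 2) := pow_le_pow_right₀ hL1 (by omega)
          _ = x / L ^ (B + 1) := mul_one _
      rw [sum_lp_eq]
      have h6 := abs_le.1 (h4.trans h5)
      have h7 := abs_le.1 hnu'
      have : (0:ℝ) ≤ x / L ^ (B+1) := by positivity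
      rw [abs_le]
      constructor <;> linarith [h6.1, h6.2, h7.1, h7.2]
  · refine (noncoprime_case hq1 hq hb).trans ?_
    rw [le_div_iff₀ (by positivity)]
    calc (q:ℝ) ^ 2 * L ^ B ≤ (L ^ A) ^ 2 * L ^ B := by gcongr
      _ = L ^ (2 * A + B) := by ring
      _ ≤ x := h1.2

end Pool.Agent.HLT
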