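import Pool.Agent.Lib.HLT.FirstUniform
import Pool.Agent.Lib.HLT.LastUniform
import Pool.Agent.Lib.HLT.SupNorm

/-!
# The correlations of the primes and of the sieve model agree in mean square

Telescoping: replace the factor with the fixed shift `c` first (`first_uniform`), then one
coordinate after another (`last_uniform`).
-/

set_option autoImplicit false

open Finset Filter

namespace Pool.Agent.HLT

open Pool.Agent.HLB

/-- Products in which the factors before `j` are `nuz z`, the factor `j` is `ff z` and the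
others are `lp`. -/
private noncomputable def GG {m : ℕ} (z : ℕ) (j i : Fin m) : ℕ → ℝ :=
  if i < j then nuz z else if i = j then ff z else lp

private lemma prod_GG {m : ℕ} (z : ℕ) (j : Fin m) (a : Fin m → ℕ) :
    ∏ i, GG z j i (a i) = ff z (a j) * (∏ i with i < j, nuz z (a i)) * ∏ i with j < i, lp (a i) := by
  have h : ∀ i : Fin m, GG z j i (a i) = (if i = j then ff z (a i) else 1) *
      (if i < j then nuz z (a i) else 1) * (if j < i then lp (a i) else 1) := by
    intro i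
    unfold GG
    rcases lt_trichotomy i j with h | h | h
    · have h1 : ¬ i = j := h.ne
      have h2 : ¬ j < i := h.asymm
      simp [h, h1, h2]
    · subst h
      simp
    · have h1 : ¬ i = j := h.ne'
      have h2 : ¬ i < j := h.asymm
      simp [h, h1, h2]
  rw [Finset.prod_congr rfl (fun i _ => h i), Finset.prod_mul_distrib, Finset.prod_mul_distrib,
    Finset.prod_ite_eq' univ j, Finset.prod_filter, Finset.prod_filter]
  simp

private lemma telescope {m : ℕ} (z : ℕ) (c : ℕ) (a : Fin m → ℕ) :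
    lp c * ∏ i, lp (a i) - nuz z c * ∏ i, nuz z (a i) =
      ff z c * ∏ i, lp (a i) + ∑ j, nuz z c * ∏ i, GG z j i (a i) := by
  have h := Finset.prod_sub_ordered (univ : Finset (Fin m)) (fun i => lp (a i)) (fun i => ff z (a i))
  have h1 : ∀ i : Fin m, lp (a i) - ff z (a i) = nuz z (a i) := by
    intro i
    unfold ff
    ring
  simp only [h1] at h
  rw [← Finset.mul_sum, Finset.sum_congr rfl (fun j _ => prod_GG z j a), h]
  unfold ff
  ring

private lemma sum_telescope {m : ℕ} (z x c : ℕ) (t : Fin m → ℕ) :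
    ∑ n ∈ Icc 1 x, lp (n + c) * ∏ i, lp (n + t i) -
        ∑ n ∈ Icc 1 x, nuz z (n + c) * ∏ i, nuz z (n + t i) =
      ∑ n ∈ Icc 1 x, ff z (n + c) * ∏ i, lp (n + t i) +
        ∑ j, ∑ n ∈ Icc 1 x, nuz z (n + c) * ∏ i, GG z j i (n + t i) := by
  rw [Finset.sum_comm, ← Finset.sum_sub_distrib, ← Finset.sum_add_distrib]
  exact Finset.sum_congr rfl fun n _ => telescope z (n + c) (fun i => n + t i)

private lemma shift_esum (f : ℕ → ℝ) (x c : ℕ) (α : ℝ) :
    ∑ n ∈ Icc 1 x, (f (n + c) : ℂ) * ex (n * α) =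
      ex (-(c * α)) * (esum f (x + c) α - esum f c α) := by
  have h1 : esum f (x + c) α - esum f c α = ∑ n ∈ Icc (1 + c) (x + c), (f n : ℂ) * ex (n * α) := by
    unfold esum
    rw [sub_eq_iff_eq_add]
    have : Icc 1 (x + c) = Icc (1 + c) (x + c) ∪ Icc 1 c := by
      ext n
      simp only [mem_Icc, mem_union]
      omega
    rw [this, Finset.sum_union]
    rw [Finset.disjoint_left]
    intro n hn hn'
    simp only [mem_Icc] at hn hn'
    omega
  have h2 : ∑ n ∈ Icc (1 + c) (x + c), (f n : ℂ) * ex (n * α) =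
      ∑ n ∈ Icc 1 x, (f (n + c) : ℂ) * ex ((n + c : ℕ) * α) := by
    have : Icc (1 + c) (x + c) = (Icc 1 x).map (addRightEmbedding c) := by
      rw [Finset.map_add_right_Icc]
    rw [this, Finset.sum_map]
    rfl
  rw [h1, h2, Finset.mul_sum]
  refine Finset.sum_congr rfl fun n _ => ?_
  have : ex ((n + c : ℕ) * α) = ex (n * α) * ex (c * α) := by
    rw [← ex_add]
    congr 1
    push_cast
    ring
  rw [this]
  have h3 : ex (-(c * α)) * ex (c * α) = 1 := by
    rw [← ex_add]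
    simp
  calc (f (n + c) : ℂ) * ex (n * α) = (f (n + c) : ℂ) * ex (n * α) * (ex (-(c * α)) * ex (c * α)) := by
        rw [h3, mul_one]
    _ = _ := by ring

theorem corr_mean (m A0 B' : ℕ) (F : ℕ → ℕ) : ∃ b0 A : ℕ, A0 ≤ A ∧ ∀ᶠ x : ℕ in atTop,
    ∀ T : Fin m → Finset ℕ, (∀ i, SpC F b0 x (T i)) → ∀ c : ℕ, c ≤ x →
    ∑ t ∈ Fintype.piFinset T,
        (∑ n ∈ Icc 1 x, lp (n + c) * ∏ i, lp (n + t i) -
          ∑ n ∈ Icc 1 x, nuz (zA A x) (n + c) * ∏ i, nuz (zA A x) (n + t i)) ^ 2 ≤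
      (∏ i, ((T i).card : ℝ)) * (x ^ 2 / Real.log x ^ B') := by
  obtain ⟨b1, B1, h1⟩ := first_uniform m 2 (B' + 1) F
  obtain ⟨b2, B2, h2⟩ := last_uniform m 2 (B' + 1) F
  obtain ⟨A, hA, h3⟩ := sup_norm A0 (max B1 B2 + 1)
  refine ⟨max b1 b2, A, hA, ?_⟩
  have hlog : Tendsto (fun x : ℕ => Real.log x) atTop atTop :=
    Real.tendsto_log_atTop.comp tendsto_natCast_atTop_atTop
  filter_upwards [h1, h2, h3, DZ_inv_le A, hlog.eventually_ge_atTop (2 * m ^ 2 + 2 : ℝ),
    eventually_ge_atTop 1] with x h1 h2 h3 h4 h5 hx1 T hT c hc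
  set L : ℝ := Real.log x with hL
  set z : ℕ := zA A x with hz
  have hx0 : (0:ℝ) < x := by exact_mod_cast hx1
  have hL2 : (2:ℝ) ≤ L := by
    have : (0:ℝ) ≤ 2 * m ^ 2 := by positivity
    linarith
  have hL0 : (0:ℝ) < L := by linarith
  have hLL : L ≤ L ^ 2 := by nlinarith
  -- pointwise bounds
  have hlp : ∀ n : ℕ, n ≤ 2 * x → |lp n| ≤ L ^ 2 := by
    intro n hn
    rw [abs_of_nonneg (lp_nonneg n)]
    refine (lp_le n).trans ?_
    rcases Nat.eq_zero_or_pos n with h0 | h0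
    · subst h0
      simp
      positivity
    have : Real.log n ≤ Real.log (2 * x) := by
      apply Real.log_le_log (by exact_mod_cast h0)
      exact_mod_cast hn
    rw [Real.log_mul (by norm_num) hx0.ne'] at this
    have hl2 : Real.log 2 ≤ 1 := by
      have := Real.log_two_lt_d9
      linarith
    nlinarith
  have hnu : ∀ n : ℕ, |nuz z n| ≤ L ^ 2 := by
    intro n
    rw [abs_of_nonneg (nuz_nonneg z n)]
    exact (nuz_le z n).trans (h4.trans hLL)
  have hff : ∀ n : ℕ, n ≤ 2 * x → |ff z n| ≤ L ^ 2 := by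
    intro n hn
    unfold ff
    have e1 := hlp n hn
    have e2 := hnu n
    rw [abs_of_nonneg (lp_nonneg n)] at e1
    rw [abs_of_nonneg (nuz_nonneg z n)] at e2
    have e3 := lp_nonneg n
    have e4 := nuz_nonneg z n
    rw [abs_le]
    constructor <;> linarith
  have hGG : ∀ j i : Fin m, ∀ n : ℕ, n ≤ 2 * x → |GG z j i n| ≤ L ^ 2 := by
    intro j i n hn
    unfold GG
    split_ifs
    · exact hnu n
    · exact hff n hn
    · exact hlp n hn
  have hpow : ∀ B : ℕ, B ≤ max B1 B2 → 2 * ((x:ℝ) / L ^ (max B1 B2 + 1)) ≤ x / L ^ B := by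
    intro B hB
    rw [← mul_div_assoc, div_le_div_iff₀ (by positivity) (by positivity)]
    have e1 : L ^ B ≤ L ^ (max B1 B2) := pow_le_pow_right₀ (by linarith) hB
    have e2 : 0 < L ^ B := by positivity
    rw [pow_succ]
    calc 2 * (x:ℝ) * L ^ B ≤ 2 * x * L ^ (max B1 B2) := by gcongr
      _ = x * (L ^ (max B1 B2) * 2) := by ring
      _ ≤ x * (L ^ (max B1 B2) * L) := by gcongr
  -- the two mean square estimates
  have hP0 : 0 ≤ ∏ i, ((T i).card : ℝ) := Finset.prod_nonneg fun i _ => Nat.cast_nonneg _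
  have key0 : ∑ t ∈ Fintype.piFinset T, (∑ n ∈ Icc 1 x, ff z (n + c) * ∏ i, lp (n + t i)) ^ 2 ≤
      (∏ i, ((T i).card : ℝ)) * (x ^ 2 / L ^ (B' + 1)) := by
    have := h1 T (fun i => (hT i).mono (le_max_left _ _)) (fun n => (ff z (n + c) : ℂ))
      (fun _ => lp) ?_ ?_ ?_ 0
    · refine le_trans (le_of_eq ?_) this
      refine Finset.sum_congr rfl fun t _ => ?_
      have e : ∑ n ∈ Icc 1 x, ((ff z (n + c) : ℝ) : ℂ) * ex (n * 0) * ∏ i, (lp (n + t i) : ℂ) =
          ((∑ n ∈ Icc 1 x, ff z (n + c) * ∏ i, lp (n + t i) : ℝ) : ℂ) := by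
        push_cast
        refine Finset.sum_congr rfl fun n _ => ?_
        simp
      rw [e, Complex.norm_real, Real.norm_eq_abs, sq_abs]
    · intro n hn
      rw [mem_Icc] at hn
      rw [Complex.norm_real, Real.norm_eq_abs]
      exact hff _ (by omega)
    · intro i n hn
      rw [mem_Icc] at hn
      exact hlp n hn.2
    · intro α
      rw [shift_esum, norm_mul, norm_ex, one_mul]
      refine (norm_sub_le _ _).trans ?_
      have e1 := h3 (x + c) (by omega) α
      have e2 := h3 c (by omega) α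
      have e3 := hpow B1 (le_max_left _ _)
      linarith
  have keyj : ∀ j : Fin m, ∑ t ∈ Fintype.piFinset T,
      (∑ n ∈ Icc 1 x, nuz z (n + c) * ∏ i, GG z j i (n + t i)) ^ 2 ≤
      (∏ i, ((T i).card : ℝ)) * (x ^ 2 / L ^ (B' + 1)) := by
    intro j
    have := h2 j T (fun i => (hT i).mono (le_max_right _ _)) (fun n => (nuz z (n + c) : ℂ))
      (GG z j) ?_ ?_ ?_
    · refine le_trans (le_of_eq ?_) this
      refine Finset.sum_congr rfl fun t _ => ?_
      have e : ∑ n ∈ Icc 1 x, ((nuz z (n + c) : ℝ) : ℂ) * ∏ i, (GG z j i (n + t i) : ℂ) =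
          ((∑ n ∈ Icc 1 x, nuz z (n + c) * ∏ i, GG z j i (n + t i) : ℝ) : ℂ) := by
        push_cast
        rfl
      rw [e, Complex.norm_real, Real.norm_eq_abs, sq_abs]
    · intro n hn
      rw [Complex.norm_real, Real.norm_eq_abs]
      exact hnu _
    · intro i n hn
      rw [mem_Icc] at hn
      exact hGG j i n hn.2
    · intro α
      have e0 : GG z j j = ff z := by
        unfold GG
        simp
      rw [e0]
      have e1 := h3 (2 * x) le_rfl α
      unfold esum at e1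
      have e3 := hpow B2 (le_max_right _ _)
      have e4 : 0 ≤ (x:ℝ) / L ^ (max B1 B2 + 1) := by positivity
      linarith
  -- assembly
  have hpt : ∀ t : Fin m → ℕ, (∑ n ∈ Icc 1 x, lp (n + c) * ∏ i, lp (n + t i) -
        ∑ n ∈ Icc 1 x, nuz z (n + c) * ∏ i, nuz z (n + t i)) ^ 2 ≤
      2 * (∑ n ∈ Icc 1 x, ff z (n + c) * ∏ i, lp (n + t i)) ^ 2 +
        2 * m * ∑ j, (∑ n ∈ Icc 1 x, nuz z (n + c) * ∏ i, GG z j i (n + t i)) ^ 2 := by
    intro t
    rw [sum_telescope]
    set a := ∑ n ∈ Icc 1 x, ff z (n + c) * ∏ i, lp (n + t i)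
    have hcs := sq_sum_le_card_mul_sum_sq (s := (univ : Finset (Fin m)))
      (f := fun j => ∑ n ∈ Icc 1 x, nuz z (n + c) * ∏ i, GG z j i (n + t i))
    rw [Finset.card_univ, Fintype.card_fin] at hcs
    set b := ∑ j, ∑ n ∈ Icc 1 x, nuz z (n + c) * ∏ i, GG z j i (n + t i)
    nlinarith [sq_nonneg (a - b)]
  calc ∑ t ∈ Fintype.piFinset T, (∑ n ∈ Icc 1 x, lp (n + c) * ∏ i, lp (n + t i) -
        ∑ n ∈ Icc 1 x, nuz z (n + c) * ∏ i, nuz z (n + t i)) ^ 2
      ≤ ∑ t ∈ Fintype.piFinset T, (2 * (∑ n ∈ Icc 1 x, ff z (n + c) * ∏ i, lp (n + t i)) ^ 2 +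
        2 * m * ∑ j, (∑ n ∈ Icc 1 x, nuz z (n + c) * ∏ i, GG z j i (n + t i)) ^ 2) :=
        Finset.sum_le_sum fun t _ => hpt t
    _ = 2 * ∑ t ∈ Fintype.piFinset T, (∑ n ∈ Icc 1 x, ff z (n + c) * ∏ i, lp (n + t i)) ^ 2 +
        2 * m * ∑ j, ∑ t ∈ Fintype.piFinset T,
          (∑ n ∈ Icc 1 x, nuz z (n + c) * ∏ i, GG z j i (n + t i)) ^ 2 := by
        rw [Finset.sum_add_distrib, Finset.mul_sum, ← Finset.mul_sum, Finset.sum_comm]
        simp only [Finset.mul_sum]
    _ ≤ 2 * ((∏ i, ((T i).card : ℝ)) * (x ^ 2 / L ^ (B' + 1))) +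
        2 * m * ∑ j : Fin m, ((∏ i, ((T i).card : ℝ)) * (x ^ 2 / L ^ (B' + 1))) := by
        gcongr with j _
        exact keyj j
    _ = (∏ i, ((T i).card : ℝ)) * ((2 * m ^ 2 + 2) * (x ^ 2 / L ^ (B' + 1))) := by
        rw [Finset.sum_const, Finset.card_univ, Fintype.card_fin, nsmul_eq_mul]
        ring
    _ ≤ (∏ i, ((T i).card : ℝ)) * (x ^ 2 / L ^ B') := by
        refine mul_le_mul_of_nonneg_left ?_ hP0
        rw [← mul_div_assoc, div_le_div_iff₀ (by positivity) (by positivity), pow_succ]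
        calc (2 * (m:ℝ) ^ 2 + 2) * x ^ 2 * L ^ B' ≤ L * x ^ 2 * L ^ B' := by gcongr
          _ = x ^ 2 * (L ^ B' * L) := by ring

end Pool.Agent.HLT
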