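import Pool.Agent.Lib.HLT.Defs
import Pool.Agent.Lib.HLB.SingTail

/-!
# The singular series and its partial product up to a power of `log x`

`SI t = SZ z t * ∏_{p > z} locI t p`. One half is `HLB.SI_le_SZ`; for the other half
`locI t p >= 1 - r^2 / p^2` for all `p > z >= r`, uniformly in `t`.
-/

set_option autoImplicit false

open Finset Filter Topology

namespace Pool.Agent.HLT

open Pool.Agent.HLB

lemma locI_ge {ι : Type} [Fintype ι] (t : ι → ℕ) {p : ℕ} (hp : p.Prime)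
    (hrp : Fintype.card ι ≤ p) :
    1 - (Fintype.card ι : ℝ) ^ 2 * ((p : ℝ) ^ 2)⁻¹ ≤ locI t p := by
  unfold locI
  set r := Fintype.card ι with hr
  have hp0 : (0:ℝ) < p := by exact_mod_cast hp.pos
  have hp1 : (1:ℝ) < p := by exact_mod_cast hp.one_lt
  have h1 : (nuI t p : ℝ) ≤ r := by exact_mod_cast nuI_le t p
  have h2 : (r : ℝ) / p ≤ 1 := by
    rw [div_le_one hp0]
    exact_mod_cast hrp
  have h3 : (nuI t p : ℝ) / p ≤ r / p := by gcongr
  have h4 : 1 + 1 / (p:ℝ) ≤ (1 - 1 / (p:ℝ))⁻¹ := by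
    have h5 : 0 < 1 - 1 / (p:ℝ) := by
      rw [sub_pos, div_lt_one hp0]
      exact hp1
    rw [le_inv_comm₀ (by positivity) h5, ← one_div, le_div_iff₀ (by positivity)]
    have : (1 - 1 / (p:ℝ)) * (1 + 1 / (p:ℝ)) = 1 - (1 / (p:ℝ)) ^ 2 := by ring
    rw [this]
    have := sq_nonneg (1 / (p:ℝ))
    linarith
  have h6 : 1 + (r:ℝ) / p ≤ ((1 - 1 / (p:ℝ))⁻¹) ^ r := by
    calc 1 + (r:ℝ) / p = 1 + r * (1 / (p:ℝ)) := by ring
      _ ≤ (1 + 1 / (p:ℝ)) ^ r := one_add_mul_le_pow (by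
          have : 0 ≤ 1 / (p:ℝ) := by positivity
          linarith) r
      _ ≤ _ := pow_le_pow_left₀ (by positivity) h4 r
  calc 1 - (r : ℝ) ^ 2 * ((p : ℝ) ^ 2)⁻¹ = (1 - r / p) * (1 + r / p) := by
        field_simp
        ring
    _ ≤ (1 - (nuI t p : ℝ) / p) * ((1 - 1 / (p:ℝ))⁻¹) ^ r := by
        apply mul_le_mul
        · linarith
        · exact h6
        · positivity
        · linarith

lemma prod_ge {α : Type} (s : Finset α) (f g : α → ℝ) (hg0 : ∀ a ∈ s, 0 ≤ g a)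
    (hf0 : ∀ a ∈ s, 0 ≤ f a)
    (h : ∀ a ∈ s, 1 - g a ≤ f a) : 1 - ∑ a ∈ s, g a ≤ ∏ a ∈ s, f a := by
  classical
  induction s using Finset.induction_on with
  | empty => simp
  | insert a s ha ih =>
    rw [Finset.sum_insert ha, Finset.prod_insert ha]
    have h1 := ih (fun b hb => hg0 b (mem_insert_of_mem hb)) (fun b hb => hf0 b (mem_insert_of_mem hb))
      (fun b hb => h b (mem_insert_of_mem hb))
    have h2 := h a (mem_insert_self a s)
    have h3 := hg0 a (mem_insert_self a s)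
    have h6 := hf0 a (mem_insert_self a s)
    have h4 : 0 ≤ ∑ b ∈ s, g b := Finset.sum_nonneg fun b hb => hg0 b (mem_insert_of_mem hb)
    have h5 : 0 ≤ ∏ b ∈ s, f b := Finset.prod_nonneg fun b hb => hf0 b (mem_insert_of_mem hb)
    by_cases hc : ∑ b ∈ s, g b ≤ 1
    · by_cases hd : g a ≤ 1
      · calc 1 - (g a + ∑ b ∈ s, g b) ≤ (1 - g a) * (1 - ∑ b ∈ s, g b) := by nlinarith
          _ ≤ f a * ∏ b ∈ s, f b := by
            apply mul_le_mul h2 h1 (by linarith) h6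
      · have : 0 ≤ f a * ∏ b ∈ s, f b := mul_nonneg h6 h5
        linarith
    · have : 0 ≤ f a * ∏ b ∈ s, f b := mul_nonneg h6 h5
      linarith

lemma sum_inv_sq_le (s : Finset ℕ) (z : ℕ) (hz : 1 ≤ z) (hs : ∀ p ∈ s, z < p) :
    ∑ p ∈ s, ((p : ℝ) ^ 2)⁻¹ ≤ (z : ℝ)⁻¹ := by
  set M := max z (s.sup id) with hM
  have h1 : s ⊆ Ioc z M := by
    intro p hp
    rw [mem_Ioc]
    refine ⟨hs p hp, ?_⟩
    exact (Finset.le_sup (f := id) hp).trans (le_max_right _ _)
  have h2 := sum_Ioc_inv_sq_le_sub (α := ℝ) (k := z) (n := M) (by omega) (le_max_left _ _)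
  calc ∑ p ∈ s, ((p : ℝ) ^ 2)⁻¹ ≤ ∑ p ∈ Ioc z M, ((p : ℝ) ^ 2)⁻¹ :=
        Finset.sum_le_sum_of_subset_of_nonneg h1 (fun _ _ _ => by positivity)
    _ ≤ (z:ℝ)⁻¹ - (M:ℝ)⁻¹ := h2
    _ ≤ (z:ℝ)⁻¹ := by
        have : (0:ℝ) ≤ (M:ℝ)⁻¹ := by positivity
        linarith

lemma SZ_le_SI {ι : Type} [Fintype ι] (t : ι → ℕ) (ht : Function.Injective t) (z : ℕ)
    (hz : 1 ≤ z) (hr : Fintype.card ι ≤ z) :
    SZ z t * (1 - (Fintype.card ι : ℝ) ^ 2 / z) ≤ SI t := by
  classical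
  set s0 : Finset Nat.Primes := (Nat.primesLE z).subtype Nat.Prime with hs0
  have h0 : ∏ p ∈ s0, locI t (p : ℕ) = SZ z t := by
    unfold SZ
    rw [hs0]
    exact Finset.prod_subtype_of_mem (fun n => locI t n)
      (fun p hp => (Nat.mem_primesLE.1 hp).2)
  have hlim := hasProd_SI t ht
  refine ge_of_tendsto hlim ?_
  filter_upwards [eventually_ge_atTop s0] with s hs
  rw [← Finset.prod_sdiff hs, h0, mul_comm]
  apply mul_le_mul_of_nonneg_right _ (SZ_nonneg z t)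
  have hbig : ∀ p ∈ s \ s0, z < (p : ℕ) := by
    intro p hp
    by_contra hcon
    rw [Finset.mem_sdiff] at hp
    apply hp.2
    exact Finset.mem_subtype.2 (Nat.mem_primesLE.2 ⟨by omega, p.2⟩)
  have h1 := prod_ge (s \ s0) (fun p : Nat.Primes => locI t (p : ℕ))
    (fun p : Nat.Primes => (Fintype.card ι : ℝ) ^ 2 * (((p : ℕ) : ℝ) ^ 2)⁻¹)
    (fun p _ => by positivity) (fun p _ => locI_nonneg t p.2)
    (fun p hp => locI_ge t p.2 (by have := hbig p hp; omega))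
  refine le_trans ?_ h1
  rw [← Finset.mul_sum, div_eq_mul_inv]
  have h2 : ∑ p ∈ s \ s0, (((p : ℕ) : ℝ) ^ 2)⁻¹ ≤ (z : ℝ)⁻¹ := by
    have h3 := sum_inv_sq_le ((s \ s0).map ⟨fun p : Nat.Primes => (p : ℕ), Subtype.val_injective⟩)
      z hz (by
        intro p hp
        rw [Finset.mem_map] at hp
        obtain ⟨q, hq, rfl⟩ := hp
        exact hbig q hq)
    rw [Finset.sum_map] at h3
    exact h3
  have h4 : (Fintype.card ι : ℝ) ^ 2 * ∑ p ∈ s \ s0, (((p : ℕ) : ℝ) ^ 2)⁻¹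
      ≤ (Fintype.card ι : ℝ) ^ 2 * (z : ℝ)⁻¹ := by gcongr
  linarith

theorem sing_two (r A : ℕ) (hr : 1 ≤ r) (hA : 2 ≤ A) {ε : ℝ} (hε : 0 < ε) :
    ∀ᶠ x : ℕ in atTop, ∀ (ι : Type) [Fintype ι] (t : ι → ℕ), Fintype.card ι = r →
      Function.Injective t → (∀ i, t i ≤ x) → |SZ (zA A x) t - SI t| ≤ ε * SI t := by
  have hlog : Tendsto (fun x : ℕ => Real.log x) atTop atTop :=
    Real.tendsto_log_atTop.comp tendsto_natCast_atTop_atTop
  have hzT : Tendsto (fun x : ℕ => zA A x) atTop atTop := by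
    unfold zA
    exact tendsto_nat_floor_atTop.comp ((tendsto_pow_atTop (by omega)).comp hlog)
  have hzR : Tendsto (fun x : ℕ => Real.log (zA A x : ℝ)) atTop atTop :=
    Real.tendsto_log_atTop.comp (tendsto_natCast_atTop_atTop.comp hzT)
  have hE : Tendsto (fun x : ℕ => Real.exp (16 * (r:ℝ) ^ 3 / Real.log (zA A x : ℝ)))
      atTop (𝓝 (Real.exp 0)) :=
    (Real.continuous_exp.tendsto 0).comp (hzR.const_div_atTop _)
  rw [Real.exp_zero] at hE
  have hE1 := hE.eventually_le_const (show (1:ℝ) < 1 + ε by linarith)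
  have hF : Tendsto (fun x : ℕ => (1 + ε) * (1 - (r:ℝ) ^ 2 / (zA A x : ℝ))) atTop
      (𝓝 ((1 + ε) * (1 - 0))) :=
    Tendsto.const_mul _ (Tendsto.const_sub _
      ((tendsto_natCast_atTop_atTop.comp hzT).const_div_atTop _))
  have hF1 := hF.eventually_const_le (show (1:ℝ) < (1 + ε) * (1 - 0) by linarith)
  filter_upwards [hE1, hF1, hzT.eventually_ge_atTop (max 2 r), hlog.eventually_ge_atTop 2,
    eventually_ge_atTop 2] with x hx1 hxF hx2 hx3 hx4 ι _ t hcard ht htx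
  have hx0 : (0:ℝ) < x := by
    have : 0 < x := by omega
    exact_mod_cast this
  have hz2n : 2 ≤ zA A x := (le_max_left _ _).trans hx2
  have hzr : r ≤ zA A x := (le_max_right _ _).trans hx2
  have hz2 : (2:ℝ) ≤ (zA A x : ℝ) := by exact_mod_cast hz2n
  have hzpos : (0:ℝ) < zA A x := by linarith
  have hlogz : 0 < Real.log (zA A x : ℝ) := Real.log_pos (by linarith)
  have hSZ := SZ_nonneg (zA A x) t
  have hSI := SI_nonneg t ht
  -- lower bound for `z`
  have hzge : Real.log x / 2 ≤ (zA A x : ℝ) := by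
    have h2 : Real.log x ^ A - 1 < (zA A x : ℝ) := by
      unfold zA
      exact Nat.sub_one_lt_floor _
    have h3 : Real.log x ≤ Real.log x ^ A := by
      calc Real.log x = Real.log x ^ 1 := (pow_one _).symm
        _ ≤ Real.log x ^ A := pow_le_pow_right₀ (by linarith) (by omega)
    linarith
  have hlog1 : Real.log ((x + 1 : ℕ) : ℝ) ≤ 2 * Real.log x := by
    have h2 : ((x + 1 : ℕ) : ℝ) ≤ (x:ℝ) ^ 2 := by
      have h3 : x + 1 ≤ x ^ 2 := by nlinarith
      exact_mod_cast h3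
    calc Real.log ((x + 1 : ℕ) : ℝ) ≤ Real.log ((x:ℝ) ^ 2) :=
          Real.log_le_log (by positivity) h2
      _ = 2 * Real.log x := by rw [Real.log_pow]; norm_num
  have hupper : SI t ≤ (1 + ε) * SZ (zA A x) t := by
    have h1 := SI_le_SZ t (by rw [hcard]; exact hr) ht x (zA A x) hz2n htx
    rw [hcard] at h1
    refine h1.trans ?_
    rw [mul_comm]
    apply mul_le_mul_of_nonneg_right _ hSZ
    refine le_trans (Real.exp_le_exp.mpr ?_) hx1
    rw [div_le_div_iff₀ (by positivity) hlogz]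
    calc 2 * (r:ℝ) ^ 3 * Real.log ((x + 1 : ℕ) : ℝ) * Real.log (zA A x : ℝ)
        ≤ 2 * (r:ℝ) ^ 3 * (8 * (zA A x : ℝ)) * Real.log (zA A x : ℝ) := by
          gcongr
          linarith
      _ = 16 * (r:ℝ) ^ 3 * ((zA A x : ℝ) * Real.log (zA A x : ℝ)) := by ring
  have hlower : SZ (zA A x) t ≤ (1 + ε) * SI t := by
    have h1 := SZ_le_SI t ht (zA A x) (by omega) (by rw [hcard]; exact hzr)
    rw [hcard] at h1
    calc SZ (zA A x) t = SZ (zA A x) t * 1 := (mul_one _).symm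
      _ ≤ SZ (zA A x) t * ((1 + ε) * (1 - (r:ℝ) ^ 2 / (zA A x : ℝ))) := by gcongr
      _ = (1 + ε) * (SZ (zA A x) t * (1 - (r:ℝ) ^ 2 / (zA A x : ℝ))) := by ring
      _ ≤ (1 + ε) * SI t := by gcongr
  rw [abs_le]
  constructor
  · -- `SI - SZ ≤ ε SI` follows from `SI ≤ (1 + ε) SZ`
    have h2 : (1 - ε) * SI t ≤ SZ (zA A x) t := by
      by_cases hc : ε ≤ 1
      · calc (1 - ε) * SI t ≤ (1 - ε) * ((1 + ε) * SZ (zA A x) t) := by
              apply mul_le_mul_of_nonneg_left hupper (by linarith)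
          _ = (1 - ε ^ 2) * SZ (zA A x) t := by ring
          _ ≤ 1 * SZ (zA A x) t := by
              apply mul_le_mul_of_nonneg_right _ hSZ
              nlinarith
          _ = SZ (zA A x) t := one_mul _
      · have : (1 - ε) * SI t ≤ 0 := mul_nonpos_of_nonpos_of_nonneg (by linarith) hSI
        linarith
    linarith
  · linarith

end Pool.Agent.HLT
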