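import Pool.Agent.Lib.HLT.Defs

/-!
# From the weights `log p` to counting

PROOF SKETCH. `L = log x`.
`weights_to_count`: for any `a` with `a i <= x` and any `V >= 0`, if `|∑_{n<=x} ∏ i, lp (n + a i) - x S| <= δ x S` with
`c0 <= S` then `|π - S x / L^r| <= ε S x / L^r` where `π` is the number of `n <= x` with all `n + a i` prime: upper:
`∏ lp (n + a i) >= (log (x / L^(r+1)))^r` on the counted `n > x / L^(r+1)`, and the others are at most
`x / L^(r+1) <= (small) c0 x / L^r`; lower: `∏ lp <= (log (2x))^r` on the counted `n`.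
-/

set_option autoImplicit false

open Finset Filter

namespace Pool.Agent.HLT

/-- Number of `n ≤ x` with all `n + a i` prime. -/
noncomputable def piT {r : ℕ} (x : ℕ) (a : Fin r → ℕ) : ℕ :=
  ((Icc 1 x).filter (fun n : ℕ => ∀ i, (n + a i).Prime)).card

lemma wt_log_atTop : Tendsto (fun x : ℕ => Real.log (x : ℝ)) atTop atTop :=
  Real.tendsto_log_atTop.comp tendsto_natCast_atTop_atTop

lemma wt_ratio1 : Tendsto (fun L : ℝ => L / (Real.log 2 + L)) atTop (nhds 1) := by
  have h1 : Tendsto (fun L : ℝ => 1 - Real.log 2 / (Real.log 2 + L)) atTop (nhds (1 - 0)) := by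
    apply Tendsto.sub tendsto_const_nhds
    exact Tendsto.const_div_atTop (tendsto_atTop_add_const_left _ _ tendsto_id) _
  rw [sub_zero] at h1
  refine h1.congr' ?_
  filter_upwards [eventually_gt_atTop 0] with L hL
  have h2 : Real.log 2 + L ≠ 0 := by
    have := Real.log_pos (by norm_num : (1 : ℝ) < 2)
    positivity
  field_simp
  ring

lemma wt_ratio2 (c : ℝ) : Tendsto (fun L : ℝ => L / (L - c * Real.log L)) atTop (nhds 1) := by
  have h0 : Tendsto (fun L : ℝ => Real.log L / L) atTop (nhds 0) :=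
    Real.isLittleO_log_id_atTop.tendsto_div_nhds_zero
  have h1 : Tendsto (fun L : ℝ => 1 - c * (Real.log L / L)) atTop (nhds (1 - c * 0)) :=
    tendsto_const_nhds.sub (h0.const_mul c)
  rw [mul_zero, sub_zero] at h1
  have h2 := h1.inv₀ one_ne_zero
  rw [inv_one] at h2
  refine h2.congr' ?_
  filter_upwards [eventually_gt_atTop 0] with L hL
  rw [show 1 - c * (Real.log L / L) = (L - c * Real.log L) / L by field_simp, inv_div]

theorem weights_to_count (r : ℕ) (hr : 1 ≤ r) {ε c0 : ℝ} (hε : 0 < ε) (hc0 : 0 < c0) :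
    ∃ δ : ℝ, 0 < δ ∧ ∀ᶠ x : ℕ in atTop, ∀ (a : Fin r → ℕ) (S : ℝ), (∀ i, a i ≤ x) → c0 ≤ S →
      |∑ n ∈ Icc 1 x, ∏ i, lp (n + a i) - x * S| ≤ δ * (x * S) →
      |(piT x a : ℝ) - S * (x / Real.log x ^ r)| ≤ ε * (S * (x / Real.log x ^ r)) := by
  classical
  refine ⟨ε / 2, by positivity, ?_⟩
  have e1 : ∀ᶠ x : ℕ in atTop, 1 - ε ≤
      (1 - ε / 2) * (Real.log x / (Real.log 2 + Real.log x)) ^ r := by
    have h : Tendsto (fun x : ℕ => (1 - ε / 2) * (Real.log x / (Real.log 2 + Real.log x)) ^ r) atTop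
        (nhds ((1 - ε / 2) * 1 ^ r)) :=
      ((wt_ratio1.comp wt_log_atTop).pow r).const_mul _
    rw [one_pow, mul_one] at h
    have h3 : 1 - ε < 1 - ε / 2 := by linarith
    exact (h.eventually_const_lt h3).mono fun x hx => hx.le
  have e2 : ∀ᶠ x : ℕ in atTop, 1 / (c0 * Real.log x) +
      (1 + ε / 2) * (Real.log x / (Real.log x - ((r : ℝ) + 1) * Real.log (Real.log x))) ^ r ≤
      1 + ε := by
    have h : Tendsto (fun x : ℕ => 1 / (c0 * Real.log x) +
        (1 + ε / 2) * (Real.log x / (Real.log x - ((r : ℝ) + 1) * Real.log (Real.log x))) ^ r) atTop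
        (nhds (0 + (1 + ε / 2) * 1 ^ r)) := by
      refine Tendsto.add ?_ ((((wt_ratio2 ((r : ℝ) + 1)).comp wt_log_atTop).pow r).const_mul _)
      exact Tendsto.const_div_atTop (wt_log_atTop.const_mul_atTop hc0) _
    rw [one_pow, mul_one, zero_add] at h
    have h3 : 1 + ε / 2 < 1 + ε := by linarith
    exact (h.eventually_lt_const h3).mono fun x hx => hx.le
  have e3 : ∀ᶠ x : ℕ in atTop, 0 < Real.log x - ((r : ℝ) + 1) * Real.log (Real.log x) := by
    have h0 : Tendsto (fun L : ℝ => Real.log L / L) atTop (nhds 0) :=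
      Real.isLittleO_log_id_atTop.tendsto_div_nhds_zero
    have h1 : ∀ᶠ L : ℝ in atTop, Real.log L / L < 1 / ((r : ℝ) + 1) :=
      h0.eventually_lt_const (by positivity)
    have h2 : ∀ᶠ L : ℝ in atTop, 0 < L - ((r : ℝ) + 1) * Real.log L := by
      filter_upwards [h1, eventually_gt_atTop 0] with L hL hL0
      rw [div_lt_div_iff₀ hL0 (by positivity)] at hL
      linarith
    exact wt_log_atTop.eventually h2
  filter_upwards [e1, e2, e3, wt_log_atTop.eventually_ge_atTop 1, eventually_ge_atTop 2]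
    with x hx1 hx2 hx3 hL1 hx0 a S ha hS hT
  set L := Real.log (x : ℝ) with hLdef
  have hS0 : 0 < S := lt_of_lt_of_le hc0 hS
  have hxR : (0 : ℝ) < x := by exact_mod_cast (by omega : 0 < x)
  have hL0 : 0 < L := lt_of_lt_of_le one_pos hL1
  set G := (Icc 1 x).filter (fun n : ℕ => ∀ i, (n + a i).Prime) with hG
  have hsum : ∑ n ∈ Icc 1 x, ∏ i, lp (n + a i) = ∑ n ∈ G, ∏ i, Real.log ((n + a i : ℕ) : ℝ) := by
    rw [hG, Finset.sum_filter]
    apply Finset.sum_congr rfl
    intro n _
    split_ifs with h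
    · apply Finset.prod_congr rfl
      intro i _
      rw [lp, if_pos (h i)]
    · push Not at h
      obtain ⟨i, hi⟩ := h
      apply Finset.prod_eq_zero (Finset.mem_univ i)
      rw [lp, if_neg hi]
  rw [hsum] at hT
  set T := ∑ n ∈ G, ∏ i, Real.log ((n + a i : ℕ) : ℝ) with hTdef
  have hpi : (piT x a : ℝ) = (G.card : ℝ) := rfl
  rw [abs_le] at hT
  -- upper bound for T
  have hl2 : Real.log ((2 * x : ℕ) : ℝ) = Real.log 2 + L := by
    push_cast
    rw [Real.log_mul (by norm_num) hxR.ne']
  have hup : T ≤ (G.card : ℝ) * (Real.log 2 + L) ^ r := by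
    rw [hTdef, ← nsmul_eq_mul]
    apply Finset.sum_le_card_nsmul
    intro n hn
    rw [hG, Finset.mem_filter, Finset.mem_Icc] at hn
    calc ∏ i, Real.log ((n + a i : ℕ) : ℝ) ≤ ∏ _i : Fin r, (Real.log 2 + L) := by
          apply Finset.prod_le_prod
          · intro i _
            exact Real.log_natCast_nonneg _
          · intro i _
            rw [← hl2]
            apply Real.log_le_log
            · have := (hn.2 i).pos
              exact_mod_cast this
            · have := ha i
              exact_mod_cast (by omega : n + a i ≤ 2 * x)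
      _ = (Real.log 2 + L) ^ r := by simp
  -- lower bound for T
  set M := L - ((r : ℝ) + 1) * Real.log L with hM
  set y : ℝ := x / L ^ (r + 1) with hy
  have hy0 : 0 < y := by positivity
  have hly : Real.log y = M := by
    rw [hy, Real.log_div hxR.ne' (by positivity), Real.log_pow, hM]
    push_cast
    ring
  have hlow : (G.card : ℝ) * M ^ r ≤ T + y * M ^ r := by
    have hsplit : (G.card : ℝ) = ((G.filter (fun n : ℕ => (n : ℝ) ≤ y)).card : ℝ) +
        ((G.filter (fun n : ℕ => ¬ (n : ℝ) ≤ y)).card : ℝ) := by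
      rw [← Nat.cast_add, Finset.card_filter_add_card_filter_not]
    have h1 : ((G.filter (fun n : ℕ => (n : ℝ) ≤ y)).card : ℝ) ≤ y := by
      have hsub : G.filter (fun n : ℕ => (n : ℝ) ≤ y) ⊆ Icc 1 ⌊y⌋₊ := by
        intro n hn
        rw [Finset.mem_filter, hG, Finset.mem_filter, Finset.mem_Icc] at hn
        rw [Finset.mem_Icc]
        exact ⟨hn.1.1.1, Nat.le_floor hn.2⟩
      have := Finset.card_le_card hsub
      rw [Nat.card_Icc] at this
      have h3 : ((G.filter (fun n : ℕ => (n : ℝ) ≤ y)).card : ℝ) ≤ (⌊y⌋₊ : ℝ) := by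
        exact_mod_cast (by omega : (G.filter (fun n : ℕ => (n : ℝ) ≤ y)).card ≤ ⌊y⌋₊)
      exact h3.trans (Nat.floor_le hy0.le)
    have h2 : ((G.filter (fun n : ℕ => ¬ (n : ℝ) ≤ y)).card : ℝ) * M ^ r ≤ T := by
      calc ((G.filter (fun n : ℕ => ¬ (n : ℝ) ≤ y)).card : ℝ) * M ^ r
          = (G.filter (fun n : ℕ => ¬ (n : ℝ) ≤ y)).card • M ^ r := by rw [nsmul_eq_mul]
        _ ≤ ∑ n ∈ G.filter (fun n : ℕ => ¬ (n : ℝ) ≤ y), ∏ i, Real.log ((n + a i : ℕ) : ℝ) := by
            apply Finset.card_nsmul_le_sum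
            intro n hn
            rw [Finset.mem_filter] at hn
            have hn2 : y < (n : ℝ) := not_le.mp hn.2
            calc M ^ r = ∏ _i : Fin r, M := by simp
              _ ≤ ∏ i, Real.log ((n + a i : ℕ) : ℝ) := by
                  apply Finset.prod_le_prod
                  · intro i _
                    exact hx3.le
                  · intro i _
                    rw [← hly]
                    apply Real.log_le_log hy0
                    push_cast
                    have : (0 : ℝ) ≤ (a i : ℝ) := Nat.cast_nonneg _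
                    linarith
        _ ≤ T := by
            rw [hTdef]
            apply Finset.sum_le_sum_of_subset_of_nonneg (Finset.filter_subset _ _)
            intro n _ _
            exact Finset.prod_nonneg fun i _ => Real.log_natCast_nonneg _
    have h3 : 0 ≤ M ^ r := pow_nonneg hx3.le r
    rw [hsplit, add_mul]
    have h4 := mul_le_mul_of_nonneg_right h1 h3
    linarith
  rw [hpi, abs_le]
  have hLr : 0 < L ^ r := by positivity
  have hl2L : 0 < Real.log 2 + L := by
    have := Real.log_pos (by norm_num : (1 : ℝ) < 2)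
    linarith
  constructor
  · -- lower bound
    have h1 : (1 - ε / 2) * (x * S) ≤ (G.card : ℝ) * (Real.log 2 + L) ^ r := by linarith [hT.1]
    have h2 : (1 - ε / 2) * (x * S) / (Real.log 2 + L) ^ r ≤ (G.card : ℝ) := by
      rw [div_le_iff₀ (by positivity)]
      exact h1
    have h3 : (1 - ε) * (S * (x / L ^ r)) ≤ (1 - ε / 2) * (x * S) / (Real.log 2 + L) ^ r := by
      have h4 : (1 - ε / 2) * (x * S) / (Real.log 2 + L) ^ r =
          ((1 - ε / 2) * (L / (Real.log 2 + L)) ^ r) * (S * (x / L ^ r)) := by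
        rw [div_pow]
        field_simp
      rw [h4]
      exact mul_le_mul_of_nonneg_right hx1 (by positivity)
    linarith
  · -- upper bound
    have hMr : 0 < M ^ r := pow_pos hx3 r
    have h1 : (G.card : ℝ) ≤ y + T / M ^ r := by
      have h5 : (G.card : ℝ) * M ^ r ≤ (y + T / M ^ r) * M ^ r := by
        rw [add_mul, div_mul_cancel₀ _ hMr.ne']
        linarith
      exact le_of_mul_le_mul_right h5 hMr
    have h2 : T / M ^ r ≤ ((1 + ε / 2) * (L / M) ^ r) * (S * (x / L ^ r)) := by
      have h6 : ((1 + ε / 2) * (L / M) ^ r) * (S * (x / L ^ r)) = (1 + ε / 2) * (x * S) / M ^ r := by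
        rw [div_pow]
        field_simp
      rw [h6]
      apply div_le_div_of_nonneg_right _ hMr.le
      linarith [hT.2]
    have h3 : y ≤ (1 / (c0 * L)) * (S * (x / L ^ r)) := by
      have h7 : y = (1 / L) * (x / L ^ r) := by
        rw [hy, pow_succ]
        field_simp
      rw [h7]
      have h8 : (1 / (c0 * L)) * (S * (x / L ^ r)) = (S / c0) * ((1 / L) * (x / L ^ r)) := by
        field_simp
      rw [h8]
      have h9 : 1 ≤ S / c0 := by
        rw [le_div_iff₀ hc0]
        linarith
      have h10 : 0 ≤ (1 / L) * (x / L ^ r) := by positivity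
      nlinarith
    have h4 : (G.card : ℝ) ≤ (1 + ε) * (S * (x / L ^ r)) := by
      calc (G.card : ℝ) ≤ y + T / M ^ r := h1
        _ ≤ (1 / (c0 * L)) * (S * (x / L ^ r)) +
            ((1 + ε / 2) * (L / M) ^ r) * (S * (x / L ^ r)) := add_le_add h3 h2
        _ = (1 / (c0 * L) + (1 + ε / 2) * (L / M) ^ r) * (S * (x / L ^ r)) := by ring
        _ ≤ (1 + ε) * (S * (x / L ^ r)) :=
            mul_le_mul_of_nonneg_right hx2 (by positivity)
    linarith

end Pool.Agent.HLT
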