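import Pool.Agent.Lib.HLT.CorrMean
import Pool.Agent.Lib.HLT.SingTwo
import Pool.Agent.Lib.HLT.Correl
import Pool.Agent.Lib.HLT.Weights

/-!
# Hardy-Littlewood for almost all tuples from sets with a small spectrum

`hl_spec`: the spectral form; `hl_energy`: the energy form.
-/

set_option autoImplicit false

open Finset Filter

namespace Pool.Agent.HLT

open Pool.Agent.HLB Pool.Agent.HL Pool.Agent.Lib.Sieve4

/-- Main theorem, spectral form. -/
theorem hl_spec (m A : ℕ) (F : ℕ → ℕ) : ∃ b0 : ℕ, ∀ ε : ℝ, 0 < ε → ∀ᶠ x : ℕ in atTop,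
    ∀ T : Fin m → Finset ℕ, (∀ i, SpC F b0 x (T i)) → ∀ c : ℕ, c ≤ x →
    ∃ E ⊆ Fintype.piFinset T, (E.card : ℝ) ≤ (∏ i, ((T i).card : ℝ)) / Real.log x ^ A ∧
      ∀ t ∈ Fintype.piFinset T, t ∉ E → Function.Injective (Fin.cons c t : Fin (m + 1) → ℕ) →
        (∀ p : ℕ, p.Prime → nuI (Fin.cons c t : Fin (m + 1) → ℕ) p < p) →
        |(piT x (Fin.cons c t) : ℝ) - SI (Fin.cons c t : Fin (m + 1) → ℕ) *
            (x / Real.log x ^ (m + 1))| ≤
          ε * (SI (Fin.cons c t : Fin (m + 1) → ℕ) * (x / Real.log x ^ (m + 1))) := by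
  classical
  obtain ⟨b0, A', hA', hcm⟩ := corr_mean m 2 (A + 2) F
  refine ⟨b0, fun ε hε => ?_⟩
  have hc0 : 0 < c0 (m + 1) := c0_pos (m + 1) (by omega)
  obtain ⟨δ, hδ, hw⟩ := weights_to_count (m + 1) (by omega) hε hc0
  have hsing := sing_two (m + 1) A' (by omega) hA' (half_pos hδ)
  have hcor := sieve_corr (m + 1) A' 1
  have hlog : ∀ᶠ x : ℕ in atTop, max 1 (4 / (δ * c0 (m + 1))) ≤ Real.log x :=
    (Real.tendsto_log_atTop.comp tendsto_natCast_atTop_atTop).eventually_ge_atTop _
  filter_upwards [hcm, hw, hsing, hcor, hlog, eventually_ge_atTop 1] with x h1 h2 h3 h4 h5 h6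
  intro T hT c hc
  have hL1 : 1 ≤ Real.log x := (le_max_left _ _).trans h5
  have hL2 : 4 / (δ * c0 (m + 1)) ≤ Real.log x := (le_max_right _ _).trans h5
  have hL0 : 0 < Real.log x := by linarith
  have hx0 : (0 : ℝ) < x := by exact_mod_cast h6
  have h1' := h1 T hT c hc
  set D : (Fin m → ℕ) → ℝ := fun t => ∑ n ∈ Icc 1 x, lp (n + c) * ∏ i, lp (n + t i) -
          ∑ n ∈ Icc 1 x, nuz (zA A' x) (n + c) * ∏ i, nuz (zA A' x) (n + t i) with hD
  refine ⟨(Fintype.piFinset T).filter (fun t => x / Real.log x < |D t|), Finset.filter_subset _ _,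
    ?_, ?_⟩
  · have e1 : ((((Fintype.piFinset T).filter (fun t => x / Real.log x < |D t|)).card : ℕ) : ℝ) *
        (x / Real.log x) ^ 2 ≤ ∑ t ∈ Fintype.piFinset T, D t ^ 2 := by
      calc _ = ∑ t ∈ (Fintype.piFinset T).filter (fun t => x / Real.log x < |D t|),
            (x / Real.log x) ^ 2 := by rw [Finset.sum_const, nsmul_eq_mul]
        _ ≤ ∑ t ∈ (Fintype.piFinset T).filter (fun t => x / Real.log x < |D t|), D t ^ 2 := by
            refine Finset.sum_le_sum fun t ht => ?_
            rw [← sq_abs (D t)]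
            have := (Finset.mem_filter.mp ht).2
            have h0 : 0 ≤ x / Real.log x := by positivity
            exact pow_le_pow_left₀ h0 this.le 2
        _ ≤ ∑ t ∈ Fintype.piFinset T, D t ^ 2 :=
            Finset.sum_le_sum_of_subset_of_nonneg (Finset.filter_subset _ _)
              fun _ _ _ => sq_nonneg _
    have e2 := e1.trans h1'
    have e3 : (x / Real.log x) ^ 2 ≠ 0 := by positivity
    have e4 : 0 < (x / Real.log x) ^ 2 := by positivity
    rw [← le_div_iff₀ e4] at e2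
    refine e2.trans (le_of_eq ?_)
    generalize (∏ i, ((T i).card : ℝ)) = Q
    generalize Real.log x = L at hL0
    have hL00 : L ≠ 0 := hL0.ne'
    have hx00 : (x : ℝ) ≠ 0 := hx0.ne'
    rw [pow_add]
    field_simp
  · intro t ht htE hinj hadm
    have hDt : |D t| ≤ x / Real.log x := by
      by_contra hcon
      exact htE (Finset.mem_filter.mpr ⟨ht, not_le.mp hcon⟩)
    set a : Fin (m + 1) → ℕ := Fin.cons c t with ha
    have hax : ∀ i, a i ≤ x := by
      intro i
      refine Fin.cases ?_ ?_ i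
      · rw [ha, Fin.cons_zero]
        exact hc
      · intro j
        have h7 := Fintype.mem_piFinset.mp ht j
        have h8 := Finset.mem_range.mp ((hT j).1 h7)
        rw [ha, Fin.cons_succ]
        omega
    have hc1 : c0 (m + 1) ≤ SI a := by
      have h7 := c0_le_SI a hinj (by rw [Fintype.card_fin]; omega) hadm
      rwa [Fintype.card_fin] at h7
    have hS0 : 0 < SI a := hc0.trans_le hc1
    refine h2 a (SI a) hax hc1 ?_
    have e1 : ∀ f : ℕ → ℝ, ∑ n ∈ Icc 1 x, ∏ i, f (n + a i) =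
        ∑ n ∈ Icc 1 x, f (n + c) * ∏ i, f (n + t i) := by
      intro f
      refine Finset.sum_congr rfl fun n _ => ?_
      rw [Fin.prod_univ_succ, ha, Fin.cons_zero]
      simp only [Fin.cons_succ]
    have e2 := h4 a
    rw [e1 (nuz (zA A' x)), pow_one] at e2
    have e3 := h3 (Fin (m + 1)) a (Fintype.card_fin _) hinj hax
    rw [e1 lp]
    have e4 : 2 * x / Real.log x ≤ δ / 2 * (x * SI a) := by
      have h9 : 4 ≤ Real.log x * (δ * c0 (m + 1)) := by
        rwa [div_le_iff₀ (by positivity)] at hL2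
      rw [div_le_iff₀ hL0]
      have h10 : Real.log x * (δ * c0 (m + 1)) ≤ Real.log x * (δ * SI a) :=
        mul_le_mul_of_nonneg_left (mul_le_mul_of_nonneg_left hc1 hδ.le) hL0.le
      nlinarith
    have e5 : |x * SZ (zA A' x) a - x * SI a| ≤ δ / 2 * (x * SI a) := by
      rw [← mul_sub, abs_mul, abs_of_pos hx0]
      calc (x : ℝ) * |SZ (zA A' x) a - SI a| ≤ x * (δ / 2 * SI a) :=
            mul_le_mul_of_nonneg_left e3 hx0.le
        _ = _ := by ring
    calc |∑ n ∈ Icc 1 x, lp (n + c) * ∏ i, lp (n + t i) - x * SI a|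
        = |D t + (∑ n ∈ Icc 1 x, nuz (zA A' x) (n + c) * ∏ i, nuz (zA A' x) (n + t i) -
            x * SZ (zA A' x) a) + (x * SZ (zA A' x) a - x * SI a)| := by
          congr 1
          simp only [hD]
          ring
      _ ≤ |D t| + |∑ n ∈ Icc 1 x, nuz (zA A' x) (n + c) * ∏ i, nuz (zA A' x) (n + t i) -
            x * SZ (zA A' x) a| + |x * SZ (zA A' x) a - x * SI a| := abs_add_three _ _ _
      _ ≤ x / Real.log x + x / Real.log x + δ / 2 * (x * SI a) :=
          add_le_add (add_le_add hDt e2) e5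
      _ = 2 * x / Real.log x + δ / 2 * (x * SI a) := by ring
      _ ≤ δ / 2 * (x * SI a) + δ / 2 * (x * SI a) := by linarith
      _ = δ * (x * SI a) := by ring

/-- Main theorem, energy form. -/
theorem hl_energy (m s A C : ℕ) (hs : 1 ≤ s) {ε : ℝ} (hε : 0 < ε) : ∀ᶠ x : ℕ in atTop,
    ∀ T : Fin m → Finset ℕ, (∀ i, EnC s C x (T i)) → ∀ c : ℕ, c ≤ x →
    ∃ E ⊆ Fintype.piFinset T, (E.card : ℝ) ≤ (∏ i, ((T i).card : ℝ)) / Real.log x ^ A ∧
      ∀ t ∈ Fintype.piFinset T, t ∉ E → Function.Injective (Fin.cons c t : Fin (m + 1) → ℕ) →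
        (∀ p : ℕ, p.Prime → nuI (Fin.cons c t : Fin (m + 1) → ℕ) p < p) →
        |(piT x (Fin.cons c t) : ℝ) - SI (Fin.cons c t : Fin (m + 1) → ℕ) *
            (x / Real.log x ^ (m + 1))| ≤
          ε * (SI (Fin.cons c t : Fin (m + 1) → ℕ) * (x / Real.log x ^ (m + 1))) := by
  classical
  obtain ⟨b0, hb⟩ := hl_spec m A (fun b => 2 * s * b + C + 1)
  filter_upwards [hb ε hε, spec_of_energy s C hs, eventually_ge_atTop 1] with x h1 h2 hx
  intro T hT c hc
  by_cases hne : ∀ i, (T i).Nonempty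
  · exact h1 T (fun i => h2 (T i) (hne i) (hT i) b0) c hc
  · push Not at hne
    obtain ⟨i, hi⟩ := hne
    have hem : Fintype.piFinset T = ∅ := by
      rw [Finset.eq_empty_iff_forall_notMem]
      intro t ht
      have := Fintype.mem_piFinset.mp ht i
      rw [hi] at this
      exact absurd this (Finset.notMem_empty _)
    refine ⟨∅, Finset.empty_subset _, ?_, ?_⟩
    · rw [Finset.card_empty]
      have : 0 ≤ Real.log x := Real.log_natCast_nonneg x
      push_cast
      positivity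
    · intro t ht
      rw [hem] at ht
      exact absurd ht (Finset.notMem_empty _)

end Pool.Agent.HLT
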