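import Pool.Agent.Lib.HLT.EnC

/-!
# Mean square over tuples when the function with the fixed shift is Fourier-uniform

Induction on the number `m` of moving shifts. Step: `t = Fin.cons u t'`; for fixed `t'` the estimate
`fourier_one` is applied with `h n = H n ex (n α) ∏ i, G i.succ (n + t' i)`, `g = G 0`, `T = T 0`,
`L1 = (log x)^b`. In the second term, `∑_ξ ‖ĝ ξ‖^2 ∑_{t'} ‖ĥ_{t'} ξ‖^2` is at most
`(sup_ξ ∑_{t'} ‖ĥ_{t'} ξ‖^2) ∑_ξ ‖ĝ ξ‖^2`; the supremum is small by the induction hypothesis (for the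
frequencies `α + ξ / N`) and the sum is computed by `parseval`.
-/

set_option autoImplicit false

open Finset Filter

namespace Pool.Agent.HLT

/-- Splitting off the first coordinate. -/
lemma sum_piFinset_cons {m : ℕ} (T : Fin (m + 1) → Finset ℕ) (Φ : (Fin (m + 1) → ℕ) → ℝ) :
    ∑ t ∈ Fintype.piFinset T, Φ t =
      ∑ t' ∈ Fintype.piFinset (fun i : Fin m => T i.succ), ∑ u ∈ T 0,
        Φ (Fin.cons u t' : Fin (m + 1) → ℕ) := by
  rw [← Finset.sum_product']
  refine Finset.sum_bij' (fun t _ => ((fun i : Fin m => t i.succ), t 0))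
    (fun q _ => (Fin.cons q.2 q.1 : Fin (m + 1) → ℕ)) ?_ ?_ ?_ ?_ ?_
  · intro t ht
    rw [Fintype.mem_piFinset] at ht
    rw [Finset.mem_product, Fintype.mem_piFinset]
    exact ⟨fun i => ht i.succ, ht 0⟩
  · intro q hq
    rw [Finset.mem_product, Fintype.mem_piFinset] at hq
    rw [Fintype.mem_piFinset]
    intro i
    refine Fin.cases ?_ (fun j => ?_) i
    · simpa using hq.2
    · simpa using hq.1 j
  · intro t _
    funext i
    refine Fin.cases ?_ (fun j => ?_) i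
    · simp
    · simp
  · intro q _
    simp
  · intro t _
    congr 1
    funext i
    refine Fin.cases ?_ (fun j => ?_) i
    · simp
    · simp

/-- One step: a family of functions `h p` whose Fourier transforms are small in mean square. -/
lemma first_uniform_core {ι : Type*} (P : Finset ι) (x : ℕ) (hx : 1 ≤ x) (T : Finset ℕ)
    (hT : T ⊆ range (x + 1)) (h : ι → ℕ → ℂ) (g : ℕ → ℝ) (Mh Mg L1 S E : ℝ) (hMg : 0 ≤ Mg)
    (hL1 : 0 < L1)
    (hh : ∀ p ∈ P, ∀ n ∈ Icc 1 x, ‖h p n‖ ≤ Mh)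
    (hg : ∀ n ∈ Icc 1 (2 * x), |g n| ≤ Mg)
    (hS : ((Spec (4 * x + 1) T L1).card : ℝ) ≤ S)
    (hE : ∀ ξ : ℕ, ∑ p ∈ P, ‖∑ n ∈ Icc 1 x, h p n * ex (n * (ξ / ((4 * x + 1 : ℕ) : ℝ)))‖ ^ 2 ≤
      P.card * E) :
    ∑ p ∈ P, ∑ u ∈ T, ‖∑ n ∈ Icc 1 x, h p n * (g (n + u) : ℂ)‖ ^ 2 ≤
      T.card * (P.card * (x ^ 2 * (2 * Mh ^ 2 * Mg ^ 2 / L1) + S * E * Mg ^ 2)) := by
  have hxR : (1 : ℝ) ≤ x := by exact_mod_cast hx
  have hS0 : 0 ≤ S := le_trans (Nat.cast_nonneg _) hS
  have hN : 4 * x < 4 * x + 1 := by omega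
  have hNpos : (0 : ℝ) < ((4 * x + 1 : ℕ) : ℝ) := by positivity
  have hN2 : (2 : ℝ) * x ≤ ((4 * x + 1 : ℕ) : ℝ) := by
    push_cast
    linarith
  have hPE : 0 ≤ P.card * E :=
    le_trans (Finset.sum_nonneg (fun p _ => sq_nonneg _)) (hE 0)
  have hT0 : (0 : ℝ) ≤ T.card := Nat.cast_nonneg _
  have hP0 : (0 : ℝ) ≤ P.card := Nat.cast_nonneg _
  set N : ℕ := 4 * x + 1 with hNdef
  set gh : ℕ → ℝ := fun ξ =>
    ‖∑ m ∈ Icc 1 (2 * x), (g m : ℂ) * ex (m * (ξ / (N : ℝ)))‖ ^ 2 with hgh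
  have hgh0 : ∀ ξ, 0 ≤ gh ξ := fun ξ => sq_nonneg _
  -- the sum of the `gh`
  have hgsum : ∑ ξ ∈ range N, gh ξ ≤ N * (2 * x * Mg ^ 2) := by
    rw [hgh, parseval N (2 * x) (by omega) (by omega) (fun m => (g m : ℂ))]
    refine mul_le_mul_of_nonneg_left ?_ hNpos.le
    calc ∑ n ∈ Icc 1 (2 * x), ‖(g n : ℂ)‖ ^ 2 ≤ ∑ n ∈ Icc 1 (2 * x), Mg ^ 2 := by
          refine Finset.sum_le_sum (fun n hn => ?_)
          rw [Complex.norm_real, Real.norm_eq_abs]
          exact pow_le_pow_left₀ (abs_nonneg _) (hg n hn) 2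
      _ = 2 * x * Mg ^ 2 := by
          rw [Finset.sum_const, Nat.card_Icc, nsmul_eq_mul]
          push_cast
          ring
  -- each `p`
  have h1 : ∀ p ∈ P, ∑ u ∈ T, ‖∑ n ∈ Icc 1 x, h p n * (g (n + u) : ℂ)‖ ^ 2 ≤
      (T.card / L1) * ((x * Mh ^ 2) * (2 * x * Mg ^ 2)) +
        T.card * (S / (N : ℝ) ^ 2) *
          ∑ ξ ∈ range N, ‖∑ n ∈ Icc 1 x, h p n * ex (n * (ξ / (N : ℝ)))‖ ^ 2 * gh ξ := by
    intro p hp
    refine (fourier_one N x hx hN T hT (h p) g Mg L1 hMg hL1 hg).trans ?_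
    refine add_le_add ?_ ?_
    · refine mul_le_mul_of_nonneg_left ?_ (div_nonneg hT0 hL1.le)
      refine mul_le_mul_of_nonneg_right ?_ (by positivity)
      calc ∑ n ∈ Icc 1 x, ‖h p n‖ ^ 2 ≤ ∑ n ∈ Icc 1 x, Mh ^ 2 := by
            refine Finset.sum_le_sum (fun n hn => ?_)
            exact pow_le_pow_left₀ (norm_nonneg _) (hh p hp n hn) 2
        _ = x * Mh ^ 2 := by
            rw [Finset.sum_const, Nat.card_Icc, nsmul_eq_mul]
            simp
    · refine mul_le_mul_of_nonneg_right ?_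
        (Finset.sum_nonneg (fun ξ _ => mul_nonneg (sq_nonneg _) (hgh0 ξ)))
      refine mul_le_mul_of_nonneg_left ?_ hT0
      exact div_le_div_of_nonneg_right hS (by positivity)
  -- the double sum
  have h2 : ∑ p ∈ P, ∑ ξ ∈ range N,
      ‖∑ n ∈ Icc 1 x, h p n * ex (n * (ξ / (N : ℝ)))‖ ^ 2 * gh ξ ≤
        (P.card * E) * (N * (2 * x * Mg ^ 2)) := by
    rw [Finset.sum_comm]
    calc ∑ ξ ∈ range N, ∑ p ∈ P, ‖∑ n ∈ Icc 1 x, h p n * ex (n * (ξ / (N : ℝ)))‖ ^ 2 * gh ξ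
        ≤ ∑ ξ ∈ range N, (P.card * E) * gh ξ := by
          refine Finset.sum_le_sum (fun ξ _ => ?_)
          rw [← Finset.sum_mul]
          exact mul_le_mul_of_nonneg_right (hE ξ) (hgh0 ξ)
      _ = (P.card * E) * ∑ ξ ∈ range N, gh ξ := by rw [Finset.mul_sum]
      _ ≤ (P.card * E) * (N * (2 * x * Mg ^ 2)) := mul_le_mul_of_nonneg_left hgsum hPE
  calc ∑ p ∈ P, ∑ u ∈ T, ‖∑ n ∈ Icc 1 x, h p n * (g (n + u) : ℂ)‖ ^ 2
      ≤ ∑ p ∈ P, ((T.card / L1) * ((x * Mh ^ 2) * (2 * x * Mg ^ 2)) +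
          T.card * (S / (N : ℝ) ^ 2) *
            ∑ ξ ∈ range N, ‖∑ n ∈ Icc 1 x, h p n * ex (n * (ξ / (N : ℝ)))‖ ^ 2 * gh ξ) :=
        Finset.sum_le_sum h1
    _ = P.card * ((T.card / L1) * ((x * Mh ^ 2) * (2 * x * Mg ^ 2))) +
          T.card * (S / (N : ℝ) ^ 2) * ∑ p ∈ P,
            ∑ ξ ∈ range N, ‖∑ n ∈ Icc 1 x, h p n * ex (n * (ξ / (N : ℝ)))‖ ^ 2 * gh ξ := by
        rw [Finset.sum_add_distrib, Finset.sum_const, nsmul_eq_mul, ← Finset.mul_sum]
    _ ≤ P.card * ((T.card / L1) * ((x * Mh ^ 2) * (2 * x * Mg ^ 2))) +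
          T.card * (S / (N : ℝ) ^ 2) * ((P.card * E) * (N * (2 * x * Mg ^ 2))) := by
        refine add_le_add le_rfl (mul_le_mul_of_nonneg_left h2 ?_)
        exact mul_nonneg hT0 (div_nonneg hS0 (by positivity))
    _ ≤ T.card * (P.card * (x ^ 2 * (2 * Mh ^ 2 * Mg ^ 2 / L1) + S * E * Mg ^ 2)) := by
        have e1 : (P.card : ℝ) * ((T.card / L1) * ((x * Mh ^ 2) * (2 * x * Mg ^ 2))) =
            T.card * (P.card * (x ^ 2 * (2 * Mh ^ 2 * Mg ^ 2 / L1))) := by
          field_simp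
        have e2 : T.card * (S / (N : ℝ) ^ 2) * ((P.card * E) * (N * (2 * x * Mg ^ 2))) =
            (T.card * S * (P.card * E) * Mg ^ 2) * (2 * x / N) := by
          field_simp
        have e3 : (T.card * S * (P.card * E) * Mg ^ 2) * (2 * x / N) ≤
            (T.card * S * (P.card * E) * Mg ^ 2) * 1 := by
          refine mul_le_mul_of_nonneg_left ?_ (by positivity)
          rw [div_le_one hNpos]
          exact hN2
        rw [e1, e2]
        calc (T.card : ℝ) * (P.card * (x ^ 2 * (2 * Mh ^ 2 * Mg ^ 2 / L1))) +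
              (T.card * S * (P.card * E) * Mg ^ 2) * (2 * x / N)
            ≤ (T.card : ℝ) * (P.card * (x ^ 2 * (2 * Mh ^ 2 * Mg ^ 2 / L1))) +
              (T.card * S * (P.card * E) * Mg ^ 2) * 1 := add_le_add le_rfl e3
          _ = T.card * (P.card * (x ^ 2 * (2 * Mh ^ 2 * Mg ^ 2 / L1) + S * E * Mg ^ 2)) := by
              ring

theorem first_uniform (m K B' : ℕ) (F : ℕ → ℕ) : ∃ b0 B : ℕ, ∀ᶠ x : ℕ in atTop,
    ∀ T : Fin m → Finset ℕ, (∀ i, SpC F b0 x (T i)) → ∀ (H : ℕ → ℂ) (G : Fin m → ℕ → ℝ),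
    (∀ n ∈ Icc 1 x, ‖H n‖ ≤ Real.log x ^ K) →
    (∀ i, ∀ n ∈ Icc 1 (2 * x), |G i n| ≤ Real.log x ^ K) →
    (∀ α : ℝ, ‖∑ n ∈ Icc 1 x, H n * ex (n * α)‖ ≤ x / Real.log x ^ B) → ∀ α : ℝ,
    ∑ t ∈ Fintype.piFinset T,
        ‖∑ n ∈ Icc 1 x, H n * ex (n * α) * ∏ i, (G i (n + t i) : ℂ)‖ ^ 2 ≤
      (∏ i, ((T i).card : ℝ)) * (x ^ 2 / Real.log x ^ B') := by
  induction m generalizing B' with
  | zero =>
    refine ⟨0, B', ?_⟩
    have hlog : ∀ᶠ x : ℕ in atTop, (1 : ℝ) ≤ Real.log x :=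
      (Real.tendsto_log_atTop.comp tendsto_natCast_atTop_atTop).eventually_ge_atTop 1
    filter_upwards [hlog] with x hx T _ H G _ _ hu α
    have hL : (0 : ℝ) < Real.log x := by linarith
    simp only [Finset.univ_eq_empty, Finset.prod_empty, mul_one, one_mul]
    rw [Finset.sum_const, Fintype.card_piFinset]
    simp only [Finset.univ_eq_empty, Finset.prod_empty, one_smul]
    calc ‖∑ n ∈ Icc 1 x, H n * ex (n * α)‖ ^ 2 ≤ (x / Real.log x ^ B') ^ 2 :=
          pow_le_pow_left₀ (norm_nonneg _) (hu α) 2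
      _ = x ^ 2 / (Real.log x ^ B' * Real.log x ^ B') := by
          rw [div_pow]
          congr 1
          ring
      _ ≤ x ^ 2 / Real.log x ^ B' := by
          refine div_le_div_of_nonneg_left (by positivity) (by positivity) ?_
          have := one_le_pow₀ hx (n := B')
          nlinarith [pow_pos hL B']
  | succ m ih =>
    set b : ℕ := 2 * K * (m + 2) + B' + 1 with hb
    set B'' : ℕ := F b + 2 * K + B' + 1 with hB''
    obtain ⟨b0, B, hIH⟩ := ih B''
    refine ⟨max b b0, B, ?_⟩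
    have hlog : ∀ᶠ x : ℕ in atTop, (3 : ℝ) ≤ Real.log x :=
      (Real.tendsto_log_atTop.comp tendsto_natCast_atTop_atTop).eventually_ge_atTop 3
    filter_upwards [hIH, hlog, eventually_ge_atTop 1] with x hI hx3 hx1 T hT H G hH hG hu α
    have hL : (0 : ℝ) < Real.log x := by linarith
    set L : ℝ := Real.log x with hLdef
    rw [sum_piFinset_cons]
    have key := first_uniform_core (Fintype.piFinset (fun i : Fin m => T i.succ)) x hx1 (T 0)
      (hT 0).1 (fun t' n => H n * ex (n * α) * ∏ i : Fin m, (G i.succ (n + t' i) : ℂ)) (G 0)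
      (L ^ (K * (m + 1))) (L ^ K) (L ^ b) (L ^ F b) (x ^ 2 / L ^ B'') (by positivity)
      (by positivity) ?_ (hG 0) ((hT 0).2 b (le_max_left _ _)) ?_
    · rw [Fintype.card_piFinset, Nat.cast_prod] at key
      refine le_trans (le_of_eq ?_) (key.trans ?_)
      · refine Finset.sum_congr rfl (fun t' _ => Finset.sum_congr rfl (fun u _ => ?_))
        congr 2
        refine Finset.sum_congr rfl (fun n _ => ?_)
        rw [Fin.prod_univ_succ]
        simp only [Fin.cons_zero, Fin.cons_succ]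
        ring
      · rw [Fin.prod_univ_succ, mul_assoc ((T 0).card : ℝ)]
        have hT0 : (0 : ℝ) ≤ ((T 0).card : ℝ) := Nat.cast_nonneg _
        have hTs : (0 : ℝ) ≤ ∏ i : Fin m, ((T i.succ).card : ℝ) :=
          Finset.prod_nonneg (fun i _ => Nat.cast_nonneg _)
        refine mul_le_mul_of_nonneg_left ?_ hT0
        refine mul_le_mul_of_nonneg_left ?_ hTs
        have e1 : 2 * (L ^ (K * (m + 1))) ^ 2 * (L ^ K) ^ 2 / L ^ b = 2 / L ^ (B' + 1) := by
          rw [div_eq_div_iff (by positivity) (by positivity), hb]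
          ring
        have e2 : L ^ F b * (x ^ 2 / L ^ B'') * (L ^ K) ^ 2 = x ^ 2 * (1 / L ^ (B' + 1)) := by
          rw [hB'']
          field_simp
          ring
        rw [e1, e2, ← mul_add, div_eq_mul_inv ((x : ℝ) ^ 2)]
        refine mul_le_mul_of_nonneg_left ?_ (by positivity)
        rw [← add_div, inv_eq_one_div, div_le_div_iff₀ (by positivity) (by positivity), pow_succ]
        nlinarith [pow_pos hL B']
    · intro t' ht' n hn
      rw [Fintype.mem_piFinset] at ht'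
      rw [norm_mul, norm_mul, norm_ex, mul_one, norm_prod]
      have hn' := Finset.mem_Icc.mp hn
      calc ‖H n‖ * ∏ i : Fin m, ‖(G i.succ (n + t' i) : ℂ)‖
          ≤ L ^ K * ∏ _i : Fin m, L ^ K := by
            refine mul_le_mul (hH n hn) ?_ (Finset.prod_nonneg (fun i _ => norm_nonneg _))
              (by positivity)
            refine Finset.prod_le_prod (fun i _ => norm_nonneg _) (fun i _ => ?_)
            rw [Complex.norm_real, Real.norm_eq_abs]
            refine hG i.succ _ ?_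
            have h3 := Finset.mem_range.mp ((hT i.succ).1 (ht' i))
            rw [Finset.mem_Icc]
            constructor <;> omega
        _ = L ^ (K * (m + 1)) := by
            rw [Finset.prod_const, Finset.card_univ, Fintype.card_fin]
            ring
    · intro ξ
      have h4 := hI (fun i => T i.succ) (fun i => (hT i.succ).mono (le_max_right _ _)) H
        (fun i => G i.succ) hH (fun i => hG i.succ) hu (α + ξ / ((4 * x + 1 : ℕ) : ℝ))
      rw [Fintype.card_piFinset]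
      push_cast at h4 ⊢
      refine le_trans (le_of_eq ?_) h4
      refine Finset.sum_congr rfl (fun t' _ => ?_)
      congr 2
      refine Finset.sum_congr rfl (fun n _ => ?_)
      rw [mul_add, ex_add]
      ring

end Pool.Agent.HLT
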