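import Pool.Agent.Lib.HLT.Fourier

/-!
# The basic mean square estimate

PROOF SKETCH.
`fourier_one`: with `A ξ = ĥ ξ * conj (ĝ ξ)`, `∑_{t ∈ T} |(1/N) ∑_ξ A ξ ex (t ξ / N)|^2
 = (1/N^2) ∑_{ξ, η} A ξ conj (A η) WW T ((ξ - η)/N) <= (1/N^2) ∑_{ξ, η} |A ξ| |A η| |WW T ((ξ-η)/N)|`.
For fixed `ζ = ξ - η mod N` (an element of `range N`; `|WW T|` is `N`-periodic in `ζ`): if `ζ` is not in `Spec` then
`|WW| < |T| / L1`, and the total of these terms is `<= (|T|/L1) (∑|A|)^2 / N^2`,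
`(∑ |A|)^2 <= (∑ |ĥ|^2) (∑ |ĝ|^2) = N ∑ |h|^2 * N ∑ g^2 <= N^2 (∑|h|^2) 2 x K^2`. If `ζ ∈ Spec` use `|WW| <= |T|` and
`∑_ξ |A ξ| |A (ξ - ζ)| <= ∑ |A|^2` (Cauchy-Schwarz and shift invariance).
`spec_card`: `∑_{ζ<N} |WW T (ζ/N)|^(2s) = N * #{(u, v) : u_1 + ... + u_s ≡ v_1 + ... + v_s mod N}` (expand
`WW^s conj(WW)^s`), and the number of pairs is at most `s` times the energy by Cauchy-Schwarz, as at most `s` values
`n < s N` of the sum of `u` are in a given class modulo `N`;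
each `ζ` of the set contributes at least `(|T|/L1)^(2s)`.
-/

set_option autoImplicit false

open Finset Filter

namespace Pool.Agent.HLT

/-- The large spectrum of `T`. -/
noncomputable def Spec (N : ℕ) (T : Finset ℕ) (L1 : ℝ) : Finset ℕ := by
  classical
  exact (range N).filter (fun ζ => (T.card : ℝ) ≤ L1 * ‖WW T ((ζ : ℝ) / N)‖)

private lemma mem_Spec {N : ℕ} {T : Finset ℕ} {L1 : ℝ} {ζ : ℕ} :
    ζ ∈ Spec N T L1 ↔ ζ < N ∧ (T.card : ℝ) ≤ L1 * ‖WW T ((ζ : ℝ) / N)‖ := by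
  classical
  unfold Spec
  rw [Finset.mem_filter, Finset.mem_range]

private lemma WW_add_int (T : Finset ℕ) (α : ℝ) (k : ℤ) : WW T (α + k) = WW T α := by
  unfold WW
  refine Finset.sum_congr rfl fun t _ => ?_
  have h : (t : ℝ) * (α + k) = (t:ℝ) * α + (((t:ℤ) * k : ℤ) : ℝ) := by
    push_cast
    ring
  rw [h, ex_add_int]

/-- the difference modulo `N` -/
private def zt (N ξ η : ℕ) : ℕ := (ξ + (N - η)) % N

private lemma zt_lt {N : ℕ} (hN : 0 < N) (ξ η : ℕ) : zt N ξ η < N := Nat.mod_lt _ hN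

private lemma WW_zt {N : ℕ} (hN : 0 < N) (T : Finset ℕ) {ξ η : ℕ} (hη : η < N) :
    WW T (((ξ:ℝ) - η) / N) = WW T ((zt N ξ η : ℝ) / N) := by
  have hN' : (N:ℝ) ≠ 0 := by exact_mod_cast hN.ne'
  have h1 : (ξ + (N - η)) % N + N * ((ξ + (N - η)) / N) = ξ + (N - η) := Nat.mod_add_div _ _
  have h2 : ((zt N ξ η : ℕ) : ℝ) + N * (((ξ + (N - η)) / N : ℕ) : ℝ) = ξ + (N - η) := by
    have h3 : (((ξ + (N - η)) % N + N * ((ξ + (N - η)) / N) : ℕ) : ℝ) =
      ((ξ + (N - η) : ℕ) : ℝ) := by rw [h1]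
    unfold zt
    rw [Nat.cast_add, Nat.cast_mul, Nat.cast_add ξ, Nat.cast_sub hη.le] at h3
    exact h3
  generalize (ξ + (N - η)) / N = q at h2
  have h3 : ((ξ:ℝ) - η) / N = ((zt N ξ η : ℕ) : ℝ) / N + (((q : ℤ) - 1 : ℤ) : ℝ) := by
    push_cast
    field_simp
    linarith
  rw [h3, WW_add_int]

private lemma zt_inj_right {N ξ : ℕ} : Set.InjOn (fun η => zt N ξ η) (range N : Set ℕ) := by
  intro a ha b hb hab
  rw [Finset.mem_coe, Finset.mem_range] at ha hb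
  have h1 : ξ + (N - a) ≡ ξ + (N - b) [MOD N] := hab
  have h2 : N - a ≡ N - b [MOD N] := Nat.ModEq.add_left_cancel' _ h1
  have h3 : N - a + (a + b) ≡ N - b + (a + b) [MOD N] := Nat.ModEq.add_right _ h2
  have h4 : N - a + (a + b) = b + N := by omega
  have h5 : N - b + (a + b) = a + N := by omega
  rw [h4, h5] at h3
  have h6 : b ≡ a [MOD N] := Nat.ModEq.add_right_cancel' _ h3
  have h7 := Nat.ModEq.eq_of_lt_of_lt h6 hb ha
  exact h7.symm

private lemma zt_inj_left {N η : ℕ} : Set.InjOn (fun ξ => zt N ξ η) (range N : Set ℕ) := by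
  intro a ha b hb hab
  rw [Finset.mem_coe, Finset.mem_range] at ha hb
  have h1 : a + (N - η) ≡ b + (N - η) [MOD N] := hab
  have h6 : a ≡ b [MOD N] := Nat.ModEq.add_right_cancel' _ h1
  exact Nat.ModEq.eq_of_lt_of_lt h6 ha hb

/-- the real estimate -/
private lemma real_est {N : ℕ} (hN : 0 < N) (T : Finset ℕ) (L1 : ℝ) (hL1 : 0 < L1) (c : ℕ → ℝ)
    (hc : ∀ ξ, 0 ≤ c ξ) :
    ∑ ξ ∈ range N, ∑ η ∈ range N, c ξ * c η * ‖WW T (((ξ:ℝ) - η) / N)‖ ≤
      (T.card / L1) * (∑ ξ ∈ range N, c ξ) ^ 2 +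
        T.card * (Spec N T L1).card * ∑ ξ ∈ range N, c ξ ^ 2 := by
  classical
  have hcard : (0:ℝ) ≤ T.card := Nat.cast_nonneg _
  set P : ℕ → ℕ → Prop := fun ξ η => zt N ξ η ∈ Spec N T L1 with hP
  have hpt : ∀ ξ ∈ range N, ∀ η ∈ range N, c ξ * c η * ‖WW T (((ξ:ℝ) - η) / N)‖ ≤
      (T.card / L1) * (c ξ * c η) +
        ((if P ξ η then T.card * (c ξ ^ 2 / 2) else 0) +
          (if P ξ η then T.card * (c η ^ 2 / 2) else 0)) := by
    intro ξ _ η hη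
    rw [Finset.mem_range] at hη
    rw [WW_zt hN T hη]
    have h0 : 0 ≤ c ξ * c η := mul_nonneg (hc ξ) (hc η)
    by_cases hPP : P ξ η
    · rw [if_pos hPP, if_pos hPP]
      have h1 := norm_WW_le T ((zt N ξ η : ℝ) / N)
      have h2 : c ξ * c η * ‖WW T ((zt N ξ η : ℝ) / N)‖ ≤ c ξ * c η * T.card :=
        mul_le_mul_of_nonneg_left h1 h0
      have h3 : c ξ * c η ≤ c ξ ^ 2 / 2 + c η ^ 2 / 2 := by nlinarith [sq_nonneg (c ξ - c η)]
      have h4 : c ξ * c η * T.card ≤ (c ξ ^ 2 / 2 + c η ^ 2 / 2) * T.card :=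
        mul_le_mul_of_nonneg_right h3 hcard
      have h5 : 0 ≤ (T.card / L1) * (c ξ * c η) := by positivity
      nlinarith
    · rw [if_neg hPP, if_neg hPP]
      have h1 : ¬ ((T.card : ℝ) ≤ L1 * ‖WW T ((zt N ξ η : ℝ) / N)‖) := by
        intro hcon
        exact hPP (mem_Spec.mpr ⟨zt_lt hN _ _, hcon⟩)
      have h2 : ‖WW T ((zt N ξ η : ℝ) / N)‖ ≤ T.card / L1 := by
        rw [le_div_iff₀ hL1]
        linarith [not_le.mp h1]
      have h3 := mul_le_mul_of_nonneg_left h2 h0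
      linarith
  have hsum := Finset.sum_le_sum fun ξ hξ => Finset.sum_le_sum fun η hη => hpt ξ hξ η hη
  refine hsum.trans ?_
  simp only [Finset.sum_add_distrib]
  have e1 : ∑ ξ ∈ range N, ∑ η ∈ range N, (T.card / L1) * (c ξ * c η) =
      (T.card / L1) * (∑ ξ ∈ range N, c ξ) ^ 2 := by
    rw [sq, Finset.sum_mul_sum, Finset.mul_sum]
    refine Finset.sum_congr rfl fun ξ _ => ?_
    rw [Finset.mul_sum]
  have e2 : ∑ ξ ∈ range N, ∑ η ∈ range N, (if P ξ η then T.card * (c ξ ^ 2 / 2) else 0) ≤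
      ∑ ξ ∈ range N, T.card * (Spec N T L1).card * (c ξ ^ 2 / 2) := by
    refine Finset.sum_le_sum fun ξ _ => ?_
    rw [← Finset.sum_filter, Finset.sum_const, nsmul_eq_mul]
    have h1 : (((range N).filter (fun η => P ξ η)).card : ℝ) ≤ (Spec N T L1).card := by
      have h2 : ((range N).filter (fun η => P ξ η)).card ≤ (Spec N T L1).card := by
        apply Finset.card_le_card_of_injOn (fun η => zt N ξ η)
        · intro η hη
          rw [Finset.mem_coe, Finset.mem_filter] at hη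
          exact hη.2
        · intro a ha b hb hab
          rw [Finset.mem_coe, Finset.mem_filter] at ha hb
          exact zt_inj_right (Finset.mem_coe.mpr ha.1) (Finset.mem_coe.mpr hb.1) hab
      exact_mod_cast h2
    have h3 : 0 ≤ T.card * (c ξ ^ 2 / 2) := by positivity
    have h4 := mul_le_mul_of_nonneg_right h1 h3
    linarith
  have e3 : ∑ ξ ∈ range N, ∑ η ∈ range N, (if P ξ η then T.card * (c η ^ 2 / 2) else 0) ≤
      ∑ ξ ∈ range N, T.card * (Spec N T L1).card * (c ξ ^ 2 / 2) := by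
    rw [Finset.sum_comm]
    refine Finset.sum_le_sum fun η _ => ?_
    rw [← Finset.sum_filter, Finset.sum_const, nsmul_eq_mul]
    have h1 : (((range N).filter (fun ξ => P ξ η)).card : ℝ) ≤ (Spec N T L1).card := by
      have h2 : ((range N).filter (fun ξ => P ξ η)).card ≤ (Spec N T L1).card := by
        apply Finset.card_le_card_of_injOn (fun ξ => zt N ξ η)
        · intro ξ hξ
          rw [Finset.mem_coe, Finset.mem_filter] at hξ
          exact hξ.2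
        · intro a ha b hb hab
          rw [Finset.mem_coe, Finset.mem_filter] at ha hb
          exact zt_inj_left (Finset.mem_coe.mpr ha.1) (Finset.mem_coe.mpr hb.1) hab
      exact_mod_cast h2
    have h3 : 0 ≤ T.card * (c η ^ 2 / 2) := by positivity
    have h4 := mul_le_mul_of_nonneg_right h1 h3
    linarith
  have e4 : ∑ ξ ∈ range N, T.card * (Spec N T L1).card * (c ξ ^ 2 / 2) =
      T.card * (Spec N T L1).card * (∑ ξ ∈ range N, c ξ ^ 2) / 2 := by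
    rw [mul_div_assoc, Finset.sum_div, Finset.mul_sum]
  rw [e1]
  linarith

theorem fourier_one (N x : ℕ) (hx : 1 ≤ x) (hN : 4 * x < N) (T : Finset ℕ) (hT : T ⊆ range (x + 1))
    (h : ℕ → ℂ) (g : ℕ → ℝ) (K L1 : ℝ) (hK : 0 ≤ K) (hL1 : 0 < L1)
    (hg : ∀ n ∈ Icc 1 (2 * x), |g n| ≤ K) :
    ∑ t ∈ T, ‖∑ n ∈ Icc 1 x, h n * (g (n + t) : ℂ)‖ ^ 2 ≤
      (T.card / L1) * ((∑ n ∈ Icc 1 x, ‖h n‖ ^ 2) * (2 * x * K ^ 2)) +
        T.card * ((Spec N T L1).card / (N : ℝ) ^ 2) *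
          ∑ ξ ∈ range N, ‖∑ n ∈ Icc 1 x, h n * ex (n * (ξ / N))‖ ^ 2 *
            ‖∑ m ∈ Icc 1 (2 * x), (g m : ℂ) * ex (m * (ξ / N))‖ ^ 2 := by
  have hN0 : 0 < N := by omega
  have hNR : (0:ℝ) < N := by exact_mod_cast hN0
  set Hh : ℕ → ℂ := fun ξ => ∑ n ∈ Icc 1 x, h n * ex (n * (ξ / N)) with hHh
  set Gg : ℕ → ℂ := fun ξ => ∑ m ∈ Icc 1 (2 * x), (g m : ℂ) * ex (m * (ξ / N)) with hGg
  set A : ℕ → ℂ := fun ξ => Hh ξ * (starRingEnd ℂ) (Gg ξ) with hA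
  set S : ℕ → ℂ := fun t => ∑ ξ ∈ range N, A ξ * ex (t * (ξ / N)) with hS
  have hcorr : ∀ t ∈ T, ‖∑ n ∈ Icc 1 x, h n * (g (n + t) : ℂ)‖ ^ 2 =
      (1 / (N:ℝ) ^ 2) * ‖S t‖ ^ 2 := by
    intro t ht
    have ht' : t ≤ x := by
      have := Finset.mem_range.mp (hT ht)
      omega
    rw [corr_formula N x hN h g t ht', norm_mul, norm_div, norm_one, Complex.norm_natCast, mul_pow,
      div_pow, one_pow]
  rw [Finset.sum_congr rfl hcorr, ← Finset.mul_sum]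
  -- the square
  have hkey : ((∑ t ∈ T, ‖S t‖ ^ 2 : ℝ) : ℂ) =
      ∑ ξ ∈ range N, ∑ η ∈ range N, A ξ * (starRingEnd ℂ) (A η) *
        WW T (((ξ:ℝ) - η) / N) := by
    have h1 : ∀ t ∈ T, ((‖S t‖ ^ 2 : ℝ) : ℂ) = ∑ ξ ∈ range N, ∑ η ∈ range N,
        A ξ * (starRingEnd ℂ) (A η) * ex (t * (((ξ:ℝ) - η) / N)) := by
      intro t _
      push_cast
      rw [← Complex.mul_conj', hS, map_sum, Finset.sum_mul_sum]
      refine Finset.sum_congr rfl fun ξ _ => Finset.sum_congr rfl fun η _ => ?_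
      rw [map_mul, ← ex_neg]
      have e1 : (t:ℝ) * (((ξ:ℝ) - η) / N) = (t:ℝ) * ((ξ:ℝ) / N) + -((t:ℝ) * ((η:ℝ) / N)) := by
        ring
      rw [e1, ex_add]
      ring
    push_cast at h1 ⊢
    rw [Finset.sum_congr rfl h1, Finset.sum_comm]
    refine Finset.sum_congr rfl fun ξ _ => ?_
    rw [Finset.sum_comm]
    refine Finset.sum_congr rfl fun η _ => ?_
    unfold WW
    rw [Finset.mul_sum]
  have hbound : ∑ t ∈ T, ‖S t‖ ^ 2 ≤
      ∑ ξ ∈ range N, ∑ η ∈ range N, ‖A ξ‖ * ‖A η‖ * ‖WW T (((ξ:ℝ) - η) / N)‖ := by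
    have hnn : 0 ≤ ∑ t ∈ T, ‖S t‖ ^ 2 := Finset.sum_nonneg fun _ _ => by positivity
    have h1 : ∑ t ∈ T, ‖S t‖ ^ 2 = ‖((∑ t ∈ T, ‖S t‖ ^ 2 : ℝ) : ℂ)‖ := by
      rw [Complex.norm_real, Real.norm_of_nonneg hnn]
    rw [h1, hkey]
    refine (norm_sum_le _ _).trans (Finset.sum_le_sum fun ξ _ => ?_)
    refine (norm_sum_le _ _).trans (Finset.sum_le_sum fun η _ => ?_)
    rw [norm_mul, norm_mul, Complex.norm_conj]
  have hreal := real_est hN0 T L1 hL1 (fun ξ => ‖A ξ‖) (fun ξ => norm_nonneg _)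
  have hCS : (∑ ξ ∈ range N, ‖A ξ‖) ^ 2 ≤
      (N:ℝ) ^ 2 * ((∑ n ∈ Icc 1 x, ‖h n‖ ^ 2) * (2 * x * K ^ 2)) := by
    have h1 : ∀ ξ ∈ range N, ‖A ξ‖ = ‖Hh ξ‖ * ‖Gg ξ‖ := by
      intro ξ _
      rw [hA, norm_mul, Complex.norm_conj]
    rw [Finset.sum_congr rfl h1]
    have h2 := Finset.sum_mul_sq_le_sq_mul_sq (range N) (fun ξ => ‖Hh ξ‖) (fun ξ => ‖Gg ξ‖)
    refine h2.trans ?_
    have p1 := parseval N x (by omega) hN0 h
    have p2 := parseval N (2 * x) (by omega) hN0 (fun m => (g m : ℂ))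
    have p1' : ∑ ξ ∈ range N, ‖Hh ξ‖ ^ 2 = N * ∑ n ∈ Icc 1 x, ‖h n‖ ^ 2 := p1
    have p2' : ∑ ξ ∈ range N, ‖Gg ξ‖ ^ 2 = N * ∑ n ∈ Icc 1 (2 * x), ‖(g n : ℂ)‖ ^ 2 := p2
    rw [p1', p2']
    have h3 : ∑ n ∈ Icc 1 (2 * x), ‖(g n : ℂ)‖ ^ 2 ≤ 2 * x * K ^ 2 := by
      calc ∑ n ∈ Icc 1 (2 * x), ‖(g n : ℂ)‖ ^ 2 ≤ ∑ n ∈ Icc 1 (2 * x), K ^ 2 := by
            refine Finset.sum_le_sum fun n hn => ?_
            rw [Complex.norm_real, Real.norm_eq_abs]
            exact pow_le_pow_left₀ (abs_nonneg _) (hg n hn) 2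
        _ = 2 * x * K ^ 2 := by
            rw [Finset.sum_const, Nat.card_Icc, nsmul_eq_mul, Nat.add_sub_cancel]
            push_cast
            ring
    have h4 : 0 ≤ ∑ n ∈ Icc 1 x, ‖h n‖ ^ 2 := Finset.sum_nonneg fun _ _ => by positivity
    have h5 : (∑ n ∈ Icc 1 x, ‖h n‖ ^ 2) * ∑ n ∈ Icc 1 (2 * x), ‖(g n : ℂ)‖ ^ 2 ≤
        (∑ n ∈ Icc 1 x, ‖h n‖ ^ 2) * (2 * x * K ^ 2) := mul_le_mul_of_nonneg_left h3 h4
    have h6 := mul_le_mul_of_nonneg_left h5 (sq_nonneg (N:ℝ))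
    calc (N:ℝ) * (∑ n ∈ Icc 1 x, ‖h n‖ ^ 2) * (N * ∑ n ∈ Icc 1 (2 * x), ‖(g n : ℂ)‖ ^ 2)
        = (N:ℝ) ^ 2 * ((∑ n ∈ Icc 1 x, ‖h n‖ ^ 2) * ∑ n ∈ Icc 1 (2 * x), ‖(g n : ℂ)‖ ^ 2) := by
          ring
      _ ≤ _ := h6
  have hsq : ∑ ξ ∈ range N, ‖A ξ‖ ^ 2 = ∑ ξ ∈ range N, ‖Hh ξ‖ ^ 2 * ‖Gg ξ‖ ^ 2 := by
    refine Finset.sum_congr rfl fun ξ _ => ?_
    rw [hA, norm_mul, Complex.norm_conj, mul_pow]
  have hcard : (0:ℝ) ≤ T.card := Nat.cast_nonneg _
  have hfin : (1 / (N:ℝ) ^ 2) * ∑ t ∈ T, ‖S t‖ ^ 2 ≤ (1 / (N:ℝ) ^ 2) *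
      ((T.card / L1) * ((N:ℝ) ^ 2 * ((∑ n ∈ Icc 1 x, ‖h n‖ ^ 2) * (2 * x * K ^ 2))) +
        T.card * (Spec N T L1).card * ∑ ξ ∈ range N, ‖Hh ξ‖ ^ 2 * ‖Gg ξ‖ ^ 2) := by
    apply mul_le_mul_of_nonneg_left _ (by positivity)
    refine hbound.trans (hreal.trans ?_)
    rw [hsq]
    have h7 : (T.card / L1) * (∑ ξ ∈ range N, ‖A ξ‖) ^ 2 ≤ (T.card / L1) *
        ((N:ℝ) ^ 2 * ((∑ n ∈ Icc 1 x, ‖h n‖ ^ 2) * (2 * x * K ^ 2))) :=
      mul_le_mul_of_nonneg_left hCS (by positivity)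
    linarith
  refine hfin.trans (le_of_eq ?_)
  change _ = (T.card / L1) * ((∑ n ∈ Icc 1 x, ‖h n‖ ^ 2) * (2 * x * K ^ 2)) +
        T.card * ((Spec N T L1).card / (N : ℝ) ^ 2) * ∑ ξ ∈ range N, ‖Hh ξ‖ ^ 2 * ‖Gg ξ‖ ^ 2
  generalize ∑ ξ ∈ range N, ‖Hh ξ‖ ^ 2 * ‖Gg ξ‖ ^ 2 = Y
  generalize (∑ n ∈ Icc 1 x, ‖h n‖ ^ 2) = B
  field_simp

private lemma ex_sum {ι : Type*} (s : Finset ι) (f : ι → ℝ) :
    ex (∑ i ∈ s, f i) = ∏ i ∈ s, ex (f i) := by
  classical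
  induction s using Finset.induction_on with
  | empty => simp
  | insert a s ha ih => rw [Finset.sum_insert ha, Finset.prod_insert ha, ex_add, ih]

private lemma WW_pow (T : Finset ℕ) (α : ℝ) (s : ℕ) :
    WW T α ^ s = ∑ u ∈ Fintype.piFinset (fun _ : Fin s => T), ex (((∑ i, u i : ℕ) : ℝ) * α) := by
  have h1 : WW T α ^ s = ∏ _i : Fin s, ∑ t ∈ T, ex (t * α) := by
    rw [Finset.prod_const, Finset.card_univ, Fintype.card_fin]
    rfl
  rw [h1, Finset.prod_univ_sum]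
  refine Finset.sum_congr rfl fun u _ => ?_
  rw [← ex_sum]
  congr 1
  push_cast
  rw [Finset.sum_mul]

/-- the representative in `[1, N]` -/
private def rp (N n : ℕ) : ℕ := (n + N - 1) % N + 1

private lemma rp_mem {N : ℕ} (hN : 0 < N) (n : ℕ) : rp N n ∈ Icc 1 N := by
  rw [Finset.mem_Icc]
  unfold rp
  have := Nat.mod_lt (n + N - 1) hN
  omega

private lemma rp_modEq {N : ℕ} (hN : 0 < N) (n : ℕ) : rp N n ≡ n [MOD N] := by
  unfold rp
  have h1 : (n + N - 1) % N + 1 ≡ (n + N - 1) + 1 [MOD N] :=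
    Nat.ModEq.add_right _ (Nat.mod_modEq _ _)
  have h2 : (n + N - 1) + 1 = n + N := by omega
  rw [h2] at h1
  have h3 : n + N ≡ n [MOD N] := by
    simp [Nat.ModEq]
  exact h1.trans h3

private lemma ex_modEq {N m n : ℕ} (hN : 0 < N) (hmn : m ≡ n [MOD N]) (ζ : ℕ) :
    ex ((m:ℝ) * ((ζ:ℝ) / N)) = ex ((n:ℝ) * ((ζ:ℝ) / N)) := by
  have hN' : (N:ℝ) ≠ 0 := by exact_mod_cast hN.ne'
  obtain ⟨k, hk⟩ := (Nat.modEq_iff_dvd.mp hmn)
  have h1 : (n:ℝ) - m = N * k := by exact_mod_cast hk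
  have h2 : (n:ℝ) * ((ζ:ℝ) / N) = (m:ℝ) * ((ζ:ℝ) / N) + ((k * (ζ:ℤ) : ℤ) : ℝ) := by
    have : (n:ℝ) = m + N * k := by linarith
    rw [this]
    push_cast
    field_simp
  rw [h2, ex_add_int]

theorem spec_card (N x s : ℕ) (hs : 1 ≤ s) (hN : x < N) (T : Finset ℕ) (hT : T ⊆ range (x + 1))
    (hT0 : T.Nonempty) (L1 : ℝ) (hL1 : 0 < L1) :
    ((Spec N T L1).card : ℝ) * (T.card : ℝ) ^ (2 * s) ≤
      L1 ^ (2 * s) * (N * ((2 * s + 1) * energy s T)) := by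
  classical
  have hN0 : 0 < N := by omega
  have hNR : (0:ℝ) < N := by exact_mod_cast hN0
  set U := Fintype.piFinset (fun _ : Fin s => T) with hU
  set sg : (Fin s → ℕ) → ℕ := fun u => ∑ i, u i with hsg
  have hsg_le : ∀ u ∈ U, sg u ≤ s * x := by
    intro u hu
    rw [hU, Fintype.mem_piFinset] at hu
    calc sg u = ∑ i, u i := rfl
      _ ≤ ∑ _i : Fin s, x := Finset.sum_le_sum fun i _ => by
          have := Finset.mem_range.mp (hT (hu i))
          omega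
      _ = s * x := by simp
  -- counting functions
  set r : ℕ → ℝ := fun n => ((U.filter (fun u => sg u = n)).card : ℝ) with hr
  set R : ℕ → ℝ := fun m => ((U.filter (fun u => rp N (sg u) = m)).card : ℝ) with hR
  -- step 1: the spectrum
  have h1 : ((Spec N T L1).card : ℝ) * (T.card : ℝ) ^ (2 * s) ≤
      L1 ^ (2 * s) * ∑ ζ ∈ range N, ‖WW T ((ζ : ℝ) / N) ^ s‖ ^ 2 := by
    have hsub : Spec N T L1 ⊆ range N := by
      intro ζ hζ
      rw [Finset.mem_range]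
      exact (mem_Spec.mp hζ).1
    calc ((Spec N T L1).card : ℝ) * (T.card : ℝ) ^ (2 * s)
        = ∑ ζ ∈ Spec N T L1, (T.card : ℝ) ^ (2 * s) := by
          rw [Finset.sum_const, nsmul_eq_mul]
      _ ≤ ∑ ζ ∈ Spec N T L1, L1 ^ (2 * s) * ‖WW T ((ζ : ℝ) / N) ^ s‖ ^ 2 := by
          refine Finset.sum_le_sum fun ζ hζ => ?_
          have h2 := (mem_Spec.mp hζ).2
          have h3 := pow_le_pow_left₀ (Nat.cast_nonneg _) h2 (2 * s)
          refine h3.trans (le_of_eq ?_)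
          rw [norm_pow, ← pow_mul, mul_pow, mul_comm s 2]
      _ ≤ ∑ ζ ∈ range N, L1 ^ (2 * s) * ‖WW T ((ζ : ℝ) / N) ^ s‖ ^ 2 :=
          Finset.sum_le_sum_of_subset_of_nonneg hsub fun _ _ _ => by positivity
      _ = _ := by rw [Finset.mul_sum]
  -- step 2: Parseval
  have h2 : ∑ ζ ∈ range N, ‖WW T ((ζ : ℝ) / N) ^ s‖ ^ 2 = N * ∑ m ∈ Icc 1 N, R m ^ 2 := by
    have hp := parseval N N le_rfl hN0 (fun m => (R m : ℂ))
    have e1 : ∀ ζ ∈ range N, ‖WW T ((ζ : ℝ) / N) ^ s‖ ^ 2 =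
        ‖∑ m ∈ Icc 1 N, (R m : ℂ) * ex (m * (ζ / N))‖ ^ 2 := by
      intro ζ _
      congr 2
      rw [WW_pow, ← Finset.sum_fiberwise_of_maps_to (s := U) (t := Icc 1 N)
        (g := fun u => rp N (sg u)) (fun u _ => rp_mem hN0 _)]
      refine Finset.sum_congr rfl fun m _ => ?_
      have e2 : ∀ u ∈ U.filter (fun u => rp N (sg u) = m),
          ex (((∑ i, u i : ℕ) : ℝ) * ((ζ : ℝ) / N)) = ex ((m:ℝ) * ((ζ:ℝ) / N)) := by
        intro u hu
        have hu2 := (Finset.mem_filter.mp hu).2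
        rw [← hu2]
        exact (ex_modEq hN0 (rp_modEq hN0 (sg u)) ζ).symm
      rw [Finset.sum_congr rfl e2, Finset.sum_const, nsmul_eq_mul]
      simp only [hR, Complex.ofReal_natCast]
    rw [Finset.sum_congr rfl e1, hp]
    congr 1
    refine Finset.sum_congr rfl fun m _ => ?_
    rw [Complex.norm_real, Real.norm_eq_abs, sq_abs]
  -- step 3: classes modulo N
  set F : ℕ → Finset ℕ := fun m => (range (s * x + 1)).filter (fun n => rp N n = m) with hF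
  have h3 : ∀ m ∈ Icc 1 N, R m ^ 2 ≤ s * ∑ n ∈ F m, r n ^ 2 := by
    intro m _
    have e1 : R m = ∑ n ∈ F m, r n := by
      simp only [hR, hr, hF]
      rw [← Nat.cast_sum]
      congr 1
      rw [Finset.card_eq_sum_card_fiberwise (s := U.filter (fun u => rp N (sg u) = m))
        (t := (range (s * x + 1)).filter (fun n => rp N n = m)) (f := sg)]
      · refine Finset.sum_congr rfl fun n hn => ?_
        congr 1
        rw [Finset.filter_filter]
        apply Finset.filter_congr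
        intro u _
        have hn2 := (Finset.mem_filter.mp hn).2
        constructor
        · rintro ⟨_, h⟩
          exact h
        · intro h
          exact ⟨by rw [h]; exact hn2, h⟩
      · intro u hu
        rw [Finset.mem_coe, Finset.mem_filter] at hu
        rw [Finset.mem_coe, Finset.mem_filter, Finset.mem_range]
        exact ⟨by have := hsg_le u hu.1; omega, hu.2⟩
    have e2 : (F m).card ≤ s := by
      have : (F m).card ≤ (range s).card := by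
        apply Finset.card_le_card_of_injOn (fun n => n / N)
        · intro n hn
          rw [Finset.mem_coe, hF, Finset.mem_filter, Finset.mem_range] at hn
          rw [Finset.mem_coe, Finset.mem_range]
          rw [Nat.div_lt_iff_lt_mul hN0]
          have : s * x < s * N := Nat.mul_lt_mul_of_pos_left hN (by omega)
          omega
        · intro a ha b hb hab
          rw [Finset.mem_coe, hF, Finset.mem_filter] at ha hb
          have c1 : a ≡ b [MOD N] := by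
            have d1 := rp_modEq hN0 a
            have d2 := rp_modEq hN0 b
            rw [ha.2] at d1
            rw [hb.2] at d2
            exact d1.symm.trans d2
          have c2 : a % N = b % N := c1
          have c3 : a / N = b / N := hab
          rw [← Nat.mod_add_div a N, ← Nat.mod_add_div b N, c2, c3]
      rwa [Finset.card_range] at this
    rw [e1]
    refine (sq_sum_le_card_mul_sum_sq).trans ?_
    apply mul_le_mul_of_nonneg_right _ (Finset.sum_nonneg fun _ _ => by positivity)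
    exact_mod_cast e2
  have h4 : ∑ m ∈ Icc 1 N, R m ^ 2 ≤ s * ∑ n ∈ range (s * x + 1), r n ^ 2 := by
    refine (Finset.sum_le_sum h3).trans (le_of_eq ?_)
    rw [← Finset.mul_sum]
    congr 1
    exact Finset.sum_fiberwise_of_maps_to (s := range (s * x + 1)) (t := Icc 1 N)
      (g := fun n => rp N n) (fun n _ => rp_mem hN0 _) _
  have h5 : ∑ n ∈ range (s * x + 1), r n ^ 2 = (energy s T : ℝ) := by
    unfold energy
    rw [Finset.card_eq_sum_card_fiberwise (t := range (s * x + 1)) (f := fun u => sg u.1)]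
    · rw [Nat.cast_sum]
      refine Finset.sum_congr rfl fun n _ => ?_
      have e1 : (((U ×ˢ U).filter (fun u => ∑ i, u.1 i = ∑ i, u.2 i)).filter
          (fun u => sg u.1 = n)) =
          (U.filter (fun u => sg u = n)) ×ˢ (U.filter (fun u => sg u = n)) := by
        ext u
        simp only [Finset.mem_filter, Finset.mem_product, hsg]
        constructor
        · rintro ⟨⟨⟨a1, a2⟩, a3⟩, a4⟩
          exact ⟨⟨a1, a4⟩, a2, by rw [← a3]; exact a4⟩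
        · rintro ⟨⟨a1, a4⟩, a2, a5⟩
          exact ⟨⟨⟨a1, a2⟩, by rw [a4, a5]⟩, a4⟩
      rw [e1, Finset.card_product, hr]
      push_cast
      ring
    · intro u hu
      rw [Finset.mem_coe, Finset.mem_filter, Finset.mem_product] at hu
      rw [Finset.mem_coe, Finset.mem_range]
      have := hsg_le u.1 hu.1.1
      show sg u.1 < s * x + 1
      omega
  have h6 : ∑ m ∈ Icc 1 N, R m ^ 2 ≤ (2 * s + 1) * energy s T := by
    rw [h5] at h4
    refine h4.trans ?_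
    have e0 : (0:ℝ) ≤ energy s T := Nat.cast_nonneg _
    have e1 : (0:ℝ) ≤ s := Nat.cast_nonneg _
    nlinarith
  refine h1.trans ?_
  rw [h2]
  apply mul_le_mul_of_nonneg_left _ (by positivity)
  exact mul_le_mul_of_nonneg_left h6 hNR.le

end Pool.Agent.HLT
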