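import Pool.Agent.Lib.HLT.Geom

/-!
# Sums of `min (X, 1 / (2 ‖α m‖))` over long ranges

PROOF SKETCH.
`sum_mn_const`: split `Icc 1 M` in at most `M / q + 1` blocks of `q` consecutive integers (`block_sum` with
`β = α h q`).
`sum_mn_div`: the blocks `(h q, (h+1) q]` with `h >= 1`: `mn (X / m) <= mn (X / (h q))`, total
`<= C (X / q) (1 + log (M / q)) + C (M / q) q log (2 q)`. For `m <= q / 2`: `‖α m‖ >= (1/2) ‖a m / q‖ > 0` since
`|α m - a m / q| <= m / q^2 <= 1 / (2 q)` and `‖a m / q‖ >= 1 / q`, so the sum over these `m` is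
`<= sum_{1 <= r < q} 1 / ‖r / q‖ <= 2 q (1 + log q)`; for `q / 2 < m <= q`: `mn (X / m) <= mn (2 X / q)` and
`block_sum`. For `q = 1` the first part is empty.
-/

set_option autoImplicit false

open Finset Filter

namespace Pool.Agent.HLT

lemma gs_sum_Icc_add (f : ℕ → ℝ) (N q : ℕ) :
    ∑ m ∈ Icc 1 (N + q), f m = ∑ m ∈ Icc 1 N, f m + ∑ i ∈ Icc 1 q, f (N + i) := by
  induction q with
  | zero => simp
  | succ q ih =>
    rw [← Nat.add_assoc, Finset.sum_Icc_succ_top (by omega), ih,
      Finset.sum_Icc_succ_top (by omega : 1 ≤ q + 1), ← Nat.add_assoc]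
    ring

lemma gs_harm (n : ℕ) : ∑ h ∈ Icc 1 n, 1 / (h : ℝ) ≤ 1 + Real.log n := by
  have h := harmonic_le_one_add_log n
  rw [harmonic_eq_sum_Icc] at h
  push_cast at h
  simpa only [one_div] using h

theorem sum_mn_const : ∃ C : ℝ, 0 < C ∧ ∀ (q M : ℕ) (a : ℤ) (α X : ℝ), 1 ≤ q →
    IsCoprime a (q : ℤ) → |α - a / q| ≤ 1 / (q : ℝ) ^ 2 → 0 ≤ X →
    ∑ m ∈ Icc 1 M, mn X (α * m) ≤ C * ((M : ℝ) / q + 1) * (X + q * Real.log (2 * q)) := by
  obtain ⟨C, hC, hb⟩ := block_sum
  refine ⟨C, hC, fun q M a α X hq hco hα hX => ?_⟩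
  have hq0 : (0 : ℝ) < q := by exact_mod_cast hq
  have hlog : 0 ≤ Real.log (2 * q) := Real.log_nonneg (by
    have : (1 : ℝ) ≤ q := by exact_mod_cast hq
    linarith)
  have key : ∀ K : ℕ, ∑ m ∈ Icc 1 (K * q), mn X (α * m) ≤
      K * (C * (X + q * Real.log (2 * q))) := by
    intro K
    induction K with
    | zero => simp
    | succ K ih =>
      rw [Nat.succ_mul, gs_sum_Icc_add]
      have h1 := hb q a α (α * ((K * q : ℕ) : ℝ)) X hq hco hα hX
      have h2 : ∑ i ∈ Icc 1 q, mn X (α * ((K * q + i : ℕ) : ℝ)) =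
          ∑ i ∈ Icc 1 q, mn X (α * i + α * ((K * q : ℕ) : ℝ)) := by
        refine Finset.sum_congr rfl fun i _ => ?_
        congr 1
        push_cast
        ring
      rw [h2]
      push_cast at h1 ih ⊢
      linarith
  have hM : M ≤ (M / q + 1) * q := by
    have := Nat.div_add_mod M q
    have h2 := Nat.mod_lt M hq
    nlinarith only [this, h2]
  calc ∑ m ∈ Icc 1 M, mn X (α * m)
      ≤ ∑ m ∈ Icc 1 ((M / q + 1) * q), mn X (α * m) :=
        Finset.sum_le_sum_of_subset_of_nonneg (Finset.Icc_subset_Icc le_rfl hM)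
          fun m _ _ => mn_nonneg hX _
    _ ≤ ((M / q + 1 : ℕ) : ℝ) * (C * (X + q * Real.log (2 * q))) := key _
    _ ≤ ((M : ℝ) / q + 1) * (C * (X + q * Real.log (2 * q))) := by
        refine mul_le_mul_of_nonneg_right ?_ (by positivity)
        push_cast
        have := @Nat.cast_div_le ℝ _ _ _ M q
        linarith
    _ = _ := by ring

lemma gs_small {q m : ℕ} {a : ℤ} {α X : ℝ} (hq : 1 ≤ q) (hX : 0 ≤ X)
    (hα : |α - a / q| ≤ 1 / (q : ℝ) ^ 2) (hm : 2 * m ≤ q)
    (hr : 0 < (a * m) % (q : ℤ)) :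
    mn X (α * m) ≤ q / (((a * m) % (q : ℤ) : ℤ) : ℝ) +
      q / ((q : ℝ) - (((a * m) % (q : ℤ) : ℤ) : ℝ)) := by
  have hq0 : (0 : ℝ) < q := by exact_mod_cast hq
  have hqz : (0 : ℤ) < q := by exact_mod_cast hq
  set r : ℤ := (a * m) % (q : ℤ) with hrdef
  have hr2 : r < q := Int.emod_lt_of_pos _ hqz
  set k : ℤ := round (α * m) with hk
  set t : ℤ := (a * m) / (q : ℤ) - k with ht
  have hdiv : a * m - q * k = r + q * t := by
    have h := Int.emod_add_mul_ediv (a * m) (q : ℤ)
    rw [ht]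
    linear_combination (-1 : ℤ) * h
  -- lower bound for the distance
  have hmu : (min r ((q : ℤ) - r) : ℤ) ≤ |a * m - q * k| := by
    rw [hdiv]
    rcases le_or_gt 0 t with h0 | h0
    · have : r ≤ r + q * t := by nlinarith only [h0]
      exact (min_le_left _ _).trans (this.trans (le_abs_self _))
    · have : (q : ℤ) - r ≤ -(r + q * t) := by nlinarith only [h0]
      exact (min_le_right _ _).trans (this.trans (neg_le_abs _))
  have hmu1 : (1 : ℤ) ≤ min r ((q : ℤ) - r) := le_min (by omega) (by omega)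
  set μ : ℤ := min r ((q : ℤ) - r) with hμ
  have hμR : (1 : ℝ) ≤ (μ : ℝ) := by exact_mod_cast hmu1
  have hmuR : (μ : ℝ) ≤ |(a : ℝ) * m - q * k| := by
    have : ((μ : ℤ) : ℝ) ≤ ((|a * m - q * k| : ℤ) : ℝ) := by exact_mod_cast hmu
    rw [Int.cast_abs] at this
    push_cast at this
    exact this
  have hdist : |α * m - (a : ℝ) * m / q| ≤ 1 / (2 * q) := by
    have h1 : α * m - (a : ℝ) * m / q = (α - a / q) * m := by ring
    have hmR : (2 : ℝ) * m ≤ q := by exact_mod_cast hm
    rw [h1, abs_mul, abs_of_nonneg (Nat.cast_nonneg m : (0 : ℝ) ≤ m)]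
    calc |α - a / q| * m ≤ 1 / (q : ℝ) ^ 2 * (q / 2) := by
          refine mul_le_mul hα ?_ (Nat.cast_nonneg m) (by positivity)
          linarith only [hmR]
      _ = 1 / (2 * q) := by field_simp
  have hn : (μ : ℝ) / (2 * q) ≤ nrm (α * m) := by
    unfold nrm
    rw [← hk]
    have h1 : |(a : ℝ) * m / q - k| = |(a : ℝ) * m - q * k| / q := by
      rw [← abs_of_pos hq0, ← abs_div, abs_of_pos hq0]
      congr 1
      field_simp
    have h2 : |(a : ℝ) * m / q - k| ≤ |α * m - k| + |α * m - (a : ℝ) * m / q| := by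
      have h3 : (a : ℝ) * m / q - k = (α * m - k) - (α * m - (a : ℝ) * m / q) := by ring
      rw [h3]
      exact abs_sub _ _
    have h4 : (μ : ℝ) / q ≤ |(a : ℝ) * m / q - k| := by
      rw [h1]
      exact div_le_div_of_nonneg_right hmuR hq0.le
    have h5 : (μ : ℝ) / q - 1 / (2 * q) ≤ |α * m - k| := by linarith only [hdist, h2, h4]
    have h6 : (μ : ℝ) / (2 * q) ≤ (μ : ℝ) / q - 1 / (2 * q) := by
      have : (μ : ℝ) / q - 1 / (2 * q) - (μ : ℝ) / (2 * q) = (μ - 1) / (2 * q) := by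
        field_simp
        ring
      have h7 : 0 ≤ ((μ : ℝ) - 1) / (2 * q) := div_nonneg (by linarith only [hμR]) (by positivity)
      linarith only [this, h7]
    linarith only [hdist, h2, h4, h6]
  have hn0 : 0 < nrm (α * m) := lt_of_lt_of_le (by positivity) hn
  have hrR : (0 : ℝ) < (r : ℝ) := by exact_mod_cast hr
  have hqr : (0 : ℝ) < (q : ℝ) - (r : ℝ) := by
    have : (r : ℝ) < (q : ℝ) := by exact_mod_cast hr2
    linarith only [this]
  calc mn X (α * m) ≤ 1 / (2 * nrm (α * m)) := mn_le_right hX hn0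
    _ ≤ q / μ := by
        rw [div_le_div_iff₀ (by positivity) (by linarith only [hμR])]
        have := (div_le_iff₀ (by positivity : (0 : ℝ) < 2 * q)).mp hn
        linarith only [this]
    _ ≤ q / (r : ℝ) + q / ((q : ℝ) - (r : ℝ)) := by
        rcases min_choice r ((q : ℤ) - r) with h | h
        · rw [hμ, h]
          have : 0 ≤ q / ((q : ℝ) - (r : ℝ)) := by positivity
          linarith only [this]
        · rw [hμ, h]
          push_cast
          have : 0 ≤ q / (r : ℝ) := by positivity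
          linarith only [this]

lemma gs_first {q : ℕ} {a : ℤ} {α X : ℝ} (hq : 1 ≤ q) (hX : 0 ≤ X)
    (hco : IsCoprime a (q : ℤ)) (hα : |α - a / q| ≤ 1 / (q : ℝ) ^ 2) :
    ∑ m ∈ (Icc 1 q).filter (fun m => 2 * m ≤ q), mn (X / m) (α * m) ≤
      2 * q * (1 + Real.log q) := by
  have hq0 : (0 : ℝ) < q := by exact_mod_cast hq
  have hqz : (0 : ℤ) < q := by exact_mod_cast hq
  set S := (Icc 1 q).filter (fun m => 2 * m ≤ q) with hS
  set r : ℕ → ℕ := fun m => ((a * m) % (q : ℤ)).toNat with hr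
  have hcast : ∀ m : ℕ, ((r m : ℕ) : ℤ) = (a * m) % (q : ℤ) := fun m => by
    rw [hr]
    exact Int.toNat_of_nonneg (Int.emod_nonneg _ hqz.ne')
  have hmem : ∀ m ∈ S, 1 ≤ m ∧ 2 * m ≤ q := by
    intro m hm
    rw [hS, Finset.mem_filter, Finset.mem_Icc] at hm
    exact ⟨hm.1.1, hm.2⟩
  have hpos : ∀ m ∈ S, 0 < (a * m) % (q : ℤ) := by
    intro m hm
    obtain ⟨h1, h2⟩ := hmem m hm
    have h0 := Int.emod_nonneg (a * m) hqz.ne'
    refine lt_of_le_of_ne h0 fun h => ?_
    have hd : (q : ℤ) ∣ a * m := Int.dvd_of_emod_eq_zero h.symm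
    have hd2 : (q : ℤ) ∣ m := (hco.symm).dvd_of_dvd_mul_left hd
    have hd3 : q ∣ m := by exact_mod_cast hd2
    have := Nat.le_of_dvd (by omega) hd3
    omega
  have hrpos : ∀ m ∈ S, 1 ≤ r m ∧ r m < q := by
    intro m hm
    have h1 := hpos m hm
    have h2 := Int.emod_lt_of_pos (a * m) hqz
    rw [← hcast] at h1 h2
    constructor
    · exact_mod_cast h1
    · exact_mod_cast h2
  have hinj : Set.InjOn r (S : Set ℕ) := by
    intro m hm m' hm' h
    obtain ⟨h1, h2⟩ := hmem m hm
    obtain ⟨h1', h2'⟩ := hmem m' hm'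
    have h3 : (a * m) % (q : ℤ) = (a * m') % (q : ℤ) := by
      rw [← hcast, ← hcast]
      exact_mod_cast h
    have h4 : (q : ℤ) ∣ a * m - a * m' := Int.ModEq.dvd h3.symm
    have h5 : (q : ℤ) ∣ a * ((m : ℤ) - m') := by rwa [mul_sub]
    have h6 : (q : ℤ) ∣ (m : ℤ) - m' := (hco.symm).dvd_of_dvd_mul_left h5
    have h7 := Int.eq_zero_of_abs_lt_dvd h6 (by
      rw [abs_lt]
      constructor <;> omega)
    omega
  have hH := gs_harm q
  have e1 : ∑ m ∈ S, (q : ℝ) / (r m : ℝ) ≤ q * (1 + Real.log q) := by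
    calc ∑ m ∈ S, (q : ℝ) / (r m : ℝ) = ∑ j ∈ S.image r, (q : ℝ) / (j : ℝ) := by
          rw [Finset.sum_image hinj]
      _ ≤ ∑ j ∈ Icc 1 q, (q : ℝ) / (j : ℝ) := by
          refine Finset.sum_le_sum_of_subset_of_nonneg ?_ fun j _ _ => by positivity
          intro j hj
          rw [Finset.mem_image] at hj
          obtain ⟨m, hm, rfl⟩ := hj
          rw [Finset.mem_Icc]
          exact ⟨(hrpos m hm).1, (hrpos m hm).2.le⟩
      _ = q * ∑ j ∈ Icc 1 q, 1 / (j : ℝ) := by
          rw [Finset.mul_sum]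
          exact Finset.sum_congr rfl fun j _ => by ring
      _ ≤ _ := mul_le_mul_of_nonneg_left hH hq0.le
  have e2 : ∑ m ∈ S, (q : ℝ) / ((q : ℝ) - (r m : ℝ)) ≤ q * (1 + Real.log q) := by
    have hinj2 : Set.InjOn (fun m => q - r m) (S : Set ℕ) := by
      intro m hm m' hm' h
      apply hinj hm hm'
      have h1 := (hrpos m hm).2
      have h2 := (hrpos m' hm').2
      dsimp only at h
      omega
    calc ∑ m ∈ S, (q : ℝ) / ((q : ℝ) - (r m : ℝ)) =
          ∑ m ∈ S, (q : ℝ) / ((q - r m : ℕ) : ℝ) := by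
          refine Finset.sum_congr rfl fun m hm => ?_
          rw [Nat.cast_sub (hrpos m hm).2.le]
      _ = ∑ j ∈ S.image (fun m => q - r m), (q : ℝ) / (j : ℝ) := by
          rw [Finset.sum_image hinj2]
      _ ≤ ∑ j ∈ Icc 1 q, (q : ℝ) / (j : ℝ) := by
          refine Finset.sum_le_sum_of_subset_of_nonneg ?_ fun j _ _ => by positivity
          intro j hj
          rw [Finset.mem_image] at hj
          obtain ⟨m, hm, rfl⟩ := hj
          rw [Finset.mem_Icc]
          have := hrpos m hm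
          omega
      _ = q * ∑ j ∈ Icc 1 q, 1 / (j : ℝ) := by
          rw [Finset.mul_sum]
          exact Finset.sum_congr rfl fun j _ => by ring
      _ ≤ _ := mul_le_mul_of_nonneg_left hH hq0.le
  calc ∑ m ∈ S, mn (X / m) (α * m)
      ≤ ∑ m ∈ S, ((q : ℝ) / (r m : ℝ) + (q : ℝ) / ((q : ℝ) - (r m : ℝ))) := by
        refine Finset.sum_le_sum fun m hm => ?_
        have h := gs_small (X := X / m) hq (by positivity) hα (hmem m hm).2 (hpos m hm)
        have hc : ((r m : ℕ) : ℝ) = (((a * m) % (q : ℤ) : ℤ) : ℝ) := by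
          rw [← hcast]
          push_cast
          rfl
        rw [hc]
        exact h
    _ = ∑ m ∈ S, (q : ℝ) / (r m : ℝ) + ∑ m ∈ S, (q : ℝ) / ((q : ℝ) - (r m : ℝ)) :=
        Finset.sum_add_distrib
    _ ≤ _ := by linarith only [e1, e2]

theorem sum_mn_div : ∃ C : ℝ, 0 < C ∧ ∀ (q M : ℕ) (a : ℤ) (α X : ℝ), 1 ≤ q →
    IsCoprime a (q : ℤ) → |α - a / q| ≤ 1 / (q : ℝ) ^ 2 → 0 ≤ X →
    ∑ m ∈ Icc 1 M, mn (X / m) (α * m) ≤
      C * (X / q + M + q) * Real.log (4 * q * (M + 1)) := by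
  obtain ⟨C, hC, hb⟩ := block_sum
  refine ⟨2 + 3 * C, by positivity, fun q M a α X hq hco hα hX => ?_⟩
  have hq0 : (0 : ℝ) < q := by exact_mod_cast hq
  have hq1 : (1 : ℝ) ≤ q := by exact_mod_cast hq
  have hM0 : (0 : ℝ) ≤ M := Nat.cast_nonneg M
  set L := Real.log (4 * q * (M + 1)) with hL
  have he : Real.exp 1 ≤ 4 := by
    have := Real.exp_one_lt_d9
    linarith
  have hL1 : 1 + Real.log q ≤ L := by
    have h1 : Real.exp 1 * q ≤ 4 * q * (M + 1) := by nlinarith only [he]
    have h2 := Real.log_le_log (by positivity) h1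
    rw [Real.log_mul (Real.exp_pos 1).ne' hq0.ne', Real.log_exp] at h2
    exact h2
  have hlq : 0 ≤ Real.log q := Real.log_nonneg hq1
  have hL2 : Real.log (2 * q) ≤ L := by
    refine Real.log_le_log (by positivity) ?_
    nlinarith only [hq0]
  have hlog2 : 0 ≤ Real.log (2 * q) := Real.log_nonneg (by linarith only [hq0, hq1])
  have hLone : 1 ≤ L := by linarith only [hL1, hlq]
  have hf0 : ∀ m : ℕ, 0 ≤ mn (X / m) (α * m) := fun m => mn_nonneg (by positivity) _
  -- the blocks
  have key : ∀ H : ℕ, ∑ m ∈ Icc 1 (q + H * q), mn (X / m) (α * m) ≤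
      ∑ m ∈ Icc 1 q, mn (X / m) (α * m) +
        ∑ h ∈ Icc 1 H, C * (X / (h * q) + q * Real.log (2 * q)) := by
    intro H
    induction H with
    | zero => simp
    | succ H ih =>
      rw [Nat.succ_mul, ← Nat.add_assoc, gs_sum_Icc_add,
        Finset.sum_Icc_succ_top (by omega : 1 ≤ H + 1)]
      have h1 := hb q a α (α * ((q + H * q : ℕ) : ℝ)) (X / (((H + 1 : ℕ) : ℝ) * q)) hq hco hα
        (by positivity)
      have h2 : ∑ i ∈ Icc 1 q, mn (X / ((q + H * q + i : ℕ) : ℝ))
            (α * ((q + H * q + i : ℕ) : ℝ)) ≤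
          ∑ i ∈ Icc 1 q, mn (X / (((H + 1 : ℕ) : ℝ) * q))
            (α * i + α * ((q + H * q : ℕ) : ℝ)) := by
        refine Finset.sum_le_sum fun i _ => ?_
        have h3 : α * ((q + H * q + i : ℕ) : ℝ) = α * i + α * ((q + H * q : ℕ) : ℝ) := by
          push_cast
          ring
        rw [h3]
        refine mn_mono (by positivity) ?_ _
        refine div_le_div_of_nonneg_left hX (by positivity) ?_
        push_cast
        have : (0 : ℝ) ≤ i := Nat.cast_nonneg i
        nlinarith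
      linarith only [ih, h1, h2]
  set H := M / q with hHdef
  have hHq : H * q ≤ M := Nat.div_mul_le_self M q
  have hM : M ≤ q + H * q := by
    have := Nat.div_add_mod M q
    have h2 := Nat.mod_lt M hq
    nlinarith only [hHdef, this, h2]
  have hHqR : (H : ℝ) * q ≤ M := by exact_mod_cast hHq
  have hHM : H ≤ M := Nat.div_le_self M q
  -- harmonic sum
  have hharm : ∑ h ∈ Icc 1 H, 1 / (h : ℝ) ≤ L := by
    refine (gs_harm H).trans ?_
    rcases Nat.eq_zero_or_pos H with h0 | h0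
    · rw [h0]
      simp
      exact hLone
    · have hH0 : (0 : ℝ) < H := by exact_mod_cast h0
      have h1 : Real.exp 1 * H ≤ 4 * q * (M + 1) := by
        have : (H : ℝ) ≤ M := by exact_mod_cast hHM
        nlinarith only [hq0, hq1, he, this]
      have h2 := Real.log_le_log (by (clear * - h0; positivity)) h1
      rw [Real.log_mul (Real.exp_pos 1).ne' hH0.ne', Real.log_exp] at h2
      exact h2
  have hblocks : ∑ h ∈ Icc 1 H, C * (X / (h * q) + q * Real.log (2 * q)) ≤
      C * (X / q + M) * L := by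
    have h1 : ∑ h ∈ Icc 1 H, C * (X / (h * q) + q * Real.log (2 * q)) =
        C * (X / q) * ∑ h ∈ Icc 1 H, 1 / (h : ℝ) + C * ((H : ℝ) * q * Real.log (2 * q)) := by
      rw [Finset.mul_sum]
      have h2 : ∀ h ∈ Icc 1 H, C * (X / (h * q) + q * Real.log (2 * q)) =
          C * (X / q) * (1 / (h : ℝ)) + C * (q * Real.log (2 * q)) := by
        intro h hh
        have : (h : ℝ) ≠ 0 := by
          have := (Finset.mem_Icc.mp hh).1
          have : (0 : ℝ) < h := by exact_mod_cast this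
          exact this.ne'
        field_simp
      rw [Finset.sum_congr rfl h2, Finset.sum_add_distrib, Finset.sum_const, Nat.card_Icc,
        nsmul_eq_mul, Nat.add_sub_cancel]
      ring
    rw [h1]
    have h3 : C * (X / q) * ∑ h ∈ Icc 1 H, 1 / (h : ℝ) ≤ C * (X / q) * L :=
      mul_le_mul_of_nonneg_left hharm (by (clear * - hC hq hX; positivity))
    have h4 : C * ((H : ℝ) * q * Real.log (2 * q)) ≤ C * (M * L) := by
      refine mul_le_mul_of_nonneg_left ?_ hC.le
      exact mul_le_mul hHqR hL2 hlog2 hM0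
    calc _ ≤ C * (X / q) * L + C * (M * L) := add_le_add h3 h4
      _ = _ := by ring
  -- the first block
  have hfirst : ∑ m ∈ Icc 1 q, mn (X / m) (α * m) ≤
      2 * q * (1 + Real.log q) + C * (2 * X / q + q * Real.log (2 * q)) := by
    rw [← Finset.sum_filter_add_sum_filter_not (Icc 1 q) (fun m => 2 * m ≤ q)]
    refine add_le_add (gs_first hq hX hco hα) ?_
    calc ∑ m ∈ (Icc 1 q).filter (fun m => ¬ 2 * m ≤ q), mn (X / m) (α * m)
        ≤ ∑ m ∈ (Icc 1 q).filter (fun m => ¬ 2 * m ≤ q), mn (2 * X / q) (α * m + 0) := by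
          refine Finset.sum_le_sum fun m hm => ?_
          rw [Finset.mem_filter, Finset.mem_Icc] at hm
          rw [add_zero]
          refine mn_mono (by (clear * - hX; positivity)) ?_ _
          have hm0 : (0 : ℝ) < m := by exact_mod_cast hm.1.1
          have hm2 : (q : ℝ) ≤ 2 * m := by
            have : q ≤ 2 * m := by omega
            exact_mod_cast this
          rw [div_le_div_iff₀ hm0 hq0]
          nlinarith only [hX, hm2]
      _ ≤ ∑ m ∈ Icc 1 q, mn (2 * X / q) (α * m + 0) :=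
          Finset.sum_le_sum_of_subset_of_nonneg (Finset.filter_subset _ _)
            fun m _ _ => mn_nonneg (by (clear * - hq hX; positivity)) _
      _ ≤ _ := hb q a α 0 (2 * X / q) hq hco hα (by (clear * - hq hX; positivity))
  have hXq : 0 ≤ X / q := by (clear * - hq hX; positivity)
  calc ∑ m ∈ Icc 1 M, mn (X / m) (α * m)
      ≤ ∑ m ∈ Icc 1 (q + H * q), mn (X / m) (α * m) :=
        Finset.sum_le_sum_of_subset_of_nonneg (Finset.Icc_subset_Icc le_rfl hM)
          fun m _ _ => hf0 m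
    _ ≤ _ := key H
    _ ≤ (2 * q * (1 + Real.log q) + C * (2 * X / q + q * Real.log (2 * q))) +
          C * (X / q + M) * L := add_le_add hfirst hblocks
    _ ≤ (2 * q * L + C * (2 * (X / q) * L + q * L)) + C * (X / q + M) * L := by
        have h1 : 2 * q * (1 + Real.log q) ≤ 2 * q * L :=
          mul_le_mul_of_nonneg_left hL1 (by (clear * - hq; positivity))
        have h2 : q * Real.log (2 * q) ≤ q * L := mul_le_mul_of_nonneg_left hL2 hq0.le
        have h3 : 2 * X / q ≤ 2 * (X / q) * L := by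
          have : 2 * X / q = 2 * (X / q) * 1 := by ring
          rw [this]
          exact mul_le_mul_of_nonneg_left hLone (by (clear * - hq hX; positivity))
        have h4 : C * (2 * X / q + q * Real.log (2 * q)) ≤ C * (2 * (X / q) * L + q * L) :=
          mul_le_mul_of_nonneg_left (add_le_add h3 h2) hC.le
        linarith only [h1, h4]
    _ ≤ (2 + 3 * C) * (X / q + M + q) * L := by
        have e : (2 + 3 * C) * (X / q + M + q) * L -
            ((2 * q * L + C * (2 * (X / q) * L + q * L)) + C * (X / q + M) * L) =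
            (2 * (X / q) + (2 + 2 * C) * M + 2 * C * q) * L := by ring
        have h5 : 0 ≤ (2 * (X / q) + (2 + 2 * C) * M + 2 * C * q) * L := by (clear * - hC hq hX hLone; positivity)
        linarith only [h5]

end Pool.Agent.HLT
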