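import Pool.Agent.Lib.HLT.Brun

/-!
# The sieve model in arithmetic progressions, and its correlations

PROOF SKETCH. `z = zA A x`.
`nu_zero`: a common prime factor `p` of `b` and `q` satisfies `p <= q <= z` and divides `n`.
`nu_ap`: the `n <= y` with `n % q = b % q` are `n = b0 + q m`, `b0 = b % q` (if `q = 1` or `b0 = 0` take care of
`n >= 1`), and `n` has no prime factor `<= z` iff for all `p <= z`, `p ∤ q`: `m % p` avoids the one class with
`p ∣ b0 + q m` (for `p ∣ q` it is automatic as `(b, q) = 1`). So `brun_asym` with `r = 1`, `F p` = that class if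
`p ∤ q`, `∅` if `p ∣ q`, number of `m` at most `y / q + 1 <= 4 x`, gives the count
`(y/q + O(1)) ∏_{p <= z, p ∤ q} (1 - 1/p) + O(x / L^(B+1))` and
`(y/q) ∏_{p <= z, p ∤ q} (1 - 1/p) = (y/q) DZ z ∏_{p | q} (1 - 1/p)⁻¹ = y DZ z / φ q`
(`Nat.totient_eq_mul_prod_factors`; all prime factors of `q` are `<= z`). Multiply by `(DZ z)⁻¹ <= log x`
(`DZ_inv_le`); use `brun_asym 1 A (B+2)`.
-/

set_option autoImplicit false

open Finset Filter

namespace Pool.Agent.HLT

open Pool.Agent.HLB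

lemma nu_zero {z q b n : ℕ} (hq1 : 1 ≤ q) (hq : q ≤ z) (hb : ¬ b.Coprime q) (hn : n % q = b % q) :
    nuz z n = 0 := by
  obtain ⟨p, hp, hpb, hpq⟩ := Nat.Prime.not_coprime_iff_dvd.mp hb
  have hpn : p ∣ n := by
    have h1 : n ≡ b [MOD p] := Nat.ModEq.of_dvd hpq hn
    exact (h1.dvd_iff (dvd_refl p)).mpr hpb
  unfold nuz ic
  rw [if_neg, mul_zero]
  intro h
  exact h p (Nat.mem_primesLE.2 ⟨(Nat.le_of_dvd hq1 hpq).trans hq, hp⟩) hpn

/-- Excluded classes of `m` for `b + q m`. -/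
def apF (b q p : ℕ) : Finset ℕ := if p ∣ q then ∅ else (range p).filter (fun r => p ∣ b + q * r)

lemma apF_subset (b q p : ℕ) : apF b q p ⊆ range p := by
  unfold apF
  split_ifs
  · exact Finset.empty_subset _
  · exact Finset.filter_subset _ _

lemma card_apF {b q p : ℕ} (hp : p.Prime) : (apF b q p).card = if p ∣ q then 0 else 1 := by
  unfold apF
  split_ifs with hq
  · rfl
  · have := Fact.mk hp
    rw [Finset.card_eq_one]
    refine ⟨((-(b : ZMod p)) * (q : ZMod p)⁻¹).val, ?_⟩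
    have hq0 : (q : ZMod p) ≠ 0 := by
      rw [Ne, ZMod.natCast_eq_zero_iff]; exact hq
    ext r
    rw [Finset.mem_filter, Finset.mem_range, Finset.mem_singleton]
    constructor
    · rintro ⟨hr, hd⟩
      have h1 : ((b + q * r : ℕ) : ZMod p) = 0 := (ZMod.natCast_eq_zero_iff _ _).mpr hd
      have h2 : (r : ZMod p) = -(b : ZMod p) * (q : ZMod p)⁻¹ := by
        push_cast at h1
        rw [eq_mul_inv_iff_mul_eq₀ hq0]
        linear_combination h1
      rw [← h2, ZMod.val_natCast, Nat.mod_eq_of_lt hr]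
    · rintro rfl
      refine ⟨ZMod.val_lt _, ?_⟩
      rw [← ZMod.natCast_eq_zero_iff]
      push_cast
      rw [ZMod.natCast_zmod_val, mul_comm (q : ZMod p), mul_assoc, inv_mul_cancel₀ hq0]
      ring

lemma dvd_iff_apF {b q p m : ℕ} (hp : p.Prime) (hb : b.Coprime q) :
    p ∣ b + q * m ↔ m % p ∈ apF b q p := by
  unfold apF
  split_ifs with hq
  · constructor
    · intro h
      exfalso
      have h1 : p ∣ b := (Nat.dvd_add_left (hq.mul_right m)).mp h
      have h2 : p ∣ Nat.gcd b q := Nat.dvd_gcd h1 hq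
      rw [hb.gcd_eq_one] at h2
      exact hp.one_lt.ne' (Nat.dvd_one.mp h2)
    · intro h
      exact absurd h (Finset.notMem_empty _)
  · rw [Finset.mem_filter, Finset.mem_range]
    have h1 : b + q * m ≡ b + q * (m % p) [MOD p] :=
      Nat.ModEq.add_left b (Nat.ModEq.mul_left q (Nat.mod_modEq m p).symm)
    rw [h1.dvd_iff (dvd_refl p)]
    exact ⟨fun h => ⟨Nat.mod_lt _ hp.pos, h⟩, fun h => h.2⟩

lemma prod_apF {z q : ℕ} (b : ℕ) (hq1 : 1 ≤ q) (hq : q ≤ z) :
    ∏ p ∈ Nat.primesLE z, (1 - ((apF b q p).card : ℝ) / p) = DZ z * (q / (q.totient : ℝ)) := by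
  have hphi : ((q.totient : ℕ) : ℝ) = q * ∏ p ∈ q.primeFactors, (1 - (p : ℝ)⁻¹) := by
    have h := Nat.totient_eq_mul_prod_factors q
    have h2 : (((q.totient : ℕ) : ℚ) : ℝ) = ((q * ∏ p ∈ q.primeFactors, (1 - (p : ℚ)⁻¹) : ℚ) : ℝ) := by
      rw [h]
    push_cast at h2
    exact h2
  have hq0 : (0 : ℝ) < q := by exact_mod_cast hq1
  have hφ0 : (0 : ℝ) < q.totient := by exact_mod_cast Nat.totient_pos.mpr hq1
  have hset : (Nat.primesLE z).filter (fun p => p ∣ q) = q.primeFactors := by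
    ext p
    rw [Finset.mem_filter, Nat.mem_primesLE, Nat.mem_primeFactors]
    constructor
    · rintro ⟨⟨_, h2⟩, h3⟩
      exact ⟨h2, h3, by omega⟩
    · rintro ⟨h1, h2, _⟩
      exact ⟨⟨(Nat.le_of_dvd hq1 h2).trans hq, h1⟩, h2⟩
  have h3 : (∏ p ∈ Nat.primesLE z, (1 - ((apF b q p).card : ℝ) / p)) *
      ∏ p ∈ q.primeFactors, (1 - (p : ℝ)⁻¹) = DZ z := by
    rw [← hset, Finset.prod_filter, ← Finset.prod_mul_distrib]
    unfold DZ
    refine Finset.prod_congr rfl fun p hp => ?_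
    rw [card_apF (Nat.mem_primesLE.1 hp).2]
    split_ifs
    · simp
    · simp
  have h4 : ∏ p ∈ q.primeFactors, (1 - (p : ℝ)⁻¹) = (q.totient : ℝ) / q := by
    rw [hphi]; field_simp
  rw [h4] at h3
  rw [← h3]
  field_simp

lemma sum_ap_split {z q b y : ℕ} (hq1 : 1 ≤ q) :
    |∑ n ∈ (Icc 1 y).filter (fun n => n % q = b % q), nuz z n -
      ∑ m ∈ Icc 1 ((y - b % q) / q), nuz z (b % q + q * m)| ≤ (DZ z)⁻¹ := by
  classical
  set b0 := b % q with hb0
  have hb0q : b0 < q := Nat.mod_lt _ hq1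
  have hinv : 0 ≤ (DZ z)⁻¹ := inv_nonneg.mpr (DZ_pos z).le
  rw [← Finset.sum_filter_add_sum_filter_not ((Icc 1 y).filter (fun n => n % q = b0)) (fun n => b0 < n)]
  have h1 : (((Icc 1 y).filter (fun n => n % q = b0)).filter (fun n => b0 < n)) =
      (Icc 1 ((y - b0) / q)).image (fun m => b0 + q * m) := by
    ext n
    rw [Finset.mem_filter, Finset.mem_filter, Finset.mem_Icc, Finset.mem_image]
    constructor
    · rintro ⟨⟨⟨h1, h2⟩, h3⟩, h4⟩
      have h5 := Nat.div_add_mod n q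
      refine ⟨n / q, ?_, by rw [h3] at h5; omega⟩
      rw [Finset.mem_Icc]
      constructor
      · rcases Nat.eq_zero_or_pos (n / q) with h6 | h6
        · rw [h6, Nat.mul_zero] at h5; omega
        · exact h6
      · rw [Nat.le_div_iff_mul_le hq1, Nat.mul_comm]
        rw [h3] at h5
        omega
    · rintro ⟨m, hm, rfl⟩
      rw [Finset.mem_Icc] at hm
      have h5 : m * q ≤ y - b0 := (Nat.le_div_iff_mul_le hq1).mp hm.2
      have h6 : 1 ≤ m * q := Nat.one_le_iff_ne_zero.mpr (Nat.mul_ne_zero (by omega) (by omega))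
      rw [Nat.mul_comm q m]
      refine ⟨⟨⟨by omega, by omega⟩, ?_⟩, by omega⟩
      rw [Nat.add_mul_mod_self_right, Nat.mod_eq_of_lt hb0q]
  rw [h1, Finset.sum_image (by
    intro m1 _ m2 _ h
    simp only at h
    have h2 : q * m1 = q * m2 := by omega
    exact Nat.eq_of_mul_eq_mul_left hq1 h2)]
  have h2 : (((Icc 1 y).filter (fun n => n % q = b0)).filter (fun n => ¬ b0 < n)) ⊆ {b0} := by
    intro n hn
    rw [Finset.mem_filter, Finset.mem_filter, Finset.mem_Icc] at hn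
    obtain ⟨⟨_, h3⟩, h4⟩ := hn
    rw [Finset.mem_singleton]
    rw [Nat.mod_eq_of_lt (by omega)] at h3
    exact h3
  have h3 : (0 : ℝ) ≤ ∑ n ∈ ((Icc 1 y).filter (fun n => n % q = b0)).filter (fun n => ¬ b0 < n),
      nuz z n := Finset.sum_nonneg fun n _ => nuz_nonneg z n
  have h4 : ∑ n ∈ ((Icc 1 y).filter (fun n => n % q = b0)).filter (fun n => ¬ b0 < n),
      nuz z n ≤ (DZ z)⁻¹ := by
    refine (Finset.sum_le_sum_of_subset_of_nonneg h2 fun n _ _ => nuz_nonneg z n).trans ?_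
    rw [Finset.sum_singleton]
    exact nuz_le z b0
  rw [add_sub_cancel_left, abs_of_nonneg h3]
  exact h4

lemma sum_ap_eq {z q b : ℕ} (hb : b.Coprime q) (Y : ℕ) :
    ∑ m ∈ Icc 1 Y, nuz z (b + q * m) = (DZ z)⁻¹ *
      (((Icc 1 Y).filter (fun m => ∀ p ∈ Nat.primesLE z, m % p ∉ apF b q p)).card : ℝ) := by
  classical
  rw [Finset.card_filter]
  push_cast
  rw [Finset.mul_sum]
  refine Finset.sum_congr rfl fun m _ => ?_
  unfold nuz ic
  congr 1
  have : (∀ p ∈ Nat.primesLE z, ¬ p ∣ b + q * m) ↔ (∀ p ∈ Nat.primesLE z, m % p ∉ apF b q p) := by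
    refine forall₂_congr fun p hp => ?_
    rw [dvd_iff_apF (Nat.mem_primesLE.1 hp).2 hb]
  by_cases h : ∀ p ∈ Nat.primesLE z, ¬ p ∣ b + q * m
  · rw [if_pos h, if_pos (this.mp h)]
  · rw [if_neg h, if_neg (fun h2 => h (this.mpr h2))]

theorem nu_ap (A B : ℕ) : ∀ᶠ x : ℕ in atTop, ∀ y : ℕ, y ≤ 2 * x → ∀ q b : ℕ, 1 ≤ q →
    q ≤ zA A x → b.Coprime q →
    |∑ n ∈ (Icc 1 y).filter (fun n => n % q = b % q), nuz (zA A x) n - y / (q.totient : ℝ)| ≤
      x / Real.log x ^ B := by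
  have hlogbig : ∀ᶠ x : ℕ in atTop, 2 ≤ Real.log x := by
    have h1 : Tendsto (fun x : ℕ => Real.log x) atTop atTop :=
      Real.tendsto_log_atTop.comp tendsto_natCast_atTop_atTop
    exact h1.eventually_ge_atTop 2
  have hsmall : ∀ᶠ x : ℕ in atTop, 6 * Real.log x ^ (B + 1) ≤ x := by
    have h1 : (fun x : ℝ => Real.log x ^ (B + 1)) =o[atTop] (fun x : ℝ => x) :=
      Real.isLittleO_pow_log_id_atTop
    have h2 := (h1.bound (show (0 : ℝ) < 1 / 6 by norm_num))
    have h3 := tendsto_natCast_atTop_atTop.eventually h2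
    filter_upwards [h3, hlogbig] with x hx hl
    rw [Real.norm_eq_abs, Real.norm_eq_abs, abs_of_nonneg (by positivity),
      abs_of_nonneg (Nat.cast_nonneg x)] at hx
    linarith
  filter_upwards [brun_asym 1 A (B + 2), DZ_inv_le A, hlogbig, hsmall] with x hbr hD hl hsm
    y hy q b hq1 hq hb
  set z := zA A x with hz
  set b0 := b % q with hb0
  set Y := (y - b0) / q with hY
  have hb0q : b0 < q := Nat.mod_lt _ hq1
  have hcop : b0.Coprime q := by
    have h := (Nat.mod_modEq b q).gcd_eq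
    rw [Nat.Coprime, hb0, h]
    exact hb
  have hinv : 0 ≤ (DZ z)⁻¹ := inv_nonneg.mpr (DZ_pos z).le
  have hDpos := DZ_pos z
  have hYle : Y ≤ 4 * x := by
    have h1 : Y ≤ y - b0 := Nat.div_le_self _ _
    omega
  have h1 := sum_ap_split (z := z) (b := b) (y := y) hq1
  rw [← hb0, ← hY, sum_ap_eq hcop Y] at h1
  have h2 := hbr Y hYle (apF b0 q) (fun p hp => by
    refine ⟨apF_subset _ _ _, ?_⟩
    rw [card_apF (Nat.mem_primesLE.1 hp).2]
    split_ifs <;> omega)
  rw [prod_apF b0 hq1 hq] at h2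
  set N : ℝ := (((Icc 1 Y).filter (fun m => ∀ p ∈ Nat.primesLE z, m % p ∉ apF b0 q p)).card : ℝ)
    with hN
  have hq0 : (0 : ℝ) < q := by exact_mod_cast hq1
  have hφ0 : (0 : ℝ) < q.totient := by exact_mod_cast Nat.totient_pos.mpr hq1
  -- `q / φ q ≤ (DZ z)⁻¹`
  have h5 : (q : ℝ) / q.totient ≤ (DZ z)⁻¹ := by
    have h6 := prod_apF (z := z) b0 hq1 hq
    have h7 : ∏ p ∈ Nat.primesLE z, (1 - ((apF b0 q p).card : ℝ) / p) ≤ 1 := by
      refine Finset.prod_le_one (fun p hp => ?_) (fun p hp => ?_)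
      · have hp2 := (Nat.mem_primesLE.1 hp).2
        rw [card_apF hp2]
        have hp1 : (1 : ℝ) ≤ p := by exact_mod_cast hp2.one_le
        split_ifs
        · simp
        · push_cast
          have : 1 / (p : ℝ) ≤ 1 := by rw [div_le_one (by linarith)]; exact hp1
          linarith
      · have : (0 : ℝ) ≤ ((apF b0 q p).card : ℝ) / p := by positivity
        linarith
    rw [h6] at h7
    rw [← one_div, le_div_iff₀ hDpos]
    linarith
  -- the main term
  have h6 : |(Y : ℝ) * q - y| ≤ 2 * q := by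
    have h7 := Nat.div_add_mod (y - b0) q
    rw [← hY] at h7
    have h8 : (y - b0) % q < q := Nat.mod_lt _ hq1
    have h9 : (q * Y + (y - b0) % q : ℕ) = y - b0 := h7
    have h10 : Y * q ≤ y := by
      have : q * Y ≤ y - b0 := by omega
      rw [Nat.mul_comm]; omega
    have h11 : y ≤ Y * q + 2 * q := by
      rw [Nat.mul_comm Y q]; omega
    rw [abs_le]
    constructor
    · have : (y : ℝ) ≤ Y * q + 2 * q := by exact_mod_cast h11
      linarith
    · have : (Y : ℝ) * q ≤ y := by exact_mod_cast h10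
      have : (0 : ℝ) ≤ 2 * q := by positivity
      linarith
  have h7 : |(DZ z)⁻¹ * N - Y * (q / (q.totient : ℝ))| ≤ Real.log x * (x / Real.log x ^ (B + 2)) := by
    have h8 : (DZ z)⁻¹ * N - Y * (q / (q.totient : ℝ)) =
        (DZ z)⁻¹ * (N - Y * (DZ z * (q / (q.totient : ℝ)))) := by
      field_simp
    rw [h8, abs_mul, abs_of_nonneg hinv]
    exact mul_le_mul hD h2 (abs_nonneg _) (hinv.trans hD)
  have h8 : |(Y : ℝ) * (q / (q.totient : ℝ)) - y / (q.totient : ℝ)| ≤ 2 * Real.log x := by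
    have h9 : (Y : ℝ) * (q / (q.totient : ℝ)) - y / (q.totient : ℝ) =
        (Y * q - y) / (q.totient : ℝ) := by ring
    rw [h9, abs_div, abs_of_pos hφ0]
    calc |(Y : ℝ) * q - y| / (q.totient : ℝ) ≤ 2 * q / (q.totient : ℝ) := by gcongr
      _ = 2 * (q / (q.totient : ℝ)) := by ring
      _ ≤ 2 * Real.log x := by linarith [h5.trans hD]
  have hlog0 : 0 < Real.log x := by linarith
  have h9 : Real.log x * (x / Real.log x ^ (B + 2)) = x / Real.log x ^ (B + 1) := by
    rw [pow_succ (Real.log x) (B + 1)]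
    field_simp
  have h10 : (x : ℝ) / Real.log x ^ (B + 1) ≤ x / Real.log x ^ B / 2 := by
    rw [div_div, pow_succ]
    refine div_le_div_of_nonneg_left (Nat.cast_nonneg x) (by positivity) ?_
    gcongr
  have h11 : 3 * Real.log x ≤ x / Real.log x ^ B / 2 := by
    rw [div_div, le_div_iff₀ (by positivity)]
    rw [pow_succ] at hsm
    linarith
  calc |∑ n ∈ (Icc 1 y).filter (fun n => n % q = b % q), nuz z n - y / (q.totient : ℝ)|
      ≤ |∑ n ∈ (Icc 1 y).filter (fun n => n % q = b % q), nuz z n - (DZ z)⁻¹ * N| +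
        |(DZ z)⁻¹ * N - Y * (q / (q.totient : ℝ))| +
        |(Y : ℝ) * (q / (q.totient : ℝ)) - y / (q.totient : ℝ)| := by
        refine (abs_sub_le _ ((DZ z)⁻¹ * N) _).trans ?_
        have := abs_sub_le ((DZ z)⁻¹ * N) (Y * (q / (q.totient : ℝ))) (y / (q.totient : ℝ))
        linarith
    _ ≤ Real.log x + x / Real.log x ^ (B + 1) + 2 * Real.log x := by
        rw [h9] at h7
        have h12 := h1.trans hD
        linarith
    _ ≤ x / Real.log x ^ B := by linarith

end Pool.Agent.HLT
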