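import Pool.Agent.Lib.HLT.Geom
import Pool.Agent.Lib.HLT.TauPow

/-!
# From sums over tuples to sums over products

PROOF SKETCH. The tuples `h` with `∏ h = 0`: at most `j (2 X)^(j-1)` (some coordinate is 0), each term is
`mn X 0 = X`. For the others, `mn X (-θ) = mn X θ` (`nrm (-θ) = nrm θ`), so the term depends only on
`m = ∏ |h i| ∈ [1, X^j]`; the map `h ↦ (i ↦ |h i|)` is at most `2^j` to one and `card_prod_eq`.
-/

set_option autoImplicit false

open Finset Filter

namespace Pool.Agent.HLT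

lemma nrm_neg (α : ℝ) : nrm (-α) = nrm α := by
  unfold nrm
  rw [abs_sub_round_eq_min, abs_sub_round_eq_min]
  by_cases h : Int.fract α = 0
  · rw [Int.fract_neg_eq_zero.mpr h, h]
  · rw [Int.fract_neg h, sub_sub_cancel, min_comm]

lemma mn_neg (X α : ℝ) : mn X (-α) = mn X α := by
  unfold mn
  rw [nrm_neg]

/-- Tuples with a vanishing coordinate. -/
lemma card_zero_coord (j X : ℕ) (hX : 1 ≤ X) :
    ((Fintype.piFinset (fun _ : Fin j => Ioo (-(X : ℤ)) X)).filter
      (fun h => ∏ i, h i = 0)).card ≤ j * (2 * X) ^ (j - 1) := by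
  classical
  have hcardI : (Ioo (-(X : ℤ)) X).card = 2 * X - 1 := by
    rw [Int.card_Ioo]; omega
  have hsub : (Fintype.piFinset (fun _ : Fin j => Ioo (-(X : ℤ)) X)).filter
      (fun h => ∏ i, h i = 0) ⊆ (univ : Finset (Fin j)).biUnion (fun i =>
        Fintype.piFinset (fun k : Fin j => if k = i then ({0} : Finset ℤ) else Ioo (-(X : ℤ)) X)) := by
    intro h hh
    rw [mem_filter] at hh
    obtain ⟨h1, h2⟩ := hh
    rw [Finset.prod_eq_zero_iff] at h2
    obtain ⟨i, -, hi⟩ := h2
    rw [mem_biUnion]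
    refine ⟨i, mem_univ _, ?_⟩
    rw [Fintype.mem_piFinset] at h1 ⊢
    intro k
    by_cases hk : k = i
    · subst hk; simp [hi]
    · rw [if_neg hk]; exact h1 k
  refine (Finset.card_le_card hsub).trans ?_
  refine (Finset.card_biUnion_le).trans ?_
  have hc : ∀ i : Fin j, (Fintype.piFinset (fun k : Fin j =>
      if k = i then ({0} : Finset ℤ) else Ioo (-(X : ℤ)) X)).card = (2 * X - 1) ^ (j - 1) := by
    intro i
    rw [Fintype.card_piFinset, ← Finset.mul_prod_erase univ _ (mem_univ i), if_pos rfl,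
      Finset.card_singleton, one_mul]
    rw [Finset.prod_congr rfl (g := fun _ => 2 * X - 1)]
    · rw [Finset.prod_const, Finset.card_erase_of_mem (mem_univ i), Finset.card_univ,
        Fintype.card_fin]
    · intro k hk
      rw [if_neg (Finset.ne_of_mem_erase hk), hcardI]
  simp only [hc, Finset.sum_const, Finset.card_univ, Fintype.card_fin, smul_eq_mul]
  exact Nat.mul_le_mul_left _ (Nat.pow_le_pow_left (by omega) _)

/-- Tuples with a given absolute value of the product. -/
lemma card_fiber (j X m : ℕ) (hm : 1 ≤ m) :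
    ((Fintype.piFinset (fun _ : Fin j => Ioo (-(X : ℤ)) X)).filter
      (fun h => (∏ i, h i).natAbs = m)).card ≤ 2 ^ j * m.divisors.card ^ j := by
  classical
  set A := (Fintype.piFinset (fun _ : Fin j => Ioo (-(X : ℤ)) X)).filter
      (fun h => (∏ i, h i).natAbs = m) with hA
  set B := (Fintype.piFinset (fun _ : Fin j => range X)).filter (fun h => ∏ i, h i = m) with hB
  have h1 : A.card ≤ (B ×ˢ (univ : Finset (Fin j → Bool))).card := by
    refine Finset.card_le_card_of_injOn
      (fun h => ((fun i => (h i).natAbs), (fun i => decide (0 ≤ h i)))) ?_ ?_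
    · intro h hh
      rw [Finset.mem_coe, hA, mem_filter, Fintype.mem_piFinset] at hh
      rw [Finset.mem_coe, Finset.mem_product, hB, mem_filter, Fintype.mem_piFinset]
      refine ⟨⟨?_, ?_⟩, mem_univ _⟩
      · intro i
        have := Finset.mem_Ioo.mp (hh.1 i)
        rw [Finset.mem_range]
        show (h i).natAbs < X
        omega
      · show ∏ i, (h i).natAbs = m
        rw [← hh.2]
        exact (map_prod Int.natAbsHom h univ).symm
    · intro h _ h' _ hhh
      have e1 : (fun i => (h i).natAbs) = (fun i => (h' i).natAbs) := congrArg Prod.fst hhh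
      have e2 : (fun i => decide (0 ≤ h i)) = (fun i => decide (0 ≤ h' i)) :=
        congrArg Prod.snd hhh
      funext i
      have e3 : (h i).natAbs = (h' i).natAbs := congrFun e1 i
      have e4 : decide (0 ≤ h i) = decide (0 ≤ h' i) := congrFun e2 i
      have e5 : (0 ≤ h i) ↔ (0 ≤ h' i) := by
        simpa using e4
      rcases Int.natAbs_eq_natAbs_iff.mp e3 with h3 | h3
      · exact h3
      · by_cases h0 : 0 ≤ h i
        · have := e5.mp h0
          omega
        · have : ¬ 0 ≤ h' i := fun hh => h0 (e5.mpr hh)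
          omega
  rw [Finset.card_product] at h1
  have h2 : B.card ≤ m.divisors.card ^ j := card_prod_eq j m hm (range X)
  have h3 : (univ : Finset (Fin j → Bool)).card = 2 ^ j := by
    rw [Finset.card_univ]; simp
  rw [h3] at h1
  calc A.card ≤ B.card * 2 ^ j := h1
    _ ≤ m.divisors.card ^ j * 2 ^ j := Nat.mul_le_mul_right _ h2
    _ = 2 ^ j * m.divisors.card ^ j := by ring

theorem prod_count (j X : ℕ) (hj : 1 ≤ j) (hX : 1 ≤ X) (γ : ℝ) :
    ∑ h ∈ Fintype.piFinset (fun _ : Fin j => Ioo (-(X : ℤ)) X), mn X (γ * ∏ i, (h i : ℝ)) ≤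
      j * (2 * (X : ℝ)) ^ (j - 1) * X +
        2 ^ j * ∑ m ∈ Icc 1 (X ^ j), (m.divisors.card : ℝ) ^ j * mn X (γ * m) := by
  classical
  have hX0 : (0 : ℝ) ≤ (X : ℝ) := Nat.cast_nonneg X
  set P := Fintype.piFinset (fun _ : Fin j => Ioo (-(X : ℤ)) X) with hP
  have hterm : ∀ h : Fin j → ℤ, mn X (γ * ∏ i, (h i : ℝ)) = mn X (γ * ((∏ i, h i).natAbs : ℕ)) := by
    intro h
    have e : (∏ i, (h i : ℝ)) = ((∏ i, h i : ℤ) : ℝ) := by push_cast; rfl
    rw [e]
    rcases Int.natAbs_eq (∏ i, h i) with h1 | h1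
    · have : (((∏ i, h i).natAbs : ℕ) : ℝ) = ((∏ i, h i : ℤ) : ℝ) := by
        conv_rhs => rw [h1]
        simp
      rw [this]
    · have : (((∏ i, h i).natAbs : ℕ) : ℝ) = -((∏ i, h i : ℤ) : ℝ) := by
        conv_rhs => rw [h1]
        simp
      rw [this, mul_neg, mn_neg]
  rw [← Finset.sum_filter_add_sum_filter_not P (fun h => ∏ i, h i = 0)]
  refine add_le_add ?_ ?_
  · have h1 : ∑ h ∈ P.filter (fun h => ∏ i, h i = 0), mn X (γ * ∏ i, (h i : ℝ)) ≤
        ∑ h ∈ P.filter (fun h => ∏ i, h i = 0), (X : ℝ) :=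
      Finset.sum_le_sum fun h _ => mn_le_left hX0 _
    refine h1.trans ?_
    rw [Finset.sum_const, nsmul_eq_mul]
    refine mul_le_mul_of_nonneg_right ?_ hX0
    have h2 := card_zero_coord j X hX
    calc (((P.filter (fun h => ∏ i, h i = 0)).card : ℕ) : ℝ) ≤ ((j * (2 * X) ^ (j - 1) : ℕ) : ℝ) := by
          exact_mod_cast h2
      _ = j * (2 * (X : ℝ)) ^ (j - 1) := by push_cast; rfl
  · have hmaps : ∀ h ∈ P.filter (fun h => ¬ ∏ i, h i = 0), (∏ i, h i).natAbs ∈ Icc 1 (X ^ j) := by
      intro h hh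
      rw [mem_filter, hP, Fintype.mem_piFinset] at hh
      rw [Finset.mem_Icc]
      constructor
      · exact Nat.one_le_iff_ne_zero.mpr (fun h0 => hh.2 (Int.natAbs_eq_zero.mp h0))
      · have e : (∏ i, h i).natAbs = ∏ i, (h i).natAbs := map_prod Int.natAbsHom h univ
        rw [e]
        calc ∏ i, (h i).natAbs ≤ ∏ _i : Fin j, X := by
              refine Finset.prod_le_prod' fun i _ => ?_
              have := Finset.mem_Ioo.mp (hh.1 i)
              omega
          _ = X ^ j := by simp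
    rw [← Finset.sum_fiberwise_of_maps_to hmaps, Finset.mul_sum]
    refine Finset.sum_le_sum fun m hm => ?_
    have hm1 : 1 ≤ m := (Finset.mem_Icc.mp hm).1
    have hmn : 0 ≤ mn X (γ * m) := mn_nonneg hX0 _
    have h1 : ∑ h ∈ (P.filter (fun h => ¬ ∏ i, h i = 0)).filter (fun h => (∏ i, h i).natAbs = m),
        mn X (γ * ∏ i, (h i : ℝ)) =
        ∑ h ∈ (P.filter (fun h => ¬ ∏ i, h i = 0)).filter (fun h => (∏ i, h i).natAbs = m),
          mn X (γ * m) := by
      refine Finset.sum_congr rfl fun h hh => ?_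
      rw [hterm h, (mem_filter.mp hh).2]
    rw [h1, Finset.sum_const, nsmul_eq_mul, ← mul_assoc]
    refine mul_le_mul_of_nonneg_right ?_ hmn
    have h2 : ((P.filter (fun h => ¬ ∏ i, h i = 0)).filter
        (fun h => (∏ i, h i).natAbs = m)).card ≤ (P.filter (fun h => (∏ i, h i).natAbs = m)).card := by
      refine Finset.card_le_card ?_
      intro h hh
      rw [mem_filter, mem_filter] at hh
      exact mem_filter.mpr ⟨hh.1.1, hh.2⟩
    have h3 := h2.trans (card_fiber j X m hm1)
    calc _ ≤ ((2 ^ j * m.divisors.card ^ j : ℕ) : ℝ) := by exact_mod_cast h3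
      _ = 2 ^ j * (m.divisors.card : ℝ) ^ j := by push_cast; rfl

end Pool.Agent.HLT
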