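import Pool.Agent.Lib.HLT.GeomSum
import Pool.Agent.Lib.BV.TauSum

/-!
# Bilinear exponential sums

PROOF SKETCH. Write `L = log (y + 2)`. Split the range of `m` in dyadic blocks `M < m <= 2 M`, `M = 2^i`, with
`2 M > U` and `M <= y / V` (outside these blocks `A m = 0`, or all `n <= y / m < V` have `B n = 0`); there are
at most `2 L + 1` of them. For one block, by Cauchy-Schwarz the square of the sum is at most
`(sum_{m ~ M} A m ^ 2) * sum_{m ~ M} |sum_{n <= y/m} B n ex (m n α)|^2`. The first factor is `<= M log^2 y`. Expand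
the second one and interchange: `sum_{n1, n2 <= y/M} B n1 B n2 sum_{M < m <= min (2M, y/n1, y/n2)} ex (m (n1 - n2) α)`
(`geom_Ioc`: `<= mn M ((n1 - n2) α)`, `mn` is even in `α`), and `|B n1 B n2| <= (B n1 ^2 + B n2 ^2) / 2` gives
`<= (sum_{n <= y/M} B n ^2) * (M + 2 sum_{1 <= h <= y/M} mn M (α h))`.
`sum_{n <= N} τ(n)^2 <= N * sum τ(n)^2 / n <= N (1 + log N)^4` (`BV.sum_tau_sq_div`) and `sum_mn_const` give
`<= (y/M) (1 + L)^4 * C (M + (y/(M q) + 1) (M + q log (2 q)))`. Multiply by `M log^2 y`: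
`|block|^2 <= C y L^7 (M + y / q + y / M + q)`, and `M <= y / V`, `1 / M <= 2 / U`. Take square roots
(`sqrt (a + b) <= sqrt a + sqrt b`) and sum over the blocks. If `y < U` or so the sum is zero.
-/

set_option autoImplicit false

open Finset Filter

namespace Pool.Agent.HLT

private lemma nrm_neg' (α : ℝ) : nrm (-α) = nrm α := by
  unfold nrm
  rw [abs_sub_round_eq_min, abs_sub_round_eq_min]
  by_cases h : Int.fract α = 0
  · have h2 : Int.fract (-α) = 0 := Int.fract_neg_eq_zero.mpr h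
    rw [h, h2]
  · rw [Int.fract_neg h, min_comm]
    congr 1
    ring

private lemma mn_neg' (X α : ℝ) : mn X (-α) = mn X α := by
  unfold mn
  rw [nrm_neg']

private lemma mn_sub_comm (X α : ℝ) (a b : ℝ) : mn X ((a - b) * α) = mn X ((b - a) * α) := by
  rw [← mn_neg']
  congr 1
  ring

private lemma sum_shift_lt (N n1 : ℕ) (hn1 : n1 ∈ Icc 1 N) (g : ℕ → ℝ) (hg : ∀ h, 0 ≤ g h) :
    ∑ n2 ∈ (Icc 1 N).filter (fun n2 => n2 < n1), g (n1 - n2) ≤ ∑ h ∈ Icc 1 N, g h := by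
  rw [← Finset.sum_image (f := g) (s := (Icc 1 N).filter (fun n2 => n2 < n1))
    (g := fun n2 => n1 - n2)]
  · apply Finset.sum_le_sum_of_subset_of_nonneg
    · intro h hh
      rw [Finset.mem_image] at hh
      obtain ⟨n2, hn2, rfl⟩ := hh
      simp only [mem_filter, mem_Icc] at hn2 hn1 ⊢
      omega
    · intro h _ _
      exact hg h
  · intro a ha b hb hab
    simp only [coe_filter, mem_Icc, Set.mem_ofPred_eq] at ha hb hab
    omega

private lemma sum_shift_gt (N n1 : ℕ) (hn1 : n1 ∈ Icc 1 N) (g : ℕ → ℝ) (hg : ∀ h, 0 ≤ g h) :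
    ∑ n2 ∈ (Icc 1 N).filter (fun n2 => n1 < n2), g (n2 - n1) ≤ ∑ h ∈ Icc 1 N, g h := by
  rw [← Finset.sum_image (f := g) (s := (Icc 1 N).filter (fun n2 => n1 < n2))
    (g := fun n2 => n2 - n1)]
  · apply Finset.sum_le_sum_of_subset_of_nonneg
    · intro h hh
      rw [Finset.mem_image] at hh
      obtain ⟨n2, hn2, rfl⟩ := hh
      simp only [mem_filter, mem_Icc] at hn2 hn1 ⊢
      omega
    · intro h _ _
      exact hg h
  · intro a ha b hb hab
    simp only [coe_filter, mem_Icc, Set.mem_ofPred_eq] at ha hb hab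
    omega

private lemma sum_diff_le (N n1 : ℕ) (hn1 : n1 ∈ Icc 1 N) (X α : ℝ) (hX : 0 ≤ X) :
    ∑ n2 ∈ Icc 1 N, mn X (((n1 : ℝ) - n2) * α) ≤ X + 2 * ∑ h ∈ Icc 1 N, mn X (α * h) := by
  have key : ∀ n2 ∈ Icc 1 N, mn X (((n1 : ℝ) - n2) * α) =
      (if n2 < n1 then mn X (α * ((n1 - n2 : ℕ) : ℝ)) else 0) +
      (if n1 < n2 then mn X (α * ((n2 - n1 : ℕ) : ℝ)) else 0) +
      (if n1 = n2 then mn X 0 else 0) := by
    intro n2 _
    rcases lt_trichotomy n2 n1 with h | h | h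
    · rw [if_pos h, if_neg (by omega), if_neg (by omega), add_zero, add_zero,
        Nat.cast_sub h.le, mul_comm]
    · subst h
      simp
    · rw [if_neg (by omega), if_pos h, if_neg (by omega), add_zero, zero_add,
        Nat.cast_sub h.le, mn_sub_comm, mul_comm]
  rw [Finset.sum_congr rfl key, Finset.sum_add_distrib, Finset.sum_add_distrib,
    ← Finset.sum_filter, ← Finset.sum_filter, Finset.sum_ite_eq, if_pos hn1]
  have h1 := sum_shift_lt N n1 hn1 (fun h => mn X (α * h)) (fun h => mn_nonneg hX _)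
  have h2 := sum_shift_gt N n1 hn1 (fun h => mn X (α * h)) (fun h => mn_nonneg hX _)
  have h3 := mn_le_left hX (0 : ℝ)
  linarith

/-- The inner sum. -/
private lemma inner_sum_le (M y n1 n2 : ℕ) (hM : 1 ≤ M) (h1 : 1 ≤ n1) (h2 : 1 ≤ n2) (β : ℝ) :
    ‖∑ m ∈ (Ico M (2 * M)).filter (fun m => n1 * m ≤ y ∧ n2 * m ≤ y), ex (m * β)‖ ≤ mn M β := by
  have hset : (Ico M (2 * M)).filter (fun m => n1 * m ≤ y ∧ n2 * m ≤ y) =
      Ioc (M - 1) (min (2 * M - 1) (min (y / n1) (y / n2))) := by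
    ext m
    simp only [mem_filter, mem_Ico, mem_Ioc, le_min_iff, Nat.le_div_iff_mul_le (show 0 < n1 by omega),
      Nat.le_div_iff_mul_le (show 0 < n2 by omega)]
    rw [mul_comm n1 m, mul_comm n2 m]
    omega
  rw [hset]
  set N' := min (2 * M - 1) (min (y / n1) (y / n2)) with hN'
  by_cases h : M - 1 ≤ N'
  · refine (geom_Ioc _ _ h β).trans ?_
    have hle : N' ≤ 2 * M - 1 := min_le_left _ _
    have h3 : ((M - 1 : ℕ) : ℝ) ≤ N' := by exact_mod_cast h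
    have h4 : (N' : ℝ) ≤ M + ((M - 1 : ℕ) : ℝ) := by
      have : N' ≤ M + (M - 1) := by omega
      exact_mod_cast this
    apply mn_mono
    · linarith
    · linarith
  · have : Ioc (M - 1) N' = ∅ := by
      rw [Finset.Ioc_eq_empty_iff]
      omega
    rw [this, Finset.sum_empty, norm_zero]
    exact mn_nonneg (Nat.cast_nonneg _) _

private lemma block_sq (M y : ℕ) (hM : 1 ≤ M) (α G : ℝ) (B : ℕ → ℝ)
    (hG : ∀ n1 ∈ Icc 1 (y / M), ∑ n2 ∈ Icc 1 (y / M), mn M (((n1 : ℝ) - n2) * α) ≤ G) :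
    ∑ m ∈ Ico M (2 * M), ‖∑ n ∈ Icc 1 (y / m), (B n : ℂ) * ex ((m * n : ℕ) * α)‖ ^ 2 ≤
      G * ∑ n ∈ Icc 1 (y / M), B n ^ 2 := by
  classical
  set N := y / M with hN
  -- rewrite the inner sum over the common range
  set c : ℕ → ℕ → ℂ := fun m n => if n * m ≤ y then (B n : ℂ) * ex (m * (n * α)) else 0 with hc
  have hT : ∀ m ∈ Ico M (2 * M), ∑ n ∈ Icc 1 (y / m), (B n : ℂ) * ex ((m * n : ℕ) * α) =
      ∑ n ∈ Icc 1 N, c m n := by
    intro m hm
    rw [mem_Ico] at hm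
    have hm0 : 0 < m := by omega
    rw [hc]
    simp only
    rw [← Finset.sum_filter]
    have hs : (Icc 1 N).filter (fun n => n * m ≤ y) = Icc 1 (y / m) := by
      ext n
      simp only [mem_filter, mem_Icc, Nat.le_div_iff_mul_le hm0]
      constructor
      · rintro ⟨⟨a, _⟩, b⟩
        exact ⟨a, b⟩
      · rintro ⟨a, b⟩
        refine ⟨⟨a, ?_⟩, b⟩
        rw [hN, Nat.le_div_iff_mul_le (show 0 < M by omega)]
        exact (Nat.mul_le_mul_left n hm.1).trans b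
    rw [hs]
    refine Finset.sum_congr rfl fun n _ => ?_
    push_cast
    rw [mul_assoc]
  have h1 : ∀ m, ((‖∑ n ∈ Icc 1 N, c m n‖ ^ 2 : ℝ) : ℂ) =
      ∑ n1 ∈ Icc 1 N, ∑ n2 ∈ Icc 1 N, c m n1 * (starRingEnd ℂ) (c m n2) := by
    intro m
    push_cast
    rw [← Complex.mul_conj', map_sum, Finset.sum_mul_sum]
  have h2 : ((∑ m ∈ Ico M (2 * M), ‖∑ n ∈ Icc 1 (y / m), (B n : ℂ) * ex ((m * n : ℕ) * α)‖ ^ 2 : ℝ) : ℂ)
      = ∑ n1 ∈ Icc 1 N, ∑ n2 ∈ Icc 1 N, ((B n1 * B n2 : ℝ) : ℂ) *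
        ∑ m ∈ (Ico M (2 * M)).filter (fun m => n1 * m ≤ y ∧ n2 * m ≤ y), ex (m * (((n1 : ℝ) - n2) * α)) := by
    rw [Complex.ofReal_sum]
    have h3 : ∀ m ∈ Ico M (2 * M),
        ((‖∑ n ∈ Icc 1 (y / m), (B n : ℂ) * ex ((m * n : ℕ) * α)‖ ^ 2 : ℝ) : ℂ) =
        ∑ n1 ∈ Icc 1 N, ∑ n2 ∈ Icc 1 N, c m n1 * (starRingEnd ℂ) (c m n2) := by
      intro m hm
      rw [hT m hm, h1]
    rw [Finset.sum_congr rfl h3, Finset.sum_comm]
    refine Finset.sum_congr rfl fun n1 _ => ?_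
    rw [Finset.sum_comm]
    refine Finset.sum_congr rfl fun n2 _ => ?_
    rw [Finset.sum_filter, Finset.mul_sum]
    refine Finset.sum_congr rfl fun m _ => ?_
    rw [hc]
    simp only
    by_cases ha : n1 * m ≤ y
    · by_cases hb : n2 * m ≤ y
      · rw [if_pos ha, if_pos hb, if_pos ⟨ha, hb⟩, map_mul, Complex.conj_ofReal, ← ex_neg]
        have : ex (m * (((n1 : ℝ) - n2) * α)) = ex (m * (n1 * α)) * ex (-(m * (n2 * α))) := by
          rw [← ex_add]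
          congr 1
          ring
        rw [this]
        push_cast
        ring
      · rw [if_neg hb, if_neg (show ¬(n1 * m ≤ y ∧ n2 * m ≤ y) from fun h => hb h.2)]
        simp
    · rw [if_neg ha, if_neg (show ¬(n1 * m ≤ y ∧ n2 * m ≤ y) from fun h => ha h.1)]
      simp
  have hnn : 0 ≤ ∑ m ∈ Ico M (2 * M), ‖∑ n ∈ Icc 1 (y / m), (B n : ℂ) * ex ((m * n : ℕ) * α)‖ ^ 2 :=
    Finset.sum_nonneg fun _ _ => by positivity
  have h4 : ∑ m ∈ Ico M (2 * M), ‖∑ n ∈ Icc 1 (y / m), (B n : ℂ) * ex ((m * n : ℕ) * α)‖ ^ 2 ≤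
      ∑ n1 ∈ Icc 1 N, ∑ n2 ∈ Icc 1 N, |B n1| * |B n2| * mn M (((n1 : ℝ) - n2) * α) := by
    have h5 : ‖((∑ m ∈ Ico M (2 * M), ‖∑ n ∈ Icc 1 (y / m), (B n : ℂ) * ex ((m * n : ℕ) * α)‖ ^ 2 : ℝ) : ℂ)‖
        = ∑ m ∈ Ico M (2 * M), ‖∑ n ∈ Icc 1 (y / m), (B n : ℂ) * ex ((m * n : ℕ) * α)‖ ^ 2 := by
      rw [Complex.norm_real, Real.norm_eq_abs, abs_of_nonneg hnn]
    rw [← h5, h2]
    refine (norm_sum_le _ _).trans (Finset.sum_le_sum fun n1 hn1 => ?_)
    refine (norm_sum_le _ _).trans (Finset.sum_le_sum fun n2 hn2 => ?_)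
    rw [norm_mul, Complex.norm_real, Real.norm_eq_abs, abs_mul]
    rw [mem_Icc] at hn1 hn2
    exact mul_le_mul_of_nonneg_left (inner_sum_le M y n1 n2 hM hn1.1 hn2.1 _) (by positivity)
  refine h4.trans ?_
  have h6 : ∑ n1 ∈ Icc 1 N, ∑ n2 ∈ Icc 1 N, |B n1| * |B n2| * mn M (((n1 : ℝ) - n2) * α) ≤
      ∑ n1 ∈ Icc 1 N, ∑ n2 ∈ Icc 1 N, ((B n1 ^ 2 / 2) * mn M (((n1 : ℝ) - n2) * α) +
        (B n2 ^ 2 / 2) * mn M (((n2 : ℝ) - n1) * α)) := by
    refine Finset.sum_le_sum fun n1 _ => Finset.sum_le_sum fun n2 _ => ?_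
    rw [mn_sub_comm (M : ℝ) α n2 n1, ← add_mul]
    apply mul_le_mul_of_nonneg_right _ (mn_nonneg (Nat.cast_nonneg _) _)
    have := two_mul_le_add_sq |B n1| |B n2|
    rw [sq_abs, sq_abs] at this
    linarith only [this]
  refine h6.trans ?_
  simp only [Finset.sum_add_distrib]
  have h7 : ∑ n1 ∈ Icc 1 N, ∑ n2 ∈ Icc 1 N, (B n2 ^ 2 / 2) * mn M (((n2 : ℝ) - n1) * α) =
      ∑ n1 ∈ Icc 1 N, ∑ n2 ∈ Icc 1 N, (B n1 ^ 2 / 2) * mn M (((n1 : ℝ) - n2) * α) :=
    Finset.sum_comm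
  rw [h7, ← two_mul, Finset.mul_sum, Finset.mul_sum]
  refine Finset.sum_le_sum fun n1 hn1 => ?_
  rw [← Finset.mul_sum]
  have := hG n1 hn1
  have h8 : 0 ≤ B n1 ^ 2 := by positivity
  nlinarith only [this]

private lemma sum_tau_sq (N : ℕ) (hN : 1 ≤ N) :
    ∑ n ∈ Icc 1 N, ((n.divisors.card : ℝ)) ^ 2 ≤ N * (1 + Real.log N) ^ 4 := by
  have h := Pool.Agent.Lib.BV.sum_tau_sq_div N hN
  calc ∑ n ∈ Icc 1 N, ((n.divisors.card : ℝ)) ^ 2
      ≤ ∑ n ∈ Icc 1 N, (N : ℝ) * (((n.divisors.card : ℝ)) ^ 2 / n) := by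
        refine Finset.sum_le_sum fun n hn => ?_
        rw [mem_Icc] at hn
        have hn0 : (0 : ℝ) < n := by exact_mod_cast (show 0 < n by omega)
        have hnN : (n : ℝ) ≤ N := by exact_mod_cast hn.2
        rw [mul_div_assoc', le_div_iff₀ hn0, mul_comm]
        exact mul_le_mul_of_nonneg_right hnN (by positivity)
    _ = N * ∑ n ∈ Icc 1 N, (((n.divisors.card : ℝ)) ^ 2 / n) := by rw [Finset.mul_sum]
    _ ≤ _ := mul_le_mul_of_nonneg_left h (Nat.cast_nonneg _)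

/-- The final numerical inequality. -/
private lemma final_ineq (y U V q M N : ℕ) (L C1 G Z W R : ℝ) (hU : 1 ≤ U) (hV : 1 ≤ V) (hq : 1 ≤ q)
    (hL : 1 ≤ L) (hC : 0 < C1) (hM : 1 ≤ M) (hN : 1 ≤ N) (hMN : N * M ≤ y) (hMU : U ≤ 2 * M)
    (hMV : V * M ≤ y)
    (hG : G ≤ M + 2 * (C1 * ((N : ℝ) / q + 1) * (M + q * (2 * L))))
    (hZ : Z ≤ M * (2 * L) ^ 2) (hW : W ≤ G * (N * (2 * L) ^ 4))
    (hW0 : 0 ≤ W) (hR : R ^ 2 ≤ Z * W) :
    R ≤ 12 * (1 + 4 * C1) *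
      (y / Real.sqrt q + y / Real.sqrt U + y / Real.sqrt V + Real.sqrt (y * q)) * L ^ 4 := by
  have hq0 : (0 : ℝ) < q := by exact_mod_cast (show 0 < q by omega)
  have hU0 : (0 : ℝ) < U := by exact_mod_cast (show 0 < U by omega)
  have hV0 : (0 : ℝ) < V := by exact_mod_cast (show 0 < V by omega)
  have hM0 : (0 : ℝ) < M := by exact_mod_cast (show 0 < M by omega)
  have hN0 : (0 : ℝ) < N := by exact_mod_cast (show 0 < N by omega)
  have hy0 : (0 : ℝ) ≤ y := Nat.cast_nonneg y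
  have hMN' : (N : ℝ) * M ≤ y := by exact_mod_cast hMN
  have hMU' : (U : ℝ) ≤ 2 * M := by exact_mod_cast hMU
  have hMV' : (V : ℝ) * M ≤ y := by exact_mod_cast hMV
  set K : ℝ := (N : ℝ) * M / q + N + M + q with hK
  have hK0 : 0 < K := by (clear * - hq hM hN; positivity)
  -- bound for G
  have hG1 : G ≤ (1 + 4 * C1) * L * K := by
    refine hG.trans ?_
    have e1 : ((N : ℝ) / q + 1) * (M + q * (2 * L)) = N * M / q + 2 * N * L + M + 2 * q * L := by
      field_simp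
      ring
    have e2 : ((N : ℝ) / q + 1) * (M + q * (2 * L)) ≤ 2 * L * K := by
      rw [e1, hK]
      have t1 : 0 ≤ (N : ℝ) * M / q := by (clear * - hq hM hN; positivity)
      nlinarith only [hL, hM0, t1]
    have e3 : (M : ℝ) ≤ L * K := by
      have : (M : ℝ) ≤ K := by
        rw [hK]
        have t1 : 0 ≤ (N : ℝ) * M / q := by (clear * - hq hM hN; positivity)
        linarith only [hq0, hN0, t1]
      nlinarith only [hL, hK0, this]
    calc (M : ℝ) + 2 * (C1 * ((N : ℝ) / q + 1) * (M + q * (2 * L)))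
        = M + 2 * C1 * (((N : ℝ) / q + 1) * (M + q * (2 * L))) := by ring
      _ ≤ L * K + 2 * C1 * (2 * L * K) := by
          apply add_le_add e3
          exact mul_le_mul_of_nonneg_left e2 (by (clear * - hC; positivity))
      _ = _ := by ring
  set s1 := (y : ℝ) / Real.sqrt q with hs1
  set s2 := (y : ℝ) / Real.sqrt U with hs2
  set s3 := (y : ℝ) / Real.sqrt V with hs3
  set s4 := Real.sqrt ((y : ℝ) * q) with hs4
  have p1 : 0 ≤ s1 := by (clear * - hq; positivity)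
  have p2 : 0 ≤ s2 := by (clear * - hU; positivity)
  have p3 : 0 ≤ s3 := by (clear * - hV; positivity)
  have p4 : 0 ≤ s4 := by (clear * -; positivity)
  have q1 : s1 ^ 2 = (y : ℝ) ^ 2 / q := by
    rw [hs1, div_pow, Real.sq_sqrt hq0.le]
  have q2 : s2 ^ 2 = (y : ℝ) ^ 2 / U := by
    rw [hs2, div_pow, Real.sq_sqrt hU0.le]
  have q3 : s3 ^ 2 = (y : ℝ) ^ 2 / V := by
    rw [hs3, div_pow, Real.sq_sqrt hV0.le]
  have q4 : s4 ^ 2 = (y : ℝ) * q := by
    rw [hs4, Real.sq_sqrt (by (clear * - hq; positivity))]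
  have hyK : (y : ℝ) * K ≤ 2 * (s1 + s2 + s3 + s4) ^ 2 := by
    have u1 : (y : ℝ) * (N * M / q) ≤ s1 ^ 2 := by
      have e5 : (y : ℝ) * (N * M / q) = y * (N * M) / q := by ring
      rw [q1, e5, pow_two]
      exact div_le_div_of_nonneg_right (mul_le_mul_of_nonneg_left hMN' hy0) hq0.le
    have u2 : (y : ℝ) * N ≤ 2 * s2 ^ 2 := by
      rw [q2, mul_div_assoc', le_div_iff₀ hU0]
      have e6 : (N : ℝ) * U ≤ 2 * y := by
        have := mul_le_mul_of_nonneg_left hMU' hN0.le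
        linarith only [hMN', this]
      have e7 := mul_le_mul_of_nonneg_left e6 hy0
      linarith only [e7]
    have u3 : (y : ℝ) * M ≤ s3 ^ 2 := by
      rw [q3, le_div_iff₀ hV0]
      have e7 := mul_le_mul_of_nonneg_left hMV' hy0
      linarith only [e7]
    have u4 : (y : ℝ) * q = s4 ^ 2 := q4.symm
    have : (y : ℝ) * K = y * (N * M / q) + y * N + y * M + y * q := by rw [hK]; ring
    have e8 : s1 ^ 2 + s2 ^ 2 + s3 ^ 2 + s4 ^ 2 ≤ (s1 + s2 + s3 + s4) ^ 2 := by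
      have e9 : (s1 + s2 + s3 + s4) ^ 2 = s1 ^ 2 + s2 ^ 2 + s3 ^ 2 + s4 ^ 2 +
        2 * (s1 * s2 + s1 * s3 + s1 * s4 + s2 * s3 + s2 * s4 + s3 * s4) := by ring
      rw [e9]
      have : 0 ≤ s1 * s2 + s1 * s3 + s1 * s4 + s2 * s3 + s2 * s4 + s3 * s4 := by (clear * - hU hV hq; positivity)
      linarith only [this]
    rw [this]
    have t1 := sq_nonneg s1
    have t3 := sq_nonneg s3
    have t4 := sq_nonneg s4
    linarith only [q4, u1, u2, u3, e8, t1, t3, t4]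
  set X := s1 + s2 + s3 + s4 with hX
  have hX0 : 0 ≤ X := by (clear * - hU hV hq; positivity)
  have hW1 : W ≤ (1 + 4 * C1) * L * K * (N * (2 * L) ^ 4) :=
    hW.trans (mul_le_mul_of_nonneg_right hG1 (by (clear * - hL hN; positivity)))
  have hR1 : R ^ 2 ≤ (M * (2 * L) ^ 2) * ((1 + 4 * C1) * L * K * (N * (2 * L) ^ 4)) := by
    refine hR.trans ?_
    exact mul_le_mul hZ hW1 hW0 (by (clear * - hL hM; positivity))
  have hR2 : R ^ 2 ≤ (12 * (1 + 4 * C1) * X * L ^ 4) ^ 2 := by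
    refine hR1.trans ?_
    have e1 : (M * (2 * L) ^ 2) * ((1 + 4 * C1) * L * K * (N * (2 * L) ^ 4)) =
        64 * (1 + 4 * C1) * L ^ 7 * ((N * M) * K) := by ring
    rw [e1]
    have e2 : ((N : ℝ) * M) * K ≤ 2 * X ^ 2 :=
      (mul_le_mul_of_nonneg_right hMN' hK0.le).trans hyK
    calc 64 * (1 + 4 * C1) * L ^ 7 * ((N * M) * K)
        ≤ 64 * (1 + 4 * C1) * L ^ 7 * (2 * X ^ 2) := mul_le_mul_of_nonneg_left e2 (by (clear * - hL hC; positivity))
      _ ≤ 144 * ((1 + 4 * C1) * (1 + 4 * C1)) * L ^ 8 * X ^ 2 := by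
          have e3 : 64 * (1 + 4 * C1) * L ^ 7 * (2 * X ^ 2) = 128 * ((1 + 4 * C1) * 1) * (L ^ 7 * 1) * X ^ 2 := by
            ring
          rw [e3]
          have e4 : L ^ 7 * 1 ≤ L ^ 8 := by
            rw [pow_succ L 7]
            exact mul_le_mul_of_nonneg_left hL (by (clear * - hL; positivity))
          gcongr
          · norm_num
          · linarith only [hC]
      _ = _ := by ring
  have h9 : R ≤ 12 * (1 + 4 * C1) * X * L ^ 4 := le_trans (le_abs_self R) (abs_le_of_sq_le_sq hR2 (by (clear * - hU hV hq hL hC; positivity)))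
  calc R ≤ 12 * (1 + 4 * C1) * X * L ^ 4 := h9
    _ = _ := by ring

private lemma block_bound : ∃ C : ℝ, 0 < C ∧ ∀ (y U V q M : ℕ) (a : ℤ) (α : ℝ) (A B : ℕ → ℝ),
    1 ≤ M → 1 ≤ U → 1 ≤ V → 1 ≤ q → q ≤ y → IsCoprime a (q : ℤ) → |α - a / q| ≤ 1 / (q : ℝ) ^ 2 →
    (∀ m ≤ U, A m = 0) → (∀ n ≤ V, B n = 0) →
    (∀ m, |A m| ≤ Real.log m) → (∀ n, |B n| ≤ n.divisors.card) →
    ‖∑ m ∈ Ico M (2 * M), ∑ n ∈ Icc 1 (y / m), ((A m * B n : ℝ) : ℂ) * ex ((m * n : ℕ) * α)‖ ≤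
      C * (y / Real.sqrt q + y / Real.sqrt U + y / Real.sqrt V + Real.sqrt (y * q)) *
        Real.log (y + 2) ^ 4 := by
  obtain ⟨C1, hC1, hsum⟩ := sum_mn_const
  refine ⟨12 * (1 + 4 * C1), by positivity, ?_⟩
  intro y U V q M a α A B hM hU hV hq hqy hcop hα hA0 hB0 hA hB
  have hy1 : (1 : ℝ) ≤ y := by exact_mod_cast hq.trans hqy
  have hL1 : 1 ≤ Real.log ((y : ℝ) + 2) := by
    have h3 : Real.exp 1 ≤ (y : ℝ) + 2 := by
      have := Real.exp_one_lt_d9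
      linarith only [hy1, this]
    have := Real.log_le_log (Real.exp_pos 1) h3
    rwa [Real.log_exp] at this
  set L := Real.log ((y : ℝ) + 2) with hL
  have hlog : ∀ t : ℝ, 1 ≤ t → t ≤ 2 * y → Real.log t ≤ 2 * L := by
    intro t ht1 ht2
    have : Real.log t ≤ Real.log (((y : ℝ) + 2) ^ 2) := by
      apply Real.log_le_log (by linarith only [ht1])
      nlinarith only [hy1, ht2]
    rw [Real.log_pow] at this
    push_cast at this
    exact this
  have hrhs : 0 ≤ 12 * (1 + 4 * C1) * (y / Real.sqrt q + y / Real.sqrt U + y / Real.sqrt V +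
      Real.sqrt (y * q)) * L ^ 4 := by positivity
  by_cases hMU : 2 * M ≤ U + 1
  · have : ∑ m ∈ Ico M (2 * M), ∑ n ∈ Icc 1 (y / m), ((A m * B n : ℝ) : ℂ) * ex ((m * n : ℕ) * α) = 0 := by
      refine Finset.sum_eq_zero fun m hm => Finset.sum_eq_zero fun n _ => ?_
      rw [mem_Ico] at hm
      rw [hA0 m (by omega)]
      simp
    rw [this, norm_zero]
    exact hrhs
  by_cases hMV : y / M ≤ V
  · have : ∑ m ∈ Ico M (2 * M), ∑ n ∈ Icc 1 (y / m), ((A m * B n : ℝ) : ℂ) * ex ((m * n : ℕ) * α) = 0 := by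
      refine Finset.sum_eq_zero fun m hm => Finset.sum_eq_zero fun n hn => ?_
      rw [mem_Ico] at hm
      rw [mem_Icc] at hn
      have : y / m ≤ y / M := Nat.div_le_div_left hm.1 (by omega)
      rw [hB0 n (by omega)]
      simp
    rw [this, norm_zero]
    exact hrhs
  push Not at hMU hMV
  set N := y / M with hN
  have hN1 : 1 ≤ N := by omega
  have hNM : N * M ≤ y := Nat.div_mul_le_self y M
  have hVM : V * M ≤ y := (Nat.mul_le_mul_right M hMV.le).trans hNM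
  have hMy : M ≤ y := le_trans (by nlinarith only [hV]) hVM
  have hNy : N ≤ y := Nat.div_le_self y M
  have hMyR : (M : ℝ) ≤ y := by exact_mod_cast hMy
  have hNyR : (N : ℝ) ≤ y := by exact_mod_cast hNy
  have hM1R : (1 : ℝ) ≤ M := by exact_mod_cast hM
  have hN1R : (1 : ℝ) ≤ N := by exact_mod_cast hN1
  have hq1R : (1 : ℝ) ≤ q := by exact_mod_cast hq
  have hqyR : (q : ℝ) ≤ y := by exact_mod_cast hqy
  set T : ℕ → ℂ := fun m => ∑ n ∈ Icc 1 (y / m), (B n : ℂ) * ex ((m * n : ℕ) * α) with hT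
  set G : ℝ := M + 2 * (C1 * ((N : ℝ) / q + 1) * (M + q * Real.log (2 * q))) with hG
  have hGbound : ∀ n1 ∈ Icc 1 N, ∑ n2 ∈ Icc 1 N, mn M (((n1 : ℝ) - n2) * α) ≤ G := by
    intro n1 hn1
    refine (sum_diff_le N n1 hn1 M α (Nat.cast_nonneg M)).trans ?_
    have := hsum q N a α M hq hcop hα (Nat.cast_nonneg M)
    rw [hG]
    linarith only [this]
  have hsq := block_sq M y hM α G B hGbound
  rw [← hN] at hsq
  have hlog2q : Real.log (2 * q) ≤ 2 * L := hlog _ (by linarith only [hq1R]) (by linarith only [hqyR])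
  have hlog2q0 : 0 ≤ Real.log (2 * q) := Real.log_nonneg (by linarith only [hq1R])
  have hG0 : 0 ≤ G := by rw [hG]; (clear * - hC1 hM hq hN1 hlog2q0; positivity)
  apply final_ineq y U V q M N L C1 G (∑ m ∈ Ico M (2 * M), |A m| ^ 2)
    (∑ m ∈ Ico M (2 * M), ‖T m‖ ^ 2) _ hU hV hq hL1 hC1 hM hN1 hNM (by omega) hVM
  · rw [hG]
    gcongr
  · calc ∑ m ∈ Ico M (2 * M), |A m| ^ 2 ≤ ∑ m ∈ Ico M (2 * M), (2 * L) ^ 2 := by
          refine Finset.sum_le_sum fun m hm => ?_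
          rw [mem_Ico] at hm
          have h1 : (m : ℝ) ≤ 2 * M := by exact_mod_cast hm.2.le
          have h2 : (1 : ℝ) ≤ m := by exact_mod_cast hM.trans hm.1
          exact pow_le_pow_left₀ (abs_nonneg _) ((hA m).trans (hlog m h2 (by linarith only [hMyR, h1]))) 2
      _ = M * (2 * L) ^ 2 := by
          rw [Finset.sum_const, Nat.card_Ico, nsmul_eq_mul]
          have : 2 * M - M = M := by omega
          rw [this]
  · refine hsq.trans ?_
    apply mul_le_mul_of_nonneg_left _ hG0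
    calc ∑ n ∈ Icc 1 N, B n ^ 2 ≤ ∑ n ∈ Icc 1 N, ((n.divisors.card : ℝ)) ^ 2 := by
          refine Finset.sum_le_sum fun n _ => ?_
          rw [← sq_abs (B n)]
          exact pow_le_pow_left₀ (abs_nonneg _) (hB n) 2
      _ ≤ N * (1 + Real.log N) ^ 4 := sum_tau_sq N hN1
      _ ≤ N * (2 * L) ^ 4 := by
          have h1 : Real.log N ≤ L := Real.log_le_log (by linarith only [hN1R]) (by linarith only [hNyR])
          have h2 : 0 ≤ Real.log N := Real.log_nonneg hN1R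
          gcongr
          linarith only [hL1, h1]
  · exact Finset.sum_nonneg fun _ _ => by (clear * -; positivity)
  · have h1 : ‖∑ m ∈ Ico M (2 * M), ∑ n ∈ Icc 1 (y / m), ((A m * B n : ℝ) : ℂ) * ex ((m * n : ℕ) * α)‖ ≤
        ∑ m ∈ Ico M (2 * M), |A m| * ‖T m‖ := by
      refine (norm_sum_le _ _).trans (Finset.sum_le_sum fun m _ => ?_)
      have : ∑ n ∈ Icc 1 (y / m), ((A m * B n : ℝ) : ℂ) * ex ((m * n : ℕ) * α) = (A m : ℂ) * T m := by
        rw [hT]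
        simp only
        rw [Finset.mul_sum]
        refine Finset.sum_congr rfl fun n _ => ?_
        push_cast
        ring
      rw [this, norm_mul, Complex.norm_real, Real.norm_eq_abs]
    refine (pow_le_pow_left₀ (norm_nonneg _) h1 2).trans ?_
    exact Finset.sum_mul_sq_le_sq_mul_sq _ _ _

private lemma sum_blocks (f : ℕ → ℂ) (D : ℝ) (hD : ∀ M, 1 ≤ M → ‖∑ m ∈ Ico M (2 * M), f m‖ ≤ D) (j : ℕ) :
    ‖∑ m ∈ Ico 1 (2 ^ j), f m‖ ≤ j * D := by
  induction j with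
  | zero => simp
  | succ j ih =>
    have h1 : 1 ≤ 2 ^ j := Nat.one_le_two_pow
    have h2 : 2 ^ j ≤ 2 ^ (j + 1) := Nat.pow_le_pow_right (by norm_num) (by omega)
    rw [← Finset.sum_Ico_consecutive f h1 h2, pow_succ', Nat.cast_succ, add_mul, one_mul]
    exact (norm_add_le _ _).trans (add_le_add ih (hD _ h1))

theorem type_two : ∃ C : ℝ, ∃ k : ℕ, 0 < C ∧ ∀ (y U V q : ℕ) (a : ℤ) (α : ℝ) (A B : ℕ → ℝ),
    1 ≤ U → 1 ≤ V → 1 ≤ q → q ≤ y → IsCoprime a (q : ℤ) → |α - a / q| ≤ 1 / (q : ℝ) ^ 2 →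
    (∀ m ≤ U, A m = 0) → (∀ n ≤ V, B n = 0) →
    (∀ m, |A m| ≤ Real.log m) → (∀ n, |B n| ≤ n.divisors.card) →
    ‖∑ m ∈ Icc 1 y, ∑ n ∈ Icc 1 (y / m), ((A m * B n : ℝ) : ℂ) * ex ((m * n : ℕ) * α)‖ ≤
      C * (y / Real.sqrt q + y / Real.sqrt U + y / Real.sqrt V + Real.sqrt (y * q)) *
        Real.log (y + 2) ^ k := by
  obtain ⟨C, hC, hblock⟩ := block_bound
  refine ⟨3 * C, 5, by positivity, ?_⟩
  intro y U V q a α A B hU hV hq hqy hcop hα hA0 hB0 hA hB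
  have hy1 : 1 ≤ y := hq.trans hqy
  have hy1R : (1 : ℝ) ≤ y := by exact_mod_cast hy1
  set f : ℕ → ℂ := fun m => ∑ n ∈ Icc 1 (y / m), ((A m * B n : ℝ) : ℂ) * ex ((m * n : ℕ) * α) with hf
  set D : ℝ := C * (y / Real.sqrt q + y / Real.sqrt U + y / Real.sqrt V + Real.sqrt (y * q)) *
        Real.log (y + 2) ^ 4 with hD
  have hDb : ∀ M, 1 ≤ M → ‖∑ m ∈ Ico M (2 * M), f m‖ ≤ D := fun M hM =>
    hblock y U V q M a α A B hM hU hV hq hqy hcop hα hA0 hB0 hA hB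
  set j := Nat.log 2 y + 1 with hj
  have hsum : ∑ m ∈ Icc 1 y, f m = ∑ m ∈ Ico 1 (2 ^ j), f m := by
    apply Finset.sum_subset
    · intro m hm
      rw [mem_Icc] at hm
      rw [mem_Ico]
      exact ⟨hm.1, lt_of_le_of_lt hm.2 (Nat.lt_pow_succ_log_self (by norm_num) y)⟩
    · intro m hm hm2
      rw [mem_Ico] at hm
      rw [mem_Icc] at hm2
      have : y / m = 0 := Nat.div_eq_of_lt (by omega)
      rw [hf]
      simp only
      rw [this]
      simp
  have hL1 : 1 ≤ Real.log ((y : ℝ) + 2) := by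
    have h3 : Real.exp 1 ≤ (y : ℝ) + 2 := by
      have := Real.exp_one_lt_d9
      linarith only [hy1R, this]
    have := Real.log_le_log (Real.exp_pos 1) h3
    rwa [Real.log_exp] at this
  have hjL : (j : ℝ) ≤ 3 * Real.log ((y : ℝ) + 2) := by
    have h1 : 2 ^ (Nat.log 2 y) ≤ y := Nat.pow_log_le_self 2 (by omega)
    have h2 : ((2 : ℝ)) ^ (Nat.log 2 y) ≤ (y : ℝ) + 2 := by
      have : ((2 ^ (Nat.log 2 y) : ℕ) : ℝ) ≤ y := by exact_mod_cast h1
      push_cast at this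
      linarith only [this]
    have h3 := Real.log_le_log (by positivity) h2
    rw [Real.log_pow] at h3
    have h4 := Real.log_two_gt_d9
    have h5 : (0 : ℝ) ≤ (Nat.log 2 y : ℝ) := Nat.cast_nonneg _
    rw [hj]
    push_cast
    nlinarith only [hL1, h3, h4]
  have hD0 : 0 ≤ D := by rw [hD]; positivity
  rw [hsum]
  refine (sum_blocks f D hDb j).trans ?_
  calc (j : ℝ) * D ≤ (3 * Real.log ((y : ℝ) + 2)) * D := mul_le_mul_of_nonneg_right hjL hD0
    _ = _ := by rw [hD]; ring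

end Pool.Agent.HLT
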