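import Pool.Agent.Lib.HLT.Geom

/-!
# Weyl differencing

Induction on `j`: `|S|^2` is a sum over the shift `h` of exponential sums of `φ (n + h) - φ n` over intervals;
power mean inequality and the induction hypothesis.
-/

set_option autoImplicit false

open Finset Filter

namespace Pool.Agent.HLT

namespace WeylDiffAux

/-- The polynomial `φ (n + h) - φ n`. -/
noncomputable def dif (h : ℤ) (φ : Polynomial ℝ) : Polynomial ℝ :=
  Polynomial.taylor (h : ℝ) φ - φ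

lemma dif_eval (h : ℤ) (φ : Polynomial ℝ) (x : ℝ) :
    (dif h φ).eval x = φ.eval (x + h) - φ.eval x := by
  unfold dif
  rw [Polynomial.eval_sub, Polynomial.taylor_eval]

lemma taylor_coeff_top (j : ℕ) (φ : Polynomial ℝ) (hφ : φ.natDegree ≤ j + 1) (h : ℝ) :
    (Polynomial.taylor h φ).coeff (j + 1) = φ.coeff (j + 1) := by
  rw [Polynomial.taylor_coeff]
  have h1 : (Polynomial.hasseDeriv (j + 1) φ).natDegree ≤ 0 := by
    refine (Polynomial.natDegree_hasseDeriv_le _ _).trans ?_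
    omega
  rw [Polynomial.eq_C_of_natDegree_le_zero h1, Polynomial.eval_C, Polynomial.hasseDeriv_coeff]
  simp

lemma taylor_coeff_sub (j : ℕ) (φ : Polynomial ℝ) (hφ : φ.natDegree ≤ j + 1) (h : ℝ) :
    (Polynomial.taylor h φ).coeff j = φ.coeff j + (j + 1) * φ.coeff (j + 1) * h := by
  rw [Polynomial.taylor_coeff]
  have h1 : (Polynomial.hasseDeriv j φ).natDegree ≤ 1 := by
    refine (Polynomial.natDegree_hasseDeriv_le _ _).trans ?_
    omega
  rw [Polynomial.eq_X_add_C_of_natDegree_le_one h1]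
  simp only [Polynomial.eval_add, Polynomial.eval_mul, Polynomial.eval_C, Polynomial.eval_X,
    Polynomial.hasseDeriv_coeff]
  have h2 : (1 + j).choose j = j + 1 := by
    rw [add_comm 1 j]; exact Nat.choose_succ_self_right j
  rw [h2]
  simp
  rw [add_comm 1 j]
  ring

lemma dif_natDegree (j : ℕ) (φ : Polynomial ℝ) (hφ : φ.natDegree ≤ j + 2) (h : ℤ) :
    (dif h φ).natDegree ≤ j + 1 := by
  rw [Polynomial.natDegree_le_iff_coeff_eq_zero]
  intro n hn
  unfold dif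
  rw [Polynomial.coeff_sub]
  rcases Nat.lt_or_ge (j + 2) n with h2 | h2
  · rw [Polynomial.coeff_eq_zero_of_natDegree_lt, Polynomial.coeff_eq_zero_of_natDegree_lt, sub_zero]
    · omega
    · rw [Polynomial.natDegree_taylor]; omega
  · have h3 : n = (j + 1) + 1 := by omega
    subst h3
    rw [taylor_coeff_top (j + 1) φ (by omega), sub_self]

lemma dif_coeff (j : ℕ) (φ : Polynomial ℝ) (hφ : φ.natDegree ≤ j + 2) (h : ℤ) :
    (dif h φ).coeff (j + 1) = (j + 2) * h * φ.coeff (j + 2) := by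
  unfold dif
  rw [Polynomial.coeff_sub, taylor_coeff_sub (j + 1) φ (by omega)]
  push_cast
  ring

/-- The `m` with `m + h` in the interval form an interval. -/
lemma shift_interval (M N X : ℕ) (hMN : M ≤ N) (hX : N ≤ M + X) (h : ℤ) :
    ∃ M' N' : ℕ, M' ≤ N' ∧ N' ≤ M' + X ∧
      (Ioc M N).filter (fun m : ℕ => (M : ℤ) < m + h ∧ (m : ℤ) + h ≤ N) = Ioc M' N' := by
  rcases le_or_gt 0 h with h0 | h0
  · obtain ⟨k, rfl⟩ := Int.eq_ofNat_of_zero_le h0
    refine ⟨M, max M (N - k), le_max_left _ _, ?_, ?_⟩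
    · rcases max_cases M (N - k) with ⟨h1, h2⟩ | ⟨h1, h2⟩ <;> omega
    · ext m
      simp only [mem_filter, mem_Ioc, le_max_iff]
      omega
  · obtain ⟨k, hk⟩ := Int.eq_ofNat_of_zero_le (by omega : 0 ≤ -h)
    have hk' : h = -(k : ℤ) := by omega
    subst hk'
    refine ⟨min (M + k) N, N, min_le_right _ _, ?_, ?_⟩
    · rcases min_cases (M + k) N with ⟨h1, h2⟩ | ⟨h1, h2⟩ <;> omega
    · ext m
      simp only [mem_filter, mem_Ioc, min_lt_iff]
      omega

/-- Change of variable `n = m + h`. -/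
lemma shift_sum (M N X : ℕ) (hX : N ≤ M + X) (m : ℕ) (hm : m ∈ Ioc M N) (g : ℤ → ℂ) :
    ∑ n ∈ Ioc M N, g n =
      ∑ h ∈ (Ioo (-(X : ℤ)) X), if (M : ℤ) < m + h ∧ (m : ℤ) + h ≤ N then g (m + h) else 0 := by
  rw [← Finset.sum_filter]
  rw [mem_Ioc] at hm
  refine Finset.sum_bij' (fun n _ => (n : ℤ) - m) (fun h _ => ((m : ℤ) + h).toNat) ?_ ?_ ?_ ?_ ?_
  · intro n hn
    rw [mem_Ioc] at hn
    simp only [mem_filter, mem_Ioo]
    refine ⟨⟨?_, ?_⟩, ?_, ?_⟩ <;> omega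
  · intro h hh
    simp only [mem_filter, mem_Ioo] at hh
    rw [mem_Ioc]
    omega
  · intro n hn
    simp
  · intro h hh
    simp only [mem_filter, mem_Ioo] at hh
    omega
  · intro n hn
    congr 1
    ring

lemma norm_sq_le (X : ℕ) (φ : Polynomial ℝ) (M N : ℕ) (hX : N ≤ M + X) :
    ‖∑ n ∈ Ioc M N, ex (φ.eval (n : ℝ))‖ ^ 2 ≤
      ∑ h ∈ Ioo (-(X : ℤ)) X,
        ‖∑ m ∈ (Ioc M N).filter (fun m : ℕ => (M : ℤ) < m + h ∧ (m : ℤ) + h ≤ N),
          ex ((dif h φ).eval (m : ℝ))‖ := by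
  set S := ∑ n ∈ Ioc M N, ex (φ.eval (n : ℝ)) with hS
  have h1 : ((‖S‖ ^ 2 : ℝ) : ℂ) = ∑ h ∈ Ioo (-(X : ℤ)) X,
      ∑ m ∈ (Ioc M N).filter (fun m : ℕ => (M : ℤ) < m + h ∧ (m : ℤ) + h ≤ N),
          ex ((dif h φ).eval (m : ℝ)) := by
    have h2 : ((‖S‖ ^ 2 : ℝ) : ℂ) = S * (starRingEnd ℂ) S := by
      rw [Complex.mul_conj, Complex.normSq_eq_norm_sq]
    rw [h2]
    have h3 : (starRingEnd ℂ) S = ∑ m ∈ Ioc M N, ex (-(φ.eval (m : ℝ))) := by
      rw [hS, map_sum]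
      refine Finset.sum_congr rfl fun m _ => ?_
      rw [ex_neg]
    rw [h3, Finset.mul_sum]
    have h4 : ∀ m ∈ Ioc M N, S * ex (-(φ.eval (m : ℝ))) =
        ∑ h ∈ (Ioo (-(X : ℤ)) X), if (M : ℤ) < m + h ∧ (m : ℤ) + h ≤ N then
          ex ((dif h φ).eval (m : ℝ)) else 0 := by
      intro m hm
      rw [hS]
      have h5 := shift_sum M N X hX m hm (fun k => ex (φ.eval (k : ℝ)))
      simp only [Int.cast_natCast] at h5
      rw [h5, Finset.sum_mul]
      refine Finset.sum_congr rfl fun h _ => ?_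
      split_ifs
      · rw [← ex_add, dif_eval]
        congr 1
        push_cast
        ring
      · simp
    rw [Finset.sum_congr rfl h4, Finset.sum_comm]
    refine Finset.sum_congr rfl fun h _ => ?_
    rw [Finset.sum_filter]
  have h6 : ‖S‖ ^ 2 = ‖((‖S‖ ^ 2 : ℝ) : ℂ)‖ := by
    rw [Complex.norm_real, Real.norm_of_nonneg (by positivity)]
  rw [h6, h1]
  exact norm_sum_le _ _

lemma pow_sum_le {ι : Type*} (s : Finset ι) (f : ι → ℝ) (hf : ∀ i ∈ s, 0 ≤ f i) (B : ℝ)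
    (hB : (s.card : ℝ) ≤ B) (n : ℕ) :
    (∑ i ∈ s, f i) ^ (n + 1) ≤ B ^ n * ∑ i ∈ s, f i ^ (n + 1) := by
  have h0 : (0 : ℝ) ≤ ∑ i ∈ s, f i ^ (n + 1) := Finset.sum_nonneg fun i hi => pow_nonneg (hf i hi) _
  rcases s.eq_empty_or_nonempty with h1 | h1
  · subst h1
    simp
  · have h2 := pow_sum_div_card_le_sum_pow hf n
    have h3 : (0 : ℝ) < (s.card : ℝ) ^ n := by
      have : 0 < s.card := Finset.card_pos.mpr h1
      positivity
    rw [div_le_iff₀ h3] at h2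
    refine h2.trans ?_
    rw [mul_comm]
    refine mul_le_mul_of_nonneg_right ?_ h0
    exact pow_le_pow_left₀ (by positivity) hB n

lemma sum_cons_fin {j : ℕ} (s : Finset ℤ) (F : (Fin (j + 1) → ℤ) → ℝ) :
    ∑ h ∈ Fintype.piFinset (fun _ : Fin (j + 1) => s), F h =
      ∑ a ∈ s, ∑ h ∈ Fintype.piFinset (fun _ : Fin j => s), F (Fin.cons a h) := by
  rw [← Finset.sum_product']
  refine Finset.sum_bij' (fun h _ => (h 0, Fin.tail h)) (fun p _ => Fin.cons p.1 p.2) ?_ ?_ ?_ ?_ ?_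
  · intro h hh
    rw [Fintype.mem_piFinset] at hh
    rw [Finset.mem_product, Fintype.mem_piFinset]
    exact ⟨hh 0, fun i => hh i.succ⟩
  · intro p hp
    rw [Finset.mem_product, Fintype.mem_piFinset] at hp
    rw [Fintype.mem_piFinset]
    intro i
    refine Fin.cases ?_ (fun k => ?_) i
    · simpa using hp.1
    · simpa using hp.2 k
  · intro h _
    exact Fin.cons_self_tail h
  · intro p _
    simp [Fin.tail_cons]
  · intro h _
    rw [Fin.cons_self_tail h]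

end WeylDiffAux

open WeylDiffAux in
theorem weyl_diff (j : ℕ) : ∀ (X : ℕ) (φ : Polynomial ℝ) (M N : ℕ), 1 ≤ X →
    φ.natDegree ≤ j + 1 → M ≤ N → N ≤ M + X →
    ‖∑ n ∈ Ioc M N, ex (φ.eval (n : ℝ))‖ ^ (2 ^ j) ≤
      (2 * (X : ℝ)) ^ (2 ^ j - j - 1) *
        ∑ h ∈ Fintype.piFinset (fun _ : Fin j => Ioo (-(X : ℤ)) X),
          mn X ((j + 1).factorial * φ.coeff (j + 1) * ∏ i, (h i : ℝ)) := by
  induction j with
  | zero =>
    intro X φ M N hX1 hφ hMN hNX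
    have h1 : ∀ n : ℕ, ex (φ.eval (n : ℝ)) = ex (n * φ.coeff 1) * ex (φ.coeff 0) := by
      intro n
      rw [← ex_add]
      congr 1
      rw [Polynomial.eq_X_add_C_of_natDegree_le_one hφ]
      simp
      ring
    have h2 : ‖∑ n ∈ Ioc M N, ex (φ.eval (n : ℝ))‖ = ‖∑ n ∈ Ioc M N, ex (n * φ.coeff 1)‖ := by
      rw [Finset.sum_congr rfl (fun n _ => h1 n), ← Finset.sum_mul, norm_mul, norm_ex, mul_one]
    have h3 : (0 : ℝ) ≤ (N : ℝ) - M := by
      rw [sub_nonneg]; exact_mod_cast hMN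
    have h4 : (N : ℝ) - M ≤ X := by
      rw [sub_le_iff_le_add']; exact_mod_cast hNX
    have h5 : ‖∑ n ∈ Ioc M N, ex (n * φ.coeff 1)‖ ≤ mn X (φ.coeff 1) :=
      (geom_Ioc M N hMN _).trans (mn_mono h3 h4 _)
    rw [h2]
    simpa using h5
  | succ j ih =>
    intro X φ M N hX1 hφ hMN hNX
    have hX0 : (0 : ℝ) ≤ X := by positivity
    have hj : j + 1 ≤ 2 ^ j := Nat.lt_two_pow_self
    -- the induction hypothesis for every shift
    have h1 : ∀ h : ℤ, ‖∑ m ∈ (Ioc M N).filter (fun m : ℕ => (M : ℤ) < m + h ∧ (m : ℤ) + h ≤ N),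
          ex ((dif h φ).eval (m : ℝ))‖ ^ (2 ^ j) ≤ (2 * (X : ℝ)) ^ (2 ^ j - j - 1) *
        ∑ k ∈ Fintype.piFinset (fun _ : Fin j => Ioo (-(X : ℤ)) X),
          mn X ((j + 1 + 1).factorial * φ.coeff (j + 1 + 1) *
            ∏ i, ((Fin.cons h k : Fin (j + 1) → ℤ) i : ℝ)) := by
      intro h
      obtain ⟨M', N', h2, h3, h4⟩ := shift_interval M N X hMN hNX h
      rw [h4]
      refine (ih X (dif h φ) M' N' hX1 (dif_natDegree j φ hφ h) h2 h3).trans ?_
      refine le_of_eq ?_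
      congr 1
      refine Finset.sum_congr rfl fun k _ => ?_
      congr 1
      rw [dif_coeff j φ hφ h, Fin.prod_univ_succ]
      simp only [Fin.cons_zero, Fin.cons_succ]
      rw [Nat.factorial_succ (j + 1)]
      push_cast
      ring
    have h5 := norm_sq_le X φ M N hNX
    have h6 : ‖∑ n ∈ Ioc M N, ex (φ.eval (n : ℝ))‖ ^ (2 ^ (j + 1)) =
        (‖∑ n ∈ Ioc M N, ex (φ.eval (n : ℝ))‖ ^ 2) ^ (2 ^ j) := by
      rw [← pow_mul]
      congr 1
      rw [pow_succ, mul_comm]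
    rw [h6]
    refine (pow_le_pow_left₀ (by positivity) h5 _).trans ?_
    obtain ⟨n, hn⟩ : ∃ n, 2 ^ j = n + 1 := ⟨2 ^ j - 1, by omega⟩
    have hcard : (((Ioo (-(X : ℤ)) X).card : ℕ) : ℝ) ≤ 2 * X := by
      rw [Int.card_Ioo]
      have : ((X : ℤ) - -(X : ℤ) - 1).toNat ≤ 2 * X := by omega
      exact_mod_cast this
    have h7 := pow_sum_le (Ioo (-(X : ℤ)) X)
      (fun h => ‖∑ m ∈ (Ioc M N).filter (fun m : ℕ => (M : ℤ) < m + h ∧ (m : ℤ) + h ≤ N),
          ex ((dif h φ).eval (m : ℝ))‖) (fun _ _ => norm_nonneg _) (2 * X) hcard n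
    rw [← hn] at h7
    refine h7.trans ?_
    have h8 : (2 * (X : ℝ)) ^ (2 ^ (j + 1) - (j + 1) - 1) =
        (2 * (X : ℝ)) ^ n * (2 * (X : ℝ)) ^ (2 ^ j - j - 1) := by
      rw [← pow_add]
      congr 1
      rw [pow_succ]
      omega
    rw [h8, mul_assoc]
    refine mul_le_mul_of_nonneg_left ?_ (by positivity)
    rw [sum_cons_fin, Finset.mul_sum]
    exact Finset.sum_le_sum fun h _ => h1 h

end Pool.Agent.HLT
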