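import Pool.Agent.Lib.HLT.GeomSum
import Pool.Agent.Lib.HLT.WeylDiff
import Pool.Agent.Lib.HLT.ProdCount

/-!
# Weyl's inequality with powers of the logarithm

Weyl differencing, the divisor bound and Cauchy-Schwarz.
-/

set_option autoImplicit false

open Finset Filter

namespace Pool.Agent.HLT

/-- The sum of `mn X (γ m)` over `m ≤ M`, `γ = α c` with a nonzero integer `c`. -/
lemma wl_scale (X α : ℝ) (hX : 0 ≤ X) (c : ℤ) (hc : c ≠ 0) (M : ℕ) :
    ∑ m ∈ Icc 1 M, mn X (α * c * m) ≤ ∑ m ∈ Icc 1 (c.natAbs * M), mn X (α * m) := by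
  have hc1 : 1 ≤ c.natAbs := Int.natAbs_pos.mpr hc
  have h1 : ∀ m : ℕ, mn X (α * c * m) = mn X (α * ((c.natAbs * m : ℕ) : ℝ)) := by
    intro m
    rcases Int.natAbs_eq c with h | h
    · have h2 : (c : ℝ) = (c.natAbs : ℝ) := by
        have : ((c : ℤ) : ℝ) = (((c.natAbs : ℕ) : ℤ) : ℝ) := by rw [← h]
        simpa using this
      rw [h2]
      push_cast
      congr 1
      ring
    · have h2 : (c : ℝ) = -(c.natAbs : ℝ) := by
        have : ((c : ℤ) : ℝ) = ((-((c.natAbs : ℕ) : ℤ) : ℤ) : ℝ) := by rw [← h]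
        simpa using this
      rw [h2, ← mn_neg]
      push_cast
      congr 1
      ring
  rw [Finset.sum_congr rfl (fun m _ => h1 m)]
  have hinj : Set.InjOn (fun m : ℕ => c.natAbs * m) (Icc 1 M : Finset ℕ) := by
    intro a _ b _ hab
    exact Nat.eq_of_mul_eq_mul_left hc1 hab
  rw [← Finset.sum_image (s := Icc 1 M) (g := fun m : ℕ => c.natAbs * m)
    (f := fun m : ℕ => mn X (α * (m : ℝ))) hinj]
  refine Finset.sum_le_sum_of_subset_of_nonneg ?_ (fun i _ _ => mn_nonneg hX _)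
  intro m hm
  rw [Finset.mem_image] at hm
  obtain ⟨k, hk, rfl⟩ := hm
  rw [Finset.mem_Icc] at hk ⊢
  refine ⟨?_, Nat.mul_le_mul_left _ hk.2⟩
  exact Nat.mul_pos hc1 hk.1

/-- Cauchy-Schwarz for the divisor sum. -/
lemma wl_cs (j X : ℕ) (γ : ℝ) :
    (∑ m ∈ Icc 1 (X ^ j), (m.divisors.card : ℝ) ^ j * mn X (γ * m)) ^ 2 ≤
      ((X : ℝ) ^ j * (1 + j * Real.log X) ^ (2 ^ (2 * j))) *
        (X * ∑ m ∈ Icc 1 (X ^ j), mn X (γ * m)) := by
  have hX0 : (0 : ℝ) ≤ X := Nat.cast_nonneg X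
  have h1 := Finset.sum_mul_sq_le_sq_mul_sq (Icc 1 (X ^ j))
    (fun m : ℕ => (m.divisors.card : ℝ) ^ j) (fun m : ℕ => mn X (γ * m))
  have h2 : ∑ m ∈ Icc 1 (X ^ j), ((m.divisors.card : ℝ) ^ j) ^ 2 ≤
      (X : ℝ) ^ j * (1 + j * Real.log X) ^ (2 ^ (2 * j)) := by
    have h3 := sum_tau_pow (2 * j) (X ^ j)
    push_cast at h3
    rw [Real.log_pow] at h3
    refine le_trans (le_of_eq ?_) h3
    refine Finset.sum_congr rfl (fun m _ => ?_)
    rw [← pow_mul]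
    congr 1
    ring
  have h4 : ∑ m ∈ Icc 1 (X ^ j), mn X (γ * m) ^ 2 ≤
      X * ∑ m ∈ Icc 1 (X ^ j), mn X (γ * m) := by
    rw [Finset.mul_sum]
    refine Finset.sum_le_sum (fun m _ => ?_)
    have := mn_le_left hX0 (γ * m)
    have h0 := mn_nonneg hX0 (γ * m)
    nlinarith
  refine h1.trans ?_
  refine mul_le_mul h2 h4 (Finset.sum_nonneg (fun m _ => sq_nonneg _)) ?_
  have hlog : 0 ≤ Real.log X := Real.log_natCast_nonneg X
  positivity

theorem weyl_log (P : Polynomial ℤ) (hd : 2 ≤ P.natDegree) : ∃ C : ℝ, ∃ k : ℕ, 0 < C ∧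
    ∀ (X q : ℕ) (a : ℤ) (α : ℝ), 3 ≤ X → 1 ≤ q → q ≤ X ^ P.natDegree → IsCoprime a (q : ℤ) →
    |α - a / q| ≤ 1 / (q : ℝ) ^ 2 →
    ‖∑ n ∈ Icc 1 X, ex (α * (P.eval (n : ℤ) : ℤ))‖ ^ (2 ^ P.natDegree) ≤
      C * (X : ℝ) ^ (2 ^ P.natDegree) * (1 / q + 1 / X + q / (X : ℝ) ^ P.natDegree) *
        Real.log X ^ k := by
  obtain ⟨C0, hC0, hsum⟩ := sum_mn_const
  obtain ⟨j, hj⟩ : ∃ j : ℕ, P.natDegree = j + 1 := ⟨P.natDegree - 1, by omega⟩
  have hj1 : 1 ≤ j := by omega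
  have ha0 : P.coeff (j + 1) ≠ 0 := by
    rw [← hj]
    have hP : P ≠ 0 := by
      intro h
      rw [h] at hd
      simp at hd
    exact Polynomial.leadingCoeff_ne_zero.mpr hP
  set c : ℤ := (j + 1).factorial * P.coeff (j + 1) with hc
  have hc0 : c ≠ 0 := mul_ne_zero (by exact_mod_cast (Nat.factorial_ne_zero _)) ha0
  have hcn : (1 : ℝ) ≤ (c.natAbs : ℝ) := by exact_mod_cast Int.natAbs_pos.mpr hc0
  set e : ℕ := 2 ^ j - j - 1 with he
  have hje : e + j + 1 = 2 ^ j := by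
    have := Nat.lt_two_pow_self (n := j)
    omega
  set K1 : ℝ := (j + 1) ^ (2 ^ (2 * j)) * (2 * C0 * (j + 2) * c.natAbs) with hK1
  have hK1pos : 0 < K1 := by positivity
  refine ⟨(2 ^ e) ^ 2 * (2 * (j * 2 ^ (j - 1)) ^ 2 + 2 * (2 ^ j) ^ 2 * K1), 2 ^ (2 * j) + 1,
    by positivity, ?_⟩
  intro X q a α hX hq hqX hcop hα
  rw [hj] at hqX ⊢
  have hX0 : (0 : ℝ) < X := by
    have : 0 < X := by omega
    exact_mod_cast this
  have hX1 : (1 : ℝ) ≤ X := by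
    have : 1 ≤ X := by omega
    exact_mod_cast this
  have hq0 : (0 : ℝ) < q := by exact_mod_cast hq
  set L : ℝ := Real.log X with hL
  have hL1 : 1 ≤ L := by
    rw [hL, Real.le_log_iff_exp_le hX0]
    have h3 : (3 : ℝ) ≤ X := by exact_mod_cast hX
    have := Real.exp_one_lt_d9
    linarith
  set R : ℝ := 1 / q + 1 / X + q / (X : ℝ) ^ (j + 1) with hR
  have hR0 : 0 < R := by positivity
  -- the differencing
  set φ : Polynomial ℝ := Polynomial.C α * P.map (Int.castRingHom ℝ) with hφ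
  have hφdeg : φ.natDegree ≤ j + 1 := by
    rw [hφ]
    refine (Polynomial.natDegree_C_mul_le _ _).trans ?_
    rw [← hj]
    exact Polynomial.natDegree_map_le
  have hφc : φ.coeff (j + 1) = α * P.coeff (j + 1) := by
    rw [hφ, Polynomial.coeff_C_mul, Polynomial.coeff_map]
    simp
  have hφe : ∀ n : ℕ, φ.eval (n : ℝ) = α * (P.eval (n : ℤ) : ℤ) := by
    intro n
    rw [hφ, Polynomial.eval_mul, Polynomial.eval_C]
    congr 1
    have : ((n : ℕ) : ℝ) = (Int.castRingHom ℝ) (n : ℤ) := by simp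
    rw [this, Polynomial.eval_map_apply]
    simp
  set S : ℝ := ‖∑ n ∈ Icc 1 X, ex (α * (P.eval (n : ℤ) : ℤ))‖ with hS
  have hS0 : 0 ≤ S := norm_nonneg _
  have h1 := weyl_diff j X φ 0 X (by omega) hφdeg (Nat.zero_le _) (by omega)
  have hIoc : Ioc 0 X = Icc 1 X := by
    ext m
    rw [Finset.mem_Ioc, Finset.mem_Icc]
    omega
  rw [hIoc, Finset.sum_congr rfl (fun n _ => by rw [hφe n])] at h1
  rw [← hS, hφc] at h1
  have h2 := prod_count j X hj1 (by omega) ((j + 1).factorial * (α * P.coeff (j + 1)))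
  set W : ℝ := ∑ m ∈ Icc 1 (X ^ j), (m.divisors.card : ℝ) ^ j *
    mn X ((j + 1).factorial * (α * P.coeff (j + 1)) * m) with hW
  have hW0 : 0 ≤ W := Finset.sum_nonneg (fun m _ => mul_nonneg (by positivity) (mn_nonneg hX0.le _))
  have h3 : S ^ (2 ^ j) ≤ (2 * (X : ℝ)) ^ e * (j * (2 * (X : ℝ)) ^ (j - 1) * X + 2 ^ j * W) :=
    h1.trans (mul_le_mul_of_nonneg_left h2 (by positivity))
  -- the sum W
  have h4 : W ^ 2 ≤ K1 * X ^ (2 * j + 2) * R * L ^ (2 ^ (2 * j) + 1) := by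
    have h5 := wl_cs j X ((j + 1).factorial * (α * P.coeff (j + 1)))
    rw [← hW, ← hL] at h5
    have hγ : ((j + 1).factorial : ℝ) * (α * P.coeff (j + 1)) = α * (c : ℝ) := by
      rw [hc]
      push_cast
      ring
    rw [hγ] at h5
    have h6 := wl_scale X α hX0.le c hc0 (X ^ j)
    have h7 := hsum q (c.natAbs * X ^ j) a α X hq hcop hα hX0.le
    have hlog2q : Real.log (2 * q) ≤ (j + 2) * L := by
      have hq' : (q : ℝ) ≤ X ^ (j + 1) := by exact_mod_cast hqX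
      have h2X : (2 : ℝ) ≤ X := by
        have : 2 ≤ X := by omega
        exact_mod_cast this
      have h8 : (2 : ℝ) * q ≤ X ^ (j + 2) := by
        calc (2 : ℝ) * q ≤ X * X ^ (j + 1) := mul_le_mul h2X hq' hq0.le hX0.le
          _ = X ^ (j + 2) := by ring
      have h9 := Real.log_le_log (by positivity) h8
      rw [Real.log_pow] at h9
      push_cast at h9
      exact h9
    have h10 : C0 * (((c.natAbs * X ^ j : ℕ) : ℝ) / q + 1) * (X + q * Real.log (2 * q)) ≤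
        2 * C0 * (j + 2) * c.natAbs * (L * (X ^ (j + 1) * R)) := by
      have h11 : ((c.natAbs * X ^ j : ℕ) : ℝ) / q + 1 ≤ c.natAbs * ((X : ℝ) ^ j / q + 1) := by
        push_cast
        have : (c.natAbs : ℝ) * X ^ j / q = c.natAbs * ((X : ℝ) ^ j / q) := by ring
        rw [this]
        nlinarith
      have hjL : (1 : ℝ) ≤ (j + 2) * L := by
        have : (0 : ℝ) ≤ j := Nat.cast_nonneg j
        nlinarith
      have h12 : (X : ℝ) + q * Real.log (2 * q) ≤ (j + 2) * L * (X + q) := by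
        have : (q : ℝ) * Real.log (2 * q) ≤ q * ((j + 2) * L) :=
          mul_le_mul_of_nonneg_left hlog2q hq0.le
        nlinarith
      have h13 : ((X : ℝ) ^ j / q + 1) * (X + q) ≤ 2 * (X ^ (j + 1) * R) := by
        have e1 : ((X : ℝ) ^ j / q + 1) * (X + q) = X ^ (j + 1) / q + X ^ j + X + q := by
          field_simp
          ring
        have e2 : (X : ℝ) ^ (j + 1) * R = X ^ (j + 1) / q + X ^ j + q := by
          rw [hR]
          field_simp
          ring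
        have e3 : (X : ℝ) ≤ X ^ j := by
          calc (X : ℝ) = X ^ 1 := (pow_one _).symm
            _ ≤ X ^ j := pow_le_pow_right₀ hX1 hj1
        rw [e1, e2]
        have e4 : 0 ≤ (X : ℝ) ^ (j + 1) / q := by positivity
        have e5 : 0 ≤ (X : ℝ) ^ j := by positivity
        linarith
      calc C0 * (((c.natAbs * X ^ j : ℕ) : ℝ) / q + 1) * (X + q * Real.log (2 * q))
          ≤ C0 * (c.natAbs * ((X : ℝ) ^ j / q + 1)) * ((j + 2) * L * (X + q)) := by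
            have hlog0 : 0 ≤ Real.log (2 * (q : ℝ)) := by
              apply Real.log_nonneg
              have : (1 : ℝ) ≤ q := by exact_mod_cast hq
              linarith
            have : 0 ≤ (X : ℝ) + q * Real.log (2 * q) := by positivity
            exact mul_le_mul (mul_le_mul_of_nonneg_left h11 hC0.le) h12 this (by positivity)
        _ = C0 * c.natAbs * ((j + 2) * L) * (((X : ℝ) ^ j / q + 1) * (X + q)) := by ring
        _ ≤ C0 * c.natAbs * ((j + 2) * L) * (2 * (X ^ (j + 1) * R)) :=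
            mul_le_mul_of_nonneg_left h13 (by positivity)
        _ = 2 * C0 * (j + 2) * c.natAbs * (L * (X ^ (j + 1) * R)) := by ring
    have h14 : (1 + j * L) ^ (2 ^ (2 * j)) ≤ (j + 1) ^ (2 ^ (2 * j)) * L ^ (2 ^ (2 * j)) := by
      rw [← mul_pow]
      refine pow_le_pow_left₀ (by positivity) ?_ _
      nlinarith
    calc W ^ 2 ≤ _ := h5
      _ ≤ ((X : ℝ) ^ j * ((j + 1) ^ (2 ^ (2 * j)) * L ^ (2 ^ (2 * j)))) *
          (X * (2 * C0 * (j + 2) * c.natAbs * (L * (X ^ (j + 1) * R)))) := by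
        refine mul_le_mul (mul_le_mul_of_nonneg_left h14 (by positivity))
          (mul_le_mul_of_nonneg_left (h6.trans (h7.trans h10)) hX0.le) ?_ (by positivity)
        refine mul_nonneg hX0.le (Finset.sum_nonneg (fun m _ => mn_nonneg hX0.le _))
      _ = K1 * X ^ (2 * j + 2) * R * L ^ (2 ^ (2 * j) + 1) := by
        rw [hK1]
        ring
  have hRX : 1 ≤ X * R := by
    rw [hR]
    have : (X : ℝ) * (1 / q + 1 / X + q / (X : ℝ) ^ (j + 1)) =
      X / q + 1 + X * (q / (X : ℝ) ^ (j + 1)) := by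
      field_simp
    rw [this]
    have h1 : 0 ≤ (X : ℝ) / q := by positivity
    have h2 : 0 ≤ (X : ℝ) * (q / (X : ℝ) ^ (j + 1)) := by positivity
    linarith
  have hLk : 1 ≤ L ^ (2 ^ (2 * j) + 1) := one_le_pow₀ hL1
  have h5 : (j * (2 * (X : ℝ)) ^ (j - 1) * X) ^ 2 ≤
      (j * 2 ^ (j - 1)) ^ 2 * X ^ (2 * j + 2) * R * L ^ (2 ^ (2 * j) + 1) := by
    have e1 : (j * (2 * (X : ℝ)) ^ (j - 1) * X) ^ 2 = (j * 2 ^ (j - 1)) ^ 2 * X ^ (2 * j) := by
      have : (X : ℝ) ^ (2 * j) = (X ^ (j - 1) * X) ^ 2 := by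
        rw [← pow_succ, ← pow_mul]
        congr 1
        omega
      rw [this, mul_pow 2 (X : ℝ)]
      ring
    rw [e1]
    have e2 : (X : ℝ) ^ (2 * j) ≤ X ^ (2 * j + 2) * R * L ^ (2 ^ (2 * j) + 1) := by
      have e3 : (1 : ℝ) ≤ X * (X * R) * L ^ (2 ^ (2 * j) + 1) := by
        have e4 : 1 ≤ X * (X * R) := one_le_mul_of_one_le_of_one_le hX1 hRX
        exact one_le_mul_of_one_le_of_one_le e4 hLk
      calc (X : ℝ) ^ (2 * j) = X ^ (2 * j) * 1 := (mul_one _).symm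
        _ ≤ X ^ (2 * j) * (X * (X * R) * L ^ (2 ^ (2 * j) + 1)) :=
          mul_le_mul_of_nonneg_left e3 (by positivity)
        _ = _ := by ring
    calc (j * 2 ^ (j - 1) : ℝ) ^ 2 * X ^ (2 * j) ≤ (j * 2 ^ (j - 1)) ^ 2 *
          (X ^ (2 * j + 2) * R * L ^ (2 ^ (2 * j) + 1)) :=
          mul_le_mul_of_nonneg_left e2 (by positivity)
      _ = _ := by ring
  have h6 : (j * (2 * (X : ℝ)) ^ (j - 1) * X + 2 ^ j * W) ^ 2 ≤
      (2 * (j * 2 ^ (j - 1)) ^ 2 + 2 * (2 ^ j) ^ 2 * K1) * (X ^ (2 * j + 2) * R *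
        L ^ (2 ^ (2 * j) + 1)) := by
    have h7 : (j * (2 * (X : ℝ)) ^ (j - 1) * X + 2 ^ j * W) ^ 2 ≤
        2 * (j * (2 * (X : ℝ)) ^ (j - 1) * X) ^ 2 + 2 * ((2 ^ j) ^ 2 * W ^ 2) := by
      nlinarith [sq_nonneg (j * (2 * (X : ℝ)) ^ (j - 1) * X - 2 ^ j * W)]
    have h8 : ((2 : ℝ) ^ j) ^ 2 * W ^ 2 ≤ (2 ^ j) ^ 2 * (K1 * X ^ (2 * j + 2) * R *
        L ^ (2 ^ (2 * j) + 1)) := mul_le_mul_of_nonneg_left h4 (by positivity)
    calc _ ≤ _ := h7
      _ ≤ 2 * ((j * 2 ^ (j - 1)) ^ 2 * X ^ (2 * j + 2) * R * L ^ (2 ^ (2 * j) + 1)) +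
          2 * ((2 ^ j) ^ 2 * (K1 * X ^ (2 * j + 2) * R * L ^ (2 ^ (2 * j) + 1))) := by
        linarith
      _ = _ := by ring
  calc S ^ (2 ^ (j + 1)) = (S ^ (2 ^ j)) ^ 2 := by
        rw [← pow_mul, pow_succ 2 j]
    _ ≤ ((2 * (X : ℝ)) ^ e * (j * (2 * (X : ℝ)) ^ (j - 1) * X + 2 ^ j * W)) ^ 2 :=
        pow_le_pow_left₀ (by positivity) h3 2
    _ = ((2 * (X : ℝ)) ^ e) ^ 2 * (j * (2 * (X : ℝ)) ^ (j - 1) * X + 2 ^ j * W) ^ 2 := by
        rw [mul_pow]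
    _ ≤ ((2 * (X : ℝ)) ^ e) ^ 2 * ((2 * (j * 2 ^ (j - 1)) ^ 2 + 2 * (2 ^ j) ^ 2 * K1) *
          (X ^ (2 * j + 2) * R * L ^ (2 ^ (2 * j) + 1))) :=
        mul_le_mul_of_nonneg_left h6 (by positivity)
    _ = (2 ^ e) ^ 2 * (2 * (j * 2 ^ (j - 1)) ^ 2 + 2 * (2 ^ j) ^ 2 * K1) *
          ((X ^ e) ^ 2 * X ^ (2 * j + 2)) * R * L ^ (2 ^ (2 * j) + 1) := by
        rw [mul_pow 2 (X : ℝ) e, mul_pow]
        ring
    _ = _ := by
        have e1 : ((X : ℝ) ^ e) ^ 2 * X ^ (2 * j + 2) = X ^ (2 ^ (j + 1)) := by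
          rw [← pow_mul, ← pow_add]
          congr 1
          rw [pow_succ 2 j, ← hje]
          ring
        rw [e1]

end Pool.Agent.HLT
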